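import Pool.Agent.H87.EP.F
import Pool.Agent.H87.EP.H

/-! The two-point functional: definitions. -/

set_option autoImplicit false

open Set Filter Topology MeasureTheory
open scoped ContDiff

namespace Pool.Agent.H88.EP

open Pool.Agent.H16 Pool.Agent.H72.CC Pool.Agent.H87.EP
open Pool.Agent.H87.NS hiding c1
open Pool.Agent.H16.TU hiding Sl
open Pool.Agent.H94.EP

/-- Difference of the end points `x + h e₂`, `x`. -/
noncomputable def dif (h : ℝ) (g : E3 → ℝ) (x : E3) : ℝ := g (sh2 h x) - g x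

/-- Mean of the end points. -/
noncomputable def mid (h : ℝ) (g : E3 → ℝ) (x : E3) : ℝ := (g (sh2 h x) + g x) / 2

/-- Mean over the segment. -/
noncomputable def sav (h : ℝ) (g : E3 → ℝ) (x : E3) : ℝ := ∫ s in (0 : ℝ)..1, g (sh2 (s * h) x)

/-- `min (1, κ r)`. -/
noncomputable def be (κ : ℝ) (x : E3) : ℝ := min 1 (κ * rad x)

/-- Indicator of the zone where the cutoff `c2` varies. -/
noncomputable def ou (x : E3) : ℝ := {x : E3 | 1 / 16 ≤ rsq x ∧ rsq x ≤ 1 / 8}.indicator (fun _ => (1 : ℝ)) x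

/-- The horizontal part of `kx`. -/
noncomputable def k0 (s : ℝ) (x : E3) : ℝ := (rsq x / 2) ^ s * c2 x ^ 4

/-- The term of `rdr (kx s)` with the derivative of the cutoff. -/
noncomputable def kc (s L a h : ℝ) (x : E3) : ℝ := (rsq x / 2) ^ s * rdr (fun y => c2 y ^ 4) x * ph L a (x 2 + h / 2)

/-- The vertical component. -/
noncomputable def uz (v : E3 → E3) (x : E3) : ℝ := v x 2

/-- `r ∂_r W`. -/
noncomputable def Rw (v : E3 → E3) : E3 → ℝ := rdr (sW v)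

theorem kx_k0 (s L a h : ℝ) (x : E3) : kx s L a h x = k0 s x * ph L a (x 2 + h / 2) := rfl

theorem fh_dif (h : ℝ) (v : E3 → E3) : fh h v = dif h (sV v) := rfl

/-! The integrands, as functions of `h` and `x`. -/

/-- Dissipation. -/
noncomputable def G1 (θ L a : ℝ) (v : E3 → E3) (h : ℝ) (x : E3) : ℝ := kx θ L a h x * gsq (fh h v) x

/-- Gain. -/
noncomputable def G2 (θ L a : ℝ) (v : E3 → E3) (h : ℝ) (x : E3) : ℝ := kx (θ - 1) L a h x * fh h v x ^ 2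

noncomputable def I0 (θ κ L a : ℝ) (v : E3 → E3) (h : ℝ) (x : E3) : ℝ :=
  kx (θ - 1) L a h x * be κ x ^ 2 * (mid h (sW v) x - sav h (sW v) x) ^ 2

noncomputable def I1 (θ κ L a : ℝ) (v : E3 → E3) (h : ℝ) (x : E3) : ℝ := kx (θ - 1) L a h x * be κ x ^ 2 * dif h (sW v) x ^ 2

noncomputable def I2 (θ L a : ℝ) (v : E3 → E3) (h : ℝ) (x : E3) : ℝ := kx (θ - 1) L a h x * dif h (Rw v) x ^ 2

noncomputable def I3 (θ L a : ℝ) (v : E3 → E3) (h : ℝ) (x : E3) : ℝ :=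
  kx θ L a h x * fh h v x ^ 2 * (|mid h (Rw v) x| + |sav h (Rw v) x|)

noncomputable def I4 (L a : ℝ) (v : E3 → E3) (h : ℝ) (x : E3) : ℝ :=
  ou x * ph L a (x 2 + h / 2) * (fh h v x ^ 2 * (1 + |mid h (sW v) x|) + dif h (sW v) x ^ 2)

noncomputable def I5 (θ L a : ℝ) (v : E3 → E3) (h : ℝ) (x : E3) : ℝ := kx θ L a h x * fh h v x ^ 2 * |mid h (uz v) x|

noncomputable def I6 (θ L a : ℝ) (v : E3 → E3) (h : ℝ) (x : E3) : ℝ := kx θ L a h x * fh h v x ^ 2

noncomputable def I7 (θ κ L a : ℝ) (v : E3 → E3) (h : ℝ) (x : E3) : ℝ :=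
  kx (θ - 1) L a h x * be κ x ^ 2 * (sav h (sW v) x ^ 2 + sav h (Rw v) x ^ 2)

/-- The zone of the derivative of `zh`. -/
noncomputable def hz1 (h : ℝ) : ℝ := {h : ℝ | 1 / 16 ≤ |h| ∧ |h| ≤ 1 / 8}.indicator (fun _ => (1 : ℝ)) h

/-- The integral over `h` and `x`. -/
noncomputable def Th (θ : ℝ) (F : ℝ → E3 → ℝ) : ℝ := ∫ h, kh θ h * ∫ x, F h x

/-- The dominating weight. -/
noncomputable def wr (θ L a : ℝ) (x : E3) : ℝ := {x : E3 | rsq x < 1}.indicator (fun x => (rsq x / 2) ^ (θ - 1) * ph L a (x 2)) x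

/-- Admissible integrands. -/
structure Adm (θ L a : ℝ) (F : ℝ → E3 → ℝ) : Prop where
  meas : Measurable (fun q : ℝ × E3 => F q.1 q.2)
  bd : ∃ B : ℝ, ∀ h, |h| ≤ 1 → ∀ x, 0 < rsq x → |F h x| ≤ B * (h ^ 2 * wr θ L a x)

end Pool.Agent.H88.EP
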