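/-
ROW TwA (MP_09540e_EP). Shifts and averages along the axis. Aux lemmas prefixed TwA_. PROOF.
sh2_f: `sh2 h x = x + h • e 2`, components of `e 2` (simp [sh2, e], as for Avk_e_two / sh in other files). sh2_rot: `rot θ` is linear and `rot θ (e 2) = e 2` (rotL). sh2_mp: translation (measurePreserving_add_right). sh2_sm: `(h, x) ↦ x + h • e 2` is smooth.
pd_sh: `fderiv_comp_add_right`. rdr_sh: rdr uses x 0, x 1, unchanged. dif_sav: `d/ds g (sh2 (s h) x) = h pd 2 g (sh2 (s h) x)` (chain rule), FTC `intervalIntegral.integral_eq_sub_of_hasDerivAt` on [0,1], `sh2 0 x = x`.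
sav_sq: Cauchy-Schwarz / Jensen on [0,1]: `0 ≤ ∫₀¹ (g - m)²`, `m = ∫₀¹ g`, gives `m² ≤ ∫₀¹ g²`. sav_sq4: twice. sav_mono, sav_nn: monotonicity of the interval integral (continuous integrands).
tr_sav: with `φ s = g (sh2 (s h) x)` (C²): `(φ 0 + φ 1)/2 - ∫₀¹ φ = ∫₀¹ (s - 1/2) φ'(s) ds` (parts) `= ∫₀¹ (s (1 - s)/2) φ''(s) ds` (parts again), `φ'' = h² pd 2 (pd 2 g)`, `0 ≤ s(1-s)/2 ≤ 1`, then Cauchy-Schwarz (sav_sq type).
tr_sav0: `(p - q)² ≤ 2 p² + 2 q²`, `mid² ≤ (g'² + g²)/2`, sav_sq. sav_cont: parametric interval integral of a jointly continuous function (`intervalIntegral.continuous_parametric_intervalIntegral_of_continuous'` or as in Avk_cont).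
sav_ri, dif_ri, mid_ri: the shift is in Ri: smooth, sh2_rot, `DB n B (g ∘ sh2 h)` by induction on n with pd_sh, BL by translation invariance of the integral. sav: smooth: `avk_smooth` pattern (ContDiff of a parametric integral, H72/GS/ParamInt.lean, used in Avk.lean);
pd i (sav h g) = sav h (pd i g) (Avk_fderiv pattern); bounds `|sav h g| ≤ K`; `∫ (sav h g)² ≤ ∫ g²` (sav_sq, Tonelli, translation). dh_sav: dh_uniq with `sav h (dh g)`: `rdr (sav h g) x = sav h (rdr g) x = sav h (fun y => rsq y * dh g y) x = rsq x * sav h (dh g) x` as rsq is constant on the segment; dh_dif, dh_mid similarly.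
uz_sav: `dif h (uz v) = h * sav h (pd 2 (uz v))`, `pd 2 (uz v) = - (2 W + rsq dh W) = - (2 W + Rw v)` (v2_pd2, rdr_eq), linearity of sav. Rw_ri: `Rw v = - pd 2 (uz v) - 2 sW v` pointwise (v2_pd2, rdr_eq), Ri.pd2, Ri.add, Ri.smul. rdr_pd2: `rdr (pd 2 g) = pd 2 (rdr g)` (product rule, x 0, x 1 do not depend on x 2, symmetry of second derivatives), `≤`: rdr g² ≤ rsq * gsq g (Cauchy-Schwarz).
-/
import Pool.Agent.H88.EP.TwD

set_option autoImplicit false

open Set Filter Topology MeasureTheory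
open scoped ContDiff

namespace Pool.Agent.H88.EP

open Pool.Agent.H16 Pool.Agent.H72.CC Pool.Agent.H87.EP
open Pool.Agent.H87.NS hiding c1
open Pool.Agent.H16.TU hiding Sl
open Pool.Agent.H94.EP

theorem TwA_e0 : (e 2 : E3) 0 = 0 := by
  unfold e
  rw [PiLp.single_apply, if_neg (by decide)]

theorem TwA_e1 : (e 2 : E3) 1 = 0 := by
  unfold e
  rw [PiLp.single_apply, if_neg (by decide)]

theorem TwA_e2 : (e 2 : E3) 2 = 1 := by
  unfold e
  rw [PiLp.single_apply, if_pos rfl]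

theorem TwA_i (h : ℝ) (x : E3) (i : Fin 3) : sh2 h x i = x i + h * (e 2 : E3) i := rfl

theorem sh2_f (h : ℝ) (x : E3) : sh2 h x 0 = x 0 ∧ sh2 h x 1 = x 1 ∧ sh2 h x 2 = x 2 + h ∧ rsq (sh2 h x) = rsq x ∧ rad (sh2 h x) = rad x ∧ sh2 0 x = x := by
  have h0 : sh2 h x 0 = x 0 := by rw [TwA_i, TwA_e0, mul_zero, add_zero]
  have h1 : sh2 h x 1 = x 1 := by rw [TwA_i, TwA_e1, mul_zero, add_zero]
  have h2 : sh2 h x 2 = x 2 + h := by rw [TwA_i, TwA_e2, mul_one]
  refine ⟨h0, h1, h2, ?_, ?_, ?_⟩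
  · unfold rsq
    rw [h0, h1]
  · unfold rad
    rw [h0, h1]
  · unfold sh2
    rw [zero_smul, add_zero]

theorem sh2_rot (θ h : ℝ) (x : E3) : sh2 h (rot θ x) = rot θ (sh2 h x) := by
  obtain ⟨a0, a1, a2, -, -, -⟩ := sh2_f h x
  obtain ⟨b0, b1, b2, -, -, -⟩ := sh2_f h (rot θ x)
  apply ext3
  · rw [b0, rot_zero', rot_zero', a0, a1]
  · rw [b1, rot_one', rot_one', a0, a1]
  · rw [b2, rot_two', rot_two', a2]

theorem sh2_mp (h : ℝ) : MeasurePreserving (sh2 h) :=
  measurePreserving_add_right volume (h • e 2)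

theorem sh2_sm : ContDiff ℝ ∞ (fun q : ℝ × E3 => sh2 q.1 q.2) :=
  contDiff_snd.add (contDiff_fst.smul contDiff_const)

theorem pd_sh (i : Fin 3) (g : E3 → ℝ) (h : ℝ) (x : E3) : pd i (fun y => g (sh2 h y)) x = pd i g (sh2 h x) ∧
    rdr (fun y => g (sh2 h y)) x = rdr g (sh2 h x) ∧ gsq (fun y => g (sh2 h y)) x = gsq g (sh2 h x) := by
  have hp : ∀ i, pd i (fun y => g (sh2 h y)) x = pd i g (sh2 h x) := by
    intro i
    unfold pd sh2
    rw [fderiv_comp_add_right]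
  obtain ⟨a0, a1, -, -, -, -⟩ := sh2_f h x
  refine ⟨hp i, ?_, ?_⟩
  · unfold rdr
    rw [hp, hp, a0, a1]
  · unfold gsq
    exact Finset.sum_congr rfl fun j _ => by rw [hp]

/-! Lines. -/

theorem TwA_sm (h : ℝ) : ContDiff ℝ ∞ (fun q : E3 × ℝ => sh2 (q.2 * h) q.1) :=
  contDiff_fst.add ((contDiff_snd.mul contDiff_const).smul contDiff_const)

theorem TwA_c3 : Continuous (fun q : (ℝ × E3) × ℝ => sh2 (q.2 * q.1.1) q.1.2) := by
  unfold sh2
  fun_prop

theorem TwA_ln {g : E3 → ℝ} (hg : Continuous g) (h : ℝ) (x : E3) : Continuous fun s : ℝ => g (sh2 (s * h) x) := by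
  refine hg.comp ?_
  unfold sh2
  fun_prop

theorem TwA_dl {g : E3 → ℝ} (hg : Differentiable ℝ g) (h : ℝ) (x : E3) (s : ℝ) :
    HasDerivAt (fun s : ℝ => g (sh2 (s * h) x)) (h * pd 2 g (sh2 (s * h) x)) s := by
  have h1 : HasDerivAt (fun s : ℝ => sh2 (s * h) x) (h • e 2) s := by
    have h2 : HasDerivAt (fun s : ℝ => s * h) h s := by
      simpa using (hasDerivAt_id s).mul_const h
    exact (h2.smul_const (e 2)).const_add x
  have h3 := (hg (sh2 (s * h) x)).hasFDerivAt.comp_hasDerivAt s h1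
  rw [map_smul, smul_eq_mul] at h3
  exact h3

theorem TwA_end (g : E3 → ℝ) (h : ℝ) (x : E3) : g (sh2 (1 * h) x) = g (sh2 h x) ∧ g (sh2 (0 * h) x) = g x := by
  rw [one_mul, zero_mul, (sh2_f 0 x).2.2.2.2.2]
  exact ⟨rfl, rfl⟩

theorem TwA_pd1 {g : E3 → ℝ} {n : ℕ} (hg : ContDiff ℝ (n + 1) g) (i : Fin 3) : ContDiff ℝ n (pd i g) :=
  (hg.fderiv_right le_rfl).clm_apply contDiff_const

theorem dif_sav {g : E3 → ℝ} (hg : ContDiff ℝ 1 g) (h : ℝ) (x : E3) : dif h g x = h * sav h (pd 2 g) x := by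
  have h1 : Continuous (pd 2 g) := pd_cont hg 2
  have h2 : ∫ s in (0 : ℝ)..1, h * pd 2 g (sh2 (s * h) x) = g (sh2 (1 * h) x) - g (sh2 (0 * h) x) :=
    intervalIntegral.integral_eq_sub_of_hasDerivAt
      (f := fun s : ℝ => g (sh2 (s * h) x)) (fun s _ => TwA_dl (hg.differentiable (by simp)) h x s)
      ((continuous_const.mul (TwA_ln h1 h x)).intervalIntegrable _ _)
  unfold dif sav
  rw [← intervalIntegral.integral_const_mul, h2, (TwA_end g h x).1, (TwA_end g h x).2]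

theorem sav_sq {g : E3 → ℝ} (hg : Continuous g) (h : ℝ) (x : E3) : sav h g x ^ 2 ≤ sav h (fun y => g y ^ 2) x :=
  Avk_jensen (TwA_ln hg h x)

theorem sav_nn {g : E3 → ℝ} (h0 : ∀ x, 0 ≤ g x) (h : ℝ) (x : E3) : 0 ≤ sav h g x :=
  intervalIntegral.integral_nonneg zero_le_one fun _ _ => h0 _

theorem sav_sq4 {g : E3 → ℝ} (hg : Continuous g) (h : ℝ) (x : E3) : sav h g x ^ 4 ≤ sav h (fun y => g y ^ 4) x := by
  have h1 := sav_sq hg h x
  have h2 := sav_sq (g := fun y => g y ^ 2) (hg.pow 2) h x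
  have h3 : (fun y => (g y ^ 2) ^ 2) = fun y => g y ^ 4 := by
    funext y
    ring
  rw [h3] at h2
  calc sav h g x ^ 4 = (sav h g x ^ 2) ^ 2 := by ring
    _ ≤ sav h (fun y => g y ^ 2) x ^ 2 := pow_le_pow_left₀ (sq_nonneg _) h1 2
    _ ≤ _ := h2

theorem sav_mono {f g : E3 → ℝ} (hf : Continuous f) (hg : Continuous g) (h : ℝ) (x : E3) (hfg : ∀ s ∈ Icc (0 : ℝ) 1, f (sh2 (s * h) x) ≤ g (sh2 (s * h) x)) :
    sav h f x ≤ sav h g x :=
  intervalIntegral.integral_mono_on zero_le_one ((TwA_ln hf h x).intervalIntegrable _ _)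
    ((TwA_ln hg h x).intervalIntegrable _ _) hfg

theorem sav_bd {g : E3 → ℝ} (hg : Continuous g) {B : ℝ} (hB : ∀ x, |g x| ≤ B) (h : ℝ) (x : E3) : |sav h g x| ≤ B := by
  have h1 : ‖sav h g x‖ ≤ B * |1 - 0| :=
    intervalIntegral.norm_integral_le_of_norm_le_const fun s _ => hB _
  rw [sub_zero, abs_one, mul_one, Real.norm_eq_abs] at h1
  exact h1

theorem sav_add {f g : E3 → ℝ} (hf : Continuous f) (hg : Continuous g) (c d h : ℝ) (x : E3) :
    sav h (fun y => c * f y + d * g y) x = c * sav h f x + d * sav h g x := by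
  have i1 : IntervalIntegrable (fun s => c * f (sh2 (s * h) x)) volume 0 1 :=
    (continuous_const.mul (TwA_ln hf h x)).intervalIntegrable _ _
  have i2 : IntervalIntegrable (fun s => d * g (sh2 (s * h) x)) volume 0 1 :=
    (continuous_const.mul (TwA_ln hg h x)).intervalIntegrable _ _
  have h1 := intervalIntegral.integral_add i1 i2
  rw [intervalIntegral.integral_const_mul, intervalIntegral.integral_const_mul] at h1
  exact h1

/-- `rsq` is constant on the segment. -/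
theorem sav_rsq {g : E3 → ℝ} (F : ℝ → ℝ) (h : ℝ) (x : E3) : sav h (fun y => F (rsq y) * g y) x = F (rsq x) * sav h g x := by
  unfold sav
  rw [← intervalIntegral.integral_const_mul]
  refine intervalIntegral.integral_congr fun s _ => ?_
  simp only [(sh2_f (s * h) x).2.2.2.1]

theorem tr_sav {g : E3 → ℝ} (hg : ContDiff ℝ 2 g) (h : ℝ) (x : E3) :
    (mid h g x - sav h g x) ^ 2 ≤ h ^ 4 * sav h (fun y => pd 2 (pd 2 g) y ^ 2) x := by
  have g1 : ContDiff ℝ 1 (pd 2 g) := TwA_pd1 (n := 1) (by exact_mod_cast hg) 2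
  have g2 : Continuous (pd 2 (pd 2 g)) := pd_cont g1 2
  have c0 : Continuous fun s : ℝ => g (sh2 (s * h) x) := TwA_ln hg.continuous h x
  have c2 : Continuous fun s : ℝ => pd 2 (pd 2 g) (sh2 (s * h) x) := TwA_ln g2 h x
  have cw : Continuous fun s : ℝ => s * (1 - s) / 2 := by fun_prop
  have d0 := TwA_dl (hg.differentiable (by simp)) h x
  have d1 := TwA_dl (g1.differentiable (by simp)) h x
  have hd : ∀ s : ℝ, HasDerivAt
      (fun s : ℝ => (s - 1 / 2) * g (sh2 (s * h) x) + s * (1 - s) / 2 * (h * pd 2 g (sh2 (s * h) x)))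
      (g (sh2 (s * h) x) + h ^ 2 * (s * (1 - s) / 2 * pd 2 (pd 2 g) (sh2 (s * h) x))) s := by
    intro s
    have e1 : HasDerivAt (fun s : ℝ => s - 1 / 2) 1 s := (hasDerivAt_id s).sub_const _
    have e2 : HasDerivAt (fun s : ℝ => s * (1 - s) / 2) ((1 * (1 - s) + s * (-1)) / 2) s := by
      have e3 : HasDerivAt (fun s : ℝ => 1 - s) (-1) s := by
        simpa using (hasDerivAt_id s).const_sub 1
      exact ((hasDerivAt_id s).mul e3).div_const 2
    have e4 := (e1.mul (d0 s)).add (e2.mul ((d1 s).const_mul h))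
    refine e4.congr_deriv ?_
    ring
  have hI : ∫ s in (0 : ℝ)..1, (g (sh2 (s * h) x) + h ^ 2 * (s * (1 - s) / 2 * pd 2 (pd 2 g) (sh2 (s * h) x))) =
      mid h g x := by
    rw [intervalIntegral.integral_eq_sub_of_hasDerivAt (fun s _ => hd s)
      ((c0.add (continuous_const.mul (cw.mul c2))).intervalIntegrable _ _),
      (TwA_end g h x).1, (TwA_end g h x).2]
    unfold mid
    ring
  have i1 : IntervalIntegrable (fun s => g (sh2 (s * h) x)) volume 0 1 := c0.intervalIntegrable _ _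
  have i2 : IntervalIntegrable (fun s => h ^ 2 * (s * (1 - s) / 2 * pd 2 (pd 2 g) (sh2 (s * h) x))) volume 0 1 :=
    (continuous_const.mul (cw.mul c2)).intervalIntegrable _ _
  rw [intervalIntegral.integral_add i1 i2, intervalIntegral.integral_const_mul] at hI
  have h1 : mid h g x - sav h g x = h ^ 2 * ∫ s in (0 : ℝ)..1, s * (1 - s) / 2 * pd 2 (pd 2 g) (sh2 (s * h) x) := by
    rw [← hI]
    unfold sav
    ring
  have hj := Avk_jensen (g := fun s => s * (1 - s) / 2 * pd 2 (pd 2 g) (sh2 (s * h) x)) (cw.mul c2)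
  have e4 : (h ^ 2) ^ 2 = h ^ 4 := by ring
  rw [h1, mul_pow, e4]
  refine mul_le_mul_of_nonneg_left (hj.trans ?_) (by positivity)
  refine intervalIntegral.integral_mono_on zero_le_one (((cw.mul c2).pow 2).intervalIntegrable _ _)
    ((c2.pow 2).intervalIntegrable _ _) fun s hs => ?_
  show (s * (1 - s) / 2 * pd 2 (pd 2 g) (sh2 (s * h) x)) ^ 2 ≤ pd 2 (pd 2 g) (sh2 (s * h) x) ^ 2
  rw [mul_pow]
  have h2 : (s * (1 - s) / 2) ^ 2 ≤ 1 := by
    have h3 : 0 ≤ s * (1 - s) / 2 := by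
      have := mul_nonneg hs.1 (sub_nonneg.2 hs.2)
      linarith
    have h4 : s * (1 - s) / 2 ≤ 1 := by nlinarith only [hs.1, hs.2]
    exact pow_le_one₀ h3 h4
  calc (s * (1 - s) / 2) ^ 2 * pd 2 (pd 2 g) (sh2 (s * h) x) ^ 2 ≤ 1 * pd 2 (pd 2 g) (sh2 (s * h) x) ^ 2 :=
        mul_le_mul_of_nonneg_right h2 (sq_nonneg _)
    _ = _ := one_mul _

theorem tr_sav0 {g : E3 → ℝ} (hg : Continuous g) (h : ℝ) (x : E3) :
    (mid h g x - sav h g x) ^ 2 ≤ g (sh2 h x) ^ 2 + g x ^ 2 + 2 * sav h (fun y => g y ^ 2) x := by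
  have h1 := sav_sq hg h x
  unfold mid
  nlinarith [sq_nonneg (g (sh2 h x) - g x), sq_nonneg ((g (sh2 h x) + g x) / 2 + sav h g x)]

theorem sav_cont {g : E3 → ℝ} (hg : Continuous g) : Continuous (fun q : ℝ × E3 => sav q.1 g q.2) ∧
    Continuous (fun q : ℝ × E3 => mid q.1 g q.2) ∧ Continuous (fun q : ℝ × E3 => dif q.1 g q.2) := by
  have h1 : Continuous (fun q : ℝ × E3 => g (sh2 q.1 q.2)) := hg.comp sh2_sm.continuous
  have h2 : Continuous (fun q : ℝ × E3 => g q.2) := hg.comp continuous_snd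
  refine ⟨?_, (h1.add h2).div_const 2, h1.sub h2⟩
  exact intervalIntegral.continuous_parametric_intervalIntegral_of_continuous'
    (f := fun (q : ℝ × E3) s => g (sh2 (s * q.1) q.2)) (hg.comp TwA_c3) 0 1

theorem TwA_savc {g : E3 → ℝ} (hg : Continuous g) (h : ℝ) : Continuous (sav h g) :=
  (sav_cont hg).1.comp (by fun_prop : Continuous fun x : E3 => (h, x))

theorem TwA_shc {g : E3 → ℝ} (hg : Continuous g) (h : ℝ) : Continuous (fun y => g (sh2 h y)) :=
  hg.comp (sh2_sm.continuous.comp (by fun_prop : Continuous fun x : E3 => (h, x)))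

/-! Regularity. -/

theorem TwA_shBL {g : E3 → ℝ} {B : ℝ} (hb : BL B g) (h : ℝ) : BL B (fun x => g (sh2 h x)) := by
  refine ⟨fun x => hb.1 _, hb.2.1.comp_add_right (h • e 2), ?_⟩
  have h1 : ∫ x, g (sh2 h x) ^ 2 = ∫ x, g x ^ 2 :=
    integral_add_right_eq_self (fun x => g x ^ 2) (h • e 2)
  rw [h1]
  exact hb.2.2

theorem TwA_shDB (n : ℕ) (B : ℝ) (h : ℝ) : ∀ g : E3 → ℝ, DB n B g → DB n B (fun x => g (sh2 h x)) := by
  induction n with
  | zero => intro g hb; exact TwA_shBL hb h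
  | succ n ih =>
    intro g hb
    refine ⟨TwA_shBL hb.1 h, fun i => ?_⟩
    have h1 : pd i (fun x => g (sh2 h x)) = fun x => pd i g (sh2 h x) := by
      funext x
      exact (pd_sh i g h x).1
    rw [h1]
    exact ih (pd i g) (hb.2 i)

theorem TwA_F {g : E3 → ℝ} (hg : ContDiff ℝ ∞ g) (h : ℝ) : ContDiff ℝ ∞ (fun q : E3 × ℝ => g (sh2 (q.2 * h) q.1)) :=
  hg.comp (TwA_sm h)

theorem TwA_savsm {g : E3 → ℝ} (hg : ContDiff ℝ ∞ g) (h : ℝ) : ContDiff ℝ ∞ (sav h g) :=
  H72GS.contDiff_paramInt (TwA_F hg h) 0 1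

theorem TwA_savpd {g : E3 → ℝ} (hg : ContDiff ℝ ∞ g) (h : ℝ) (i : Fin 3) : pd i (sav h g) = sav h (pd i g) := by
  funext x
  have h1 := H72GS.fderiv_paramInt (TwA_F hg h) 0 1 x (e i)
  have h2 : pd i (sav h g) x = ∫ s in (0:ℝ)..1,
      fderiv ℝ (fun q : E3 × ℝ => g (sh2 (q.2 * h) q.1)) (x, s) (e i, 0) := h1
  rw [h2]
  unfold sav
  refine intervalIntegral.integral_congr fun s _ => ?_
  have hF : HasFDerivAt (fun q : E3 × ℝ => g (sh2 (q.2 * h) q.1))
      (fderiv ℝ (fun q : E3 × ℝ => g (sh2 (q.2 * h) q.1)) (x, s)) (x, s) :=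
    ((TwA_F hg h).differentiable (by simp) _).hasFDerivAt
  have hA : HasFDerivAt (fun y : E3 => g (sh2 (s * h) y))
      ((fderiv ℝ (fun q : E3 × ℝ => g (sh2 (q.2 * h) q.1)) (x, s)) ∘L
        ContinuousLinearMap.inl ℝ E3 ℝ) x :=
    HasFDerivAt.comp (g := fun q : E3 × ℝ => g (sh2 (q.2 * h) q.1)) (f := fun y : E3 => (y, s)) x hF
      (hasFDerivAt_prodMk_left (𝕜 := ℝ) x s)
  have hB := (pd_sh i g (s * h) x).1
  unfold pd at hB
  rw [hA.fderiv] at hB
  exact hB

theorem TwA_savBL {g : E3 → ℝ} (hg : Continuous g) {K : ℝ} (hb : BL K g) (h : ℝ) : BL K (sav h g) := by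
  have hK : 0 ≤ K := BL_nonneg hb
  obtain ⟨hb1, hint, hle⟩ := hb
  have hc : Continuous (sav h g) := TwA_savc hg h
  have hlint : ∫⁻ x, ENNReal.ofReal (sav h g x ^ 2) ≤ ENNReal.ofReal K := by
    calc ∫⁻ x, ENNReal.ofReal (sav h g x ^ 2)
        ≤ ∫⁻ x, ∫⁻ s in Ioc (0:ℝ) 1, ENNReal.ofReal (g (sh2 (s * h) x) ^ 2) := by
          refine lintegral_mono fun x => ?_
          have hcc : Continuous fun s : ℝ => g (sh2 (s * h) x) ^ 2 := (TwA_ln hg h x).pow 2
          rw [← ofReal_integral_eq_lintegral_ofReal (hcc.intervalIntegrable 0 1).1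
            (Eventually.of_forall fun s => sq_nonneg _), ← intervalIntegral.integral_of_le zero_le_one]
          exact ENNReal.ofReal_le_ofReal (sav_sq hg h x)
      _ = ∫⁻ s in Ioc (0:ℝ) 1, ∫⁻ x, ENNReal.ofReal (g (sh2 (s * h) x) ^ 2) := by
          refine lintegral_lintegral_swap ?_
          refine Measurable.aemeasurable ?_
          refine ENNReal.measurable_ofReal.comp (Continuous.measurable ?_)
          exact (hg.comp (TwA_sm h).continuous).pow 2
      _ = ∫⁻ s in Ioc (0:ℝ) 1, ∫⁻ x, ENNReal.ofReal (g x ^ 2) := by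
          refine setLIntegral_congr_fun measurableSet_Ioc fun s hs => ?_
          have hG : Measurable fun x : E3 => ENNReal.ofReal (g x ^ 2) :=
            ENNReal.measurable_ofReal.comp (hg.pow 2).measurable
          exact (sh2_mp (s * h)).lintegral_comp hG
      _ = ∫⁻ x, ENNReal.ofReal (g x ^ 2) := by
          rw [lintegral_const]
          simp
      _ = ENNReal.ofReal (∫ x, g x ^ 2) := by
          rw [ofReal_integral_eq_lintegral_ofReal hint (Eventually.of_forall fun x => sq_nonneg _)]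
      _ ≤ ENNReal.ofReal K := ENNReal.ofReal_le_ofReal hle
  have hnn : 0 ≤ᵐ[volume] fun x => sav h g x ^ 2 := Eventually.of_forall fun x => sq_nonneg _
  have hi : Integrable fun x => sav h g x ^ 2 := by
    refine ⟨(hc.pow 2).aestronglyMeasurable, ?_⟩
    rw [hasFiniteIntegral_iff_ofReal hnn]
    exact hlint.trans_lt ENNReal.ofReal_lt_top
  refine ⟨sav_bd hg hb1 h, hi, ?_⟩
  rw [← ofReal_integral_eq_lintegral_ofReal hi hnn] at hlint
  exact (ENNReal.ofReal_le_ofReal_iff hK).1 hlint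

theorem TwA_savDB (n : ℕ) (B : ℝ) (h : ℝ) : ∀ g : E3 → ℝ, ContDiff ℝ ∞ g → DB n B g → DB n B (sav h g) := by
  induction n with
  | zero => intro g hg hb; exact TwA_savBL hg.continuous hb h
  | succ n ih =>
    intro g hg hb
    refine ⟨TwA_savBL hg.continuous hb.1 h, fun i => ?_⟩
    rw [TwA_savpd hg h i]
    exact ih (pd i g) (pd_smooth hg i) (hb.2 i)

theorem TwA_sh {g : E3 → ℝ} (hg : Ri g) (h : ℝ) : Ri (fun x => g (sh2 h x)) := by
  refine ⟨hg.sm.comp (contDiff_id.add contDiff_const), fun θ x => ?_, fun n => ?_⟩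
  · show g (sh2 h (rot θ x)) = g (sh2 h x)
    rw [sh2_rot, hg.rot]
  · obtain ⟨B, hB⟩ := hg.db n
    exact ⟨B, TwA_shDB n B h g hB⟩

theorem TwA_dif (h : ℝ) (g : E3 → ℝ) : dif h g = fun x => 1 * (fun y => g (sh2 h y)) x + (-1) * g x := by
  funext x
  unfold dif
  ring

theorem TwA_mid (h : ℝ) (g : E3 → ℝ) : mid h g = fun x => (1 / 2) * (fun y => g (sh2 h y)) x + (1 / 2) * g x := by
  funext x
  unfold mid
  ring

theorem sh_ri {g : E3 → ℝ} (hg : Ri g) (h : ℝ) : Ri (fun x => g (sh2 h x)) ∧ Ri (dif h g) ∧ Ri (mid h g) ∧ Ri (sav h g) := by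
  have h1 := TwA_sh hg h
  refine ⟨h1, ?_, ?_, ?_⟩
  · rw [TwA_dif]
    exact (h1.smul 1).add (hg.smul (-1))
  · rw [TwA_mid]
    exact (h1.smul (1 / 2)).add (hg.smul (1 / 2))
  · refine ⟨TwA_savsm hg.sm h, fun θ x => ?_, fun n => ?_⟩
    · unfold sav
      refine intervalIntegral.integral_congr fun s _ => ?_
      show g (sh2 (s * h) (rot θ x)) = g (sh2 (s * h) x)
      rw [sh2_rot, hg.rot]
    · obtain ⟨B, hB⟩ := hg.db n
      exact ⟨B, TwA_savDB n B h g hg.sm hB⟩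

theorem dh_sav {g : E3 → ℝ} (hg : Ri g) (h : ℝ) (x : E3) : dh (sav h g) x = sav h (dh g) x ∧ dh (mid h g) x = mid h (dh g) x ∧
    dh (dif h g) x = dif h (dh g) x := by
  have hdc : Continuous (dh g) := hg.dh.sm.continuous
  have h1 : dh (fun y => g (sh2 h y)) = fun y => dh g (sh2 h y) := by
    refine dh_uniq (TwA_sh hg h) (TwA_shc hdc h) ?_
    intro y _
    rw [(pd_sh 0 g h y).2.1, rdr_eq hg, (sh2_f h y).2.2.2.1]
  have hc : Continuous (sav h (dh g)) := TwA_savc hdc h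
  refine ⟨?_, ?_, ?_⟩
  · have h2 : dh (sav h g) = sav h (dh g) := by
      refine dh_uniq (sh_ri hg h).2.2.2 hc ?_
      intro y _
      have e1 : rdr (sav h g) y = sav h (rdr g) y := by
        unfold rdr
        rw [TwA_savpd hg.sm, TwA_savpd hg.sm]
        unfold sav
        rw [← intervalIntegral.integral_const_mul, ← intervalIntegral.integral_const_mul,
          ← intervalIntegral.integral_add]
        · refine intervalIntegral.integral_congr fun s _ => ?_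
          simp only [(sh2_f (s * h) y).1, (sh2_f (s * h) y).2.1]
        · exact (continuous_const.mul (TwA_ln (pd_smooth hg.sm 0).continuous h y)).intervalIntegrable _ _
        · exact (continuous_const.mul (TwA_ln (pd_smooth hg.sm 1).continuous h y)).intervalIntegrable _ _
      have e2 : rdr g = fun z => (fun t => t) (rsq z) * dh g z := by
        funext z
        exact rdr_eq hg z
      rw [e1, e2]
      exact sav_rsq (g := dh g) (fun t => t) h y
    rw [h2]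
  · rw [TwA_mid, F_dh_lin (TwA_sh hg h) hg, h1, TwA_mid]
  · rw [TwA_dif, F_dh_lin (TwA_sh hg h) hg, h1, TwA_dif]

theorem Rw_ri {v : E3 → E3} (h : Vs v) : Ri (Rw v) ∧ (∀ x, Rw v x = rsq x * dh (sW v) x) ∧ Ri (uz v) ∧
    (∀ x, pd 2 (uz v) x = - (2 * sW v x + Rw v x)) := by
  obtain ⟨_, hW, _, _, h2⟩ := vs_ri h
  have e1 : ∀ x, Rw v x = rsq x * dh (sW v) x := fun x => rdr_eq hW x
  have e2 : Rw v = fun x => rsq x * dh (sW v) x := funext e1
  refine ⟨?_, e1, h2, fun x => ?_⟩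
  · rw [e2]
    exact (F_R h).1
  · rw [e1 x]
    exact v2_pd2 h x

theorem uz_sav {v : E3 → E3} (h : Vs v) (t : ℝ) (x : E3) : dif t (uz v) x = - t * (2 * sav t (sW v) x + sav t (Rw v) x) := by
  obtain ⟨hR, _, hu, hp⟩ := Rw_ri h
  have hW : Continuous (sW v) := (vs_ri h).2.1.sm.continuous
  have e1 : pd 2 (uz v) = fun y => (-2) * sW v y + (-1) * Rw v y := by
    funext y
    rw [hp y]
    ring
  rw [dif_sav (hu.sm.of_le (by exact_mod_cast le_top)), e1, sav_add hW hR.sm.continuous]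
  ring

theorem rdr_pd2 {g : E3 → ℝ} (hg : ContDiff ℝ ∞ g) (x : E3) : pd 2 (rdr g) x = rdr (pd 2 g) x ∧ rdr g x ^ 2 ≤ rsq x * gsq g x := by
  constructor
  · have hc : ∀ i : Fin 3, HasFDerivAt (fun y : E3 => y i) (EuclideanSpace.proj i : E3 →L[ℝ] ℝ) x :=
      fun i => (EuclideanSpace.proj i : E3 →L[ℝ] ℝ).hasFDerivAt
    have hp : ∀ i : Fin 3, HasFDerivAt (pd i g) (fderiv ℝ (pd i g) x) x :=
      fun i => ((pd_smooth hg i).differentiable (by simp) x).hasFDerivAt
    have h1 : HasFDerivAt (rdr g) _ x := ((hc 0).mul (hp 0)).add ((hc 1).mul (hp 1))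
    have h2 : pd 2 (rdr g) x = x 0 * pd 2 (pd 0 g) x + x 1 * pd 2 (pd 1 g) x := by
      show fderiv ℝ (rdr g) x (e 2) = _
      rw [h1.fderiv]
      simp only [_root_.add_apply, _root_.smul_apply, smul_eq_mul]
      have a0 : (EuclideanSpace.proj (0 : Fin 3) : E3 →L[ℝ] ℝ) (e 2) = 0 := TwA_e0
      have a1 : (EuclideanSpace.proj (1 : Fin 3) : E3 →L[ℝ] ℝ) (e 2) = 0 := TwA_e1
      rw [a0, a1, mul_zero, mul_zero, add_zero, add_zero]
      rfl
    rw [h2, Vort_comm hg 2 0, Vort_comm hg 2 1]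
    rfl
  · unfold rdr gsq rsq
    rw [Fin.sum_univ_three]
    nlinarith [sq_nonneg (x 0 * pd 1 g x - x 1 * pd 0 g x), mul_nonneg (add_nonneg (sq_nonneg (x 0)) (sq_nonneg (x 1))) (sq_nonneg (pd 2 g x))]

end Pool.Agent.H88.EP
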