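/-
ROW TwB (MP_09540e_EP). Weights and shifts: the basic transfer lemma. Aux lemmas prefixed TwB_. PROOF.
ph_c: `(L, a, s)`-continuity (the inverse of a continuous positive function). sh_int: let `T = sh2 (s h)`, measure preserving (TwA), `c (T x) = c x`. `c x ph(x 2 + h/2) F (T x) = [c y ph(y 2 - s h + h/2) F y]_{y = T x}` (`(T x) 2 = x 2 + s h`), so the integral equals `∫ c y ph (y 2 + (h/2 - s h)) F y dy`
(MeasurePreserving.integral_comp' needs a measurable embedding: `T` is a homeomorphism; or integral_add_right_eq_self), and `|h/2 - s h| ≤ 1/2 ≤ 1`, `ph_shift`: `≤ 3 c ph F` pointwise. Integrability: measurable and dominated. sh_sav: Fubini on `[0,1] × E3` (the function `(s, x) ↦ c x ph(x 2 + h/2) F (sh2 (s h) x)` is nonnegative, jointly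
measurable, and the iterated integral `∫₀¹ ∫_x` is `≤ 3 ∫ c ph F`, so it is integrable: lintegral Tonelli, or `integrable_prod_iff`), swap. lint_sh: the same with lintegrals, no integrability (only measurability): this is the version to prove first; the others follow by `ofReal_integral_eq_lintegral_ofReal`.
-/
import Pool.Agent.H88.EP.TwA

set_option autoImplicit false

open Set Filter Topology MeasureTheory
open scoped ContDiff

namespace Pool.Agent.H88.EP

open Pool.Agent.H16 Pool.Agent.H72.CC Pool.Agent.H87.EP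
open Pool.Agent.H87.NS hiding c1
open Pool.Agent.H16.TU hiding Sl
open Pool.Agent.H94.EP

theorem TwB_t {h s : ℝ} (hh : |h| ≤ 1) (hs : s ∈ Icc (0 : ℝ) 1) : |h / 2 - s * h| ≤ 1 := by
  have e : h / 2 - s * h = h * (1 / 2 - s) := by ring
  have h1 : |1 / 2 - s| ≤ 1 := abs_le.2 ⟨by linarith [hs.2], by linarith [hs.1]⟩
  rw [e, abs_mul]
  calc |h| * |1 / 2 - s| ≤ 1 * 1 := mul_le_mul hh h1 (abs_nonneg _) zero_le_one
    _ = 1 := one_mul 1

theorem TwB_phm (L a : ℝ) : Measurable (ph L a) := (ph_smooth L a).continuous.measurable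

theorem TwB_l {α : Type*} [MeasurableSpace α] {μ : Measure α} {T : ℝ → α → α} {p c F : α → ℝ}
    {L : ℝ} (hL : 1 ≤ L) (a : ℝ) (hT : ∀ t, MeasurePreserving (T t) μ μ) (hp : Measurable p)
    (hpT : ∀ t x, p (T t x) = p x + t) (hc : Measurable c) (hc0 : ∀ x, 0 ≤ c x)
    (hcT : ∀ t x, c (T t x) = c x) (hF : Measurable F) (hF0 : ∀ x, 0 ≤ F x) {h s : ℝ}
    (hh : |h| ≤ 1) (hs : s ∈ Icc (0 : ℝ) 1) :
    ∫⁻ x, ENNReal.ofReal (c x * ph L a (p x + h / 2) * F (T (s * h) x)) ∂μ ≤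
      3 * ∫⁻ x, ENNReal.ofReal (c x * ph L a (p x) * F x) ∂μ := by
  have hm : Measurable (fun y => ENNReal.ofReal (c y * ph L a (p y + (h / 2 - s * h)) * F y)) :=
    ENNReal.measurable_ofReal.comp
      ((hc.mul ((TwB_phm L a).comp (hp.add measurable_const))).mul hF)
  have hm2 : Measurable (fun y => ENNReal.ofReal (c y * ph L a (p y) * F y)) :=
    ENNReal.measurable_ofReal.comp ((hc.mul ((TwB_phm L a).comp hp)).mul hF)
  have e1 : ∀ x, ENNReal.ofReal (c x * ph L a (p x + h / 2) * F (T (s * h) x)) =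
      (fun y => ENNReal.ofReal (c y * ph L a (p y + (h / 2 - s * h)) * F y)) (T (s * h) x) := by
    intro x
    have e2 : p x + s * h + (h / 2 - s * h) = p x + h / 2 := by ring
    simp only [hcT, hpT, e2]
  rw [lintegral_congr e1, (hT _).lintegral_comp hm, ← lintegral_const_mul _ hm2]
  refine lintegral_mono fun y => ?_
  have h3 : (3 : ENNReal) = ENNReal.ofReal 3 := by norm_num
  rw [h3, ← ENNReal.ofReal_mul (by norm_num)]
  apply ENNReal.ofReal_le_ofReal
  have h4 := ph_shift hL a (p y) (h / 2 - s * h) (TwB_t hh hs)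
  have h5 := mul_le_mul_of_nonneg_right (mul_le_mul_of_nonneg_left h4 (hc0 y)) (hF0 y)
  calc c y * ph L a (p y + (h / 2 - s * h)) * F y ≤ c y * (3 * ph L a (p y)) * F y := h5
    _ = 3 * (c y * ph L a (p y) * F y) := by ring

theorem TwB_a {α : Type*} [MeasurableSpace α] {μ : Measure α} [SFinite μ] {T : ℝ → α → α}
    {p c F : α → ℝ}
    {L : ℝ} (hL : 1 ≤ L) (a : ℝ) (hT : ∀ t, MeasurePreserving (T t) μ μ) (hp : Measurable p)
    (hpT : ∀ t x, p (T t x) = p x + t) (hc : Measurable c) (hc0 : ∀ x, 0 ≤ c x)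
    (hcT : ∀ t x, c (T t x) = c x) (hF : Measurable F) (hF0 : ∀ x, 0 ≤ F x) {h : ℝ}
    (hh : |h| ≤ 1) (hTm : Measurable (fun q : ℝ × α => T q.1 q.2))
    (hFi : ∀ x, IntervalIntegrable (fun s => F (T (s * h) x)) volume 0 1) :
    ∫⁻ x, ENNReal.ofReal (c x * ph L a (p x + h / 2) * ∫ s in (0 : ℝ)..1, F (T (s * h) x)) ∂μ ≤
      3 * ∫⁻ x, ENNReal.ofReal (c x * ph L a (p x) * F x) ∂μ := by
  have e1 : ∀ x, ENNReal.ofReal (c x * ph L a (p x + h / 2) *
      ∫ s in (0 : ℝ)..1, F (T (s * h) x)) =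
      ∫⁻ s in Ioc (0 : ℝ) 1, ENNReal.ofReal (c x * ph L a (p x + h / 2) * F (T (s * h) x)) := by
    intro x
    rw [intervalIntegral.integral_of_le zero_le_one, ← integral_const_mul,
      ofReal_integral_eq_lintegral_ofReal]
    · exact (hFi x).1.const_mul _
    · exact Eventually.of_forall fun s =>
        mul_nonneg (mul_nonneg (hc0 x) (ph_pos L a _).le) (hF0 _)
  rw [lintegral_congr e1, lintegral_lintegral_swap]
  · calc ∫⁻ s in Ioc (0 : ℝ) 1, ∫⁻ x, ENNReal.ofReal (c x * ph L a (p x + h / 2) *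
          F (T (s * h) x)) ∂μ
        ≤ ∫⁻ _ in Ioc (0 : ℝ) 1, 3 * ∫⁻ x, ENNReal.ofReal (c x * ph L a (p x) * F x) ∂μ :=
          setLIntegral_mono' measurableSet_Ioc fun s hs =>
            TwB_l hL a hT hp hpT hc hc0 hcT hF hF0 hh ⟨hs.1.le, hs.2⟩
      _ = 3 * ∫⁻ x, ENNReal.ofReal (c x * ph L a (p x) * F x) ∂μ := by
          rw [setLIntegral_const, Real.volume_Ioc]
          simp
  · refine Measurable.aemeasurable ?_
    have hm1 : Measurable (fun q : α × ℝ => T (q.2 * h) q.1) :=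
      hTm.comp ((measurable_snd.mul_const h).prodMk measurable_fst)
    exact ENNReal.measurable_ofReal.comp (((hc.comp measurable_fst).mul
      ((TwB_phm L a).comp ((hp.comp measurable_fst).add measurable_const))).mul (hF.comp hm1))

theorem TwB_fin {α : Type*} [MeasurableSpace α] {μ : Measure α} {g g0 : α → ℝ}
    (hg : AEStronglyMeasurable g μ)
    (hg0 : ∀ x, 0 ≤ g x) (h00 : ∀ x, 0 ≤ g0 x) (hi : Integrable g0 μ)
    (hle : ∫⁻ x, ENNReal.ofReal (g x) ∂μ ≤ 3 * ∫⁻ x, ENNReal.ofReal (g0 x) ∂μ) :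
    Integrable g μ ∧ ∫ x, g x ∂μ ≤ 3 * ∫ x, g0 x ∂μ := by
  have h1 := ofReal_integral_eq_lintegral_ofReal hi (Eventually.of_forall h00)
  have hI : Integrable g μ := by
    rw [← lintegral_ofReal_ne_top_iff_integrable hg (Eventually.of_forall hg0)]
    refine ne_top_of_le_ne_top ?_ hle
    rw [← h1]
    exact ENNReal.mul_ne_top (by simp) ENNReal.ofReal_ne_top
  refine ⟨hI, ?_⟩
  have h2 := ofReal_integral_eq_lintegral_ofReal hI (Eventually.of_forall hg0)
  rw [← h1, ← h2] at hle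
  have h3 : (3 : ENNReal) = ENNReal.ofReal 3 := by norm_num
  have h4 : 0 ≤ ∫ x, g0 x ∂μ := integral_nonneg h00
  rw [h3, ← ENNReal.ofReal_mul (by norm_num)] at hle
  exact (ENNReal.ofReal_le_ofReal_iff (by positivity)).1 hle

theorem TwB_co2 : Measurable (fun x : E3 => x 2) := by
  have : Continuous (fun x : E3 => x 2) := by fun_prop
  exact this.measurable

theorem TwB_shc : Continuous (fun q : ℝ × E3 => sh2 q.1 q.2) := sh2_sm.continuous

theorem sh_int {c F : E3 → ℝ} {L : ℝ} (hL : 1 ≤ L) (a : ℝ) (hc : Measurable c) (hc0 : ∀ x, 0 ≤ c x) (hcs : ∀ t x, c (sh2 t x) = c x)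
    (hF : Continuous F) (hF0 : ∀ x, 0 ≤ F x) (hi : Integrable (fun x => c x * ph L a (x 2) * F x)) {h s : ℝ} (hh : |h| ≤ 1) (hs : s ∈ Icc (0 : ℝ) 1) :
    Integrable (fun x => c x * ph L a (x 2 + h / 2) * F (sh2 (s * h) x)) ∧
    ∫ x, c x * ph L a (x 2 + h / 2) * F (sh2 (s * h) x) ≤ 3 * ∫ x, c x * ph L a (x 2) * F x := by
  have hl := TwB_l (μ := (volume : Measure E3)) (T := sh2) (p := fun x => x 2) hL a sh2_mp TwB_co2
    (fun t x => (sh2_f t x).2.2.1) hc hc0 hcs hF.measurable hF0 hh hs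
  have hFc : Continuous (fun x => F (sh2 (s * h) x)) :=
    hF.comp (TwB_shc.comp (continuous_const.prodMk continuous_id))
  refine TwB_fin ?_ ?_ ?_ hi hl
  · exact ((hc.mul ((TwB_phm L a).comp (TwB_co2.add measurable_const))).mul
      hFc.measurable).aestronglyMeasurable
  · exact fun x => mul_nonneg (mul_nonneg (hc0 x) (ph_pos L a _).le) (hF0 _)
  · exact fun x => mul_nonneg (mul_nonneg (hc0 x) (ph_pos L a _).le) (hF0 _)

/-- The cases `s = 0` and `s = 1`. -/
theorem sh_int01 {c F : E3 → ℝ} {L : ℝ} (hL : 1 ≤ L) (a : ℝ) (hc : Measurable c) (hc0 : ∀ x, 0 ≤ c x) (hcs : ∀ t x, c (sh2 t x) = c x)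
    (hF : Continuous F) (hF0 : ∀ x, 0 ≤ F x) (hi : Integrable (fun x => c x * ph L a (x 2) * F x)) {h : ℝ} (hh : |h| ≤ 1) :
    (Integrable (fun x => c x * ph L a (x 2 + h / 2) * F x) ∧ ∫ x, c x * ph L a (x 2 + h / 2) * F x ≤ 3 * ∫ x, c x * ph L a (x 2) * F x) ∧
    Integrable (fun x => c x * ph L a (x 2 + h / 2) * F (sh2 h x)) ∧
    ∫ x, c x * ph L a (x 2 + h / 2) * F (sh2 h x) ≤ 3 * ∫ x, c x * ph L a (x 2) * F x := by
  have h0 := sh_int hL a hc hc0 hcs hF hF0 hi (s := 0) hh ⟨le_rfl, zero_le_one⟩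
  have h1 := sh_int hL a hc hc0 hcs hF hF0 hi (s := 1) hh ⟨zero_le_one, le_rfl⟩
  simp only [zero_mul, (sh2_f 0 _).2.2.2.2.2] at h0
  simp only [one_mul] at h1
  exact ⟨h0, h1⟩

theorem sh_sav {c F : E3 → ℝ} {L : ℝ} (hL : 1 ≤ L) (a : ℝ) (hc : Measurable c) (hc0 : ∀ x, 0 ≤ c x) (hcs : ∀ t x, c (sh2 t x) = c x)
    (hF : Continuous F) (hF0 : ∀ x, 0 ≤ F x) (hi : Integrable (fun x => c x * ph L a (x 2) * F x)) {h : ℝ} (hh : |h| ≤ 1) :
    Integrable (fun x => c x * ph L a (x 2 + h / 2) * sav h F x) ∧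
    ∫ x, c x * ph L a (x 2 + h / 2) * sav h F x ≤ 3 * ∫ x, c x * ph L a (x 2) * F x := by
  have hFc : ∀ x : E3, Continuous (fun s : ℝ => F (sh2 (s * h) x)) := fun x =>
    hF.comp (TwB_shc.comp ((continuous_id.mul continuous_const).prodMk continuous_const))
  have hl := TwB_a (μ := (volume : Measure E3)) (T := sh2) (p := fun x => x 2) hL a sh2_mp TwB_co2
    (fun t x => (sh2_f t x).2.2.1) hc hc0 hcs hF.measurable hF0 hh TwB_shc.measurable
    (fun x => (hFc x).intervalIntegrable 0 1)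
  have hS : Continuous (sav h F) :=
    (sav_cont hF).1.comp (continuous_const.prodMk continuous_id)
  refine TwB_fin ?_ ?_ ?_ hi hl
  · exact ((hc.mul ((TwB_phm L a).comp (TwB_co2.add measurable_const))).mul
      hS.measurable).aestronglyMeasurable
  · exact fun x => mul_nonneg (mul_nonneg (hc0 x) (ph_pos L a _).le) (sav_nn hF0 h x)
  · exact fun x => mul_nonneg (mul_nonneg (hc0 x) (ph_pos L a _).le) (hF0 _)

/-- Transfer on lines. -/
theorem line_sav {F : ℝ → ℝ} {L : ℝ} (hL : 1 ≤ L) (a : ℝ) (hF : Continuous F) (hF0 : ∀ s, 0 ≤ F s) {h : ℝ} (hh : |h| ≤ 1) :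
    (∫⁻ z, ENNReal.ofReal (ph L a (z + h / 2) * ∫ s in (0 : ℝ)..1, F (z + s * h)) ≤ 3 * ∫⁻ z, ENNReal.ofReal (ph L a z * F z)) ∧
    (∫⁻ z, ENNReal.ofReal (ph L a (z + h / 2) * F (z + h)) ≤ 3 * ∫⁻ z, ENNReal.ofReal (ph L a z * F z)) ∧
    ∫⁻ z, ENNReal.ofReal (ph L a (z + h / 2) * F z) ≤ 3 * ∫⁻ z, ENNReal.ofReal (ph L a z * F z) := by
  have hT : ∀ t : ℝ, MeasurePreserving (fun z : ℝ => z + t) volume volume := fun t =>
    measurePreserving_add_right volume t
  have hl : ∀ s ∈ Icc (0 : ℝ) 1, ∫⁻ z, ENNReal.ofReal (ph L a (z + h / 2) * F (z + s * h)) ≤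
      3 * ∫⁻ z, ENNReal.ofReal (ph L a z * F z) := by
    intro s hs
    have h1 := TwB_l (μ := (volume : Measure ℝ)) (T := fun t z => z + t) (p := fun z => z)
      (c := fun _ => 1) hL a hT measurable_id (fun t x => rfl) measurable_const
      (fun _ => zero_le_one) (fun _ _ => rfl) hF.measurable hF0 hh hs
    simpa only [one_mul] using h1
  refine ⟨?_, ?_, ?_⟩
  · have hFc : ∀ x : ℝ, Continuous (fun s : ℝ => F (x + s * h)) := fun x =>
      hF.comp (continuous_const.add (continuous_id.mul continuous_const))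
    have hTm : Measurable (fun q : ℝ × ℝ => q.2 + q.1) := measurable_snd.add measurable_fst
    have h1 := TwB_a (μ := (volume : Measure ℝ)) (T := fun t z => z + t) (p := fun z => z)
      (c := fun _ => 1) hL a hT measurable_id (fun t x => rfl) measurable_const
      (fun _ => zero_le_one) (fun _ _ => rfl) hF.measurable hF0 hh hTm
      (fun x => (hFc x).intervalIntegrable 0 1)
    simpa only [one_mul] using h1
  · have h1 := hl 1 ⟨zero_le_one, le_rfl⟩
    simpa only [one_mul] using h1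
  · have h1 := hl 0 ⟨le_rfl, zero_le_one⟩
    simpa only [zero_mul, add_zero] using h1

end Pool.Agent.H88.EP
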