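/-
ROW TwI (MP_09540e_EP). Cylindrical coordinates for measurable integrands and the radial integration by parts. Aux lemmas prefixed TwI_. PROOF.
lp_f: `lp r s = !₂[r, 0, s]`. lp_rot: for a rotation invariant F: `F x = F (lp (rad x) (x 2))` (Cy_rot / Cy_rot0 in H94/WL/Cy.lean are the same statement for mk; copy them).
cy_map: both sides tested against measurable `f : ℝ × ℝ → ENNReal` (`Measure.ext_of_lintegral`): left `lintegral_map`: `∫⁻ x, f (rad x, x 2)`, `cyl` (H72/CC/Cyl.lean) `= ofReal (2π) * ∫⁻ r in Ioi 0, ∫⁻ z, ofReal r * f (r, z)`; right: lintegral_smul_measure, lintegral_prod, lintegral_withDensity_eq_lintegral_mul.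
cy_lint: `cyl` with `f (r, z) = F (lp r z)` (measurable as `(r, z) ↦ lp r z` is continuous). cy_iff, cy_int: `F x = (F ∘ lp) (rad x, x 2)`: integrable_map_measure, integral_map with cy_map; `integrable_withDensity_iff_integrable_smul'`, integral_prod / integral_prod_symm, `integral_withDensity_eq_integral_smul`
(or: split `F = F⁺ - F⁻` and use the lintegral formula). For cy_int the sections: `Integrable.prod_left_ae` / `prod_right_ae`.
ibp_r: Integrable G: measurable, dominated by `B ph (x 2)` on `{rsq < 1/8}` (integrable: `c ph (x 2) 1_{rsq < 1}` is, by cy_lint and ph_int), the same for rdr G (measurable: `measurable_fderiv_apply_const` for each pd i; `rdr G x = 0` if rsq x = 0; for `1/8 ≤ rsq x`: G = 0 on `{1/8 ≤ rsq}`, for rsq x > 1/8 locally constant so rdr G = 0;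
on `{rsq = 1/8}` G attains... a null set (TwI_null: `{x | rsq x = 1/8}` has measure 0, by cy_lint: `{r | r² = 1/8}` is a null set); so only an a.e. statement is needed). Rotation invariance of rdr G off the axis: `rdr G x = d/ds|_{s=1} G (sq s x)`-type derivative along the ray (rdr G x = fderiv ℝ G x (hor x), VRep_hor, and `G (sq s (rot θ x)) = G (sq s x)`, VRep_sq_rot), or by `fderiv ℝ G (rot θ x) (rot θ w) = fderiv ℝ G x w`
(ContinuousLinearEquiv.comp_right_fderiv). By cy_int: `∫ (2 G + rdr G) = 2π ∫_z ∫_{r>0} r (2 G (lp r z) + rdr G (lp r z)) dr dz`; for a.e. z the inner function is integrable; `d/dr (r² G (lp r z)) = 2 r G + r² ∂_r G = r (2 G + rdr G)` for r > 0 (chain rule, `rdr G (lp r z) = r pd 0 G (lp r z)`); `r² G (lp r z) → 0` as r → 0+ (bounded) and `= 0` for r² ≥ 1/8;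
`integral_Ioi_of_hasDerivAt_of_tendsto` (needs the value at 0: function `r ↦ r² G (lp r z)` is continuous within Ici 0 at 0 with value 0): inner integral `= 0`.
-/
import Pool.Agent.H88.EP.TwD

set_option autoImplicit false

open Set Filter Topology MeasureTheory
open scoped ContDiff

namespace Pool.Agent.H88.EP

open Pool.Agent.H16 Pool.Agent.H72.CC Pool.Agent.H87.EP
open Pool.Agent.H87.NS hiding c1
open Pool.Agent.H16.TU hiding Sl
open Pool.Agent.H94.EP

theorem TwI_lp (r s : ℝ) : lp r s = r • (e 0 : E3) + s • (e 2 : E3) := by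
  ext i
  fin_cases i <;> simp [Pool.Agent.H87.EP.lp, e]

theorem lp_f (r s : ℝ) : rsq (lp r s) = r ^ 2 ∧ rad (lp r s) = |r| ∧ lp r s 0 = r ∧ lp r s 1 = 0 ∧ lp r s 2 = s ∧ ∀ h, sh2 h (lp r s) = lp r (s + h) := by
  refine ⟨?_, ?_, rfl, rfl, rfl, fun h => ?_⟩
  · unfold rsq
    rw [B_lp0, B_lp1]
    ring
  · unfold rad
    rw [B_lp0, B_lp1, show r ^ 2 + (0 : ℝ) ^ 2 = r ^ 2 by ring, Real.sqrt_sq_eq_abs]
  · rw [TwI_lp, TwI_lp]
    unfold sh2
    rw [add_assoc, add_smul]

theorem lp_cont : Continuous (fun q : ℝ × ℝ => lp q.1 q.2) ∧ ContDiff ℝ ∞ (fun q : ℝ × ℝ => lp q.1 q.2) := by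
  refine ⟨B_lp_cont, ?_⟩
  have h : (fun q : ℝ × ℝ => lp q.1 q.2) = fun q : ℝ × ℝ => q.1 • (e 0 : E3) + q.2 • (e 2 : E3) := by
    funext q
    exact TwI_lp q.1 q.2
  rw [h]
  exact (contDiff_fst.smul contDiff_const).add (contDiff_snd.smul contDiff_const)

theorem lp_rot {α : Type} {F : E3 → α} (hr : ∀ θ x, F (rot θ x) = F x) (x : E3) : F (lp (rad x) (x 2)) = F x := by
  obtain ⟨θ, h⟩ := B_polar x
  rw [← hr θ (lp (rad x) (x 2)), h]

theorem TwI_d2 (r s : ℝ) : HasDerivAt (fun t : ℝ => lp r t) (e 2 : E3) s := by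
  have h2 : (fun t : ℝ => lp r t) = fun t : ℝ => r • (e 0 : E3) + t • (e 2 : E3) := by
    funext t
    exact TwI_lp r t
  rw [h2]
  have h3 : HasDerivAt (fun t : ℝ => t • (e 2 : E3)) ((1 : ℝ) • (e 2 : E3)) s :=
    (hasDerivAt_id s).smul_const (e 2)
  rw [one_smul] at h3
  exact h3.const_add _

theorem TwI_d0 (r s : ℝ) : HasDerivAt (fun t : ℝ => lp t s) (e 0 : E3) r := by
  have h2 : (fun t : ℝ => lp t s) = fun t : ℝ => t • (e 0 : E3) + s • (e 2 : E3) := by
    funext t
    exact TwI_lp t s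
  rw [h2]
  have h3 : HasDerivAt (fun t : ℝ => t • (e 0 : E3)) ((1 : ℝ) • (e 0 : E3)) r :=
    (hasDerivAt_id r).smul_const (e 0)
  rw [one_smul] at h3
  exact h3.add_const _

theorem lp_d {g : E3 → ℝ} {r s : ℝ} (hg : DifferentiableAt ℝ g (lp r s)) : HasDerivAt (fun t => g (lp r t)) (pd 2 g (lp r s)) s ∧
    HasDerivAt (fun t => g (lp t s)) (pd 0 g (lp r s)) r ∧ rdr g (lp r s) = r * pd 0 g (lp r s) := by
  refine ⟨?_, ?_, ?_⟩
  · exact hg.hasFDerivAt.comp_hasDerivAt s (TwI_d2 r s)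
  · exact hg.hasFDerivAt.comp_hasDerivAt r (TwI_d0 r s)
  · unfold rdr
    rw [B_lp0, B_lp1]
    ring

/-- For rotation invariant functions the radial derivative is `r dh g`. -/
theorem lp_dr {g : E3 → ℝ} (hg : Ri g) (r s : ℝ) : HasDerivAt (fun t => g (lp t s)) (r * dh g (lp r s)) r := by
  exact B_deriv hg r s

theorem TwI_meas : Measurable (fun x : E3 => ((rad x, x 2) : ℝ × ℝ)) := by
  refine Continuous.measurable ?_
  exact B_rad_cont.prodMk (by fun_prop)

theorem cy_map : Measure.map (fun x : E3 => ((rad x, x 2) : ℝ × ℝ)) volume =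
    ENNReal.ofReal (2 * Real.pi) • (((volume.restrict (Ioi (0 : ℝ))).withDensity ENNReal.ofReal).prod (volume : Measure ℝ)) := by
  refine Measure.ext_of_lintegral _ fun f hf => ?_
  rw [lintegral_map hf TwI_meas, cyl hf, lintegral_smul_measure, lintegral_prod _ hf.aemeasurable,
    lintegral_withDensity_eq_lintegral_mul _ ENNReal.measurable_ofReal hf.lintegral_prod_right', smul_eq_mul]
  congr 1
  refine lintegral_congr fun r => ?_
  show ∫⁻ z : ℝ, ENNReal.ofReal r * f (r, z) = ENNReal.ofReal r * ∫⁻ z : ℝ, f (r, z)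
  exact lintegral_const_mul _ (hf.comp (measurable_const.prodMk measurable_id))

theorem cy_lint {F : E3 → ENNReal} (hF : Measurable F) (hr : ∀ θ x, F (rot θ x) = F x) :
    ∫⁻ x, F x = ENNReal.ofReal (2 * Real.pi) * ∫⁻ r in Ioi (0 : ℝ), ENNReal.ofReal r * ∫⁻ z, F (lp r z) := by
  have hm : Measurable (fun q : ℝ × ℝ => F (lp q.1 q.2)) := hF.comp B_lp_cont.measurable
  have h1 := cyl hm
  have h2 : ∫⁻ x : E3, F (lp (rad x) (x 2)) = ∫⁻ x : E3, F x := lintegral_congr fun x => lp_rot hr x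
  rw [h2] at h1
  rw [h1]
  congr 1
  refine lintegral_congr fun r => ?_
  exact lintegral_const_mul _ (hm.comp (measurable_const.prodMk measurable_id))

theorem cy_iff {F : E3 → ℝ} (hF : Measurable F) (hr : ∀ θ x, F (rot θ x) = F x) :
    Integrable F ↔ Integrable (fun q : ℝ × ℝ => q.1 * F (lp q.1 q.2)) ((volume.restrict (Ioi (0 : ℝ))).prod (volume : Measure ℝ)) := by
  have hm : Measurable (fun q : ℝ × ℝ => q.1 * F (lp q.1 q.2)) :=
    measurable_fst.mul (hF.comp B_lp_cont.measurable)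
  have h1 := cy_lint (F := fun x => ‖F x‖ₑ) hF.enorm (fun θ x => by rw [hr])
  have h2 : ∫⁻ q : ℝ × ℝ, ‖q.1 * F (lp q.1 q.2)‖ₑ ∂((volume.restrict (Ioi (0 : ℝ))).prod (volume : Measure ℝ)) =
      ∫⁻ r in Ioi (0 : ℝ), ENNReal.ofReal r * ∫⁻ z, ‖F (lp r z)‖ₑ := by
    rw [lintegral_prod _ hm.enorm.aemeasurable]
    refine setLIntegral_congr_fun measurableSet_Ioi fun ρ hρ => ?_
    have h6 : ∫⁻ z : ℝ, ENNReal.ofReal ρ * ‖F (lp ρ z)‖ₑ = ENNReal.ofReal ρ * ∫⁻ z : ℝ, ‖F (lp ρ z)‖ₑ :=
      lintegral_const_mul _ ((hF.comp B_lp_cont.measurable).comp (measurable_const.prodMk measurable_id)).enorm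
    rw [← h6]
    refine lintegral_congr fun z => ?_
    show ‖ρ * F (lp ρ z)‖ₑ = _
    rw [enorm_mul, Real.enorm_of_nonneg (le_of_lt hρ)]
  rw [← h2] at h1
  have h0 : ENNReal.ofReal (2 * Real.pi) ≠ 0 := by
    rw [Ne, ENNReal.ofReal_eq_zero, not_le]
    exact Real.two_pi_pos
  constructor
  · intro hi
    refine ⟨hm.aestronglyMeasurable, ?_⟩
    have h3 : ∫⁻ x : E3, ‖F x‖ₑ < ⊤ := hi.2
    unfold HasFiniteIntegral
    by_contra hcon
    have h5 := not_lt_top_iff.1 hcon
    rw [h5, ENNReal.mul_top h0] at h1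
    rw [h1] at h3
    exact lt_irrefl _ h3
  · intro hi
    refine ⟨hF.aestronglyMeasurable, ?_⟩
    have h3 : ∫⁻ q : ℝ × ℝ, ‖q.1 * F (lp q.1 q.2)‖ₑ ∂((volume.restrict (Ioi (0 : ℝ))).prod (volume : Measure ℝ)) < ⊤ := hi.2
    unfold HasFiniteIntegral
    rw [h1]
    exact ENNReal.mul_lt_top ENNReal.ofReal_lt_top h3

theorem cy_int {F : E3 → ℝ} (hF : Measurable F) (hr : ∀ θ x, F (rot θ x) = F x) (hi : Integrable F) :
    ∫ x, F x = 2 * Real.pi * ∫ z, ∫ r in Ioi (0 : ℝ), r * F (lp r z) := by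
  rw [B_full hr hi]
  congr 1
  have h := (cy_iff hF hr).1 hi
  have h1 : ∫ z : ℝ, ∫ r in Ioi (0 : ℝ), r * F (lp r z) = ∫ r in Ioi (0 : ℝ), ∫ z : ℝ, r * F (lp r z) :=
    (integral_integral_swap (f := fun r z => r * F (lp r z)) h).symm
  rw [h1]
  simp only [integral_const_mul]

theorem cy_null (c : ℝ) : volume {x : E3 | rsq x = c} = 0 := by
  have hmS : MeasurableSet {x : E3 | rsq x = c} := measurableSet_eq_fun A_rsq_cont.measurable measurable_const
  have hr : ∀ θ x, {x : E3 | rsq x = c}.indicator (fun _ => (1 : ENNReal)) (rot θ x) =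
      {x : E3 | rsq x = c}.indicator (fun _ => (1 : ENNReal)) x := by
    intro θ x
    by_cases h : rsq x = c
    · rw [indicator_of_mem (show rot θ x ∈ {x : E3 | rsq x = c} by
        show rsq (rot θ x) = c
        rw [rsq_rot]
        exact h), indicator_of_mem (show x ∈ {x : E3 | rsq x = c} from h)]
    · rw [indicator_of_notMem (show rot θ x ∉ {x : E3 | rsq x = c} by
        show ¬ (rsq (rot θ x) = c)
        rw [rsq_rot]
        exact h), indicator_of_notMem (show x ∉ {x : E3 | rsq x = c} from h)]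
  have h1 := cy_lint (F := {x : E3 | rsq x = c}.indicator (fun _ => (1 : ENNReal))) (measurable_const.indicator hmS) hr
  rw [lintegral_indicator_const hmS, one_mul] at h1
  rw [h1]
  have h2 : ∫⁻ r in Ioi (0 : ℝ), ENNReal.ofReal r * ∫⁻ z, {x : E3 | rsq x = c}.indicator (fun _ => (1 : ENNReal)) (lp r z) = 0 := by
    have h3 : ∀ᵐ r : ℝ ∂(volume.restrict (Ioi (0 : ℝ))), r ≠ √c := by
      refine ae_restrict_of_ae ?_
      exact compl_mem_ae_iff.2 (measure_singleton (√c))
    have h4 : ∀ᵐ r : ℝ ∂(volume.restrict (Ioi (0 : ℝ))), 0 < r := ae_restrict_mem measurableSet_Ioi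
    have h5 : ∀ᵐ r : ℝ ∂(volume.restrict (Ioi (0 : ℝ))), ENNReal.ofReal r *
        ∫⁻ z, {x : E3 | rsq x = c}.indicator (fun _ => (1 : ENNReal)) (lp r z) = 0 := by
      filter_upwards [h3, h4] with r h6 h7
      have h8 : ∀ z, {x : E3 | rsq x = c}.indicator (fun _ => (1 : ENNReal)) (lp r z) = 0 := by
        intro z
        refine indicator_of_notMem ?_ _
        show ¬ (rsq (lp r z) = c)
        rw [(lp_f r z).1]
        intro h9
        refine h6 ?_
        rw [← h9, Real.sqrt_sq h7.le]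
      simp only [h8, lintegral_zero, mul_zero]
    rw [lintegral_congr_ae h5, lintegral_zero]
  rw [h2, mul_zero]

theorem TwI_phm (L a : ℝ) : Measurable (fun x : E3 => {x : E3 | rsq x < 1}.indicator (fun x => ph L a (x 2)) x) := by
  have hc : Continuous (fun x : E3 => ph L a (x 2)) := (ph_smooth L a).continuous.comp (by fun_prop)
  exact hc.measurable.indicator (measurableSet_lt A_rsq_cont.measurable measurable_const)

theorem TwI_phr (L a : ℝ) (θ : ℝ) (x : E3) : {x : E3 | rsq x < 1}.indicator (fun x => ph L a (x 2)) (rot θ x) =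
    {x : E3 | rsq x < 1}.indicator (fun x => ph L a (x 2)) x := by
  by_cases h : rsq x < 1
  · rw [indicator_of_mem (show rot θ x ∈ {x : E3 | rsq x < 1} by
      show rsq (rot θ x) < 1
      rw [rsq_rot]
      exact h), indicator_of_mem (show x ∈ {x : E3 | rsq x < 1} from h)]
    rfl
  · rw [indicator_of_notMem (show rot θ x ∉ {x : E3 | rsq x < 1} by
      show ¬ (rsq (rot θ x) < 1)
      rw [rsq_rot]
      exact h), indicator_of_notMem (show x ∉ {x : E3 | rsq x < 1} from h)]

/-- Finite weights. -/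
theorem ph_cyl {L : ℝ} (hL : 1 ≤ L) (a : ℝ) : Integrable (fun x : E3 => {x : E3 | rsq x < 1}.indicator (fun x => ph L a (x 2)) x) := by
  have hm := TwI_phm L a
  refine (cy_iff hm (TwI_phr L a)).2 ?_
  have h1 : Integrable (fun r : ℝ => (Ioo (-1 : ℝ) 1).indicator (fun r => r) r) (volume.restrict (Ioi (0 : ℝ))) := by
    refine Integrable.restrict ?_
    rw [integrable_indicator_iff measurableSet_Ioo]
    exact (continuous_id.integrableOn_Icc (a := -1) (b := 1)).mono_set Ioo_subset_Icc_self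
  have h2 := h1.mul_prod (ph_int hL a).1
  refine h2.congr (Filter.Eventually.of_forall fun q => ?_)
  show (Ioo (-1 : ℝ) 1).indicator (fun r => r) q.1 * ph L a q.2 =
    q.1 * {x : E3 | rsq x < 1}.indicator (fun x => ph L a (x 2)) (lp q.1 q.2)
  by_cases h : q.1 ^ 2 < 1
  · have h3 := abs_lt.1 ((sq_lt_one_iff_abs_lt_one q.1).1 h)
    rw [indicator_of_mem (show q.1 ∈ Ioo (-1 : ℝ) 1 from h3), indicator_of_mem (show lp q.1 q.2 ∈ {x : E3 | rsq x < 1} by
      show rsq (lp q.1 q.2) < 1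
      rw [(lp_f _ _).1]
      exact h)]
    rfl
  · rw [indicator_of_notMem (show q.1 ∉ Ioo (-1 : ℝ) 1 from fun h3 => h ((sq_lt_one_iff_abs_lt_one q.1).2 (abs_lt.2 h3))),
      indicator_of_notMem (show lp q.1 q.2 ∉ {x : E3 | rsq x < 1} by
        show ¬ (rsq (lp q.1 q.2) < 1)
        rw [(lp_f _ _).1]
        exact h), zero_mul, mul_zero]

theorem TwI_rdrm (G : E3 → ℝ) : Measurable (rdr G) := by
  have h0 : Measurable (fun x : E3 => x 0 * fderiv ℝ G x (e 0) + x 1 * fderiv ℝ G x (e 1)) := by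
    refine Measurable.add ?_ ?_
    · exact (Continuous.measurable (by fun_prop)).mul (measurable_fderiv_apply_const ℝ G (e 0))
    · exact (Continuous.measurable (by fun_prop)).mul (measurable_fderiv_apply_const ℝ G (e 1))
  exact h0

theorem TwI_axis (G : E3 → ℝ) {x : E3} (h : ¬ 0 < rsq x) : rdr G x = 0 := by
  have h1 : x 0 ^ 2 + x 1 ^ 2 ≤ 0 := not_lt.1 h
  have h2 : x 0 = 0 := by nlinarith [sq_nonneg (x 0), sq_nonneg (x 1)]
  have h3 : x 1 = 0 := by nlinarith [sq_nonneg (x 0), sq_nonneg (x 1)]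
  unfold rdr
  rw [h2, h3]
  ring

theorem TwI_out {G : E3 → ℝ} (hz : ∀ x, 1 / 8 ≤ rsq x → G x = 0) {x : E3} (h : 1 / 8 < rsq x) : rdr G x = 0 := by
  have h1 : G =ᶠ[𝓝 x] fun _ => (0 : ℝ) := by
    have h2 : {y : E3 | 1 / 8 < rsq y} ∈ 𝓝 x := (isOpen_lt continuous_const A_rsq_cont).mem_nhds h
    filter_upwards [h2] with y hy
    exact hz y (le_of_lt hy)
  unfold rdr pd
  rw [h1.fderiv_eq]
  simp

theorem TwI_rdrrot {G : E3 → ℝ} (hr : ∀ θ x, G (rot θ x) = G x) (θ : ℝ) (x : E3) : rdr G (rot θ x) = rdr G x := by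
  have h : ∀ y : E3, rdr G y = fderiv ℝ G y (hor y) := by
    intro y
    rw [VRep_hor]
    rfl
  have h3 : (fun y => G (rotL θ y)) = G := by
    funext y
    exact hr θ y
  have h4 : fderiv ℝ (G ∘ (rotL θ).toContinuousLinearEquiv) x =
      (fderiv ℝ G ((rotL θ).toContinuousLinearEquiv x)).comp ((rotL θ).toContinuousLinearEquiv : E3 →L[ℝ] E3) :=
    ContinuousLinearEquiv.comp_right_fderiv _
  have h5 : G ∘ (rotL θ).toContinuousLinearEquiv = G := h3
  rw [h5] at h4
  rw [h, h, A_hor_rot, h4]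
  rfl

/-- Radial integration by parts. -/
theorem ibp_r {G : E3 → ℝ} {B L a : ℝ} (hL : 1 ≤ L) (hd : ∀ x, 0 < rsq x → DifferentiableAt ℝ G x) (hm : Measurable G)
    (hr : ∀ θ x, G (rot θ x) = G x) (hz : ∀ x, 1 / 8 ≤ rsq x → G x = 0) (hb : ∀ x, |G x| ≤ B * ph L a (x 2))
    (hb' : ∀ x, 0 < rsq x → |rdr G x| ≤ B * ph L a (x 2)) : Integrable G ∧ Integrable (rdr G) ∧ ∫ x, rdr G x = - 2 * ∫ x, G x := by
  have hB : ∀ x : E3, 0 ≤ B * ph L a (x 2) := fun x => (abs_nonneg _).trans (hb x)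
  have hdom := (ph_cyl hL a).const_mul B
  have hm' : Measurable (rdr G) := TwI_rdrm G
  have i1 : Integrable G := by
    refine hdom.mono' hm.aestronglyMeasurable (Filter.Eventually.of_forall fun x => ?_)
    rw [Real.norm_eq_abs]
    by_cases h : rsq x < 1
    · rw [indicator_of_mem (show x ∈ {x : E3 | rsq x < 1} from h)]
      exact hb x
    · rw [indicator_of_notMem (show x ∉ {x : E3 | rsq x < 1} from h), hz x (by linarith [not_lt.1 h]), abs_zero, mul_zero]
  have i2 : Integrable (rdr G) := by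
    refine hdom.mono' hm'.aestronglyMeasurable (Filter.Eventually.of_forall fun x => ?_)
    rw [Real.norm_eq_abs]
    by_cases h : rsq x < 1
    · rw [indicator_of_mem (show x ∈ {x : E3 | rsq x < 1} from h)]
      by_cases h0 : 0 < rsq x
      · exact hb' x h0
      · rw [TwI_axis G h0, abs_zero]
        exact hB x
    · rw [indicator_of_notMem (show x ∉ {x : E3 | rsq x < 1} from h), TwI_out hz (by linarith [not_lt.1 h]), abs_zero, mul_zero]
  refine ⟨i1, i2, ?_⟩
  have i3 : Integrable (fun x => 2 * G x + rdr G x) := (i1.const_mul 2).add i2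
  have hr3 : ∀ θ x, 2 * G (rot θ x) + rdr G (rot θ x) = 2 * G x + rdr G x := by
    intro θ x
    rw [hr, TwI_rdrrot hr]
  have h1 := cy_int (F := fun x => 2 * G x + rdr G x) ((hm.const_mul 2).add hm') hr3 i3
  have h2 : ∀ z : ℝ, ∫ r in Ioi (0 : ℝ), r * (2 * G (lp r z) + rdr G (lp r z)) = 0 := by
    intro z
    by_cases hi : IntegrableOn (fun r : ℝ => r * (2 * G (lp r z) + rdr G (lp r z))) (Ioi 0)
    · have hder : ∀ r ∈ Ioi (0 : ℝ), HasDerivAt (fun r : ℝ => r ^ 2 * G (lp r z))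
          (r * (2 * G (lp r z) + rdr G (lp r z))) r := by
        intro r hr0
        have hr1 : 0 < r := hr0
        have hdd : DifferentiableAt ℝ G (lp r z) := hd _ (by rw [(lp_f r z).1]; positivity)
        obtain ⟨_, h3, h4⟩ := lp_d hdd
        have h5 := ((hasDerivAt_id r).pow 2).mul h3
        refine h5.congr_deriv ?_
        rw [h4]
        simp
        ring
      have hcont : ContinuousWithinAt (fun r : ℝ => r ^ 2 * G (lp r z)) (Ici 0) 0 := by
        have h6 : Tendsto (fun r : ℝ => r ^ 2 * G (lp r z)) (𝓝 0) (𝓝 0) := by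
          have h7 : Tendsto (fun r : ℝ => r ^ 2 * (B * ph L a z)) (𝓝 0) (𝓝 0) := by
            have h8 : Continuous (fun r : ℝ => r ^ 2 * (B * ph L a z)) := by fun_prop
            have h9 := h8.tendsto 0
            simp only [ne_eq, OfNat.ofNat_ne_zero, not_false_eq_true, zero_pow, zero_mul] at h9
            exact h9
          refine squeeze_zero_norm (fun r => ?_) h7
          rw [norm_mul, Real.norm_of_nonneg (sq_nonneg r), Real.norm_eq_abs]
          refine mul_le_mul_of_nonneg_left ?_ (sq_nonneg r)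
          exact hb (lp r z)
        have h10 : (fun r : ℝ => r ^ 2 * G (lp r z)) 0 = 0 := by
          show (0 : ℝ) ^ 2 * G (lp 0 z) = 0
          ring
        unfold ContinuousWithinAt
        rw [h10]
        exact h6.mono_left nhdsWithin_le_nhds
      have htop : Tendsto (fun r : ℝ => r ^ 2 * G (lp r z)) atTop (𝓝 0) := by
        refine tendsto_const_nhds.congr' ?_
        filter_upwards [eventually_ge_atTop (1 : ℝ)] with r hr1
        rw [hz (lp r z) (by rw [(lp_f r z).1]; nlinarith), mul_zero]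
      rw [integral_Ioi_of_hasDerivAt_of_tendsto hcont hder hi htop]
      ring
    · exact integral_undef hi
  have h3 : ∫ z : ℝ, ∫ r in Ioi (0 : ℝ), r * (2 * G (lp r z) + rdr G (lp r z)) = 0 := by
    simp only [h2, integral_zero]
  have h1' : ∫ x, (2 * G x + rdr G x) = 2 * Real.pi * ∫ z : ℝ, ∫ r in Ioi (0 : ℝ), r * (2 * G (lp r z) + rdr G (lp r z)) := h1
  rw [h3, mul_zero, integral_add (i1.const_mul 2) i2, integral_const_mul] at h1'
  linarith

end Pool.Agent.H88.EP
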