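/-
ROW TwH (MP_09540e_EP). The kernel `kh`, admissible integrands, the functional `Th`.
-/
import Pool.Agent.H88.EP.TwI

set_option autoImplicit false

open Set Filter Topology MeasureTheory
open scoped ContDiff

namespace Pool.Agent.H88.EP

open Pool.Agent.H16 Pool.Agent.H72.CC Pool.Agent.H87.EP
open Pool.Agent.H87.NS hiding c1
open Pool.Agent.H16.TU hiding Sl
open Pool.Agent.H94.EP

theorem TwH_zs : ContDiff ℝ ∞ zh := by
  unfold zh
  exact Real.smoothTransition.contDiff.comp (by fun_prop)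

theorem TwH_z0 {h : ℝ} (hh : 1 / 128 ≤ h ^ 2) : zh h = 0 := by
  unfold zh
  exact Real.smoothTransition.zero_of_nonpos (by linarith)

theorem TwH_z1 {h : ℝ} (hh : |h| ≤ 1 / 16) : zh h = 1 := by
  unfold zh
  refine Real.smoothTransition.one_of_one_le ?_
  have : h ^ 2 ≤ (1 / 16) ^ 2 := by
    rw [← sq_abs]
    exact pow_le_pow_left₀ (abs_nonneg h) hh 2
  linarith

theorem TwH_znn (h : ℝ) : 0 ≤ zh h := Real.smoothTransition.nonneg _

theorem TwH_zle (h : ℝ) : zh h ≤ 1 := Real.smoothTransition.le_one _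

theorem zh_f : ContDiff ℝ ∞ zh ∧ (∀ h, 0 ≤ zh h ∧ zh h ≤ 1 ∧ zh (-h) = zh h) ∧ (∀ h, |h| ≤ 1 / 16 → zh h = 1 ∧ (|h| < 1 / 16 → deriv zh h = 0)) ∧
    (∀ h, 1 / 128 ≤ h ^ 2 → zh h = 0 ∧ deriv zh h = 0) ∧ ∃ C : ℝ, 1 ≤ C ∧ ∀ h, |deriv zh h| ≤ C := by
  refine ⟨TwH_zs, fun h => ⟨TwH_znn h, TwH_zle h, ?_⟩, fun h hh => ⟨TwH_z1 hh, fun _ => ?_⟩, fun h hh => ⟨TwH_z0 hh, ?_⟩, ?_⟩
  · unfold zh
    rw [neg_sq]
  · have hm : IsLocalMax zh h := Filter.Eventually.of_forall fun t => by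
      rw [TwH_z1 hh]
      exact TwH_zle t
    exact hm.deriv_eq_zero
  · have hm : IsLocalMin zh h := Filter.Eventually.of_forall fun t => by
      rw [TwH_z0 hh]
      exact TwH_znn t
    exact hm.deriv_eq_zero
  · have hcs : HasCompactSupport zh := by
      refine HasCompactSupport.intro (isCompact_Icc (a := (-1:ℝ)) (b := 1)) fun t ht => ?_
      apply TwH_z0
      by_contra hc
      apply ht
      push Not at hc
      constructor <;> nlinarith
    have hc : Continuous (deriv zh) := TwH_zs.continuous_deriv (by simp)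
    obtain ⟨M, hM⟩ := hc.bounded_above_of_compact_support hcs.deriv
    refine ⟨|M| + 1, by linarith [abs_nonneg M], fun h => ?_⟩
    have := hM h
    rw [Real.norm_eq_abs] at this
    linarith [le_abs_self M]

theorem TwH_sq {h : ℝ} (hh : 1 < |h|) : 1 / 128 ≤ h ^ 2 := by
  have : 1 < h ^ 2 := by
    rw [← sq_abs]
    nlinarith
  linarith

theorem TwH_k2 {θ h : ℝ} (hh : h ≠ 0) : kh θ h * h ^ 2 = θ * |h| ^ (θ - 1) * zh h ^ 2 := by
  have hp : 0 < |h| := abs_pos.2 hh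
  have e : |h| ^ (θ - 1) = |h| ^ (θ - 3) * h ^ 2 := by
    rw [← sq_abs h, ← Real.rpow_natCast |h| 2, ← Real.rpow_add hp]
    congr 1
    push_cast
    ring
  unfold kh
  rw [e]
  ring

/-- The dominating function. -/
noncomputable def TwH_g (θ h : ℝ) : ℝ := (Ioc (0 : ℝ) 1).indicator (fun t => θ * t ^ (θ - 1)) h

theorem TwH_gi {θ : ℝ} (h0 : 0 < θ) : IntegrableOn (fun t : ℝ => θ * t ^ (θ - 1)) (Ioc 0 1) ∧ ∫ t in Ioc (0 : ℝ) 1, θ * t ^ (θ - 1) = 1 := by
  have h1 : IntervalIntegrable (fun t : ℝ => t ^ (θ - 1)) volume 0 1 := intervalIntegral.intervalIntegrable_rpow' (by linarith)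
  have h2 := (intervalIntegrable_iff_integrableOn_Ioc_of_le zero_le_one).1 h1
  refine ⟨h2.const_mul θ, ?_⟩
  rw [integral_const_mul, ← intervalIntegral.integral_of_le zero_le_one, integral_rpow (Or.inl (by linarith))]
  simp only [sub_add_cancel, Real.one_rpow]
  rw [Real.zero_rpow h0.ne']
  field_simp
  simp

theorem TwH_gg {θ : ℝ} (h0 : 0 < θ) : Integrable (fun h : ℝ => TwH_g θ |h|) ∧ ∫ h : ℝ, TwH_g θ |h| = 2 := by
  obtain ⟨a1, a2⟩ := TwH_gi h0
  have hi : Integrable (TwH_g θ) := by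
    unfold TwH_g
    exact (integrable_indicator_iff measurableSet_Ioc).2 a1
  have e : ∫ h : ℝ, TwH_g θ |h| = 2 := by
    rw [integral_comp_abs (f := TwH_g θ)]
    have : ∫ x in Ioi (0 : ℝ), TwH_g θ x = 1 := by
      unfold TwH_g
      rw [setIntegral_indicator measurableSet_Ioc]
      have : Ioi (0 : ℝ) ∩ Ioc 0 1 = Ioc 0 1 := by
        ext x
        simp only [mem_inter_iff, mem_Ioi, mem_Ioc]
        tauto
      rw [this, a2]
    rw [this]
    norm_num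
  refine ⟨?_, e⟩
  by_contra hc
  rw [integral_undef hc] at e
  norm_num at e

theorem kh_f {θ : ℝ} (h0 : 0 < θ) (h1 : θ ≤ 1 / 2) : (∀ h, 0 ≤ kh θ h ∧ kh θ (-h) = kh θ h) ∧ (∀ h, 1 / 128 ≤ h ^ 2 → kh θ h = 0) ∧ (∀ h, 1 < |h| → kh θ h = 0) ∧
    (∀ h, kh θ h ≤ θ * |h| ^ (θ - 3)) ∧ Measurable (kh θ) ∧ ContinuousOn (kh θ) {h | h ≠ 0} ∧
    Integrable (fun h => kh θ h * h ^ 2) ∧ ∫ h, kh θ h * h ^ 2 ≤ 2 := by
  have hnn : ∀ h, 0 ≤ kh θ h := fun h => by
    unfold kh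
    have : 0 ≤ |h| ^ (θ - 3) := Real.rpow_nonneg (abs_nonneg h) _
    positivity
  have hz : ∀ h, 1 / 128 ≤ h ^ 2 → kh θ h = 0 := fun h hh => by
    unfold kh
    rw [TwH_z0 hh]
    ring
  have hm : Measurable (kh θ) := by
    unfold kh
    exact ((continuous_abs.measurable.pow_const (θ - 3)).const_mul θ).mul (TwH_zs.continuous.measurable.pow_const 2)
  have hdom : ∀ h, |kh θ h * h ^ 2| ≤ TwH_g θ |h| := by
    intro h
    have hp : 0 ≤ kh θ h * h ^ 2 := mul_nonneg (hnn h) (sq_nonneg h)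
    rw [abs_of_nonneg hp]
    by_cases hh : h = 0
    · subst hh
      unfold TwH_g
      simp
    · have hap : 0 < |h| := abs_pos.2 hh
      by_cases h2 : |h| ≤ 1
      · unfold TwH_g
        rw [indicator_of_mem (show |h| ∈ Ioc (0:ℝ) 1 from ⟨hap, h2⟩), TwH_k2 hh]
        have e1 : 0 ≤ θ * |h| ^ (θ - 1) := mul_nonneg h0.le (Real.rpow_nonneg hap.le _)
        have e2 : zh h ^ 2 ≤ 1 := pow_le_one₀ (TwH_znn h) (TwH_zle h)
        calc θ * |h| ^ (θ - 1) * zh h ^ 2 ≤ θ * |h| ^ (θ - 1) * 1 := mul_le_mul_of_nonneg_left e2 e1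
          _ = _ := mul_one _
      · rw [hz h (TwH_sq (not_le.1 h2)), zero_mul]
        unfold TwH_g
        exact indicator_nonneg (fun t ht => mul_nonneg h0.le (Real.rpow_nonneg ht.1.le _)) _
  have hi : Integrable (fun h => kh θ h * h ^ 2) :=
    (TwH_gg h0).1.mono' (hm.mul (measurable_id.pow_const 2)).aestronglyMeasurable (ae_of_all _ fun h => by
      rw [Real.norm_eq_abs]
      exact hdom h)
  refine ⟨fun h => ⟨hnn h, ?_⟩, hz, fun h hh => hz h (TwH_sq hh), fun h => ?_, hm, ?_, hi, ?_⟩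
  · unfold kh
    rw [abs_neg, (zh_f.2.1 h).2.2]
  · unfold kh
    have e1 : 0 ≤ θ * |h| ^ (θ - 3) := mul_nonneg h0.le (Real.rpow_nonneg (abs_nonneg h) _)
    have e2 : zh h ^ 2 ≤ 1 := pow_le_one₀ (TwH_znn h) (TwH_zle h)
    calc θ * |h| ^ (θ - 3) * zh h ^ 2 ≤ θ * |h| ^ (θ - 3) * 1 := mul_le_mul_of_nonneg_left e2 e1
      _ = _ := mul_one _
  · unfold kh
    refine ContinuousOn.mul (ContinuousOn.mul continuousOn_const ?_) (TwH_zs.continuous.pow 2).continuousOn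
    exact ContinuousOn.rpow_const continuous_abs.continuousOn (fun h hh => Or.inl (abs_ne_zero.2 hh))
  · rw [← (TwH_gg h0).2]
    exact integral_mono hi (TwH_gg h0).1 fun h => (le_abs_self _).trans (hdom h)

/-- Integrability against the kernel. -/
theorem kh_int {θ : ℝ} (h0 : 0 < θ) (h1 : θ ≤ 1 / 2) {f : ℝ → ℝ} (hf : AEStronglyMeasurable f) {B : ℝ} (hB : ∀ h, |h| ≤ 1 → |f h| ≤ B * h ^ 2) :
    Integrable (fun h => kh θ h * f h) ∧ |∫ h, kh θ h * f h| ≤ 2 * B := by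
  obtain ⟨k1, k2, k3, k4, k5, k6, k7, k8⟩ := kh_f h0 h1
  have hB0 : 0 ≤ B := by
    have := (abs_nonneg _).trans (hB 1 (by norm_num))
    linarith
  have hd : ∀ h, ‖kh θ h * f h‖ ≤ B * (kh θ h * h ^ 2) := by
    intro h
    rw [Real.norm_eq_abs, abs_mul, abs_of_nonneg (k1 h).1]
    by_cases hh : |h| ≤ 1
    · have := mul_le_mul_of_nonneg_left (hB h hh) (k1 h).1
      linarith
    · rw [k3 h (not_le.1 hh)]
      simp
  have hi : Integrable (fun h => kh θ h * f h) := (k7.const_mul B).mono' (k5.aestronglyMeasurable.mul hf) (ae_of_all _ hd)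
  refine ⟨hi, ?_⟩
  calc |∫ h, kh θ h * f h| ≤ ∫ h, B * (kh θ h * h ^ 2) := by
        rw [← Real.norm_eq_abs]
        exact norm_integral_le_of_norm_le (k7.const_mul B) (ae_of_all _ hd)
    _ = B * ∫ h, kh θ h * h ^ 2 := integral_const_mul _ _
    _ ≤ B * 2 := mul_le_mul_of_nonneg_left k8 hB0
    _ = 2 * B := mul_comm _ _

theorem TwH_rn (x : E3) : 0 ≤ rsq x := by
  unfold rsq
  positivity

theorem ax_null : volume {x : E3 | ¬ 0 < rsq x} = 0 := by
  have : {x : E3 | ¬ 0 < rsq x} = {x : E3 | rsq x = 0} := by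
    ext x
    show (¬ 0 < rsq x) ↔ rsq x = 0
    rw [not_lt]
    exact ⟨fun h => le_antisymm h (TwH_rn x), fun h => h.le⟩
  rw [this]
  exact cy_null 0

theorem TwH_wm (θ L a : ℝ) : Measurable (wr θ L a) := by
  unfold wr
  refine Measurable.indicator ?_ (measurableSet_lt A_rsq_cont.measurable measurable_const)
  have hc : Continuous (fun x : E3 => ph L a (x 2)) := (ph_smooth L a).continuous.comp (by fun_prop)
  exact ((A_rsq_cont.measurable.div_const 2).pow_const (θ - 1)).mul hc.measurable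

theorem TwH_wr (θ L a : ℝ) (t : ℝ) (x : E3) : wr θ L a (rot t x) = wr θ L a x := by
  unfold wr
  by_cases h : rsq x < 1
  · rw [indicator_of_mem (show rot t x ∈ {x : E3 | rsq x < 1} by
      show rsq (rot t x) < 1
      rw [rsq_rot]
      exact h), indicator_of_mem (show x ∈ {x : E3 | rsq x < 1} from h), rsq_rot]
    rfl
  · rw [indicator_of_notMem (show rot t x ∉ {x : E3 | rsq x < 1} by
      show ¬ (rsq (rot t x) < 1)
      rw [rsq_rot]
      exact h), indicator_of_notMem (show x ∉ {x : E3 | rsq x < 1} from h)]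

theorem wr_int {θ L : ℝ} (h0 : 0 < θ) (hL : 1 ≤ L) (a : ℝ) : Integrable (wr θ L a) ∧ ∀ x, 0 ≤ wr θ L a x := by
  refine ⟨(cy_iff (TwH_wm θ L a) (TwH_wr θ L a)).2 ?_, fun x => ?_⟩
  · have h1 : Integrable (fun r : ℝ => (Ioc (0 : ℝ) 1).indicator (fun r => 2 ^ (1 - θ) * r ^ (2 * θ - 1)) r) (volume.restrict (Ioi (0 : ℝ))) := by
      refine Integrable.restrict ?_
      rw [integrable_indicator_iff measurableSet_Ioc]
      have h1 : IntervalIntegrable (fun t : ℝ => t ^ (2 * θ - 1)) volume 0 1 := intervalIntegral.intervalIntegrable_rpow' (by linarith)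
      exact ((intervalIntegrable_iff_integrableOn_Ioc_of_le zero_le_one).1 h1).const_mul _
    have h2 := h1.mul_prod (ph_int hL a).1
    refine h2.congr ?_
    have hae : ∀ᵐ q : ℝ × ℝ ∂((volume.restrict (Ioi (0 : ℝ))).prod (volume : Measure ℝ)), 0 < q.1 ∧ q.1 ≠ 1 := by
      have e1 : ∀ᵐ r : ℝ ∂(volume.restrict (Ioi (0 : ℝ))), 0 < r ∧ r ≠ 1 := by
        refine (ae_restrict_mem measurableSet_Ioi).and ?_
        exact ae_restrict_of_ae (compl_mem_ae_iff.2 (measure_singleton 1))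
      exact Measure.quasiMeasurePreserving_fst.ae e1
    filter_upwards [hae] with q hq
    show (Ioc (0 : ℝ) 1).indicator (fun r => 2 ^ (1 - θ) * r ^ (2 * θ - 1)) q.1 * ph L a q.2 = q.1 * wr θ L a (lp q.1 q.2)
    unfold wr
    by_cases h : q.1 < 1
    · rw [indicator_of_mem (show q.1 ∈ Ioc (0 : ℝ) 1 from ⟨hq.1, h.le⟩), indicator_of_mem (show lp q.1 q.2 ∈ {x : E3 | rsq x < 1} by
        show rsq (lp q.1 q.2) < 1
        rw [(lp_f _ _).1]
        nlinarith [hq.1])]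
      rw [(lp_f q.1 q.2).1, (lp_f q.1 q.2).2.2.2.2.1]
      have e : q.1 * (q.1 ^ 2 / 2) ^ (θ - 1) = 2 ^ (1 - θ) * q.1 ^ (2 * θ - 1) := by
        rw [Real.div_rpow (by positivity) (by norm_num), ← Real.rpow_natCast q.1 2, ← Real.rpow_mul hq.1.le]
        have e3 : (2:ℝ) ^ (1 - θ) = ((2:ℝ) ^ (θ - 1))⁻¹ := by
          rw [← Real.rpow_neg (by norm_num)]
          congr 1
          ring
        have e2 : q.1 ^ (2 * θ - 1) = q.1 * q.1 ^ (((2:ℕ):ℝ) * (θ - 1)) := by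
          nth_rewrite 2 [← Real.rpow_one q.1]
          rw [← Real.rpow_add hq.1]
          congr 1
          push_cast
          ring
        rw [e2, e3]
        ring
      rw [← e]
      ring
    · have h3 : 1 < q.1 := lt_of_le_of_ne (not_lt.1 h) (Ne.symm hq.2)
      rw [indicator_of_notMem (show q.1 ∉ Ioc (0 : ℝ) 1 from fun h4 => absurd h4.2 (not_le.2 h3)),
        indicator_of_notMem (show lp q.1 q.2 ∉ {x : E3 | rsq x < 1} by
          show ¬ (rsq (lp q.1 q.2) < 1)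
          rw [(lp_f _ _).1]
          nlinarith), zero_mul, mul_zero]
  · unfold wr
    exact indicator_nonneg (fun x _ => mul_nonneg (Real.rpow_nonneg (by have := TwH_rn x; linarith) _) (ph_pos L a _).le) _

theorem TwH_ae : ∀ᵐ x : E3, 0 < rsq x := by
  rw [ae_iff]
  exact ax_null

theorem Adm.int {θ L a : ℝ} {F : ℝ → E3 → ℝ} (hF : Adm θ L a F) (h0 : 0 < θ) (h1 : θ ≤ 1 / 2) (hL : 1 ≤ L) :
    (∀ h, |h| ≤ 1 → Integrable (F h)) ∧ (∃ B : ℝ, ∀ h, |h| ≤ 1 → |∫ x, F h x| ≤ B * h ^ 2) ∧ Integrable (fun h => kh θ h * ∫ x, F h x) := by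
  obtain ⟨B, hB⟩ := hF.bd
  obtain ⟨w1, w2⟩ := wr_int (a := a) h0 hL
  have hm : ∀ h, Measurable (F h) := fun h => hF.meas.comp (measurable_const.prodMk measurable_id)
  have hd : ∀ h, |h| ≤ 1 → ∀ᵐ x : E3, ‖F h x‖ ≤ B * (h ^ 2 * wr θ L a x) := fun h hh => by
    filter_upwards [TwH_ae] with x hx
    exact hB h hh x hx
  have hi : ∀ h, |h| ≤ 1 → Integrable (F h) := fun h hh =>
    ((w1.const_mul (h ^ 2)).const_mul B).mono' (hm h).aestronglyMeasurable (hd h hh)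
  have hb : ∀ h, |h| ≤ 1 → |∫ x, F h x| ≤ (B * ∫ x, wr θ L a x) * h ^ 2 := fun h hh => by
    calc |∫ x, F h x| ≤ ∫ x, B * (h ^ 2 * wr θ L a x) := by
          rw [← Real.norm_eq_abs]
          exact norm_integral_le_of_norm_le ((w1.const_mul (h ^ 2)).const_mul B) (hd h hh)
      _ = _ := by
        rw [integral_const_mul, integral_const_mul]
        ring
  have hs : StronglyMeasurable (fun h => ∫ x, F h x) := by
    have : StronglyMeasurable (Function.uncurry F) := hF.meas.stronglyMeasurable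
    exact this.integral_prod_right
  exact ⟨hi, ⟨_, hb⟩, (kh_int h0 h1 hs.aestronglyMeasurable hb).1⟩

theorem Adm.lin {θ L a : ℝ} {F G : ℝ → E3 → ℝ} (hF : Adm θ L a F) (hG : Adm θ L a G) (c d : ℝ) :
    Adm θ L a (fun h x => c * F h x + d * G h x) := by
  obtain ⟨B, hB⟩ := hF.bd
  obtain ⟨B', hB'⟩ := hG.bd
  refine ⟨(hF.meas.const_mul c).add (hG.meas.const_mul d), ⟨|c| * B + |d| * B', fun h hh x hx => ?_⟩⟩
  have e1 := mul_le_mul_of_nonneg_left (hB h hh x hx) (abs_nonneg c)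
  have e2 := mul_le_mul_of_nonneg_left (hB' h hh x hx) (abs_nonneg d)
  calc |c * F h x + d * G h x| ≤ |c * F h x| + |d * G h x| := abs_add_le _ _
    _ = |c| * |F h x| + |d| * |G h x| := by rw [abs_mul, abs_mul]
    _ ≤ _ := by linarith

theorem Adm.abs {θ L a : ℝ} {F : ℝ → E3 → ℝ} (hF : Adm θ L a F) : Adm θ L a (fun h x => |F h x|) := by
  obtain ⟨B, hB⟩ := hF.bd
  refine ⟨hF.meas.norm, ⟨B, fun h hh x hx => ?_⟩⟩
  rw [abs_abs]
  exact hB h hh x hx

theorem Th_mono {θ L a : ℝ} {F G : ℝ → E3 → ℝ} (hF : Adm θ L a F) (hG : Adm θ L a G) (h0 : 0 < θ) (h1 : θ ≤ 1 / 2) (hL : 1 ≤ L)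
    (hle : ∀ h, |h| ≤ 1 → ∀ x, 0 < rsq x → F h x ≤ G h x) : Th θ F ≤ Th θ G := by
  obtain ⟨f1, -, f3⟩ := hF.int h0 h1 hL
  obtain ⟨g1, -, g3⟩ := hG.int h0 h1 hL
  obtain ⟨k1, k2, k3, -⟩ := kh_f h0 h1
  unfold Th
  refine integral_mono f3 g3 fun h => ?_
  show kh θ h * ∫ x, F h x ≤ kh θ h * ∫ x, G h x
  by_cases hh : |h| ≤ 1
  · refine mul_le_mul_of_nonneg_left ?_ (k1 h).1
    refine integral_mono_ae (f1 h hh) (g1 h hh) ?_
    filter_upwards [TwH_ae] with x hx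
    exact hle h hh x hx
  · rw [k3 h (not_le.1 hh)]
    simp

theorem Th_lin {θ L a : ℝ} {F G : ℝ → E3 → ℝ} (hF : Adm θ L a F) (hG : Adm θ L a G) (h0 : 0 < θ) (h1 : θ ≤ 1 / 2) (hL : 1 ≤ L) (c d : ℝ) :
    Th θ (fun h x => c * F h x + d * G h x) = c * Th θ F + d * Th θ G := by
  obtain ⟨f1, -, f3⟩ := hF.int h0 h1 hL
  obtain ⟨g1, -, g3⟩ := hG.int h0 h1 hL
  obtain ⟨k1, k2, k3, -⟩ := kh_f h0 h1
  unfold Th
  rw [← integral_const_mul, ← integral_const_mul, ← integral_add (f3.const_mul c) (g3.const_mul d)]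
  refine integral_congr_ae (ae_of_all _ fun h => ?_)
  show kh θ h * ∫ x, (c * F h x + d * G h x) = c * (kh θ h * ∫ x, F h x) + d * (kh θ h * ∫ x, G h x)
  by_cases hh : |h| ≤ 1
  · rw [integral_add ((f1 h hh).const_mul c) ((g1 h hh).const_mul d), integral_const_mul, integral_const_mul]
    ring
  · rw [k3 h (not_le.1 hh)]
    simp

theorem Th_nn {θ : ℝ} {F : ℝ → E3 → ℝ} (h0 : 0 < θ) (h1 : θ ≤ 1 / 2) (hle : ∀ h x, 0 ≤ F h x) : 0 ≤ Th θ F := by
  unfold Th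
  exact integral_nonneg fun h => mul_nonneg ((kh_f h0 h1).1 h).1 (integral_nonneg fun x => hle h x)

theorem Th_le {θ L a : ℝ} {F : ℝ → E3 → ℝ} (hF : Adm θ L a F) (h0 : 0 < θ) (h1 : θ ≤ 1 / 2) (hL : 1 ≤ L) {M : ℝ} (hM : 0 ≤ M)
    (hle : ∀ h, |h| ≤ 1 → ∫ x, F h x ≤ M * h ^ 2) : Th θ F ≤ 2 * M := by
  obtain ⟨f1, -, f3⟩ := hF.int h0 h1 hL
  obtain ⟨k1, k2, k3, k4, k5, k6, k7, k8⟩ := kh_f h0 h1
  unfold Th
  calc ∫ h, kh θ h * ∫ x, F h x ≤ ∫ h, M * (kh θ h * h ^ 2) := by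
        refine integral_mono f3 (k7.const_mul M) fun h => ?_
        show kh θ h * ∫ x, F h x ≤ M * (kh θ h * h ^ 2)
        by_cases hh : |h| ≤ 1
        · have := mul_le_mul_of_nonneg_left (hle h hh) (k1 h).1
          linarith
        · rw [k3 h (not_le.1 hh)]
          simp
    _ = M * ∫ h, kh θ h * h ^ 2 := integral_const_mul _ _
    _ ≤ M * 2 := mul_le_mul_of_nonneg_left k8 hM
    _ = 2 * M := mul_comm _ _

end Pool.Agent.H88.EP
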