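import Pool.Agent.H88.EP.TwD

/-!
The weight `kx s L a h x = k0 s x * ph L a (x 2 + h/2)`, `k0 s x = (rsq x / 2)^s * c2 x ^ 4`.
Auxiliary lemmas are prefixed `TwW_`.
-/

set_option autoImplicit false

open Set Filter Topology MeasureTheory
open scoped ContDiff

namespace Pool.Agent.H88.EP

open Pool.Agent.H16 Pool.Agent.H72.CC Pool.Agent.H87.EP
open Pool.Agent.H87.NS hiding c1
open Pool.Agent.H16.TU hiding Sl
open Pool.Agent.H94.EP

theorem TwW_rsq_rot (θ : ℝ) (x : E3) : rsq (rot θ x) = rsq x := by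
  unfold rsq
  rw [rot_zero', rot_one']
  linear_combination (x 0 ^ 2 + x 1 ^ 2) * Real.sin_sq_add_cos_sq θ

theorem TwW_rsq_sh (h : ℝ) (x : E3) : rsq (sh2 h x) = rsq x := by
  unfold rsq sh2
  simp [e]

theorem TwW_rsq_nn (x : E3) : 0 ≤ rsq x := by
  unfold rsq
  positivity

/-- The profile of the cutoff. -/
noncomputable def TwW_c (q : ℝ) : ℝ := Real.smoothTransition (2 - 16 * q) ^ 4

theorem TwW_c_cd : ContDiff ℝ ∞ TwW_c :=
  (Real.smoothTransition.contDiff.comp (contDiff_const.sub (contDiff_const.mul contDiff_id))).pow 4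

theorem TwW_c_eq (x : E3) : c2 x ^ 4 = TwW_c (rsq x) := rfl

theorem c2_f : ContDiff ℝ ∞ c2 ∧ (∀ x, 0 ≤ c2 x ∧ c2 x ≤ 1 ∧ (rsq x ≤ 1 / 16 → c2 x = 1) ∧ (1 / 8 ≤ rsq x → c2 x = 0)) ∧
    (∀ θ x, c2 (rot θ x) = c2 x) ∧ ∀ h x, c2 (sh2 h x) = c2 x := by
  refine ⟨Real.smoothTransition.contDiff.comp (contDiff_const.sub (contDiff_const.mul C_rsq_smooth)), fun x => ?_,
    fun θ x => ?_, fun h x => ?_⟩
  · refine ⟨Real.smoothTransition.nonneg _, Real.smoothTransition.le_one _, fun h => ?_, fun h => ?_⟩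
    · exact Real.smoothTransition.one_of_one_le (by linarith)
    · exact Real.smoothTransition.zero_of_nonpos (by linarith)
  · unfold c2
    rw [TwW_rsq_rot]
  · unfold c2
    rw [TwW_rsq_sh]

theorem TwW_ph_d2 (L a s : ℝ) : HasDerivAt (deriv (ph L a))
    (-(2 / L ^ 2) * ph L a s ^ 2 + 8 * (s - a) ^ 2 / L ^ 4 * ph L a s ^ 3) s := by
  have e1 : deriv (ph L a) = fun s => -(2 * (s - a) / L ^ 2) * ph L a s ^ 2 := funext fun s => (C_hasDeriv L a s).deriv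
  rw [e1]
  have h1 : HasDerivAt (fun s : ℝ => -(2 * (s - a) / L ^ 2)) (-(2 * 1 / L ^ 2)) s :=
    ((((hasDerivAt_id s).sub_const a).const_mul 2).div_const (L ^ 2)).neg
  have h2 := (C_hasDeriv L a s).pow 2
  refine (h1.mul h2).congr_deriv ?_
  simp only [Pi.pow_apply]
  push_cast
  ring

theorem ph_d2 {L : ℝ} (hL : 0 < L) (a s : ℝ) : |deriv (deriv (ph L a)) s| ≤ 10 * ph L a s / L ^ 2 := by
  rw [(TwW_ph_d2 L a s).deriv]
  have hp := ph_pos L a s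
  have hp1 := ph_le L a s
  obtain ⟨t, ht⟩ : ∃ t, t = ((s - a) / L) ^ 2 := ⟨_, rfl⟩
  have ht0 : 0 ≤ t := by rw [ht]; positivity
  have hph : ph L a s = (1 + t)⁻¹ := by
    unfold ph
    rw [ht, div_pow]
  obtain ⟨p, hpd⟩ : ∃ p, p = ph L a s := ⟨_, rfl⟩
  have htp : t * p ≤ 1 := by
    rw [hpd, hph, ← div_eq_mul_inv, div_le_one (by positivity)]
    linarith
  have e1 : -(2 / L ^ 2) * ph L a s ^ 2 + 8 * (s - a) ^ 2 / L ^ 4 * ph L a s ^ 3 =
      (p / L ^ 2) * (-2 * p + 8 * (t * p) * p) := by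
    rw [← hpd, ht]
    field_simp
  rw [e1, ← hpd, abs_mul, abs_of_pos (by rw [hpd]; positivity : 0 < p / L ^ 2)]
  rw [← hpd] at hp hp1
  have h1 : |-2 * p + 8 * (t * p) * p| ≤ 10 := by
    have h2 : 0 ≤ t * p := by positivity
    have h3 : (t * p) * p ≤ 1 := by nlinarith only [hp1, htp, h2]
    have h4 : 0 ≤ (t * p) * p := by positivity
    rw [abs_le]
    constructor <;> linarith only [hp1, h4, hp, h3]
  calc p / L ^ 2 * |-2 * p + 8 * (t * p) * p| ≤ p / L ^ 2 * 10 := mul_le_mul_of_nonneg_left h1 (by positivity)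
    _ = 10 * p / L ^ 2 := by ring

theorem TwW_rpow (s : ℝ) {y : ℝ} (hy : 0 ≤ y) (hs : 0 < s) : y ^ s = y * y ^ (s - 1) := by
  rcases hy.eq_or_lt with h | h
  · rw [← h, Real.zero_rpow hs.ne', zero_mul]
  · rw [mul_comm, Real.rpow_sub_one h.ne', div_mul_cancel₀ _ h.ne']

theorem TwW_rpow' (s : ℝ) {y : ℝ} (hy : 0 < y) : y ^ s = y * y ^ (s - 1) := by
  rw [mul_comm, Real.rpow_sub_one hy.ne', div_mul_cancel₀ _ hy.ne']

theorem TwW_c2_c1 (x : E3) : c2 x ≤ c1 x := by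
  unfold c2 Pool.Agent.H94.EP.c1
  apply Real.smoothTransition.monotone
  have := TwW_rsq_nn x
  linarith

theorem k0_f (s : ℝ) : Measurable (k0 s) ∧ (∀ x, 0 ≤ k0 s x) ∧ (∀ h x, k0 s (sh2 h x) = k0 s x) ∧ (∀ θ x, k0 s (rot θ x) = k0 s x) ∧
    (∀ x, 1 / 8 ≤ rsq x → k0 s x = 0) ∧ (0 < s → ∀ x, k0 s x = rsq x / 2 * k0 (s - 1) x) ∧ (0 ≤ s → ∀ x, k0 s x ≤ c2 x ^ 4 ∧ k0 s x ≤ c1 x ^ 4) ∧
    (0 < s → ∀ x, k0 s x ≤ 1 / 16 * k0 (s - 1) x) := by
  obtain ⟨hc, hc1, hc2, hc3⟩ := c2_f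
  have hnn : ∀ s x, 0 ≤ k0 s x := fun s x =>
    mul_nonneg (Real.rpow_nonneg (div_nonneg (TwW_rsq_nn x) (by norm_num)) _) (pow_nonneg (hc1 x).1 4)
  have h5 : ∀ s, ∀ x, 1 / 8 ≤ rsq x → k0 s x = 0 := fun s x hx => by
    unfold k0
    rw [(hc1 x).2.2.2 hx]
    ring
  have h6 : 0 < s → ∀ x, k0 s x = rsq x / 2 * k0 (s - 1) x := fun hs x => by
    unfold k0
    rw [TwW_rpow s (div_nonneg (TwW_rsq_nn x) (by norm_num)) hs]
    ring
  have h7 : 0 ≤ s → ∀ x, k0 s x ≤ c2 x ^ 4 := fun hs x => by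
    rcases le_or_gt (1 / 8) (rsq x) with hx | hx
    · rw [h5 s x hx]
      exact pow_nonneg (hc1 x).1 4
    · unfold k0
      have h8 : (rsq x / 2) ^ s ≤ 1 := Real.rpow_le_one (div_nonneg (TwW_rsq_nn x) (by norm_num)) (by linarith) hs
      calc (rsq x / 2) ^ s * c2 x ^ 4 ≤ 1 * c2 x ^ 4 := mul_le_mul_of_nonneg_right h8 (pow_nonneg (hc1 x).1 4)
        _ = c2 x ^ 4 := one_mul _
  refine ⟨?_, hnn s, fun h x => ?_, fun θ x => ?_, h5 s, h6, fun hs x => ⟨h7 hs x, (h7 hs x).trans ?_⟩, fun hs x => ?_⟩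
  · exact ((C_rsq_smooth.continuous.measurable.div_const 2).pow_const s).mul (hc.continuous.measurable.pow_const 4)
  · unfold k0
    rw [hc3, TwW_rsq_sh]
  · unfold k0
    rw [hc2, TwW_rsq_rot]
  · exact pow_le_pow_left₀ (hc1 x).1 (TwW_c2_c1 x) 4
  · rcases le_or_gt (1 / 8) (rsq x) with hx | hx
    · rw [h5 s x hx, h5 (s - 1) x hx]
      norm_num
    · rw [h6 hs x]
      exact mul_le_mul_of_nonneg_right (by linarith) (hnn _ _)

theorem kx_f {L : ℝ} (hL : 1 ≤ L) (s a : ℝ) : Measurable (fun q : ℝ × E3 => kx s L a q.1 q.2) ∧ (∀ h x, 0 ≤ kx s L a h x) ∧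
    (∀ h θ x, kx s L a h (rot θ x) = kx s L a h x) ∧ (∀ h x, 1 / 8 ≤ rsq x → kx s L a h x = 0) ∧
    (∀ h x, |h| ≤ 2 → kx s L a h x ≤ 3 * (k0 s x * ph L a (x 2))) ∧ (0 < s → ∀ h x, kx s L a h x = rsq x / 2 * kx (s - 1) L a h x) ∧
    (0 < s → ∀ h, Continuous (kx s L a h)) := by
  obtain ⟨g1, g2, g3, g4, g5, g6, g7, g8⟩ := k0_f s
  refine ⟨?_, fun h x => ?_, fun h θ x => ?_, fun h x hx => ?_, fun h x hh => ?_, fun hs h x => ?_, fun hs h => ?_⟩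
  · have h1 : Measurable (fun q : ℝ × E3 => k0 s q.2) := g1.comp measurable_snd
    have h2 : Continuous (fun q : ℝ × E3 => ph L a (q.2 2 + q.1 / 2)) := by
      apply (ph_smooth L a).continuous.comp
      fun_prop
    exact h1.mul h2.measurable
  · rw [kx_k0]
    exact mul_nonneg (g2 x) (ph_pos L a _).le
  · rw [kx_k0, kx_k0, g4, rot_two']
  · rw [kx_k0, g5 x hx, zero_mul]
  · rw [kx_k0]
    have h1 := ph_shift hL a (x 2) (h / 2) (by
      rw [abs_div, abs_of_pos (by norm_num : (0 : ℝ) < 2)]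
      linarith)
    have h2 := mul_le_mul_of_nonneg_left h1 (g2 x)
    linarith
  · rw [kx_k0, kx_k0, g6 hs x]
    ring
  · have h1 : Continuous (fun x : E3 => (rsq x / 2) ^ s) :=
      (Real.continuous_rpow_const hs.le).comp (C_rsq_smooth.continuous.div_const 2)
    have h2 : Continuous (fun x : E3 => ph L a (x 2 + h / 2)) := by
      apply (ph_smooth L a).continuous.comp
      fun_prop
    exact (h1.mul (c2_f.1.continuous.pow 4)).mul h2

theorem kx_cd (s a h : ℝ) {L : ℝ} (hL : 1 ≤ L) {x : E3} (hx : 0 < rsq x) : ContDiffAt ℝ ∞ (kx s L a h) x ∧ ContDiffAt ℝ ∞ (k0 s) x := by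
  have h1 : ContDiffAt ℝ ∞ (fun x : E3 => (rsq x / 2) ^ s) x :=
    (C_rsq_smooth.div_const 2).contDiffAt.rpow_const_of_ne (by positivity)
  have h2 : ContDiffAt ℝ ∞ (k0 s) x := h1.mul (c2_f.1.pow 4).contDiffAt
  have h3 : ContDiff ℝ ∞ (fun x : E3 => ph L a (x 2 + h / 2)) :=
    (ph_smooth L a).comp ((Cut_coord 2).add contDiff_const)
  exact ⟨h2.mul h3.contDiffAt, h2⟩

/-! ### Functions `g (rsq x) * w (x 2)` -/

theorem TwW_proj (i : Fin 3) (x : E3) : HasFDerivAt (fun y : E3 => y i) (EuclideanSpace.proj (𝕜 := ℝ) i : E3 →L[ℝ] ℝ) x :=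
  (EuclideanSpace.proj (𝕜 := ℝ) i : E3 →L[ℝ] ℝ).hasFDerivAt

theorem TwW_rsq_fd (x : E3) : HasFDerivAt (fun y : E3 => rsq y)
    ((2 * x 0) • (EuclideanSpace.proj (𝕜 := ℝ) 0 : E3 →L[ℝ] ℝ) + (2 * x 1) • (EuclideanSpace.proj (𝕜 := ℝ) 1 : E3 →L[ℝ] ℝ)) x := by
  have h1 := ((TwW_proj 0 x).pow 2).add ((TwW_proj 1 x).pow 2)
  refine h1.congr_fderiv ?_
  simp

theorem TwW_fd {g w : ℝ → ℝ} {g' w' : ℝ} {x : E3} (hg : HasDerivAt g g' (rsq x)) (hw : HasDerivAt w w' (x 2)) :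
    HasFDerivAt (fun y : E3 => g (rsq y) * w (y 2))
      (g (rsq x) • (w' • (EuclideanSpace.proj (𝕜 := ℝ) 2 : E3 →L[ℝ] ℝ)) +
        w (x 2) • (g' • ((2 * x 0) • (EuclideanSpace.proj (𝕜 := ℝ) 0 : E3 →L[ℝ] ℝ) +
          (2 * x 1) • (EuclideanSpace.proj (𝕜 := ℝ) 1 : E3 →L[ℝ] ℝ)))) x :=
  (hg.comp_hasFDerivAt x (TwW_rsq_fd x)).mul (hw.comp_hasFDerivAt x (TwW_proj 2 x))

theorem TwW_e (i j : Fin 3) : (EuclideanSpace.proj (𝕜 := ℝ) i : E3 →L[ℝ] ℝ) (e j) = if i = j then 1 else 0 := by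
  simp [e]

theorem TwW_pd {g w : ℝ → ℝ} {g' w' : ℝ} {x : E3} (hg : HasDerivAt g g' (rsq x)) (hw : HasDerivAt w w' (x 2)) :
    pd 0 (fun y : E3 => g (rsq y) * w (y 2)) x = 2 * x 0 * (g' * w (x 2)) ∧
    pd 1 (fun y : E3 => g (rsq y) * w (y 2)) x = 2 * x 1 * (g' * w (x 2)) ∧
    pd 2 (fun y : E3 => g (rsq y) * w (y 2)) x = g (rsq x) * w' := by
  unfold pd
  rw [(TwW_fd hg hw).fderiv]
  simp only [_root_.add_apply, _root_.smul_apply, smul_eq_mul, TwW_e]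
  refine ⟨?_, ?_, ?_⟩ <;> simp <;> ring

theorem TwW_pdm {g w : ℝ → ℝ} {g' w' : ℝ} {x : E3} (hg : HasDerivAt g g' (rsq x)) (hw : HasDerivAt w w' (x 2)) :
    pd 0 (fun y : E3 => 2 * y 0 * (g (rsq y) * w (y 2))) x = 2 * (g (rsq x) * w (x 2)) + 4 * x 0 ^ 2 * (g' * w (x 2)) ∧
    pd 1 (fun y : E3 => 2 * y 1 * (g (rsq y) * w (y 2))) x = 2 * (g (rsq x) * w (x 2)) + 4 * x 1 ^ 2 * (g' * w (x 2)) := by
  have h0 := ((TwW_proj 0 x).const_mul 2).mul (TwW_fd hg hw)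
  have h1 := ((TwW_proj 1 x).const_mul 2).mul (TwW_fd hg hw)
  unfold pd
  constructor
  · have := h0.fderiv
    rw [show (fun y : E3 => 2 * y 0 * (g (rsq y) * w (y 2))) = (fun y : E3 => 2 * y 0) * (fun y : E3 => g (rsq y) * w (y 2)) from rfl, this]
    simp only [_root_.add_apply, _root_.smul_apply, smul_eq_mul, TwW_e]
    simp
    ring
  · have := h1.fderiv
    rw [show (fun y : E3 => 2 * y 1 * (g (rsq y) * w (y 2))) = (fun y : E3 => 2 * y 1) * (fun y : E3 => g (rsq y) * w (y 2)) from rfl, this]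
    simp only [_root_.add_apply, _root_.smul_apply, smul_eq_mul, TwW_e]
    simp
    ring

theorem TwW_lap {g g1 g2 w w1 w2 : ℝ → ℝ} (hg : ∀ q, 0 < q → HasDerivAt g (g1 q) q) (hg1 : ∀ q, 0 < q → HasDerivAt g1 (g2 q) q)
    (hw : ∀ t, HasDerivAt w (w1 t) t) (hw1 : ∀ t, HasDerivAt w1 (w2 t) t) {x : E3} (hx : 0 < rsq x) :
    lap (fun y : E3 => g (rsq y) * w (y 2)) x =
      (4 * rsq x * g2 (rsq x) + 4 * g1 (rsq x)) * w (x 2) + g (rsq x) * w2 (x 2) := by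
  have hev : ∀ᶠ y in 𝓝 x, 0 < rsq y := C_rsq_smooth.continuous.continuousAt.eventually (lt_mem_nhds hx)
  have e0 : pd 0 (fun y : E3 => g (rsq y) * w (y 2)) =ᶠ[𝓝 x] fun y => 2 * y 0 * (g1 (rsq y) * w (y 2)) := by
    filter_upwards [hev] with y hy
    exact (TwW_pd (hg _ hy) (hw _)).1
  have e1 : pd 1 (fun y : E3 => g (rsq y) * w (y 2)) =ᶠ[𝓝 x] fun y => 2 * y 1 * (g1 (rsq y) * w (y 2)) := by
    filter_upwards [hev] with y hy
    exact (TwW_pd (hg _ hy) (hw _)).2.1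
  have e2 : pd 2 (fun y : E3 => g (rsq y) * w (y 2)) =ᶠ[𝓝 x] fun y => g (rsq y) * w1 (y 2) := by
    filter_upwards [hev] with y hy
    exact (TwW_pd (hg _ hy) (hw _)).2.2
  unfold lap
  rw [Fin.sum_univ_three]
  have f0 : pd 0 (pd 0 (fun y : E3 => g (rsq y) * w (y 2))) x = pd 0 (fun y : E3 => 2 * y 0 * (g1 (rsq y) * w (y 2))) x := by
    unfold pd
    unfold pd at e0
    rw [e0.fderiv_eq]
  have f1 : pd 1 (pd 1 (fun y : E3 => g (rsq y) * w (y 2))) x = pd 1 (fun y : E3 => 2 * y 1 * (g1 (rsq y) * w (y 2))) x := by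
    unfold pd
    unfold pd at e1
    rw [e1.fderiv_eq]
  have f2 : pd 2 (pd 2 (fun y : E3 => g (rsq y) * w (y 2))) x = pd 2 (fun y : E3 => g (rsq y) * w1 (y 2)) x := by
    unfold pd
    unfold pd at e2
    rw [e2.fderiv_eq]
  rw [f0, f1, f2, (TwW_pdm (hg1 _ hx) (hw _)).1, (TwW_pdm (hg1 _ hx) (hw _)).2, (TwW_pd (hg _ hx) (hw1 _)).2.2]
  unfold rsq
  ring

theorem TwW_rdr {g w : ℝ → ℝ} {g' w' : ℝ} {x : E3} (hg : HasDerivAt g g' (rsq x)) (hw : HasDerivAt w w' (x 2)) :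
    rdr (fun y : E3 => g (rsq y) * w (y 2)) x = 2 * rsq x * g' * w (x 2) := by
  unfold rdr
  rw [(TwW_pd hg hw).1, (TwW_pd hg hw).2.1]
  unfold rsq
  ring

/-! ### The profiles -/

theorem TwW_c1_cd : ContDiff ℝ ∞ (deriv TwW_c) := (contDiff_infty_iff_deriv.1 TwW_c_cd).2

theorem TwW_c2_cd : ContDiff ℝ ∞ (deriv (deriv TwW_c)) := (contDiff_infty_iff_deriv.1 TwW_c1_cd).2

theorem TwW_c_hd (q : ℝ) : HasDerivAt TwW_c (deriv TwW_c q) q := ((TwW_c_cd.differentiable (by simp)) q).hasDerivAt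

theorem TwW_c_hd1 (q : ℝ) : HasDerivAt (deriv TwW_c) (deriv (deriv TwW_c) q) q :=
  ((TwW_c1_cd.differentiable (by simp)) q).hasDerivAt

theorem TwW_c_off {q : ℝ} (hq : q < 1 / 16 ∨ 1 / 8 < q) : deriv TwW_c q = 0 ∧ deriv (deriv TwW_c) q = 0 := by
  obtain ⟨c, hc⟩ : ∃ c : ℝ, TwW_c =ᶠ[𝓝 q] fun _ => c := by
    rcases hq with hq | hq
    · refine ⟨1, ?_⟩
      filter_upwards [gt_mem_nhds hq] with z hz
      unfold TwW_c
      rw [Real.smoothTransition.one_of_one_le (by linarith)]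
      norm_num
    · refine ⟨0, ?_⟩
      filter_upwards [lt_mem_nhds hq] with z hz
      unfold TwW_c
      rw [Real.smoothTransition.zero_of_nonpos (by linarith)]
      norm_num
  have e2 := hc.deriv
  have e3 : deriv TwW_c =ᶠ[𝓝 q] fun _ => 0 := by
    filter_upwards [e2] with z hz
    rw [hz]
    simp
  refine ⟨e3.eq_of_nhds, ?_⟩
  rw [e3.deriv_eq]
  simp

theorem TwW_c_bd : ∃ C : ℝ, 0 ≤ C ∧ ∀ q, |deriv TwW_c q| ≤ C ∧ |deriv (deriv TwW_c) q| ≤ C := by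
  obtain ⟨A, hA⟩ := isCompact_Icc.exists_bound_of_continuousOn (s := Icc (1 / 16 : ℝ) (1 / 8)) TwW_c1_cd.continuous.continuousOn
  obtain ⟨B, hB⟩ := isCompact_Icc.exists_bound_of_continuousOn (s := Icc (1 / 16 : ℝ) (1 / 8)) TwW_c2_cd.continuous.continuousOn
  refine ⟨max 0 (max A B), le_max_left _ _, fun q => ?_⟩
  by_cases hq : q < 1 / 16 ∨ 1 / 8 < q
  · rw [(TwW_c_off hq).1, (TwW_c_off hq).2, abs_zero]
    exact ⟨le_max_left _ _, le_max_left _ _⟩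
  · push Not at hq
    exact ⟨(hA q hq).trans ((le_max_left _ _).trans (le_max_right _ _)),
      (hB q hq).trans ((le_max_right _ _).trans (le_max_right _ _))⟩

/-- The profile of `k0 s`. -/
noncomputable def TwW_g (s q : ℝ) : ℝ := (q / 2) ^ s * TwW_c q

/-- First derivative. -/
noncomputable def TwW_g1 (s q : ℝ) : ℝ := s / 2 * (q / 2) ^ (s - 1) * TwW_c q + (q / 2) ^ s * deriv TwW_c q

/-- Second derivative. -/
noncomputable def TwW_g2 (s q : ℝ) : ℝ :=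
  s * (s - 1) / 4 * (q / 2) ^ (s - 2) * TwW_c q + s * (q / 2) ^ (s - 1) * deriv TwW_c q +
    (q / 2) ^ s * deriv (deriv TwW_c) q

theorem TwW_pw (s : ℝ) {q : ℝ} (hq : 0 < q) : HasDerivAt (fun q : ℝ => (q / 2) ^ s) (s / 2 * (q / 2) ^ (s - 1)) q := by
  have h1 : HasDerivAt (fun q : ℝ => q / 2) (1 / 2) q := (hasDerivAt_id q).div_const 2
  refine (h1.rpow_const (Or.inl (by positivity))).congr_deriv ?_
  ring

theorem TwW_g_hd (s q : ℝ) (hq : 0 < q) : HasDerivAt (TwW_g s) (TwW_g1 s q) q :=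
  (TwW_pw s hq).mul (TwW_c_hd q)

theorem TwW_g1_hd (s q : ℝ) (hq : 0 < q) : HasDerivAt (TwW_g1 s) (TwW_g2 s q) q := by
  have h1 := (((TwW_pw (s - 1) hq).const_mul (s / 2)).mul (TwW_c_hd q)).add ((TwW_pw s hq).mul (TwW_c_hd1 q))
  refine h1.congr_deriv ?_
  unfold TwW_g2
  rw [show s - 1 - 1 = s - 2 by ring]
  ring

theorem TwW_kx (s L a h : ℝ) : kx s L a h = fun y : E3 => TwW_g s (rsq y) * (fun t => ph L a (t + h / 2)) (y 2) := rfl

theorem TwW_w_hd (L a h t : ℝ) : HasDerivAt (fun t => ph L a (t + h / 2)) ((fun t => deriv (ph L a) (t + h / 2)) t) t :=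
  (((ph_smooth L a).differentiable (by simp)) _).hasDerivAt.comp_add_const t (h / 2)

theorem TwW_w1_hd (L a h t : ℝ) : HasDerivAt (fun t => deriv (ph L a) (t + h / 2))
    ((fun t => deriv (deriv (ph L a)) (t + h / 2)) t) t :=
  ((((contDiff_infty_iff_deriv.1 (ph_smooth L a)).2).differentiable (by simp)) _).hasDerivAt.comp_add_const t (h / 2)

theorem TwW_rc (x : E3) : rdr (fun y => c2 y ^ 4) x = 2 * rsq x * deriv TwW_c (rsq x) := by
  have h1 := TwW_rdr (x := x) (TwW_c_hd (rsq x)) (hasDerivAt_const (x 2) (1 : ℝ))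
  have h2 : (fun y : E3 => c2 y ^ 4) = fun y : E3 => TwW_c (rsq y) * (fun _ => (1 : ℝ)) (y 2) := by
    funext y
    rw [TwW_c_eq, mul_one]
  rw [h2, h1, mul_one]

theorem kx_rdr (s L a h : ℝ) {x : E3} (hx : 0 < rsq x) : rdr (kx s L a h) x = 2 * s * kx s L a h x + kc s L a h x := by
  have e1 : kx s L a h x = (rsq x / 2) ^ s * TwW_c (rsq x) * ph L a (x 2 + h / 2) := rfl
  have e2 : rdr (kx s L a h) x = 2 * rsq x * TwW_g1 s (rsq x) * ph L a (x 2 + h / 2) := by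
    rw [TwW_kx, TwW_rdr (TwW_g_hd s _ hx) (TwW_w_hd L a h _)]
  rw [e1, e2]
  unfold kc
  rw [TwW_rc]
  unfold TwW_g1
  rw [TwW_rpow' s (by positivity : 0 < rsq x / 2)]
  ring

theorem kx_pd2 {L : ℝ} (hL : 1 ≤ L) (s a h : ℝ) {x : E3} (hx : 0 < rsq x) :
    pd 2 (kx s L a h) x = k0 s x * deriv (ph L a) (x 2 + h / 2) ∧ |pd 2 (kx s L a h) x| ≤ kx s L a h x / L := by
  have h1 : pd 2 (kx s L a h) x = k0 s x * deriv (ph L a) (x 2 + h / 2) := by
    rw [TwW_kx, (TwW_pd (TwW_g_hd s _ hx) (TwW_w_hd L a h _)).2.2]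
    rfl
  refine ⟨h1, ?_⟩
  have h2 := (k0_f s).2.1 x
  rw [h1, abs_mul, abs_of_nonneg h2, kx_k0, mul_div_assoc]
  exact mul_le_mul_of_nonneg_left (ph_deriv (by linarith) a _) h2

theorem TwW_pw_bd {s y : ℝ} (hs : |s| ≤ 1) (h1 : 1 / 32 ≤ y) (h2 : y ≤ 1) : y ^ s ≤ 32 := by
  have hy : 0 < y := by linarith
  have h3 : y ^ s ≤ y ^ (-1 : ℝ) := Real.rpow_le_rpow_of_exponent_ge hy h2 (abs_le.1 hs).1
  refine h3.trans ?_
  rw [Real.rpow_neg_one]
  rw [inv_le_comm₀ hy (by norm_num)]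
  linarith

theorem TwW_ou {x : E3} (h : 1 / 16 ≤ rsq x ∧ rsq x ≤ 1 / 8) : ou x = 1 := by
  unfold ou
  rw [indicator_of_mem]
  exact h

theorem TwW_ou0 (x : E3) : 0 ≤ ou x := indicator_nonneg (fun _ _ => zero_le_one) _

theorem kc_bd : ∃ C : ℝ, 1 ≤ C ∧ ∀ (s L a h : ℝ), |s| ≤ 1 → ∀ x, |kc s L a h x| ≤ C * (ou x * ph L a (x 2 + h / 2)) := by
  obtain ⟨C, hC0, hC⟩ := TwW_c_bd
  refine ⟨1 + 32 * C, by linarith, fun s L a h hs x => ?_⟩
  have hp := ph_pos L a (x 2 + h / 2)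
  unfold kc
  rw [TwW_rc]
  by_cases hq : rsq x < 1 / 16 ∨ 1 / 8 < rsq x
  · rw [(TwW_c_off hq).1]
    have := TwW_ou0 x
    simp only [mul_zero, zero_mul, abs_zero]
    positivity
  · push Not at hq
    rw [TwW_ou hq]
    have h1 := (hC (rsq x)).1
    have h2 : (rsq x / 2) ^ s ≤ 32 := TwW_pw_bd hs (by linarith [hq.1]) (by linarith [hq.2])
    have h3 : 0 ≤ (rsq x / 2) ^ s := Real.rpow_nonneg (div_nonneg (TwW_rsq_nn x) (by norm_num)) _
    have h4 := TwW_rsq_nn x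
    have h5 : |2 * rsq x * deriv TwW_c (rsq x)| ≤ 1 * C := by
      rw [abs_mul, abs_of_nonneg (by positivity)]
      exact mul_le_mul (by linarith [hq.2]) h1 (abs_nonneg _) (by norm_num)
    rw [abs_mul, abs_mul, abs_of_nonneg h3, abs_of_pos hp, one_mul]
    apply mul_le_mul_of_nonneg_right _ hp.le
    calc (rsq x / 2) ^ s * |2 * rsq x * deriv TwW_c (rsq x)| ≤ 32 * (1 * C) := mul_le_mul h2 h5 (abs_nonneg _) (by norm_num)
      _ ≤ 1 + 32 * C := by linarith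

theorem kx_lap : ∃ C : ℝ, 1 ≤ C ∧ ∀ (s L a h : ℝ), |s| ≤ 1 → 1 ≤ L → ∀ x : E3, 0 < rsq x →
    |lap (kx s L a h) x - 2 / rsq x * rdr (kx s L a h) x - 2 * s * (s - 1) * kx (s - 1) L a h x| ≤
      C * (ou x * ph L a (x 2 + h / 2)) + 10 * kx s L a h x / L ^ 2 := by
  obtain ⟨C, hC0, hC⟩ := TwW_c_bd
  refine ⟨1 + 32 * (9 * C), by linarith, fun s L a h hs hL x hx => ?_⟩
  have hp := ph_pos L a (x 2 + h / 2)
  have hk := (k0_f s).2.1 x
  have hL0 : 0 < L := by linarith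
  obtain ⟨q, hqd⟩ : ∃ q, q = rsq x := ⟨_, rfl⟩
  obtain ⟨P, hP⟩ : ∃ P, P = (q / 2) ^ (s - 2) := ⟨_, rfl⟩
  have hq0 : 0 < q := by rw [hqd]; exact hx
  have p1 : (q / 2) ^ (s - 1) = q / 2 * P := by
    rw [hP, show s - 2 = (s - 1) - 1 by ring]
    exact TwW_rpow' (s - 1) (by positivity)
  have p2 : (q / 2) ^ s = q / 2 * (q / 2 * P) := by
    rw [← p1]
    exact TwW_rpow' s (by positivity)
  have key : lap (kx s L a h) x - 2 / rsq x * rdr (kx s L a h) x - 2 * s * (s - 1) * kx (s - 1) L a h x =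
      (q / 2) ^ s * (8 * s * deriv TwW_c q + 4 * q * deriv (deriv TwW_c) q) * ph L a (x 2 + h / 2) +
        k0 s x * deriv (deriv (ph L a)) (x 2 + h / 2) := by
    have e1 : lap (kx s L a h) x = (4 * rsq x * TwW_g2 s (rsq x) + 4 * TwW_g1 s (rsq x)) * ph L a (x 2 + h / 2) +
        k0 s x * deriv (deriv (ph L a)) (x 2 + h / 2) := by
      rw [TwW_kx, TwW_lap (TwW_g_hd s) (TwW_g1_hd s) (TwW_w_hd L a h) (TwW_w1_hd L a h) hx]
      rfl
    have e2 : rdr (kx s L a h) x = 2 * rsq x * TwW_g1 s (rsq x) * ph L a (x 2 + h / 2) := by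
      rw [TwW_kx, TwW_rdr (TwW_g_hd s _ hx) (TwW_w_hd L a h _)]
    have e3 : kx (s - 1) L a h x = (q / 2) ^ (s - 1) * TwW_c q * ph L a (x 2 + h / 2) := by
      rw [kx_k0]
      unfold k0
      rw [TwW_c_eq, hqd]
    rw [e1, e2, e3, ← hqd]
    unfold TwW_g2 TwW_g1
    rw [← hP, p2, p1]
    field_simp
    ring
  rw [key]
  have h1 : |k0 s x * deriv (deriv (ph L a)) (x 2 + h / 2)| ≤ 10 * kx s L a h x / L ^ 2 := by
    rw [abs_mul, abs_of_nonneg hk, kx_k0]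
    have := mul_le_mul_of_nonneg_left (ph_d2 hL0 a (x 2 + h / 2)) hk
    refine this.trans (le_of_eq (by ring))
  have h2 : |(q / 2) ^ s * (8 * s * deriv TwW_c q + 4 * q * deriv (deriv TwW_c) q) * ph L a (x 2 + h / 2)| ≤
      (1 + 32 * (9 * C)) * (ou x * ph L a (x 2 + h / 2)) := by
    by_cases hq : q < 1 / 16 ∨ 1 / 8 < q
    · rw [(TwW_c_off hq).1, (TwW_c_off hq).2]
      have := TwW_ou0 x
      simp only [mul_zero, add_zero, zero_mul, abs_zero]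
      positivity
    · push Not at hq
      rw [TwW_ou (by rw [← hqd]; exact hq)]
      have h3 : (q / 2) ^ s ≤ 32 := TwW_pw_bd hs (by linarith [hq.1]) (by linarith [hq.2])
      have h4 : 0 ≤ (q / 2) ^ s := Real.rpow_nonneg (by positivity) _
      have h5 : |8 * s * deriv TwW_c q + 4 * q * deriv (deriv TwW_c) q| ≤ 9 * C := by
        refine (abs_add_le _ _).trans ?_
        have h6 : |8 * s * deriv TwW_c q| ≤ 8 * C := by
          rw [abs_mul, abs_mul, abs_of_pos (by norm_num : (0 : ℝ) < 8)]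
          exact mul_le_mul (by linarith) (hC q).1 (abs_nonneg _) (by norm_num)
        have h7 : |4 * q * deriv (deriv TwW_c) q| ≤ 1 * C := by
          rw [abs_mul, abs_of_pos (by positivity : 0 < 4 * q)]
          exact mul_le_mul (by linarith [hq.2]) (hC q).2 (abs_nonneg _) (by norm_num)
        linarith
      rw [abs_mul, abs_mul, abs_of_nonneg h4, abs_of_pos hp, one_mul]
      apply mul_le_mul_of_nonneg_right _ hp.le
      calc (q / 2) ^ s * |8 * s * deriv TwW_c q + 4 * q * deriv (deriv TwW_c) q| ≤ 32 * (9 * C) :=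
            mul_le_mul h3 h5 (abs_nonneg _) (by norm_num)
        _ ≤ 1 + 32 * (9 * C) := by linarith
  exact (abs_add_le _ _).trans (add_le_add h2 h1)

end Pool.Agent.H88.EP
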