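/-
ROW TwS (MP_09540e_EP). Line suprema (the cost lemma is S6i of H87/EP/J). Aux lemmas prefixed TwS_. PROOF.
A1_int: `A1 L a x ≤ 1_{rsq<1} ph L a (x 2)`, ph_cyl (TwI), continuous. ls: `x ↦ k0 (θ-1) x * be κ x ^ 2 * ph L a (x 2) * F x` is measurable, ≥ 0, rotation invariant; cy_lint: `∫⁻ = 2π ∫⁻_{r>0} r (r²/2)^(θ-1) c2⁴ min(1, κ r)² ∫⁻_z ph F(lp r z) dz dr ≤ 2π M ∫_0^{1/2} r (r²/2)^(θ-1) min(1, κ r)² dr` (c2 = 0 for r² ≥ 1/8, so r < 1/2). `r (r²/2)^(θ-1) = 2^(1-θ) r^(2θ-1) ≤ 2 r^(2θ-1)`, `r^(2θ-1) ≤ r^(-1)` on (0,1],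
`∫_0^{1/κ} κ² r dr = 1/2`, `∫_{1/κ}^1 dr/r = log κ`: total `≤ 4π M (1/2 + log κ) ≤ 4 Sc κ M` (`Sc κ = 20 + 4 log κ`, π < 3.15: 4π/2 ≤ 6.3 ≤ 80, 4π ≤ 16). ls0: the weight `k0 (θ-1) rsq ≤ 2 c1⁴` (`k0 (θ-1) rsq / 2 = k0 θ ≤ c1⁴`, k0_f): pointwise comparison, no polar coordinates.
-/
import Pool.Agent.H88.EP.TwH
import Pool.Agent.H88.EP.TwI
import Pool.Agent.H88.EP.TwW
import Pool.Agent.H87.EP.J

set_option autoImplicit false

open Set Filter Topology MeasureTheory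
open scoped ContDiff

namespace Pool.Agent.H88.EP

open Pool.Agent.H16 Pool.Agent.H72.CC Pool.Agent.H87.EP
open Pool.Agent.H87.NS hiding c1
open Pool.Agent.H16.TU hiding Sl
open Pool.Agent.H94.EP

/-- Bounded continuous functions are integrable against `A1`. -/
theorem A1_int {L : ℝ} (hL : 1 ≤ L) (a : ℝ) {F : E3 → ℝ} (hF : Continuous F) {B : ℝ} (hB : ∀ x, |F x| ≤ B) : Integrable (fun x => A1 L a x * F x) := by
  have hB0 : 0 ≤ B := (abs_nonneg _).trans (hB 0)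
  refine ((ph_cyl hL a).mul_const B).mono' ((A1_ri hL a).sm.continuous.mul hF).aestronglyMeasurable (ae_of_all _ fun x => ?_)
  rw [Real.norm_eq_abs, abs_mul, abs_of_nonneg (A1_nn L a x).1]
  by_cases h : rsq x < 1
  · rw [indicator_of_mem (show x ∈ {x : E3 | rsq x < 1} from h)]
    exact mul_le_mul (A1_nn L a x).2 (hB x) (abs_nonneg _) (ph_pos L a _).le
  · rw [A1_zero L a (by linarith [not_lt.1 h] : (1 : ℝ) / 2 ≤ rsq x), zero_mul,
      indicator_of_notMem (show x ∉ {x : E3 | rsq x < 1} from h), zero_mul]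

/-- The horizontal weight on the line. -/
noncomputable def TwS_w (κ θ r : ℝ) : ℝ := (r ^ 2 / 2) ^ (θ - 1) * Real.smoothTransition (2 - 16 * r ^ 2) ^ 4 * min 1 (κ * r) ^ 2

theorem TwS_w0 (κ θ : ℝ) {r : ℝ} (hr : 0 < r) : 0 ≤ TwS_w κ θ r := by
  unfold TwS_w
  have h1 : 0 ≤ (r ^ 2 / 2) ^ (θ - 1) := Real.rpow_nonneg (by positivity) _
  have h2 : 0 ≤ Real.smoothTransition (2 - 16 * r ^ 2) := Real.smoothTransition.nonneg _
  positivity

theorem TwS_wz (κ θ : ℝ) {r : ℝ} (hr : 1 / 8 ≤ r ^ 2) : TwS_w κ θ r = 0 := by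
  unfold TwS_w
  rw [Real.smoothTransition.zero_of_nonpos (by linarith)]
  ring

theorem TwS_lp {κ θ : ℝ} {r : ℝ} (hr : 0 < r) (z : ℝ) : k0 (θ - 1) (lp r z) * be κ (lp r z) ^ 2 = TwS_w κ θ r := by
  obtain ⟨h1, h2, -⟩ := lp_f r z
  unfold k0 be c2 TwS_w
  rw [h1, h2, abs_of_pos hr]

theorem TwS_pw {θ : ℝ} (h0 : 0 < θ) {r : ℝ} (hr : 0 < r) (hr1 : r ≤ 1) : r * (r ^ 2 / 2) ^ (θ - 1) ≤ 2 / r := by
  have h1 : (r ^ 2 / 2) ^ (θ - 1) ≤ (r ^ 2 / 2) ^ (-1 : ℝ) :=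
    Real.rpow_le_rpow_of_exponent_ge (by positivity) (by nlinarith) (by linarith)
  rw [Real.rpow_neg_one] at h1
  calc r * (r ^ 2 / 2) ^ (θ - 1) ≤ r * (r ^ 2 / 2)⁻¹ := mul_le_mul_of_nonneg_left h1 hr.le
    _ = 2 / r := by field_simp

/-- The pointwise bound of the radial weight. -/
theorem TwS_bd {κ θ : ℝ} (hκ : 1 ≤ κ) (h0 : 0 < θ) {r : ℝ} (hr : 0 < r) :
    (r ≤ 1 / κ → r * TwS_w κ θ r ≤ 2 * κ ^ 2 * r) ∧ (r ≤ 1 → r * TwS_w κ θ r ≤ 2 * (1 / r)) := by
  have hs0 : 0 ≤ Real.smoothTransition (2 - 16 * r ^ 2) := Real.smoothTransition.nonneg _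
  have hs1 : Real.smoothTransition (2 - 16 * r ^ 2) ^ 4 ≤ 1 := pow_le_one₀ hs0 (Real.smoothTransition.le_one _)
  have hκ0 : 0 < κ := by linarith
  have key : r ≤ 1 → ∀ m : ℝ, min 1 (κ * r) ^ 2 ≤ m → r * TwS_w κ θ r ≤ 2 / r * m := by
    intro hr1 m hm
    have h1 := TwS_pw h0 hr hr1
    have h2 : 0 ≤ (r ^ 2 / 2) ^ (θ - 1) := Real.rpow_nonneg (by positivity) _
    have hm0 : 0 ≤ m := (sq_nonneg _).trans hm
    calc r * TwS_w κ θ r = (r * (r ^ 2 / 2) ^ (θ - 1)) * (Real.smoothTransition (2 - 16 * r ^ 2) ^ 4 * min 1 (κ * r) ^ 2) := by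
          unfold TwS_w
          ring
      _ ≤ (2 / r) * (1 * m) := by
          refine mul_le_mul h1 (mul_le_mul hs1 hm (sq_nonneg _) zero_le_one) (by positivity) (by positivity)
      _ = 2 / r * m := by ring
  have hm0 : 0 ≤ min 1 (κ * r) := le_min zero_le_one (by positivity)
  refine ⟨fun h => ?_, fun h => ?_⟩
  · have hr1 : r ≤ 1 := h.trans (by rw [div_le_one hκ0]; exact hκ)
    have h3 := key hr1 ((κ * r) ^ 2) (pow_le_pow_left₀ hm0 (min_le_right _ _) 2)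
    refine h3.trans (le_of_eq ?_)
    field_simp
  · have h3 := key h 1 (by nlinarith [min_le_left 1 (κ * r)])
    refine h3.trans (le_of_eq ?_)
    ring

theorem TwS_i1 {κ M : ℝ} (hκ : 1 ≤ κ) (hM : 0 ≤ M) :
    ∫⁻ r in Ioc 0 (1 / κ), ENNReal.ofReal (2 * κ ^ 2 * r * M) = ENNReal.ofReal M := by
  have hκ0 : 0 < κ := by linarith
  have h1 : ∫ r in (0 : ℝ)..(1 / κ), 2 * κ ^ 2 * r * M = M := by
    have : (fun r : ℝ => 2 * κ ^ 2 * r * M) = fun r => (2 * κ ^ 2 * M) * r := by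
      funext r
      ring
    rw [this, intervalIntegral.integral_const_mul, integral_id]
    field_simp
    ring
  rw [intervalIntegral.integral_of_le (by positivity)] at h1
  rw [← ofReal_integral_eq_lintegral_ofReal, h1]
  · have hc : Continuous (fun r : ℝ => 2 * κ ^ 2 * r * M) := by fun_prop
    exact (hc.integrableOn_Icc).mono_set Ioc_subset_Icc_self
  · refine (ae_restrict_iff' measurableSet_Ioc).2 (ae_of_all _ fun r hr => ?_)
    have := hr.1
    simp only [Pi.zero_apply]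
    positivity

theorem TwS_i2 {κ M : ℝ} (hκ : 1 ≤ κ) (hM : 0 ≤ M) :
    ∫⁻ r in Ioc (1 / κ) 1, ENNReal.ofReal (2 * (1 / r) * M) = ENNReal.ofReal (2 * M * Real.log κ) := by
  have hκ0 : 0 < κ := by linarith
  have hk1 : 1 / κ ≤ 1 := by rw [div_le_one hκ0]; exact hκ
  have h1 : ∫ r in (1 / κ : ℝ)..1, 2 * (1 / r) * M = 2 * M * Real.log κ := by
    have : (fun r : ℝ => 2 * (1 / r) * M) = fun r => (2 * M) * (1 / r) := by
      funext r
      ring
    rw [this, intervalIntegral.integral_const_mul, integral_one_div_of_pos (by positivity) one_pos]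
    congr 2
    field_simp
  rw [intervalIntegral.integral_of_le hk1] at h1
  rw [← ofReal_integral_eq_lintegral_ofReal, h1]
  · have hc : ContinuousOn (fun r : ℝ => 2 * (1 / r) * M) (Icc (1 / κ) 1) := by
      refine ContinuousOn.mul (ContinuousOn.mul continuousOn_const (ContinuousOn.div continuousOn_const continuousOn_id fun r hr => ?_)) continuousOn_const
      have : 0 < r := lt_of_lt_of_le (by positivity) hr.1
      exact this.ne'
    exact (hc.integrableOn_Icc).mono_set Ioc_subset_Icc_self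
  · refine (ae_restrict_iff' measurableSet_Ioc).2 (ae_of_all _ fun r hr => ?_)
    have : 0 < r := lt_trans (by positivity) hr.1
    simp only [Pi.zero_apply]
    positivity

/-- Line suprema cost one factor `Sc κ`. -/
theorem ls {κ θ L : ℝ} (hκ : 1 ≤ κ) (h0 : 0 < θ) (h1 : θ ≤ 1 / 2) (hL : 1 ≤ L) (a : ℝ) {F : E3 → ℝ} (hF : Continuous F) (hF0 : ∀ x, 0 ≤ F x)
    (hr : ∀ t x, F (rot t x) = F x) {M : ℝ} (hM : 0 ≤ M)
    (hl : ∀ r, 0 < r → r ^ 2 ≤ 1 / 4 → Integrable (fun s => ph L a s * F (lp r s)) ∧ ∫ s, ph L a s * F (lp r s) ≤ M) :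
    Integrable (fun x => k0 (θ - 1) x * be κ x ^ 2 * ph L a (x 2) * F x) ∧
    ∫ x, k0 (θ - 1) x * be κ x ^ 2 * ph L a (x 2) * F x ≤ 4 * Sc κ * M := by
  have hκ0 : 0 < κ := by linarith
  obtain ⟨km, k1, -, k3, k4, -⟩ := k0_f (θ - 1)
  have hrad : Measurable (rad : E3 → ℝ) := by
    unfold rad
    have : Continuous (fun x : E3 => √(x 0 ^ 2 + x 1 ^ 2)) := by fun_prop
    exact this.measurable
  have hbm : Measurable (be κ) := by
    unfold be
    exact measurable_const.min (hrad.const_mul κ)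
  have hpm : Measurable (fun x : E3 => ph L a (x 2)) := by
    have : Continuous (fun x : E3 => ph L a (x 2)) := by
      apply (ph_smooth L a).continuous.comp
      fun_prop
    exact this.measurable
  have hm : Measurable (fun x => k0 (θ - 1) x * be κ x ^ 2 * ph L a (x 2) * F x) :=
    ((km.mul (hbm.pow_const 2)).mul hpm).mul hF.measurable
  have hnn : ∀ x, 0 ≤ k0 (θ - 1) x * be κ x ^ 2 * ph L a (x 2) * F x := fun x =>
    mul_nonneg (mul_nonneg (mul_nonneg (k1 x) (sq_nonneg _)) (ph_pos L a _).le) (hF0 x)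
  have hrot : ∀ t x, be κ (rot t x) = be κ x := by
    intro t x
    have h2 : ∀ y : E3, rad y = √(rsq y) := fun y => rfl
    unfold be
    rw [h2, h2, TwW_rsq_rot]
  have hlog : 0 ≤ Real.log κ := Real.log_nonneg hκ
  have hlin : ∫⁻ x, ENNReal.ofReal (k0 (θ - 1) x * be κ x ^ 2 * ph L a (x 2) * F x) ≤ ENNReal.ofReal (4 * Sc κ * M) := by
    rw [cy_lint (F := fun x => ENNReal.ofReal (k0 (θ - 1) x * be κ x ^ 2 * ph L a (x 2) * F x)) hm.ennreal_ofReal (fun t x => by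
      simp only
      rw [k3, hrot, rot_two', hr])]
    have h2 : ∀ r ∈ Ioi (0 : ℝ), ENNReal.ofReal r * ∫⁻ z, ENNReal.ofReal (k0 (θ - 1) (lp r z) * be κ (lp r z) ^ 2 * ph L a ((lp r z) 2) * F (lp r z)) ≤
        (Ioc 0 (1 / κ)).indicator (fun r => ENNReal.ofReal (2 * κ ^ 2 * r * M)) r +
        (Ioc (1 / κ) 1).indicator (fun r => ENNReal.ofReal (2 * (1 / r) * M)) r := by
      intro r hr0
      have hr0 : 0 < r := hr0
      have h3 : ∀ z, k0 (θ - 1) (lp r z) * be κ (lp r z) ^ 2 * ph L a ((lp r z) 2) * F (lp r z) = TwS_w κ θ r * (ph L a z * F (lp r z)) := by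
        intro z
        rw [TwS_lp hr0, (lp_f r z).2.2.2.2.1]
        ring
      simp only [h3]
      rcases le_or_gt (1 / 8) (r ^ 2) with h8 | h8
      · rw [TwS_wz κ θ h8]
        simp
      · obtain ⟨i1, i2⟩ := hl r hr0 (by linarith)
        have h4 : ∫⁻ z, ENNReal.ofReal (TwS_w κ θ r * (ph L a z * F (lp r z))) = ENNReal.ofReal (∫ z, TwS_w κ θ r * (ph L a z * F (lp r z))) :=
          (ofReal_integral_eq_lintegral_ofReal (i1.const_mul _) (ae_of_all _ fun z =>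
            mul_nonneg (TwS_w0 κ θ hr0) (mul_nonneg (ph_pos L a z).le (hF0 _)))).symm
        rw [h4, integral_const_mul, ← ENNReal.ofReal_mul hr0.le]
        have h5 : r * (TwS_w κ θ r * ∫ z, ph L a z * F (lp r z)) ≤ r * TwS_w κ θ r * M := by
          rw [← mul_assoc]
          exact mul_le_mul_of_nonneg_left i2 (mul_nonneg hr0.le (TwS_w0 κ θ hr0))
        have hr1 : r ≤ 1 := by nlinarith
        obtain ⟨b1, b2⟩ := TwS_bd (θ := θ) hκ h0 hr0
        rcases le_or_gt r (1 / κ) with hk | hk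
        · rw [indicator_of_mem (show r ∈ Ioc 0 (1 / κ) from ⟨hr0, hk⟩)]
          refine le_trans (ENNReal.ofReal_le_ofReal (h5.trans (mul_le_mul_of_nonneg_right (b1 hk) hM))) le_self_add
        · rw [indicator_of_mem (show r ∈ Ioc (1 / κ) 1 from ⟨hk, hr1⟩)]
          refine le_trans (ENNReal.ofReal_le_ofReal (h5.trans (mul_le_mul_of_nonneg_right (b2 hr1) hM))) le_add_self
    have h6 : ∫⁻ r in Ioi (0 : ℝ), ENNReal.ofReal r * ∫⁻ z, ENNReal.ofReal (k0 (θ - 1) (lp r z) * be κ (lp r z) ^ 2 * ph L a ((lp r z) 2) * F (lp r z)) ≤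
        ENNReal.ofReal M + ENNReal.ofReal (2 * M * Real.log κ) := by
      refine (setLIntegral_mono' measurableSet_Ioi h2).trans ?_
      rw [lintegral_add_left ((by fun_prop : Measurable fun r : ℝ => ENNReal.ofReal (2 * κ ^ 2 * r * M)).indicator measurableSet_Ioc)]
      refine add_le_add ?_ ?_
      · refine (setLIntegral_le_lintegral _ _).trans ?_
        rw [lintegral_indicator measurableSet_Ioc, TwS_i1 hκ hM]
      · refine (setLIntegral_le_lintegral _ _).trans ?_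
        rw [lintegral_indicator measurableSet_Ioc, TwS_i2 hκ hM]
    refine (mul_le_mul_right h6 _).trans ?_
    rw [← ENNReal.ofReal_add hM (by positivity), ← ENNReal.ofReal_mul (by positivity)]
    refine ENNReal.ofReal_le_ofReal ?_
    have hpi := Real.pi_le_four
    have hpi0 := Real.pi_pos
    have hMl : 0 ≤ M * Real.log κ := mul_nonneg hM hlog
    unfold Sc
    nlinarith [mul_le_mul_of_nonneg_right hpi hM, mul_le_mul_of_nonneg_right hpi hMl]
  have hint : Integrable (fun x => k0 (θ - 1) x * be κ x ^ 2 * ph L a (x 2) * F x) := by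
    refine ⟨hm.aestronglyMeasurable, ?_⟩
    rw [hasFiniteIntegral_iff_ofReal (ae_of_all _ hnn)]
    exact lt_of_le_of_lt hlin ENNReal.ofReal_lt_top
  refine ⟨hint, ?_⟩
  rw [integral_eq_lintegral_of_nonneg_ae (ae_of_all _ hnn) hint.1]
  have hS : 0 ≤ 4 * Sc κ * M := by
    unfold Sc
    positivity
  exact ENNReal.toReal_le_of_le_ofReal hS hlin

theorem ls0 {θ L : ℝ} (h0 : 0 < θ) (h1 : θ ≤ 1 / 2) (hL : 1 ≤ L) (a : ℝ) {F : E3 → ℝ} (hF : Continuous F) (hF0 : ∀ x, 0 ≤ F x) {B : ℝ} (hB : ∀ x, F x ≤ B) :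
    Integrable (fun x => k0 (θ - 1) x * ph L a (x 2) * (rsq x * F x)) ∧
    ∫ x, k0 (θ - 1) x * ph L a (x 2) * (rsq x * F x) ≤ 2 * ∫ x, A1 L a x * F x := by
  obtain ⟨km, k1, -⟩ := k0_f (θ - 1)
  obtain ⟨-, -, -, -, -, k6, k7, -⟩ := k0_f θ
  have hA := A1_int hL a hF (B := B) (fun x => by rw [abs_of_nonneg (hF0 x)]; exact hB x)
  have hpm : Measurable (fun x : E3 => ph L a (x 2)) := by
    have : Continuous (fun x : E3 => ph L a (x 2)) := by
      apply (ph_smooth L a).continuous.comp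
      fun_prop
    exact this.measurable
  have hm : Measurable (fun x => k0 (θ - 1) x * ph L a (x 2) * (rsq x * F x)) :=
    (km.mul hpm).mul (A_rsq_cont.measurable.mul hF.measurable)
  have hle : ∀ x, k0 (θ - 1) x * ph L a (x 2) * (rsq x * F x) ≤ 2 * (A1 L a x * F x) := by
    intro x
    have h2 := k6 h0 x
    have h3 := (k7 h0.le x).2
    have h4 : k0 (θ - 1) x * ph L a (x 2) * (rsq x * F x) = 2 * (k0 θ x * (ph L a (x 2) * F x)) := by
      rw [h2]
      ring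
    rw [h4]
    have h5 := mul_le_mul_of_nonneg_right h3 (mul_nonneg (ph_pos L a (x 2)).le (hF0 x))
    have h6 : A1 L a x * F x = c1 x ^ 4 * (ph L a (x 2) * F x) := by
      unfold A1
      ring
    rw [h6]
    linarith
  have hnn : ∀ x, 0 ≤ k0 (θ - 1) x * ph L a (x 2) * (rsq x * F x) := fun x =>
    mul_nonneg (mul_nonneg (k1 x) (ph_pos L a _).le) (mul_nonneg (TwW_rsq_nn x) (hF0 x))
  have hi : Integrable (fun x => k0 (θ - 1) x * ph L a (x 2) * (rsq x * F x)) :=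
    (hA.const_mul 2).mono' hm.aestronglyMeasurable (ae_of_all _ fun x => by
      rw [Real.norm_eq_abs, abs_of_nonneg (hnn x)]
      exact hle x)
  refine ⟨hi, ?_⟩
  rw [← integral_const_mul]
  exact integral_mono hi (hA.const_mul 2) hle

theorem Sc_f {κ : ℝ} (hκ : 1 ≤ κ) : 20 ≤ Sc κ ∧ 0 < 1 / Sc κ ∧ 1 / Sc κ ≤ 1 / 20 ∧ Real.log κ ≤ Sc κ / 4 := by
  have hlog : 0 ≤ Real.log κ := Real.log_nonneg hκ
  have h1 : 20 ≤ Sc κ := by
    unfold Sc
    linarith
  refine ⟨h1, by positivity, one_div_le_one_div_of_le (by norm_num) h1, ?_⟩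
  unfold Sc
  linarith

theorem TwS_gsq (f : E3 → ℝ) (x : E3) : 0 ≤ gsq f x := by
  unfold gsq
  exact Finset.sum_nonneg fun _ _ => sq_nonneg _

/-- The functionals are nonnegative. -/
theorem nn_f {θ L : ℝ} (hL : 1 ≤ L) (h0 : 0 < θ) (h1 : θ ≤ 1 / 2) (a : ℝ) {v : E3 → E3} (hv : Vs v) : 0 ≤ NJ L a v ∧ 0 ≤ NO L a v ∧ 0 ≤ DJ L a v ∧
    0 ≤ DO L a v ∧ 0 ≤ GG L a v ∧ 0 ≤ BB θ L a v ∧ 0 ≤ DB2 θ L a v ∧ 0 ≤ GB θ L a v := by
  have hk := (kh_f h0 h1).1
  obtain ⟨-, x1, -⟩ := kx_f hL θ a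
  obtain ⟨-, x2, -⟩ := kx_f hL (θ - 1) a
  refine ⟨integral_nonneg fun x => mul_nonneg (A1_nn L a x).1 (sq_nonneg _), integral_nonneg fun x => mul_nonneg (A1_nn L a x).1 (sq_nonneg _),
    integral_nonneg fun x => mul_nonneg (A1_nn L a x).1 (TwS_gsq _ _), integral_nonneg fun x => mul_nonneg (A1_nn L a x).1 (TwS_gsq _ _), ?_, ?_, ?_, ?_⟩
  · unfold GG
    exact integral_nonneg fun x => mul_nonneg (ph_pos _ _ _).le (gv_nn _ _)
  · exact integral_nonneg fun h => mul_nonneg (hk h).1 (integral_nonneg fun x => mul_nonneg (x1 h x) (sq_nonneg _))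
  · exact integral_nonneg fun h => mul_nonneg (hk h).1 (integral_nonneg fun x => mul_nonneg (x1 h x) (TwS_gsq _ _))
  · exact mul_nonneg (mul_nonneg h0.le (by linarith)) (integral_nonneg fun h => mul_nonneg (hk h).1 (integral_nonneg fun x => mul_nonneg (x2 h x) (sq_nonneg _)))

/-- The functionals in terms of `Th`. -/
theorem Th_f (θ L a : ℝ) (v : E3 → E3) : DB2 θ L a v = Th θ (G1 θ L a v) ∧ GB θ L a v = θ * (1 - θ) * Th θ (G2 θ L a v) ∧
    BB θ L a v = Th θ (I6 θ L a v) := ⟨rfl, rfl, rfl⟩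

end Pool.Agent.H88.EP
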