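import Pool.Agent.H88.EP.TwD

/-! The integrands of the identity for the rate of the two-point functional: definitions. -/

set_option autoImplicit false

open Set Filter Topology MeasureTheory
open scoped ContDiff

namespace Pool.Agent.H88.EP

open Pool.Agent.H16 Pool.Agent.H72.CC Pool.Agent.H87.EP
open Pool.Agent.H87.NS hiding c1
open Pool.Agent.H16.TU hiding Sl
open Pool.Agent.H94.EP

/-- The first form of the integrand. -/
noncomputable def P0 (θ L a : ℝ) (v : E3 → E3) (h : ℝ) (x : E3) : ℝ :=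
  - (kx θ L a h x * gsq (fh h v) x) + 1 / 2 * fh h v x ^ 2 * (lap (kx θ L a h) x - 2 / rsq x * rdr (kx θ L a h) x)
    + 1 / 2 * fh h v x ^ 2 * (rdr (kx θ L a h) x * mid h (sW v) x + pd 2 (kx θ L a h) x * mid h (uz v) x
      - 6 * kx θ L a h x * mid h (sW v) x - kx θ L a h x * mid h (Rw v) x)
    + mid h (sV v) x * (rdr (kx θ L a h) x * fh h v x * dif h (sW v) x + kx θ L a h x * rdr (fh h v) x * dif h (sW v) x
      + kx θ L a h x * fh h v x * dif h (Rw v) x)

/-- The integrand of `a h = ∫ K f² (u_z' - u_z)`. -/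
noncomputable def a0f (θ L a : ℝ) (v : E3 → E3) (h : ℝ) (x : E3) : ℝ := kx θ L a h x * fh h v x ^ 2 * dif h (uz v) x

/-- The integrand of its derivative in `h`. -/
noncomputable def a1f (θ L a : ℝ) (v : E3 → E3) (h : ℝ) (x : E3) : ℝ :=
  1 / 2 * pd 2 (kx θ L a h) x * fh h v x ^ 2 * dif h (uz v) x + 2 * kx θ L a h x * fh h v x * Zz v (sh2 h x) * dif h (uz v) x
    + kx θ L a h x * fh h v x ^ 2 * pd 2 (uz v) (sh2 h x)

/-- The integrand of `b h`, `a h = - h b h`. -/
noncomputable def b0f (θ L a : ℝ) (v : E3 → E3) (h : ℝ) (x : E3) : ℝ :=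
  kx θ L a h x * fh h v x ^ 2 * (2 * sav h (sW v) x + sav h (Rw v) x)

/-- The second form of the integrand: after the integration by parts in `h`. -/
noncomputable def P1 (θ L a : ℝ) (v : E3 → E3) (h : ℝ) (x : E3) : ℝ := P0 θ L a v h x + (3 - θ) / 2 * b0f θ L a v h x

/-- The remaining term: the derivative of the cutoff `zh`. -/
noncomputable def XX (θ L a : ℝ) (v : E3 → E3) : ℝ := ∫ h, θ * |h| ^ (θ - 3) * (h * zh h * deriv zh h) * ∫ x, b0f θ L a v h x

end Pool.Agent.H88.EP
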