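/-
Admissibility of the concrete integrands. Aux lemmas prefixed TwV_.
-/
import Pool.Agent.H88.EP.TwA
import Pool.Agent.H88.EP.TwH
import Pool.Agent.H88.EP.TwW
import Pool.Agent.H88.EP.TwE

set_option autoImplicit false

open Set Filter Topology MeasureTheory
open scoped ContDiff

namespace Pool.Agent.H88.EP

open Pool.Agent.H16 Pool.Agent.H72.CC Pool.Agent.H87.EP
open Pool.Agent.H87.NS hiding c1
open Pool.Agent.H16.TU hiding Sl
open Pool.Agent.H94.EP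

/-- Restriction to the complement of the axis. -/
noncomputable def off (F : ℝ → E3 → ℝ) (h : ℝ) (x : E3) : ℝ := {x : E3 | 0 < rsq x}.indicator (F h) x

theorem TwV_rsq_cont : Continuous rsq := by unfold rsq; fun_prop

theorem TwV_meas_off : MeasurableSet {x : E3 | 0 < rsq x} :=
  (isOpen_lt continuous_const TwV_rsq_cont).measurableSet

theorem TwV_off_ae (F : ℝ → E3 → ℝ) (h : ℝ) : off F h =ᵐ[volume] F h := by
  have h1 : ∀ᵐ x : E3, 0 < rsq x := by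
    rw [ae_iff]; exact ax_null
  filter_upwards [h1] with x hx
  simp only [off]
  exact Set.indicator_of_mem (show x ∈ {x : E3 | 0 < rsq x} from hx) _

theorem off_int (F : ℝ → E3 → ℝ) (h : ℝ) : ∫ x, off F h x = ∫ x, F h x ∧ (Integrable (off F h) ↔ Integrable (F h)) :=
  ⟨integral_congr_ae (TwV_off_ae F h), integrable_congr (TwV_off_ae F h)⟩

theorem Th_off (θ : ℝ) (F : ℝ → E3 → ℝ) : Th θ (off F) = Th θ F := by
  unfold Th
  refine integral_congr_ae (ae_of_all _ fun h => ?_)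
  show kh θ h * ∫ x, off F h x = kh θ h * ∫ x, F h x
  rw [(off_int F h).1]

/-! Bounds -/

theorem TwV_b {g : E3 → ℝ} (hg : Ri g) : ∃ B : ℝ, 0 ≤ B ∧ ∀ x, |g x| ≤ B ∧ (∀ i, |pd i g x| ≤ B) ∧
    (∀ i, |pd 2 (pd i g) x| ≤ B) := by
  obtain ⟨B, hB⟩ := hg.db 2
  have h0 : BL B g := hB.1
  have h1 : ∀ i, BL B (pd i g) := fun i => (hB.2 i).1
  have h2 : ∀ i, BL B (pd 2 (pd i g)) := fun i => (hB.2 i).2 2
  exact ⟨B, (abs_nonneg _).trans (h0.1 0), fun x => ⟨h0.1 x, fun i => (h1 i).1 x, fun i => (h2 i).1 x⟩⟩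

theorem TwV_pd_sm {g : E3 → ℝ} (hg : ContDiff ℝ ∞ g) (i : Fin 3) : ContDiff ℝ ∞ (pd i g) := by
  have : ContDiff ℝ ∞ (fderiv ℝ g) := hg.fderiv_right (by simp)
  exact this.clm_apply contDiff_const

theorem TwV_c1 {g : E3 → ℝ} (hg : ContDiff ℝ ∞ g) : ContDiff ℝ 1 g := by
  exact_mod_cast (contDiff_infty.1 hg 1)

theorem TwV_c2 {g : E3 → ℝ} (hg : ContDiff ℝ ∞ g) : ContDiff ℝ 2 g := by
  exact_mod_cast (contDiff_infty.1 hg 2)

theorem TwV_dif {g : E3 → ℝ} (hg : ContDiff ℝ ∞ g) {B : ℝ} (hB : ∀ x, |pd 2 g x| ≤ B) (h : ℝ) (x : E3) :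
    |dif h g x| ≤ B * |h| := by
  rw [dif_sav (TwV_c1 hg), abs_mul, mul_comm]
  exact mul_le_mul_of_nonneg_right (sav_bd (TwV_pd_sm hg 2).continuous hB h x) (abs_nonneg _)

theorem TwV_mid {g : E3 → ℝ} {B : ℝ} (hB : ∀ x, |g x| ≤ B) (h : ℝ) (x : E3) : |mid h g x| ≤ B := by
  unfold mid
  rw [abs_div, abs_of_pos (by norm_num : (0 : ℝ) < 2), div_le_iff₀ (by norm_num)]
  have := (abs_add_le (g (sh2 h x)) (g x)).trans (add_le_add (hB _) (hB _))
  linarith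

theorem TwV_ms {g : E3 → ℝ} (hg : ContDiff ℝ ∞ g) {B : ℝ} (hB0 : 0 ≤ B) (hB : ∀ x, |g x| ≤ B)
    (hB2 : ∀ x, |pd 2 (pd 2 g) x| ≤ B) (h : ℝ) (x : E3) :
    |mid h g x - sav h g x| ≤ 2 * B * |h| := by
  rcases le_or_gt |h| 1 with h1 | h1
  · have e1 := tr_sav (TwV_c2 hg) h x
    have e2 : sav h (fun y => pd 2 (pd 2 g) y ^ 2) x ≤ B ^ 2 := by
      have := sav_bd (g := fun y => pd 2 (pd 2 g) y ^ 2) ((TwV_pd_sm (TwV_pd_sm hg 2) 2).continuous.pow 2)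
        (B := B ^ 2) (fun y => by
          rw [abs_pow]
          exact pow_le_pow_left₀ (abs_nonneg _) (hB2 y) 2) h x
      exact (le_abs_self _).trans this
    have e3 : (mid h g x - sav h g x) ^ 2 ≤ (B * |h|) ^ 2 := by
      refine e1.trans ?_
      calc h ^ 4 * sav h (fun y => pd 2 (pd 2 g) y ^ 2) x ≤ h ^ 4 * B ^ 2 :=
            mul_le_mul_of_nonneg_left e2 (by positivity)
        _ = |h| ^ 2 * (|h| ^ 2 * B ^ 2) := by
            rw [show h ^ 4 = |h| ^ 2 * |h| ^ 2 by rw [sq_abs]; ring]; ring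
        _ ≤ 1 * (|h| ^ 2 * B ^ 2) := by
            refine mul_le_mul_of_nonneg_right ?_ (by positivity)
            exact pow_le_one₀ (abs_nonneg _) h1
        _ = (B * |h|) ^ 2 := by ring
    have e4 := abs_le_of_sq_le_sq e3 (by positivity)
    have : 0 ≤ B * |h| := by positivity
    linarith
  · have e1 := TwV_mid hB h x
    have e2 := sav_bd hg.continuous hB h x
    have e3 := (abs_sub _ _).trans (add_le_add e1 e2)
    have e4 : 2 * B * 1 ≤ 2 * B * |h| := mul_le_mul_of_nonneg_left h1.le (by positivity)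
    linarith

theorem TwV_pd_fh {v : E3 → E3} (hv : Vs v) (i : Fin 3) (h : ℝ) (x : E3) :
    pd i (fh h v) x = dif h (pd i (sV v)) x := by
  have hV : Ri (sV v) := (vs_ri hv).1
  have e1 : fh h v = fun y => (fun y => sV v (sh2 h y)) y - sV v y := rfl
  have d1 : DifferentiableAt ℝ (fun y => sV v (sh2 h y)) x := ((sh_ri hV h).1.sm.differentiable (by simp)) x
  have d2 : DifferentiableAt ℝ (sV v) x := (hV.sm.differentiable (by simp)) x
  have e2 : pd i (fh h v) x = pd i (fun y => sV v (sh2 h y)) x - pd i (sV v) x := by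
    rw [e1]
    unfold pd
    rw [fderiv_fun_sub d1 d2]
    rfl
  rw [e2, (pd_sh i (sV v) h x).1]
  rfl

/-- Bounds for the concrete functions. -/
theorem vs_bd {v : E3 → E3} (hv : Vs v) : ∃ B : ℝ, 1 ≤ B ∧ ∀ h x,
    (|sV v x| ≤ B ∧ |sW v x| ≤ B ∧ |Zz v x| ≤ B ∧ |uz v x| ≤ B ∧ |Rw v x| ≤ B ∧ |dh (sW v) x| ≤ B ∧ |pd 2 (uz v) x| ≤ B) ∧
    (|fh h v x| ≤ B * |h| ∧ |dif h (sW v) x| ≤ B * |h| ∧ |dif h (Rw v) x| ≤ B * |h| ∧ |dif h (uz v) x| ≤ B * |h|) ∧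
    gsq (fh h v) x ≤ B * h ^ 2 ∧ |rdr (fh h v) x| ≤ B * |h| * rad x ∧
    (|mid h (sW v) x - sav h (sW v) x| ≤ B * |h| ∧ |mid h (sW v) x| ≤ B ∧ |sav h (sW v) x| ≤ B ∧ |mid h (Rw v) x| ≤ B ∧
      |sav h (Rw v) x| ≤ B ∧ |mid h (uz v) x| ≤ B ∧ |mid h (sV v) x| ≤ B) := by
  obtain ⟨hV, hW, -, hZ, -⟩ := vs_ri hv
  obtain ⟨hR, -, hU, -⟩ := Rw_ri hv
  obtain ⟨BV, pV, bV⟩ := TwV_b hV
  obtain ⟨BW, pW, bW⟩ := TwV_b hW
  obtain ⟨BZ, pZ, bZ⟩ := TwV_b hZ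
  obtain ⟨BR, pR, bR⟩ := TwV_b hR
  obtain ⟨BU, pU, bU⟩ := TwV_b hU
  obtain ⟨BD, pD, bD⟩ := TwV_b hW.dh
  set S := 1 + BV + BW + BZ + BR + BU + BD with hS
  have hS1 : 1 ≤ S := by rw [hS]; linarith
  have hSV : BV ≤ S := by rw [hS]; linarith
  have hSW : BW ≤ S := by rw [hS]; linarith
  have hSZ : BZ ≤ S := by rw [hS]; linarith
  have hSR : BR ≤ S := by rw [hS]; linarith
  have hSU : BU ≤ S := by rw [hS]; linarith
  have hSD : BD ≤ S := by rw [hS]; linarith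
  have hS0 : 0 ≤ S := by linarith
  have hSS : S ≤ S ^ 2 := by nlinarith
  have hB : S ≤ 3 * S ^ 2 := by linarith only [pV, pW, pZ, pR, pU, pD, hSS]
  refine ⟨3 * S ^ 2, by linarith only [pV, pW, pZ, pR, pU, pD, hSS], fun h x => ?_⟩
  have up : ∀ {t : ℝ}, t ≤ S → t ≤ 3 * S ^ 2 := fun ht => ht.trans hB
  have uph : ∀ {t : ℝ}, t ≤ S * |h| → t ≤ 3 * S ^ 2 * |h| := fun ht =>
    ht.trans (mul_le_mul_of_nonneg_right hB (abs_nonneg _))
  have g1 : ∀ i, |pd i (fh h v) x| ≤ S * |h| := fun i => by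
    rw [TwV_pd_fh hv]
    exact TwV_dif (TwV_pd_sm hV.sm i) (fun y => ((bV y).2.2 i).trans hSV) h x
  have g2 : gsq (fh h v) x ≤ 3 * S ^ 2 * h ^ 2 := by
    unfold gsq
    have : ∀ i ∈ (Finset.univ : Finset (Fin 3)), pd i (fh h v) x ^ 2 ≤ S ^ 2 * h ^ 2 := fun i _ => by
      calc pd i (fh h v) x ^ 2 = |pd i (fh h v) x| ^ 2 := (sq_abs _).symm
        _ ≤ (S * |h|) ^ 2 := pow_le_pow_left₀ (abs_nonneg _) (g1 i) 2
        _ = S ^ 2 * h ^ 2 := by rw [mul_pow, sq_abs]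
    have := Finset.sum_le_card_nsmul _ _ _ this
    simp only [Finset.card_univ, Fintype.card_fin, nsmul_eq_mul] at this
    refine this.trans (le_of_eq (by push_cast; ring))
  have g3 : |rdr (fh h v) x| ≤ 3 * S ^ 2 * |h| * rad x := by
    have s1 : ContDiff ℝ ∞ (fh h v) := (sh_ri hV h).2.1.sm
    have e1 := (rdr_pd2 s1 x).2
    have hr0 : 0 ≤ rad x := Real.sqrt_nonneg _
    have hr : rad x ^ 2 = rsq x := Real.sq_sqrt (by positivity)
    have e2 : rdr (fh h v) x ^ 2 ≤ (3 * S ^ 2 * |h| * rad x) ^ 2 := by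
      refine e1.trans ?_
      rw [← hr]
      calc rad x ^ 2 * gsq (fh h v) x ≤ rad x ^ 2 * (3 * S ^ 2 * h ^ 2) :=
            mul_le_mul_of_nonneg_left g2 (by positivity)
        _ = 1 * (3 * S ^ 2) * (rad x ^ 2 * h ^ 2) := by ring
        _ ≤ (3 * S ^ 2) * (3 * S ^ 2) * (rad x ^ 2 * h ^ 2) := by
            refine mul_le_mul_of_nonneg_right (mul_le_mul_of_nonneg_right ?_ (by positivity)) (by positivity)
            linarith only [pV, pW, pZ, pR, pU, pD, hSS]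
        _ = (3 * S ^ 2 * |h| * rad x) ^ 2 := by rw [mul_pow, mul_pow, sq_abs]; ring
    exact abs_le_of_sq_le_sq e2 (by positivity)
  have g4 : |mid h (sW v) x - sav h (sW v) x| ≤ 3 * S ^ 2 * |h| := by
    refine (TwV_ms hW.sm hS0 (fun y => (bW y).1.trans hSW) (fun y => ((bW y).2.2 2).trans hSW) h x).trans ?_
    refine mul_le_mul_of_nonneg_right ?_ (abs_nonneg _)
    linarith only [pV, pW, pZ, pR, pU, pD, hSS]
  refine ⟨⟨up ((bV x).1.trans hSV), up ((bW x).1.trans hSW), up ((bZ x).1.trans hSZ), up ((bU x).1.trans hSU),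
    up ((bR x).1.trans hSR), up ((bD x).1.trans hSD), up (((bU x).2.1 2).trans hSU)⟩, ⟨?_, ?_, ?_, ?_⟩, g2, g3, g4,
    up (TwV_mid (fun y => (bW y).1.trans hSW) h x), up (sav_bd hW.sm.continuous (fun y => (bW y).1.trans hSW) h x),
    up (TwV_mid (fun y => (bR y).1.trans hSR) h x), up (sav_bd hR.sm.continuous (fun y => (bR y).1.trans hSR) h x),
    up (TwV_mid (fun y => (bU y).1.trans hSU) h x), up (TwV_mid (fun y => (bV y).1.trans hSV) h x)⟩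
  · exact uph (TwV_dif hV.sm (fun y => ((bV y).2.1 2).trans hSV) h x)
  · exact uph (TwV_dif hW.sm (fun y => ((bW y).2.1 2).trans hSW) h x)
  · exact uph (TwV_dif hR.sm (fun y => ((bR y).2.1 2).trans hSR) h x)
  · exact uph (TwV_dif hU.sm (fun y => ((bU y).2.1 2).trans hSU) h x)

/-! Weights -/

theorem TwV_k0 {θ L : ℝ} (hL : 1 ≤ L) (a : ℝ) (x : E3) : k0 (θ - 1) x * ph L a (x 2) ≤ wr θ L a x := by
  unfold wr
  by_cases hx : rsq x < 1
  · rw [Set.indicator_of_mem (show x ∈ {x : E3 | rsq x < 1} from hx)]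
    refine mul_le_mul_of_nonneg_right ?_ (ph_pos L a _).le
    unfold k0
    have hc := c2_f.2.1 x
    have h1 : c2 x ^ 4 ≤ 1 := pow_le_one₀ hc.1 hc.2.1
    have h2 : 0 ≤ (rsq x / 2) ^ (θ - 1) := Real.rpow_nonneg (by unfold rsq; positivity) _
    calc (rsq x / 2) ^ (θ - 1) * c2 x ^ 4 ≤ (rsq x / 2) ^ (θ - 1) * 1 := mul_le_mul_of_nonneg_left h1 h2
      _ = _ := mul_one _
  · rw [Set.indicator_of_notMem (show x ∉ {x : E3 | rsq x < 1} from hx)]
    have := (k0_f (θ - 1)).2.2.2.2.1 x (by have := not_lt.1 hx; linarith)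
    rw [this, zero_mul]

theorem TwV_kx1 {θ L : ℝ} (hL : 1 ≤ L) (a : ℝ) {h : ℝ} (hh : |h| ≤ 1) (x : E3) : |kx (θ - 1) L a h x| ≤ 3 * wr θ L a x := by
  rw [abs_of_nonneg ((kx_f hL (θ - 1) a).2.1 h x)]
  refine ((kx_f hL (θ - 1) a).2.2.2.2.1 h x (by linarith)).trans ?_
  exact mul_le_mul_of_nonneg_left (TwV_k0 hL a x) (by norm_num)

theorem TwV_kx0 {θ L : ℝ} (h0 : 0 < θ) (hL : 1 ≤ L) (a : ℝ) {h : ℝ} (hh : |h| ≤ 1) (x : E3) :
    |kx θ L a h x| ≤ 3 * wr θ L a x := by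
  rw [abs_of_nonneg ((kx_f hL θ a).2.1 h x)]
  refine ((kx_f hL θ a).2.2.2.2.1 h x (by linarith)).trans ?_
  refine mul_le_mul_of_nonneg_left (le_trans ?_ (TwV_k0 hL a x)) (by norm_num)
  refine mul_le_mul_of_nonneg_right ?_ (ph_pos L a _).le
  have h1 := (k0_f θ).2.2.2.2.2.2.2 h0 x
  have h2 := (k0_f (θ - 1)).2.1 x
  linarith

theorem TwV_ou {θ L : ℝ} (h1 : θ ≤ 1 / 2) (hL : 1 ≤ L) (a : ℝ) {h : ℝ} (hh : |h| ≤ 1) (x : E3) :
    0 ≤ ou x * ph L a (x 2 + h / 2) ∧ ou x * ph L a (x 2 + h / 2) ≤ 3 * wr θ L a x := by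
  unfold ou
  by_cases hx : 1 / 16 ≤ rsq x ∧ rsq x ≤ 1 / 8
  · rw [Set.indicator_of_mem (show x ∈ {x : E3 | 1 / 16 ≤ rsq x ∧ rsq x ≤ 1 / 8} from hx), one_mul]
    refine ⟨(ph_pos L a _).le, ?_⟩
    have e1 : ph L a (x 2 + h / 2) ≤ 3 * ph L a (x 2) := by
      refine ph_shift hL a (x 2) (h / 2) ?_
      rw [abs_div, abs_of_pos (by norm_num : (0 : ℝ) < 2)]; linarith [abs_nonneg h]
    refine e1.trans (mul_le_mul_of_nonneg_left ?_ (by norm_num))
    unfold wr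
    rw [Set.indicator_of_mem (show x ∈ {x : E3 | rsq x < 1} by show rsq x < 1; linarith [hx.2])]
    have e2 : 1 ≤ (rsq x / 2) ^ (θ - 1) :=
      Real.one_le_rpow_of_pos_of_le_one_of_nonpos (by linarith [hx.1]) (by linarith [hx.2]) (by linarith)
    calc ph L a (x 2) = 1 * ph L a (x 2) := (one_mul _).symm
      _ ≤ _ := mul_le_mul_of_nonneg_right e2 (ph_pos L a _).le
  · rw [Set.indicator_of_notMem (show x ∉ {x : E3 | 1 / 16 ≤ rsq x ∧ rsq x ≤ 1 / 8} from hx), zero_mul]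
    refine ⟨le_refl _, ?_⟩
    have : 0 ≤ wr θ L a x := by
      unfold wr
      refine Set.indicator_nonneg (fun y _ => mul_nonneg (Real.rpow_nonneg (by unfold rsq; positivity) _) (ph_pos L a _).le) x
    positivity

theorem TwV_wr0 (θ L a : ℝ) (x : E3) : 0 ≤ wr θ L a x := by
  unfold wr
  exact Set.indicator_nonneg (fun y _ => mul_nonneg (Real.rpow_nonneg (by unfold rsq; positivity) _) (ph_pos L a _).le) x

/-! Closure properties -/

theorem TwV_adm {θ L a : ℝ} {K Φ : ℝ → E3 → ℝ} (hK : Measurable (fun q : ℝ × E3 => K q.1 q.2))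
    (hΦ : Measurable (fun q : ℝ × E3 => Φ q.1 q.2)) {C D : ℝ} (hC : 0 ≤ C)
    (h1 : ∀ h, |h| ≤ 1 → ∀ x, 0 < rsq x → |K h x| ≤ C * wr θ L a x)
    (h2 : ∀ h, |h| ≤ 1 → ∀ x, |Φ h x| ≤ D * h ^ 2) : Adm θ L a (fun h x => K h x * Φ h x) := by
  refine ⟨hK.mul hΦ, C * D, fun h hh x hx => ?_⟩
  rw [abs_mul]
  have := mul_le_mul (h1 h hh x hx) (h2 h hh x) (abs_nonneg _) (mul_nonneg hC (TwV_wr0 θ L a x))
  refine this.trans (le_of_eq (by ring))

theorem TwV_add {θ L a : ℝ} {F G : ℝ → E3 → ℝ} (hF : Adm θ L a F) (hG : Adm θ L a G) :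
    Adm θ L a (fun h x => F h x + G h x) := by
  have := hF.lin hG 1 1
  simpa only [one_mul] using this

theorem TwV_off {θ L a : ℝ} {F : ℝ → E3 → ℝ} (hF : Adm θ L a F) : Adm θ L a (off F) := by
  obtain ⟨m, B, hB⟩ := hF
  refine ⟨?_, B, fun h hh x hx => ?_⟩
  · have e : (fun q : ℝ × E3 => off F q.1 q.2) = {q : ℝ × E3 | 0 < rsq q.2}.indicator (fun q => F q.1 q.2) := by
      funext q
      by_cases hq : 0 < rsq q.2
      · rw [Set.indicator_of_mem (show q ∈ {q : ℝ × E3 | 0 < rsq q.2} from hq)]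
        exact Set.indicator_of_mem (show q.2 ∈ {x : E3 | 0 < rsq x} from hq) _
      · rw [Set.indicator_of_notMem (show q ∉ {q : ℝ × E3 | 0 < rsq q.2} from hq)]
        exact Set.indicator_of_notMem (show q.2 ∉ {x : E3 | 0 < rsq x} from hq) _
    rw [e]
    exact m.indicator (measurable_snd TwV_meas_off)
  · have e : off F h x = F h x := Set.indicator_of_mem (show x ∈ {x : E3 | 0 < rsq x} from hx) _
    rw [e]
    exact hB h hh x hx

theorem TwV_congr {θ L a : ℝ} {F G : ℝ → E3 → ℝ} (hF : Adm θ L a F) (e : ∀ h x, G h x = F h x) : Adm θ L a G := by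
  have : G = F := funext fun h => funext fun x => e h x
  rw [this]; exact hF

theorem TwV_m2 {a b A B : ℝ} (ha : |a| ≤ A) (hb : |b| ≤ B) : |a * b| ≤ A * B := by
  rw [abs_mul]; exact mul_le_mul ha hb (abs_nonneg _) ((abs_nonneg _).trans ha)

theorem TwV_a2 {a b A B : ℝ} (ha : |a| ≤ A) (hb : |b| ≤ B) : |a + b| ≤ A + B :=
  (abs_add_le _ _).trans (add_le_add ha hb)

theorem TwV_s2 {a b A B : ℝ} (ha : |a| ≤ A) (hb : |b| ≤ B) : |a - b| ≤ A + B :=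
  (abs_sub _ _).trans (add_le_add ha hb)

theorem TwV_sq {a B h : ℝ} (ha : |a| ≤ B * |h|) : |a ^ 2| ≤ B ^ 2 * h ^ 2 := by
  rw [abs_pow, ← sq_abs h, ← mul_pow]
  exact pow_le_pow_left₀ (abs_nonneg _) ha 2

theorem TwV_aa {a A : ℝ} (ha : |a| ≤ A) : |(|a|)| ≤ A := by rwa [abs_abs]

/-! Measurability -/

theorem TwV_sh_cont : Continuous (fun q : ℝ × E3 => sh2 q.1 q.2) := sh2_sm.continuous

theorem TwV_sh_cont2 : Continuous (fun q : ℝ × E3 => sh2 (q.1 / 2) q.2) := by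
  have : Continuous (fun q : ℝ × E3 => ((q.1 / 2, q.2) : ℝ × E3)) := by fun_prop
  exact TwV_sh_cont.comp this

theorem TwV_mpd (i : Fin 3) (f : E3 → ℝ) : Measurable (pd i f) := measurable_fderiv_apply_const ℝ f (e i)

theorem TwV_kx_sh (s L a h : ℝ) : kx s L a h = fun x => kx s L a 0 (sh2 (h / 2) x) := by
  funext x
  have e1 := sh2_f (h / 2) x
  show (rsq x / 2) ^ s * c2 x ^ 4 * ph L a (x 2 + h / 2) =
    (rsq (sh2 (h / 2) x) / 2) ^ s * c2 (sh2 (h / 2) x) ^ 4 * ph L a (sh2 (h / 2) x 2 + 0 / 2)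
  rw [e1.2.2.2.1, e1.2.2.1, c2_f.2.2.2]
  simp

theorem TwV_pdkx (i : Fin 3) (s L a h : ℝ) (x : E3) : pd i (kx s L a h) x = pd i (kx s L a 0) (sh2 (h / 2) x) := by
  rw [TwV_kx_sh s L a h]
  exact (pd_sh i (kx s L a 0) (h / 2) x).1

theorem TwV_pdpdkx (i : Fin 3) (s L a h : ℝ) (x : E3) :
    pd i (pd i (kx s L a h)) x = pd i (pd i (kx s L a 0)) (sh2 (h / 2) x) := by
  have : pd i (kx s L a h) = fun y => pd i (kx s L a 0) (sh2 (h / 2) y) := funext fun y => TwV_pdkx i s L a h y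
  rw [this]
  exact (pd_sh i (pd i (kx s L a 0)) (h / 2) x).1

theorem TwV_mpdkx (i : Fin 3) (s L a : ℝ) : Measurable (fun q : ℝ × E3 => pd i (kx s L a q.1) q.2) := by
  have : (fun q : ℝ × E3 => pd i (kx s L a q.1) q.2) = fun q => pd i (kx s L a 0) (sh2 (q.1 / 2) q.2) :=
    funext fun q => TwV_pdkx i s L a q.1 q.2
  rw [this]
  exact (TwV_mpd i _).comp TwV_sh_cont2.measurable

theorem TwV_mlap (s L a : ℝ) : Measurable (fun q : ℝ × E3 => lap (kx s L a q.1) q.2) := by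
  have : (fun q : ℝ × E3 => lap (kx s L a q.1) q.2) =
      fun q => ∑ i, pd i (pd i (kx s L a 0)) (sh2 (q.1 / 2) q.2) := by
    funext q
    exact Finset.sum_congr rfl fun i _ => TwV_pdpdkx i s L a q.1 q.2
  rw [this]
  exact Finset.measurable_sum _ fun i _ => (TwV_mpd i _).comp TwV_sh_cont2.measurable

theorem TwV_mco (i : Fin 3) : Measurable (fun q : ℝ × E3 => q.2 i) := by
  have : Continuous (fun q : ℝ × E3 => q.2 i) := by fun_prop
  exact this.measurable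

theorem TwV_mrdr (s L a : ℝ) : Measurable (fun q : ℝ × E3 => rdr (kx s L a q.1) q.2) := by
  unfold rdr
  exact ((TwV_mco 0).mul (TwV_mpdkx 0 s L a)).add ((TwV_mco 1).mul (TwV_mpdkx 1 s L a))

theorem TwV_mfh {v : E3 → E3} (hv : Vs v) : Measurable (fun q : ℝ × E3 => fh q.1 v q.2) :=
  (sav_cont (vs_ri hv).1.sm.continuous).2.2.measurable

theorem TwV_mpdfh {v : E3 → E3} (hv : Vs v) (i : Fin 3) : Measurable (fun q : ℝ × E3 => pd i (fh q.1 v) q.2) := by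
  have : (fun q : ℝ × E3 => pd i (fh q.1 v) q.2) = fun q => dif q.1 (pd i (sV v)) q.2 :=
    funext fun q => TwV_pd_fh hv i q.1 q.2
  rw [this]
  exact (sav_cont (TwV_pd_sm (vs_ri hv).1.sm i).continuous).2.2.measurable

theorem TwV_mgsq {v : E3 → E3} (hv : Vs v) : Measurable (fun q : ℝ × E3 => gsq (fh q.1 v) q.2) := by
  unfold gsq
  exact Finset.measurable_sum _ fun i _ => (TwV_mpdfh hv i).pow_const 2

theorem TwV_mrdrfh {v : E3 → E3} (hv : Vs v) : Measurable (fun q : ℝ × E3 => rdr (fh q.1 v) q.2) := by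
  unfold rdr
  exact ((TwV_mco 0).mul (TwV_mpdfh hv 0)).add ((TwV_mco 1).mul (TwV_mpdfh hv 1))

theorem TwV_mrad : Measurable rad := by
  have : Continuous rad := by unfold rad; fun_prop
  exact this.measurable

theorem TwV_mbe (κ : ℝ) : Measurable (fun q : ℝ × E3 => be κ q.2) := by
  unfold be
  exact measurable_const.min ((TwV_mrad.comp measurable_snd).const_mul κ)

theorem TwV_mou : Measurable (fun q : ℝ × E3 => ou q.2) := by
  have h1 : MeasurableSet {x : E3 | 1 / 16 ≤ rsq x ∧ rsq x ≤ 1 / 8} :=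
    ((isClosed_le continuous_const TwV_rsq_cont).inter (isClosed_le TwV_rsq_cont continuous_const)).measurableSet
  have h2 : Measurable ou := measurable_const.indicator h1
  exact h2.comp measurable_snd

theorem TwV_mph (L a : ℝ) : Measurable (fun q : ℝ × E3 => ph L a (q.2 2 + q.1 / 2)) := by
  have h1 : Continuous (ph L a) := (ph_smooth L a).continuous
  have h2 : Continuous (fun q : ℝ × E3 => q.2 2 + q.1 / 2) := by fun_prop
  exact (h1.comp h2).measurable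

theorem TwV_msh {g : E3 → ℝ} (hg : Continuous g) : Measurable (fun q : ℝ × E3 => g (sh2 q.1 q.2)) :=
  (hg.comp TwV_sh_cont).measurable

theorem TwV_be {κ : ℝ} (hκ : 1 ≤ κ) (x : E3) : |be κ x ^ 2| ≤ 1 := by
  have h0 : 0 ≤ rad x := Real.sqrt_nonneg _
  have h1 : 0 ≤ be κ x := le_min zero_le_one (by positivity)
  have h2 : be κ x ≤ 1 := min_le_left _ _
  rw [abs_of_nonneg (by positivity)]
  exact pow_le_one₀ h1 h2

theorem adm_I {θ κ L : ℝ} (h0 : 0 < θ) (h1 : θ ≤ 1 / 2) (hκ : 1 ≤ κ) (hL : 1 ≤ L) (a : ℝ) {v : E3 → E3} (hv : Vs v) :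
    Adm θ L a (G1 θ L a v) ∧ Adm θ L a (G2 θ L a v) ∧ Adm θ L a (I0 θ κ L a v) ∧ Adm θ L a (I1 θ κ L a v) ∧ Adm θ L a (I2 θ L a v) ∧
    Adm θ L a (I3 θ L a v) ∧ Adm θ L a (I4 L a v) ∧ Adm θ L a (I5 θ L a v) ∧ Adm θ L a (I6 θ L a v) := by
  obtain ⟨B, hB1, hB⟩ := vs_bd hv
  have B0 : 0 ≤ B := by linarith
  obtain ⟨hV, hW, -, hZ, -⟩ := vs_ri hv
  obtain ⟨hR, -, hU, -⟩ := Rw_ri hv
  have cW := sav_cont hW.sm.continuous
  have cR := sav_cont hR.sm.continuous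
  have cU := sav_cont hU.sm.continuous
  have k0m := (kx_f hL θ a).1
  have k1m := (kx_f hL (θ - 1) a).1
  have mf := TwV_mfh hv
  have k0b : ∀ h, |h| ≤ 1 → ∀ x, 0 < rsq x → |kx θ L a h x| ≤ 3 * wr θ L a x := fun h hh x _ => TwV_kx0 h0 hL a hh x
  have k1b : ∀ h, |h| ≤ 1 → ∀ x, 0 < rsq x → |kx (θ - 1) L a h x| ≤ 3 * wr θ L a x := fun h hh x _ => TwV_kx1 hL a hh x
  have f2 : ∀ h x, |fh h v x ^ 2| ≤ B ^ 2 * h ^ 2 := fun h x => TwV_sq (hB h x).2.1.1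
  have w2 : ∀ h x, |dif h (sW v) x ^ 2| ≤ B ^ 2 * h ^ 2 := fun h x => TwV_sq (hB h x).2.1.2.1
  have r2 : ∀ h x, |dif h (Rw v) x ^ 2| ≤ B ^ 2 * h ^ 2 := fun h x => TwV_sq (hB h x).2.1.2.2.1
  refine ⟨?_, ?_, ?_, ?_, ?_, ?_, ?_, ?_, ?_⟩
  · refine TwV_adm (C := 3) (D := B) k0m (TwV_mgsq hv) (by norm_num) k0b fun h _ x => ?_
    rw [abs_of_nonneg (Finset.sum_nonneg fun i _ => sq_nonneg _)]
    exact (hB h x).2.2.1
  · exact TwV_adm (C := 3) (D := B ^ 2) k1m (mf.pow_const 2) (by norm_num) k1b fun h _ x => f2 h x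
  · refine TwV_congr (F := fun h x => kx (θ - 1) L a h x * (be κ x ^ 2 * (mid h (sW v) x - sav h (sW v) x) ^ 2)) ?_
      (fun h x => by unfold I0; ring)
    refine TwV_adm (C := 3) (D := B ^ 2) k1m (((TwV_mbe κ).pow_const 2).mul ((cW.2.1.measurable.sub cW.1.measurable).pow_const 2))
      (by norm_num) k1b fun h _ x => ?_
    refine (TwV_m2 (TwV_be hκ x) (TwV_sq (hB h x).2.2.2.2.1)).trans (le_of_eq (one_mul _))
  · refine TwV_congr (F := fun h x => kx (θ - 1) L a h x * (be κ x ^ 2 * dif h (sW v) x ^ 2)) ?_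
      (fun h x => by unfold I1; ring)
    refine TwV_adm (C := 3) (D := B ^ 2) k1m (((TwV_mbe κ).pow_const 2).mul (cW.2.2.measurable.pow_const 2))
      (by norm_num) k1b fun h _ x => ?_
    refine (TwV_m2 (TwV_be hκ x) (w2 h x)).trans (le_of_eq (one_mul _))
  · exact TwV_adm (C := 3) (D := B ^ 2) k1m (cR.2.2.measurable.pow_const 2) (by norm_num) k1b fun h _ x => r2 h x
  · refine TwV_congr (F := fun h x => kx θ L a h x * (fh h v x ^ 2 * (|mid h (Rw v) x| + |sav h (Rw v) x|))) ?_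
      (fun h x => by unfold I3; ring)
    refine TwV_adm (C := 3) (D := 2 * B ^ 3) k0m ((mf.pow_const 2).mul (cR.2.1.measurable.abs.add cR.1.measurable.abs))
      (by norm_num) k0b fun h _ x => ?_
    refine (TwV_m2 (f2 h x) (TwV_a2 (TwV_aa (hB h x).2.2.2.2.2.2.2.1) (TwV_aa (hB h x).2.2.2.2.2.2.2.2.1))).trans (le_of_eq (by ring))
  · refine TwV_adm (C := 3) (D := B ^ 2 * (1 + B) + B ^ 2) (K := fun h x => ou x * ph L a (x 2 + h / 2))
      (Φ := fun h x => fh h v x ^ 2 * (1 + |mid h (sW v) x|) + dif h (sW v) x ^ 2)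
      (TwV_mou.mul (TwV_mph L a)) (((mf.pow_const 2).mul (measurable_const.add cW.2.1.measurable.abs)).add (cW.2.2.measurable.pow_const 2))
      (by norm_num) (fun h hh x _ => ?_) fun h _ x => ?_
    · rw [abs_of_nonneg (TwV_ou h1 hL a hh x).1]
      exact (TwV_ou h1 hL a hh x).2
    · refine (TwV_a2 (TwV_m2 (f2 h x) (TwV_a2 (by norm_num : |(1 : ℝ)| ≤ 1) (TwV_aa (hB h x).2.2.2.2.2.1))) (w2 h x)).trans (le_of_eq (by ring))
  · refine TwV_congr (F := fun h x => kx θ L a h x * (fh h v x ^ 2 * |mid h (uz v) x|)) ?_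
      (fun h x => by unfold I5; ring)
    refine TwV_adm (C := 3) (D := B ^ 3) k0m ((mf.pow_const 2).mul cU.2.1.measurable.abs)
      (by norm_num) k0b fun h _ x => ?_
    refine (TwV_m2 (f2 h x) (TwV_aa (hB h x).2.2.2.2.2.2.2.2.2.1)).trans (le_of_eq (by ring))
  · exact TwV_adm (C := 3) (D := B ^ 2) k0m (mf.pow_const 2) (by norm_num) k0b fun h _ x => f2 h x

theorem TwV_I7m {θ κ L : ℝ} (hL : 1 ≤ L) (a : ℝ) {v : E3 → E3} (hv : Vs v) :
    Measurable (fun q : ℝ × E3 => I7 θ κ L a v q.1 q.2) := by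
  obtain ⟨hV, hW, -, hZ, -⟩ := vs_ri hv
  obtain ⟨hR, -, hU, -⟩ := Rw_ri hv
  have cW := (sav_cont hW.sm.continuous).1.measurable
  have cR := (sav_cont hR.sm.continuous).1.measurable
  have k1 := (kx_f hL (θ - 1) a).1
  unfold I7
  exact (k1.mul ((TwV_mbe κ).pow_const 2)).mul ((cW.pow_const 2).add (cR.pow_const 2))

theorem TwV_I7b {θ κ L : ℝ} (hκ : 1 ≤ κ) (hL : 1 ≤ L) (a : ℝ) {v : E3 → E3} (hv : Vs v) :
    ∃ B : ℝ, ∀ h, |h| ≤ 1 → ∀ x, |I7 θ κ L a v h x| ≤ B * wr θ L a x := by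
  obtain ⟨B, hB1, hB⟩ := vs_bd hv
  refine ⟨3 * (B ^ 2 + B ^ 2), fun h hh x => ?_⟩
  have w1 := (hB h x).2.2.2.2.2.2.1
  have r1 := (hB h x).2.2.2.2.2.2.2.2.1
  have e1 : |sav h (sW v) x ^ 2 + sav h (Rw v) x ^ 2| ≤ B ^ 2 + B ^ 2 := by
    refine TwV_a2 ?_ ?_
    · rw [abs_pow]; exact pow_le_pow_left₀ (abs_nonneg _) w1 2
    · rw [abs_pow]; exact pow_le_pow_left₀ (abs_nonneg _) r1 2
  have e2 := TwV_m2 (TwV_m2 (TwV_kx1 (θ := θ) hL a hh x) (TwV_be hκ x)) e1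
  unfold I7
  refine e2.trans (le_of_eq ?_)
  ring

theorem TwV_hz {f : ℝ → ℝ} {M : ℝ} (hf : StronglyMeasurable f) (hM : ∀ h, |h| ≤ 1 → |f h| ≤ M) :
    Integrable (fun h => hz1 h * f h) := by
  have hzs : MeasurableSet {h : ℝ | 1 / 16 ≤ |h| ∧ |h| ≤ 1 / 8} :=
    ((isClosed_le continuous_const continuous_abs).inter (isClosed_le continuous_abs continuous_const)).measurableSet
  have e : (fun h => hz1 h * f h) = {h : ℝ | 1 / 16 ≤ |h| ∧ |h| ≤ 1 / 8}.indicator f := by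
    funext h
    unfold hz1
    by_cases hh : 1 / 16 ≤ |h| ∧ |h| ≤ 1 / 8
    · rw [Set.indicator_of_mem (show h ∈ {h : ℝ | 1 / 16 ≤ |h| ∧ |h| ≤ 1 / 8} from hh),
        Set.indicator_of_mem (show h ∈ {h : ℝ | 1 / 16 ≤ |h| ∧ |h| ≤ 1 / 8} from hh), one_mul]
    · rw [Set.indicator_of_notMem (show h ∉ {h : ℝ | 1 / 16 ≤ |h| ∧ |h| ≤ 1 / 8} from hh),
        Set.indicator_of_notMem (show h ∉ {h : ℝ | 1 / 16 ≤ |h| ∧ |h| ≤ 1 / 8} from hh), zero_mul]
  rw [e, integrable_indicator_iff hzs]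
  have hfin : volume {h : ℝ | 1 / 16 ≤ |h| ∧ |h| ≤ 1 / 8} < ⊤ := by
    refine (measure_mono (fun h hh => ?_) : volume {h : ℝ | 1 / 16 ≤ |h| ∧ |h| ≤ 1 / 8} ≤ volume (Icc (-1 : ℝ) 1)).trans_lt ?_
    · have hh2 : |h| ≤ 1 / 8 := hh.2
      have := abs_le.1 hh2
      exact ⟨by linarith [this.1], by linarith [this.2]⟩
    · rw [Real.volume_Icc]; exact ENNReal.ofReal_lt_top
  refine Measure.integrableOn_of_bounded (M := M) hfin.ne hf.aestronglyMeasurable ?_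
  filter_upwards [ae_restrict_mem hzs] with h hh
  have hh2 : |h| ≤ 1 / 8 := hh.2
  exact hM h (by linarith)

theorem adm_I7 {θ κ L : ℝ} (h0 : 0 < θ) (h1 : θ ≤ 1 / 2) (hκ : 1 ≤ κ) (hL : 1 ≤ L) (a : ℝ) {v : E3 → E3} (hv : Vs v) :
    Measurable (fun q : ℝ × E3 => I7 θ κ L a v q.1 q.2) ∧ (∃ B : ℝ, ∀ h, |h| ≤ 1 → ∀ x, |I7 θ κ L a v h x| ≤ B * wr θ L a x) ∧
    (∀ h, |h| ≤ 1 → Integrable (I7 θ κ L a v h)) ∧ Integrable (fun h => hz1 h * ∫ x, I7 θ κ L a v h x) := by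
  have m7 := TwV_I7m (θ := θ) (κ := κ) hL a hv
  obtain ⟨B, bd⟩ := TwV_I7b (θ := θ) hκ hL a hv
  have wi : Integrable (fun x => B * wr θ L a x) := (wr_int (θ := θ) h0 hL a).1.const_mul B
  have int7 : ∀ h, |h| ≤ 1 → Integrable (I7 θ κ L a v h) := fun h hh =>
    wi.mono' (m7.comp measurable_prodMk_left).aestronglyMeasurable (ae_of_all _ fun x => bd h hh x)
  have hm : StronglyMeasurable fun h => ∫ x, I7 θ κ L a v h x := m7.stronglyMeasurable.integral_prod_right'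
  refine ⟨m7, ⟨B, bd⟩, int7, TwV_hz (M := ∫ x, B * wr θ L a x) hm fun h hh => ?_⟩
  have e1 := norm_integral_le_of_norm_le (f := I7 θ κ L a v h) wi (ae_of_all _ fun x => bd h hh x)
  exact e1

/-! The first form of the integrand -/

theorem TwV_rdr_bd {θ L : ℝ} (h0 : 0 < θ) (h1 : θ ≤ 1 / 2) (hL : 1 ≤ L) (a : ℝ) : ∃ C : ℝ, 0 ≤ C ∧ ∀ h, |h| ≤ 1 → ∀ x, 0 < rsq x →
    |rdr (kx θ L a h) x| ≤ C * wr θ L a x ∧ |pd 2 (kx θ L a h) x| ≤ C * wr θ L a x ∧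
    |lap (kx θ L a h) x - 2 / rsq x * rdr (kx θ L a h) x| ≤ C * wr θ L a x := by
  obtain ⟨C1, hC1, b1⟩ := kc_bd
  obtain ⟨C2, hC2, b2⟩ := kx_lap
  refine ⟨3 + 3 * C1 + (3 + 3 * C2 + 30), by linarith, fun h hh x hx => ?_⟩
  have w0 := TwV_wr0 θ L a x
  have th : |θ| ≤ 1 := by rw [abs_of_pos h0]; linarith
  have hou := TwV_ou h1 hL a hh x
  have hk0 := TwV_kx0 h0 hL a hh x
  have hk1 := TwV_kx1 (θ := θ) hL a hh x
  have kn := (kx_f hL θ a).2.1 h x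
  have e1 := b1 θ L a h th x
  have e2 := b2 θ L a h th hL x hx
  have hkc : |kc θ L a h x| ≤ 3 * C1 * wr θ L a x := by
    refine e1.trans ?_
    calc C1 * (ou x * ph L a (x 2 + h / 2)) ≤ C1 * (3 * wr θ L a x) := mul_le_mul_of_nonneg_left hou.2 (by linarith)
      _ = _ := by ring
  refine ⟨?_, ?_, ?_⟩
  · rw [kx_rdr θ L a h hx]
    have e3 : |2 * θ * kx θ L a h x| ≤ 1 * (3 * wr θ L a x) := by
      refine TwV_m2 ?_ hk0
      rw [abs_of_nonneg (by linarith)]; linarith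
    refine (TwV_a2 e3 hkc).trans ?_
    nlinarith only [h0, h1, hC2, w0]
  · refine ((kx_pd2 hL θ a h hx).2).trans ?_
    have e3 : kx θ L a h x / L ≤ kx θ L a h x := div_le_self kn hL
    have e4 := (le_abs_self _).trans hk0
    nlinarith only [h0, h1, hC1, hC2, w0, e3, e4]
  · have e3 : |2 * θ * (θ - 1) * kx (θ - 1) L a h x| ≤ 1 * (3 * wr θ L a x) := by
      refine TwV_m2 ?_ hk1
      rw [abs_le]
      constructor <;> nlinarith only [h0, h1]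
    have e4 : 10 * kx θ L a h x / L ^ 2 ≤ 30 * wr θ L a x := by
      have l2 : (1 : ℝ) ≤ L ^ 2 := one_le_pow₀ hL
      have e5 : 10 * kx θ L a h x / L ^ 2 ≤ 10 * kx θ L a h x := div_le_self (by positivity) l2
      have e6 := (le_abs_self _).trans hk0
      linarith
    have e5 : C2 * (ou x * ph L a (x 2 + h / 2)) ≤ 3 * C2 * wr θ L a x := by
      calc C2 * (ou x * ph L a (x 2 + h / 2)) ≤ C2 * (3 * wr θ L a x) := mul_le_mul_of_nonneg_left hou.2 (by linarith)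
        _ = _ := by ring
    have e6 : lap (kx θ L a h) x - 2 / rsq x * rdr (kx θ L a h) x =
        (lap (kx θ L a h) x - 2 / rsq x * rdr (kx θ L a h) x - 2 * θ * (θ - 1) * kx (θ - 1) L a h x) +
          2 * θ * (θ - 1) * kx (θ - 1) L a h x := by ring
    rw [e6]
    refine (TwV_a2 e2 e3).trans ?_
    nlinarith only [h0, h1, hC1, w0, e4, e5]

theorem TwV_P0 {θ L : ℝ} (h0 : 0 < θ) (h1 : θ ≤ 1 / 2) (hL : 1 ≤ L) (a : ℝ) {v : E3 → E3} (hv : Vs v) :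
    Adm θ L a (P0 θ L a v) := by
  obtain ⟨B, hB1, hB⟩ := vs_bd hv
  obtain ⟨C, C0, hC⟩ := TwV_rdr_bd h0 h1 hL a
  have B0 : 0 ≤ B := by linarith
  obtain ⟨hV, hW, -, hZ, -⟩ := vs_ri hv
  obtain ⟨hR, -, hU, -⟩ := Rw_ri hv
  have mV := (sav_cont hV.sm.continuous).2.1.measurable
  have mW := (sav_cont hW.sm.continuous).2.1.measurable
  have dW := (sav_cont hW.sm.continuous).2.2.measurable
  have mR := (sav_cont hR.sm.continuous).2.1.measurable
  have dR := (sav_cont hR.sm.continuous).2.2.measurable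
  have mU := (sav_cont hU.sm.continuous).2.1.measurable
  have k0m := (kx_f hL θ a).1
  have mf := TwV_mfh hv
  have mr := TwV_mrdr θ L a
  have mp := TwV_mpdkx 2 θ L a
  have mrs : Measurable (fun q : ℝ × E3 => 2 / rsq q.2) :=
    (measurable_const.div (TwV_rsq_cont.measurable.comp measurable_snd))
  have ml : Measurable (fun q : ℝ × E3 => lap (kx θ L a q.1) q.2 - 2 / rsq q.2 * rdr (kx θ L a q.1) q.2) :=
    (TwV_mlap θ L a).sub (mrs.mul mr)
  have k0b : ∀ h, |h| ≤ 1 → ∀ x, 0 < rsq x → |kx θ L a h x| ≤ 3 * wr θ L a x := fun h hh x _ => TwV_kx0 h0 hL a hh x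
  have f2 : ∀ h x, |fh h v x ^ 2| ≤ B ^ 2 * h ^ 2 := fun h x => TwV_sq (hB h x).2.1.1
  have bmW : ∀ h x, |mid h (sW v) x| ≤ B := fun h x => (hB h x).2.2.2.2.2.1
  have bmR : ∀ h x, |mid h (Rw v) x| ≤ B := fun h x => (hB h x).2.2.2.2.2.2.2.1
  have bmU : ∀ h x, |mid h (uz v) x| ≤ B := fun h x => (hB h x).2.2.2.2.2.2.2.2.2.1
  have bmV : ∀ h x, |mid h (sV v) x| ≤ B := fun h x => (hB h x).2.2.2.2.2.2.2.2.2.2
  have bf : ∀ h x, |fh h v x| ≤ B * |h| := fun h x => (hB h x).2.1.1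
  have bW : ∀ h x, |dif h (sW v) x| ≤ B * |h| := fun h x => (hB h x).2.1.2.1
  have bR : ∀ h x, |dif h (Rw v) x| ≤ B * |h| := fun h x => (hB h x).2.1.2.2.1
  have hs : ∀ h : ℝ, |h| * |h| = h ^ 2 := fun h => by rw [← pow_two, sq_abs]
  have t1 : Adm θ L a (fun h x => kx θ L a h x * (-gsq (fh h v) x)) := by
    refine TwV_adm (C := 3) (D := B) k0m (TwV_mgsq hv).neg (by norm_num) k0b fun h _ x => ?_
    rw [abs_neg, abs_of_nonneg (Finset.sum_nonneg fun i _ => sq_nonneg _)]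
    exact (hB h x).2.2.1
  have t2 : Adm θ L a (fun h x => (lap (kx θ L a h) x - 2 / rsq x * rdr (kx θ L a h) x) * (1 / 2 * fh h v x ^ 2)) := by
    refine TwV_adm (C := C) (D := 1 / 2 * B ^ 2) ml ((mf.pow_const 2).const_mul (1 / 2)) C0 (fun h hh x hx => (hC h hh x hx).2.2) fun h _ x => ?_
    refine (TwV_m2 (by norm_num : |(1 / 2 : ℝ)| ≤ 1 / 2) (f2 h x)).trans (le_of_eq (by ring))
  have t3 : Adm θ L a (fun h x => rdr (kx θ L a h) x * (1 / 2 * (fh h v x ^ 2 * mid h (sW v) x))) := by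
    refine TwV_adm (C := C) (D := 1 / 2 * B ^ 3) mr (((mf.pow_const 2).mul mW).const_mul (1 / 2)) C0 (fun h hh x hx => (hC h hh x hx).1) fun h _ x => ?_
    refine (TwV_m2 (by norm_num : |(1 / 2 : ℝ)| ≤ 1 / 2) (TwV_m2 (f2 h x) (bmW h x))).trans (le_of_eq (by ring))
  have t4 : Adm θ L a (fun h x => pd 2 (kx θ L a h) x * (1 / 2 * (fh h v x ^ 2 * mid h (uz v) x))) := by
    refine TwV_adm (C := C) (D := 1 / 2 * B ^ 3) mp (((mf.pow_const 2).mul mU).const_mul (1 / 2)) C0 (fun h hh x hx => (hC h hh x hx).2.1) fun h _ x => ?_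
    refine (TwV_m2 (by norm_num : |(1 / 2 : ℝ)| ≤ 1 / 2) (TwV_m2 (f2 h x) (bmU h x))).trans (le_of_eq (by ring))
  have t5 : Adm θ L a (fun h x => kx θ L a h x * (-3 * (fh h v x ^ 2 * mid h (sW v) x))) := by
    refine TwV_adm (C := 3) (D := 3 * B ^ 3) k0m (((mf.pow_const 2).mul mW).const_mul (-3)) (by norm_num) k0b fun h _ x => ?_
    refine (TwV_m2 (by norm_num : |(-3 : ℝ)| ≤ 3) (TwV_m2 (f2 h x) (bmW h x))).trans (le_of_eq (by ring))
  have t6 : Adm θ L a (fun h x => kx θ L a h x * (-(1 / 2) * (fh h v x ^ 2 * mid h (Rw v) x))) := by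
    refine TwV_adm (C := 3) (D := 1 / 2 * B ^ 3) k0m (((mf.pow_const 2).mul mR).const_mul (-(1 / 2))) (by norm_num) k0b fun h _ x => ?_
    refine (TwV_m2 (by norm_num : |(-(1 / 2) : ℝ)| ≤ 1 / 2) (TwV_m2 (f2 h x) (bmR h x))).trans (le_of_eq (by ring))
  have t7 : Adm θ L a (fun h x => rdr (kx θ L a h) x * (mid h (sV v) x * (fh h v x * dif h (sW v) x))) := by
    refine TwV_adm (C := C) (D := B ^ 3) mr (mV.mul (mf.mul dW)) C0 (fun h hh x hx => (hC h hh x hx).1) fun h _ x => ?_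
    refine (TwV_m2 (bmV h x) (TwV_m2 (bf h x) (bW h x))).trans (le_of_eq ?_)
    rw [← hs h]; ring
  have t8 : Adm θ L a (fun h x => kx θ L a h x * (mid h (sV v) x * (fh h v x * dif h (Rw v) x))) := by
    refine TwV_adm (C := 3) (D := B ^ 3) k0m (mV.mul (mf.mul dR)) (by norm_num) k0b fun h _ x => ?_
    refine (TwV_m2 (bmV h x) (TwV_m2 (bf h x) (bR h x))).trans (le_of_eq ?_)
    rw [← hs h]; ring
  have t9 : Adm θ L a (fun h x => kx θ L a h x * (mid h (sV v) x * (rdr (fh h v) x * dif h (sW v) x))) := by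
    refine ⟨k0m.mul (mV.mul ((TwV_mrdrfh hv).mul dW)), 3 * B ^ 3, fun h hh x hx => ?_⟩
    have w0 := TwV_wr0 θ L a x
    have r0 : 0 ≤ rad x := Real.sqrt_nonneg _
    have e1 : |mid h (sV v) x * (rdr (fh h v) x * dif h (sW v) x)| ≤ B * ((B * |h| * rad x) * (B * |h|)) :=
      TwV_m2 (bmV h x) (TwV_m2 (hB h x).2.2.2.1 (bW h x))
    by_cases hr : 1 / 8 ≤ rsq x
    · have : kx θ L a h x = 0 := (kx_f hL θ a).2.2.2.1 h x hr
      rw [this, zero_mul, abs_zero]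
      positivity
    · have r1 : rad x ≤ 1 := by
        have e2 : rad x = √(rsq x) := rfl
        rw [e2]
        exact Real.sqrt_le_one.2 (by linarith [not_le.1 hr])
      refine (TwV_m2 (TwV_kx0 h0 hL a hh x) e1).trans ?_
      have e3 : B * ((B * |h| * rad x) * (B * |h|)) ≤ B ^ 3 * h ^ 2 := by
        calc B * ((B * |h| * rad x) * (B * |h|)) = B ^ 3 * (|h| * |h|) * rad x := by ring
          _ ≤ B ^ 3 * (|h| * |h|) * 1 := mul_le_mul_of_nonneg_left r1 (by positivity)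
          _ = B ^ 3 * h ^ 2 := by rw [hs h, mul_one]
      calc 3 * wr θ L a x * (B * ((B * |h| * rad x) * (B * |h|))) ≤ 3 * wr θ L a x * (B ^ 3 * h ^ 2) :=
            mul_le_mul_of_nonneg_left e3 (by positivity)
        _ = _ := by ring
  refine TwV_congr (TwV_add t1 (TwV_add t2 (TwV_add t3 (TwV_add t4 (TwV_add t5 (TwV_add t6 (TwV_add t7 (TwV_add t8 t9)))))))) fun h x => ?_
  unfold P0
  ring

theorem adm_P {θ L : ℝ} (h0 : 0 < θ) (h1 : θ ≤ 1 / 2) (hL : 1 ≤ L) (a : ℝ) {v : E3 → E3} (hv : Vs v) :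
    Adm θ L a (off (P0 θ L a v)) ∧ Adm θ L a (off (P1 θ L a v)) ∧ Adm θ L a (b0f θ L a v) ∧ Adm θ L a (a0f θ L a v) ∧
    Adm θ L a (off (a1f θ L a v)) := by
  obtain ⟨B, hB1, hB⟩ := vs_bd hv
  obtain ⟨C, C0, hC⟩ := TwV_rdr_bd h0 h1 hL a
  have B0 : 0 ≤ B := by linarith
  obtain ⟨hV, hW, -, hZ, -⟩ := vs_ri hv
  obtain ⟨hR, -, hU, -⟩ := Rw_ri hv
  have sW' := (sav_cont hW.sm.continuous).1.measurable
  have sR' := (sav_cont hR.sm.continuous).1.measurable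
  have dU := (sav_cont hU.sm.continuous).2.2.measurable
  have k0m := (kx_f hL θ a).1
  have mf := TwV_mfh hv
  have mp := TwV_mpdkx 2 θ L a
  have k0b : ∀ h, |h| ≤ 1 → ∀ x, 0 < rsq x → |kx θ L a h x| ≤ 3 * wr θ L a x := fun h hh x _ => TwV_kx0 h0 hL a hh x
  have f2 : ∀ h x, |fh h v x ^ 2| ≤ B ^ 2 * h ^ 2 := fun h x => TwV_sq (hB h x).2.1.1
  have bf : ∀ h x, |fh h v x| ≤ B * |h| := fun h x => (hB h x).2.1.1
  have bU : ∀ h x, |dif h (uz v) x| ≤ B * |h| := fun h x => (hB h x).2.1.2.2.2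
  have bU1 : ∀ h x, |h| ≤ 1 → |dif h (uz v) x| ≤ B := fun h x hh => by
    refine (bU h x).trans ?_
    calc B * |h| ≤ B * 1 := mul_le_mul_of_nonneg_left hh B0
      _ = B := mul_one B
  have bsW : ∀ h x, |sav h (sW v) x| ≤ B := fun h x => (hB h x).2.2.2.2.2.2.1
  have bsR : ∀ h x, |sav h (Rw v) x| ≤ B := fun h x => (hB h x).2.2.2.2.2.2.2.2.1
  have bZ : ∀ x, |Zz v x| ≤ B := fun x => (hB 0 x).1.2.2.1
  have bpU : ∀ x, |pd 2 (uz v) x| ≤ B := fun x => (hB 0 x).1.2.2.2.2.2.2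
  have hs : ∀ h : ℝ, |h| * |h| = h ^ 2 := fun h => by rw [← pow_two, sq_abs]
  have b0 : Adm θ L a (b0f θ L a v) := by
    refine TwV_congr (F := fun h x => kx θ L a h x * (fh h v x ^ 2 * (2 * sav h (sW v) x + sav h (Rw v) x))) ?_ (fun h x => by unfold b0f; ring)
    refine TwV_adm (C := 3) (D := 3 * B ^ 3) k0m ((mf.pow_const 2).mul ((sW'.const_mul 2).add sR')) (by norm_num) k0b fun h _ x => ?_
    refine (TwV_m2 (f2 h x) (TwV_a2 (TwV_m2 (by norm_num : |(2 : ℝ)| ≤ 2) (bsW h x)) (bsR h x))).trans (le_of_eq (by ring))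
  have p0 := TwV_P0 h0 h1 hL a hv
  have p1 : Adm θ L a (P1 θ L a v) := by
    refine TwV_congr (p0.lin b0 1 ((3 - θ) / 2)) fun h x => ?_
    unfold P1
    ring
  refine ⟨TwV_off p0, TwV_off p1, b0, ?_, TwV_off ?_⟩
  · refine TwV_congr (F := fun h x => kx θ L a h x * (fh h v x ^ 2 * dif h (uz v) x)) ?_ (fun h x => by unfold a0f; ring)
    refine TwV_adm (C := 3) (D := B ^ 3) k0m ((mf.pow_const 2).mul dU) (by norm_num) k0b fun h hh x => ?_
    refine (TwV_m2 (f2 h x) (bU1 h x hh)).trans (le_of_eq (by ring))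
  · have t1 : Adm θ L a (fun h x => pd 2 (kx θ L a h) x * (1 / 2 * (fh h v x ^ 2 * dif h (uz v) x))) := by
      refine TwV_adm (C := C) (D := 1 / 2 * B ^ 3) mp (((mf.pow_const 2).mul dU).const_mul (1 / 2)) C0 (fun h hh x hx => (hC h hh x hx).2.1) fun h hh x => ?_
      refine (TwV_m2 (by norm_num : |(1 / 2 : ℝ)| ≤ 1 / 2) (TwV_m2 (f2 h x) (bU1 h x hh))).trans (le_of_eq (by ring))
    have t2 : Adm θ L a (fun h x => kx θ L a h x * (2 * Zz v (sh2 h x) * (fh h v x * dif h (uz v) x))) := by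
      refine TwV_adm (C := 3) (D := 2 * B ^ 3) k0m (((TwV_msh hZ.sm.continuous).const_mul 2).mul (mf.mul dU)) (by norm_num) k0b fun h hh x => ?_
      refine (TwV_m2 (TwV_m2 (by norm_num : |(2 : ℝ)| ≤ 2) (bZ _)) (TwV_m2 (bf h x) (bU h x))).trans (le_of_eq ?_)
      rw [← hs h]; ring
    have t3 : Adm θ L a (fun h x => kx θ L a h x * (fh h v x ^ 2 * pd 2 (uz v) (sh2 h x))) := by
      refine TwV_adm (C := 3) (D := B ^ 3) k0m ((mf.pow_const 2).mul (TwV_msh (TwV_pd_sm hU.sm 2).continuous)) (by norm_num) k0b fun h hh x => ?_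
      refine (TwV_m2 (f2 h x) (bpU _)).trans (le_of_eq (by ring))
    refine TwV_congr (TwV_add t1 (TwV_add t2 t3)) fun h x => ?_
    unfold a1f
    ring

end Pool.Agent.H88.EP
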