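/-
ROW TwY (MP_09540e_EP). Radial comparison on lines (for I0 near the axis). Aux lemmas prefixed TwY_. PROOF.
rad1: `F r - F r' = - ∫_r^{r'} ρ G ρ dρ`, Cauchy-Schwarz `(∫_r^{r'} ρ G)² ≤ (r' - r) ∫_r^{r'} ρ² G²`, `F r² ≤ 2 F r'² + 2 (F r - F r')²`.
T_dr: `T_h[g] := mid h g - sav h g`. `t ↦ g (lp t s)` has derivative `t dh g (lp t s)` (lp_dr, TwI); mid h g and sav h g are in Ri with dh (sav h g) = sav h (dh g), dh (mid h g) = mid h (dh g) (sh_ri, dh_sav, TwA): lp_dr for them.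
JJ_le: for 0 < r < |h| ≤ r' ≤ 2|h|, rad1 for every z with `F t = T_h[W] (lp t z)`, `G t = T_h[dh W] (lp t z)` (continuous): multiply by `ph L a (z + h/2)`, lintegral in z, Tonelli for `∫⁻_z ∫⁻_ρ` (lintegral_lintegral_swap; jointly measurable as continuous): `J r ≤ 2 J r' + ofReal (4 |h|) ∫⁻_{ρ ∈ (0, 2|h|)} ρ² N ρ`
(in ENNReal: `ofReal (a + b) ≤ ofReal a + ofReal b`, the interval integral of a nonnegative continuous function is the lintegral over the set, ofReal_integral_eq_lintegral_ofReal). Average over `r' ∈ (|h|, 2|h|)` (an interval of length |h|): `ofReal |h| * J r = ∫⁻_{r' ∈ Ioo |h| (2|h|)} J r ≤ ∫⁻ (2 J r' + const)`; divide by `ofReal |h|` (finite, non zero).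
J_bd: `T_h[W]² ≤ h⁴ sav h (W_zz²)` (tr_sav), on the line: `sav h F (lp r z) = ∫_0^1 F (lp r (z + s h))`, line_sav (TwB) with constant 3. N_bd: tr_sav0 and line_sav: `≤ 3 m + 3 m + 2·3 m = 12 m`.
in0: polar coordinates (cy_lint of TwI) for `F = ofReal (I0 ..) on {rad < |h|}`: there `c2 = 1` (r² < 1/128 ≤ 1/16), `k0 (θ-1) = (r²/2)^(θ-1)`, `be ≤ 1`: `∫⁻ ≤ 2π ∫⁻_{r ∈ (0,|h|)} r (r²/2)^(θ-1) J r dr`, `r (r²/2)^(θ-1) ≤ 2 r^(2θ-1)`, `J r ≤ M` (J_le), `∫_0^{|h|} r^(2θ-1) = |h|^(2θ)/(2θ)`.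
-/
import Pool.Agent.H88.EP.TwB
import Pool.Agent.H88.EP.TwV
import Pool.Agent.H88.EP.TwS

set_option autoImplicit false

open Set Filter Topology MeasureTheory
open scoped ContDiff

namespace Pool.Agent.H88.EP

open Pool.Agent.H16 Pool.Agent.H72.CC Pool.Agent.H87.EP
open Pool.Agent.H87.NS hiding c1
open Pool.Agent.H16.TU hiding Sl
open Pool.Agent.H94.EP

/-- The error of the trapezoidal rule. -/
noncomputable def tz (h : ℝ) (g : E3 → ℝ) (x : E3) : ℝ := mid h g x - sav h g x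

/-- Line integral of `ph(· + h/2) F²`. -/
noncomputable def lJ (L a h : ℝ) (F : E3 → ℝ) (r : ℝ) : ENNReal := ∫⁻ z, ENNReal.ofReal (ph L a (z + h / 2) * F (lp r z) ^ 2)

theorem TwY_lpc : Continuous (fun q : ℝ × ℝ => lp q.1 q.2) := lp_cont.1

theorem TwY_phc (L a h : ℝ) : Continuous (fun z : ℝ => ph L a (z + h / 2)) :=
  (ph_smooth L a).continuous.comp (by fun_prop)

theorem TwY_jc (L a h : ℝ) {F : E3 → ℝ} (hF : Continuous F) :
    Continuous (fun q : ℝ × ℝ => ph L a (q.2 + h / 2) * F (lp q.1 q.2) ^ 2) :=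
  ((TwY_phc L a h).comp continuous_snd).mul ((hF.comp TwY_lpc).pow 2)

theorem lJ_meas (L a h : ℝ) {F : E3 → ℝ} (hF : Continuous F) : Measurable (lJ L a h F) := by
  have h1 : Measurable (fun q : ℝ × ℝ => ENNReal.ofReal (ph L a (q.2 + h / 2) * F (lp q.1 q.2) ^ 2)) :=
    ENNReal.measurable_ofReal.comp (TwY_jc L a h hF).measurable
  exact h1.lintegral_prod_right'

/-- Cauchy-Schwarz on an interval. -/
theorem TwY_cs {f : ℝ → ℝ} (hf : Continuous f) {a b : ℝ} (hab : a < b) :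
    (∫ t in a..b, f t) ^ 2 ≤ (b - a) * ∫ t in a..b, f t ^ 2 := by
  obtain ⟨I, hI⟩ : ∃ I, I = ∫ t in a..b, f t := ⟨_, rfl⟩
  obtain ⟨Q, hQ⟩ : ∃ Q, Q = ∫ t in a..b, f t ^ 2 := ⟨_, rfl⟩
  have hba : 0 < b - a := sub_pos.2 hab
  have h0 : 0 ≤ ∫ t in a..b, ((b - a) * f t - I) ^ 2 :=
    intervalIntegral.integral_nonneg hab.le fun t _ => sq_nonneg _
  have h1 : ∫ t in a..b, ((b - a) * f t - I) ^ 2 = (b - a) ^ 2 * Q - 2 * (b - a) * I * I + I ^ 2 * (b - a) := by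
    have e1 : (fun t => ((b - a) * f t - I) ^ 2) =
        fun t => ((b - a) ^ 2 * f t ^ 2 - 2 * (b - a) * I * f t) + I ^ 2 := by
      funext t
      ring
    have i1 : IntervalIntegrable (fun t => (b - a) ^ 2 * f t ^ 2) volume a b :=
      (continuous_const.mul (hf.pow 2)).intervalIntegrable _ _
    have i2 : IntervalIntegrable (fun t => 2 * (b - a) * I * f t) volume a b :=
      (continuous_const.mul hf).intervalIntegrable _ _
    rw [e1, intervalIntegral.integral_add (i1.sub i2) (by simp),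
      intervalIntegral.integral_sub i1 i2, intervalIntegral.integral_const_mul,
      intervalIntegral.integral_const_mul, intervalIntegral.integral_const, ← hI, ← hQ, smul_eq_mul]
    ring
  rw [h1] at h0
  rw [← hI, ← hQ]
  have h2 : 0 ≤ (b - a) * ((b - a) * Q - I ^ 2) := by
    calc (0 : ℝ) ≤ _ := h0
      _ = (b - a) * ((b - a) * Q - I ^ 2) := by ring
  have h3 := nonneg_of_mul_nonneg_right h2 hba
  linarith

theorem rad1 {F G : ℝ → ℝ} (hG : Continuous G) (hd : ∀ t, HasDerivAt F (t * G t) t) {r r' : ℝ} (h0 : 0 < r) (h1 : r < r') :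
    F r ^ 2 ≤ 2 * F r' ^ 2 + 2 * r' * ∫ ρ in (0 : ℝ)..r', ρ ^ 2 * G ρ ^ 2 := by
  have hc : Continuous (fun t => t * G t) := continuous_id.mul hG
  have h2 : ∫ t in r..r', t * G t = F r' - F r :=
    intervalIntegral.integral_eq_sub_of_hasDerivAt (fun t _ => hd t) (hc.intervalIntegrable _ _)
  have h3 := TwY_cs hc h1
  rw [h2] at h3
  have e1 : (fun t => (t * G t) ^ 2) = fun ρ => ρ ^ 2 * G ρ ^ 2 := by
    funext t
    ring
  rw [e1] at h3
  have hc2 : Continuous (fun ρ => ρ ^ 2 * G ρ ^ 2) := (continuous_pow 2).mul (hG.pow 2)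
  have h4 : ∫ ρ in (0 : ℝ)..r', ρ ^ 2 * G ρ ^ 2 = (∫ ρ in (0 : ℝ)..r, ρ ^ 2 * G ρ ^ 2) + ∫ ρ in r..r', ρ ^ 2 * G ρ ^ 2 :=
    (intervalIntegral.integral_add_adjacent_intervals (hc2.intervalIntegrable _ _)
      (hc2.intervalIntegrable _ _)).symm
  have h5 : 0 ≤ ∫ ρ in (0 : ℝ)..r, ρ ^ 2 * G ρ ^ 2 :=
    intervalIntegral.integral_nonneg h0.le fun t _ => by positivity
  have h6 : 0 ≤ ∫ ρ in r..r', ρ ^ 2 * G ρ ^ 2 :=
    intervalIntegral.integral_nonneg h1.le fun t _ => by positivity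
  rw [h4]
  obtain ⟨A, hA⟩ : ∃ A, A = ∫ ρ in (0 : ℝ)..r, ρ ^ 2 * G ρ ^ 2 := ⟨_, rfl⟩
  obtain ⟨B, hB⟩ : ∃ B, B = ∫ ρ in r..r', ρ ^ 2 * G ρ ^ 2 := ⟨_, rfl⟩
  rw [← hA] at h5 ⊢
  rw [← hB] at h3 h6 ⊢
  have h7 : (r' - r) * B ≤ r' * (A + B) := by nlinarith
  nlinarith [sq_nonneg (F r - 2 * F r'), sq_nonneg (F r' - F r)]

theorem tz_dr {g : E3 → ℝ} (hg : Ri g) (h r s : ℝ) : HasDerivAt (fun t => tz h g (lp t s)) (r * tz h (dh g) (lp r s)) r ∧
    Continuous (tz h (dh g)) := by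
  obtain ⟨-, -, hm, hs⟩ := sh_ri hg h
  have h1 := lp_dr hm r s
  have h2 := lp_dr hs r s
  obtain ⟨d1, d2, -⟩ := dh_sav hg h (lp r s)
  rw [d2] at h1
  rw [d1] at h2
  refine ⟨(h1.sub h2).congr_deriv ?_, ?_⟩
  · unfold tz
    ring
  · obtain ⟨-, -, hm', hs'⟩ := sh_ri hg.dh h
    exact hm'.sm.continuous.sub hs'.sm.continuous

theorem TwY_tzc {g : E3 → ℝ} (hg : Ri g) (h : ℝ) : Continuous (tz h g) := by
  obtain ⟨-, -, hm, hs⟩ := sh_ri hg h
  exact hm.sm.continuous.sub hs.sm.continuous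

theorem TwY_one {g : E3 → ℝ} (hg : Ri g) (L a : ℝ) {h r r' : ℝ} (h0 : 0 < r) (h1 : r < r') :
    lJ L a h (tz h g) r ≤ 2 * lJ L a h (tz h g) r' +
      ENNReal.ofReal (2 * r') * ∫⁻ ρ in Ioc 0 r', ENNReal.ofReal (ρ ^ 2) * lJ L a h (tz h (dh g)) ρ := by
  have hT := TwY_tzc hg h
  have hT' := (tz_dr hg h r 0).2
  have hr' : 0 < r' := h0.trans h1
  have hp : ∀ z, 0 ≤ ph L a (z + h / 2) := fun z => (ph_pos L a _).le
  have m1 : Measurable (fun z => ENNReal.ofReal (ph L a (z + h / 2) * tz h g (lp r' z) ^ 2)) :=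
    ENNReal.measurable_ofReal.comp
      ((TwY_jc L a h hT).comp (by fun_prop : Continuous fun z : ℝ => (r', z))).measurable
  have hpt : ∀ z, ENNReal.ofReal (ph L a (z + h / 2) * tz h g (lp r z) ^ 2) ≤
      2 * ENNReal.ofReal (ph L a (z + h / 2) * tz h g (lp r' z) ^ 2) +
      ENNReal.ofReal (2 * r') * ∫⁻ ρ in Ioc 0 r', ENNReal.ofReal (ρ ^ 2) *
        ENNReal.ofReal (ph L a (z + h / 2) * tz h (dh g) (lp ρ z) ^ 2) := by
    intro z
    have hGc : Continuous (fun t => tz h (dh g) (lp t z)) :=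
      hT'.comp (TwY_lpc.comp (by fun_prop : Continuous fun t : ℝ => (t, z)))
    have h2 := rad1 (F := fun t => tz h g (lp t z)) (G := fun t => tz h (dh g) (lp t z)) hGc
      (fun t => (tz_dr hg h t z).1) h0 h1
    have h3 : ∫⁻ ρ in Ioc 0 r', ENNReal.ofReal (ρ ^ 2) *
        ENNReal.ofReal (ph L a (z + h / 2) * tz h (dh g) (lp ρ z) ^ 2) =
        ENNReal.ofReal (ph L a (z + h / 2) * ∫ ρ in (0 : ℝ)..r', ρ ^ 2 * tz h (dh g) (lp ρ z) ^ 2) := by
      have hc2 : Continuous (fun ρ => ph L a (z + h / 2) * (ρ ^ 2 * tz h (dh g) (lp ρ z) ^ 2)) :=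
        continuous_const.mul ((continuous_pow 2).mul (hGc.pow 2))
      rw [← intervalIntegral.integral_const_mul, intervalIntegral.integral_of_le hr'.le,
        ofReal_integral_eq_lintegral_ofReal]
      · refine lintegral_congr fun ρ => ?_
        rw [← ENNReal.ofReal_mul (sq_nonneg ρ)]
        congr 1
        ring
      · exact (hc2.intervalIntegrable 0 r').1
      · exact Eventually.of_forall fun ρ => mul_nonneg (hp z) (by positivity)
    have h4 : (2 : ENNReal) = ENNReal.ofReal 2 := by norm_num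
    have h5 : 0 ≤ ∫ ρ in (0 : ℝ)..r', ρ ^ 2 * tz h (dh g) (lp ρ z) ^ 2 :=
      intervalIntegral.integral_nonneg hr'.le fun t _ => by positivity
    rw [h3, h4, ← ENNReal.ofReal_mul (by norm_num), ← ENNReal.ofReal_mul (by positivity),
      ← ENNReal.ofReal_add (mul_nonneg (by norm_num) (mul_nonneg (hp z) (sq_nonneg _)))
        (mul_nonneg (by positivity) (mul_nonneg (hp z) h5))]
    apply ENNReal.ofReal_le_ofReal
    have h6 := mul_le_mul_of_nonneg_left h2 (hp z)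
    linarith
  have m2 : Measurable (fun q : ℝ × ℝ => ENNReal.ofReal (q.2 ^ 2) *
      ENNReal.ofReal (ph L a (q.1 + h / 2) * tz h (dh g) (lp q.2 q.1) ^ 2)) := by
    refine (ENNReal.measurable_ofReal.comp (measurable_snd.pow_const 2)).mul
      (ENNReal.measurable_ofReal.comp ?_)
    exact ((TwY_jc L a h hT').comp continuous_swap).measurable
  unfold lJ at *
  calc ∫⁻ z, ENNReal.ofReal (ph L a (z + h / 2) * tz h g (lp r z) ^ 2)
      ≤ ∫⁻ z, (2 * ENNReal.ofReal (ph L a (z + h / 2) * tz h g (lp r' z) ^ 2) +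
          ENNReal.ofReal (2 * r') * ∫⁻ ρ in Ioc 0 r', ENNReal.ofReal (ρ ^ 2) *
          ENNReal.ofReal (ph L a (z + h / 2) * tz h (dh g) (lp ρ z) ^ 2)) := lintegral_mono hpt
    _ = 2 * (∫⁻ z, ENNReal.ofReal (ph L a (z + h / 2) * tz h g (lp r' z) ^ 2)) +
          ENNReal.ofReal (2 * r') * ∫⁻ z, ∫⁻ ρ in Ioc 0 r', ENNReal.ofReal (ρ ^ 2) *
          ENNReal.ofReal (ph L a (z + h / 2) * tz h (dh g) (lp ρ z) ^ 2) := by
        rw [lintegral_add_left (m1.const_mul 2), lintegral_const_mul _ m1,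
          lintegral_const_mul _ m2.lintegral_prod_right']
    _ = _ := by
        rw [lintegral_lintegral_swap m2.aemeasurable]
        congr 2
        refine lintegral_congr fun ρ => ?_
        rw [lintegral_const_mul]
        exact ENNReal.measurable_ofReal.comp
          ((TwY_jc L a h hT').comp (by fun_prop : Continuous fun z : ℝ => (ρ, z))).measurable

theorem J_le {g : E3 → ℝ} (hg : Ri g) (L a : ℝ) {h r : ℝ} (h0 : 0 < r) (h1 : r < |h|) :
    lJ L a h (tz h g) r ≤ ENNReal.ofReal (2 / |h|) * (∫⁻ r' in Ioo |h| (2 * |h|), lJ L a h (tz h g) r') +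
      ENNReal.ofReal (4 * |h|) * ∫⁻ ρ in Ioo 0 (2 * |h|), ENNReal.ofReal (ρ ^ 2) * lJ L a h (tz h (dh g)) ρ := by
  have hh : 0 < |h| := h0.trans h1
  obtain ⟨K, hK⟩ : ∃ K, K = ENNReal.ofReal (4 * |h|) *
    ∫⁻ ρ in Ioo 0 (2 * |h|), ENNReal.ofReal (ρ ^ 2) * lJ L a h (tz h (dh g)) ρ := ⟨_, rfl⟩
  have hT := TwY_tzc hg h
  have h2 : ∀ r' ∈ Ioo |h| (2 * |h|), lJ L a h (tz h g) r ≤ 2 * lJ L a h (tz h g) r' + K := by
    intro r' hr'
    refine (TwY_one hg L a h0 (h1.trans hr'.1)).trans (add_le_add le_rfl ?_)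
    rw [hK]
    refine mul_le_mul' (ENNReal.ofReal_le_ofReal (by linarith [hr'.2])) ?_
    exact lintegral_mono_set fun ρ hρ => ⟨hρ.1, lt_of_le_of_lt hρ.2 hr'.2⟩
  have h3 : ∫⁻ _ in Ioo |h| (2 * |h|), lJ L a h (tz h g) r ≤
      ∫⁻ r' in Ioo |h| (2 * |h|), (2 * lJ L a h (tz h g) r' + K) :=
    setLIntegral_mono' measurableSet_Ioo h2
  have hm := lJ_meas L a h hT
  have hv : volume (Ioo |h| (2 * |h|)) = ENNReal.ofReal |h| := by
    rw [Real.volume_Ioo]
    congr 1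
    ring
  rw [setLIntegral_const, lintegral_add_left (hm.const_mul 2), lintegral_const_mul _ hm,
    setLIntegral_const, hv] at h3
  rw [← hK]
  have h4 : ENNReal.ofReal |h| * ENNReal.ofReal (1 / |h|) = 1 := by
    rw [← ENNReal.ofReal_mul hh.le, mul_one_div_cancel hh.ne', ENNReal.ofReal_one]
  calc lJ L a h (tz h g) r = lJ L a h (tz h g) r * (ENNReal.ofReal |h| * ENNReal.ofReal (1 / |h|)) := by
        rw [h4, mul_one]
    _ = lJ L a h (tz h g) r * ENNReal.ofReal |h| * ENNReal.ofReal (1 / |h|) := by rw [mul_assoc]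
    _ ≤ (2 * (∫⁻ r' in Ioo |h| (2 * |h|), lJ L a h (tz h g) r') + K * ENNReal.ofReal |h|) *
          ENNReal.ofReal (1 / |h|) := mul_le_mul' h3 le_rfl
    _ = (2 * ENNReal.ofReal (1 / |h|)) * (∫⁻ r' in Ioo |h| (2 * |h|), lJ L a h (tz h g) r') +
          K * (ENNReal.ofReal |h| * ENNReal.ofReal (1 / |h|)) := by ring
    _ = _ := by
        rw [h4, mul_one]
        congr 2
        have h5 : (2 : ENNReal) = ENNReal.ofReal 2 := by norm_num
        rw [h5, ← ENNReal.ofReal_mul (by norm_num)]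
        congr 1
        ring

theorem TwY_sav (g : E3 → ℝ) (h r z : ℝ) : sav h g (lp r z) = ∫ s in (0 : ℝ)..1, g (lp r (z + s * h)) := by
  unfold sav
  refine intervalIntegral.integral_congr fun s _ => ?_
  simp only [(lp_f r z).2.2.2.2.2 (s * h)]

theorem TwY_l0 (L a : ℝ) (F : E3 → ℝ) (r : ℝ) : lJ L a 0 F r = ∫⁻ z, ENNReal.ofReal (ph L a z * F (lp r z) ^ 2) := by
  unfold lJ
  refine lintegral_congr fun z => ?_
  rw [zero_div, add_zero]

theorem J_bd {g : E3 → ℝ} (hg : Ri g) {L : ℝ} (hL : 1 ≤ L) (a : ℝ) {h : ℝ} (hh : |h| ≤ 1) (r : ℝ) :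
    lJ L a h (tz h g) r ≤ ENNReal.ofReal (3 * h ^ 4) * lJ L a 0 (pd 2 (pd 2 g)) r ∧
    lJ L a h (tz h (dh g)) r ≤ 12 * lJ L a 0 (dh g) r := by
  have hp : ∀ z, 0 ≤ ph L a (z + h / 2) := fun z => (ph_pos L a _).le
  have hlc : Continuous (fun z => lp r z) := TwY_lpc.comp (by fun_prop : Continuous fun z : ℝ => (r, z))
  constructor
  · have hgc : Continuous (pd 2 (pd 2 g)) := hg.pd2.pd2.sm.continuous
    have hl := (line_sav hL a (F := fun z => pd 2 (pd 2 g) (lp r z) ^ 2) ((hgc.comp hlc).pow 2)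
      (fun _ => sq_nonneg _) hh).1
    rw [TwY_l0]
    have h3 : ENNReal.ofReal (3 * h ^ 4) = ENNReal.ofReal (h ^ 4) * 3 := by
      rw [mul_comm 3, ENNReal.ofReal_mul (by positivity)]
      norm_num
    rw [h3, mul_assoc]
    refine le_trans ?_ (mul_le_mul' le_rfl hl)
    unfold lJ
    rw [← lintegral_const_mul']
    · refine lintegral_mono fun z => ?_
      rw [← ENNReal.ofReal_mul (by positivity)]
      apply ENNReal.ofReal_le_ofReal
      have h4 := tr_sav (hg.sm.of_le (by norm_cast)) h (lp r z)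
      rw [TwY_sav (fun y => pd 2 (pd 2 g) y ^ 2)] at h4
      have h5 := mul_le_mul_of_nonneg_left h4 (hp z)
      calc ph L a (z + h / 2) * tz h g (lp r z) ^ 2 ≤ _ := h5
        _ = _ := by ring
    · exact ENNReal.ofReal_ne_top
  · have hgc : Continuous (dh g) := hg.dh.sm.continuous
    have hFc : Continuous (fun z => dh g (lp r z) ^ 2) := (hgc.comp hlc).pow 2
    obtain ⟨l1, l2, l3⟩ := line_sav hL a (F := fun z => dh g (lp r z) ^ 2) hFc
      (fun _ => sq_nonneg _) hh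
    rw [TwY_l0]
    obtain ⟨m, hm⟩ : ∃ m, m = ∫⁻ z, ENNReal.ofReal (ph L a z * dh g (lp r z) ^ 2) := ⟨_, rfl⟩
    rw [← hm] at l1 l2 l3 ⊢
    have c1 : Measurable (fun z => ENNReal.ofReal (ph L a (z + h / 2) * dh g (lp r (z + h)) ^ 2)) :=
      ENNReal.measurable_ofReal.comp
        ((TwY_phc L a h).mul (hFc.comp (by fun_prop : Continuous fun z : ℝ => z + h))).measurable
    have c2 : Measurable (fun z => ENNReal.ofReal (ph L a (z + h / 2) * dh g (lp r z) ^ 2)) :=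
      ENNReal.measurable_ofReal.comp ((TwY_phc L a h).mul hFc).measurable
    calc lJ L a h (tz h (dh g)) r
        ≤ ∫⁻ z, (ENNReal.ofReal (ph L a (z + h / 2) * dh g (lp r (z + h)) ^ 2) +
          (ENNReal.ofReal (ph L a (z + h / 2) * dh g (lp r z) ^ 2) +
          2 * ENNReal.ofReal (ph L a (z + h / 2) * ∫ s in (0 : ℝ)..1, dh g (lp r (z + s * h)) ^ 2))) := by
          unfold lJ
          refine lintegral_mono fun z => ?_
          have h4 := tr_sav0 hgc h (lp r z)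
          rw [TwY_sav (fun y => dh g y ^ 2), (lp_f r z).2.2.2.2.2 h] at h4
          have h6 : 0 ≤ ∫ s in (0 : ℝ)..1, dh g (lp r (z + s * h)) ^ 2 :=
            intervalIntegral.integral_nonneg zero_le_one fun t _ => sq_nonneg _
          have h7 : (2 : ENNReal) = ENNReal.ofReal 2 := by norm_num
          rw [h7, ← ENNReal.ofReal_mul (by norm_num),
            ← ENNReal.ofReal_add (mul_nonneg (hp z) (sq_nonneg _))
              (mul_nonneg (by norm_num) (mul_nonneg (hp z) h6)),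
            ← ENNReal.ofReal_add (mul_nonneg (hp z) (sq_nonneg _))
              (add_nonneg (mul_nonneg (hp z) (sq_nonneg _))
                (mul_nonneg (by norm_num) (mul_nonneg (hp z) h6)))]
          apply ENNReal.ofReal_le_ofReal
          have h5 := mul_le_mul_of_nonneg_left h4 (hp z)
          calc ph L a (z + h / 2) * tz h (dh g) (lp r z) ^ 2 ≤ _ := h5
            _ = _ := by ring
      _ = (∫⁻ z, ENNReal.ofReal (ph L a (z + h / 2) * dh g (lp r (z + h)) ^ 2)) +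
          ((∫⁻ z, ENNReal.ofReal (ph L a (z + h / 2) * dh g (lp r z) ^ 2)) +
          2 * ∫⁻ z, ENNReal.ofReal (ph L a (z + h / 2) * ∫ s in (0 : ℝ)..1, dh g (lp r (z + s * h)) ^ 2)) := by
          rw [lintegral_add_left c1, lintegral_add_left c2, lintegral_const_mul' _ _ (by simp)]
      _ ≤ 3 * m + (3 * m + 2 * (3 * m)) := by
          refine add_le_add l2 (add_le_add l3 (mul_le_mul' le_rfl l1))
      _ = 12 * m := by ring

theorem TwY_rot (θ κ L a : ℝ) (hL : 1 ≤ L) {v : E3 → E3} (hv : Vs v) (h t : ℝ) (x : E3) :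
    I0 θ κ L a v h (rot t x) = I0 θ κ L a v h x := by
  obtain ⟨-, -, hm, hs⟩ := sh_ri (vs_ri hv).2.1 h
  unfold I0 be
  rw [(kx_f hL (θ - 1) a).2.2.1, hm.rot, hs.rot, B_rad_rot]

theorem TwY_M {L : ℝ} (hL : 1 ≤ L) (a : ℝ) {g : E3 → ℝ} (hg : Ri g) {h r : ℝ} (hh : |h| ≤ 1) (h0 : 0 < r) (h1 : r < |h|) :
    lJ L a h (tz h g) r ≤ ENNReal.ofReal (6 * |h| ^ 3) * (∫⁻ r in Ioo |h| (2 * |h|), lJ L a 0 (pd 2 (pd 2 g)) r) +
        ENNReal.ofReal (48 * |h|) * ∫⁻ ρ in Ioo 0 (2 * |h|), ENNReal.ofReal (ρ ^ 2) * lJ L a 0 (dh g) ρ := by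
  have hp : 0 < |h| := h0.trans h1
  have hb := fun r => J_bd hg hL a hh r
  refine (J_le hg L a h0 h1).trans (add_le_add ?_ ?_)
  · have h2 : ∫⁻ r' in Ioo |h| (2 * |h|), lJ L a h (tz h g) r' ≤
        ENNReal.ofReal (3 * h ^ 4) * ∫⁻ r in Ioo |h| (2 * |h|), lJ L a 0 (pd 2 (pd 2 g)) r := by
      rw [← lintegral_const_mul' _ _ ENNReal.ofReal_ne_top]
      exact lintegral_mono fun r => (hb r).1
    refine (mul_le_mul' le_rfl h2).trans ?_
    rw [← mul_assoc, ← ENNReal.ofReal_mul (by positivity)]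
    refine mul_le_mul' (ENNReal.ofReal_le_ofReal (le_of_eq ?_)) le_rfl
    have e1 : h ^ 4 = |h| ^ 4 := by rw [← abs_pow, abs_of_nonneg (by positivity)]
    rw [e1]
    field_simp
    ring
  · have h2 : ∫⁻ ρ in Ioo 0 (2 * |h|), ENNReal.ofReal (ρ ^ 2) * lJ L a h (tz h (dh g)) ρ ≤
        12 * ∫⁻ ρ in Ioo 0 (2 * |h|), ENNReal.ofReal (ρ ^ 2) * lJ L a 0 (dh g) ρ := by
      rw [← lintegral_const_mul' _ _ (by simp)]
      refine lintegral_mono fun r => ?_
      calc ENNReal.ofReal (r ^ 2) * lJ L a h (tz h (dh g)) r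
          ≤ ENNReal.ofReal (r ^ 2) * (12 * lJ L a 0 (dh g) r) := mul_le_mul' le_rfl (hb r).2
        _ = _ := by ring
    refine (mul_le_mul' le_rfl h2).trans ?_
    rw [← mul_assoc]
    refine mul_le_mul' (le_of_eq ?_) le_rfl
    have h3 : (12 : ENNReal) = ENNReal.ofReal 12 := by norm_num
    rw [h3, ← ENNReal.ofReal_mul (by positivity)]
    congr 1
    ring

theorem TwY_pw {θ : ℝ} (h0 : 0 < θ) {r : ℝ} (hr : 0 < r) : r * (r ^ 2 / 2) ^ (θ - 1) ≤ 2 * r ^ (2 * θ - 1) := by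
  have e1 : (r ^ 2 / 2) ^ (θ - 1) = r ^ (2 * θ - 2) * (2 : ℝ) ^ (1 - θ) := by
    rw [Real.div_rpow (by positivity) (by norm_num), ← Real.rpow_natCast, ← Real.rpow_mul hr.le,
      div_eq_mul_inv, ← Real.rpow_neg (by norm_num)]
    congr 2
    · push_cast
      ring
    · ring
  have e2 : r ^ (2 * θ - 1) = r * r ^ (2 * θ - 2) := by
    rw [show 2 * θ - 1 = 1 + (2 * θ - 2) by ring, Real.rpow_add hr, Real.rpow_one]
  have e3 : (2 : ℝ) ^ (1 - θ) ≤ 2 := by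
    calc (2 : ℝ) ^ (1 - θ) ≤ (2 : ℝ) ^ (1 : ℝ) :=
          Real.rpow_le_rpow_of_exponent_le (by norm_num) (by linarith)
      _ = 2 := Real.rpow_one 2
  have e4 : 0 ≤ r * r ^ (2 * θ - 2) := mul_nonneg hr.le (Real.rpow_nonneg hr.le _)
  rw [e1, e2]
  calc r * (r ^ (2 * θ - 2) * (2 : ℝ) ^ (1 - θ)) = (r * r ^ (2 * θ - 2)) * (2 : ℝ) ^ (1 - θ) := by ring
    _ ≤ (r * r ^ (2 * θ - 2)) * 2 := mul_le_mul_of_nonneg_left e3 e4
    _ = _ := by ring

theorem TwY_int {θ : ℝ} (h0 : 0 < θ) {b : ℝ} (hb : 0 < b) :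
    ∫⁻ r in Ioo 0 b, ENNReal.ofReal (2 * r ^ (2 * θ - 1)) = ENNReal.ofReal (b ^ (2 * θ) / θ) := by
  have hi : IntervalIntegrable (fun r : ℝ => r ^ (2 * θ - 1)) volume 0 b :=
    intervalIntegral.intervalIntegrable_rpow' (by linarith)
  have h1 : ∫ r in (0 : ℝ)..b, 2 * r ^ (2 * θ - 1) = b ^ (2 * θ) / θ := by
    rw [intervalIntegral.integral_const_mul, integral_rpow (Or.inl (by linarith)),
      show 2 * θ - 1 + 1 = 2 * θ by ring, Real.zero_rpow (by positivity), sub_zero]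
    field_simp
  rw [← h1, intervalIntegral.integral_of_le hb.le, ofReal_integral_eq_lintegral_ofReal,
    restrict_Ioo_eq_restrict_Ioc]
  · exact (hi.const_mul 2).1
  · rw [EventuallyLE, ae_restrict_iff' measurableSet_Ioc]
    exact Eventually.of_forall fun r hr => mul_nonneg (by norm_num) (Real.rpow_nonneg hr.1.le _)

/-- The pointwise bound on lines. -/
theorem TwY_pt {θ κ : ℝ} (hκ : 1 ≤ κ) (L a : ℝ) (v : E3 → E3) (h z : ℝ) {r : ℝ} (hr0 : 0 < r) :
    I0 θ κ L a v h (lp r z) ≤ (r ^ 2 / 2) ^ (θ - 1) * (ph L a (z + h / 2) * tz h (sW v) (lp r z) ^ 2) := by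
  have e1 : rad (lp r z) = r := B_rad_lp hr0.le z
  obtain ⟨l1, -, -, -, l2, -⟩ := lp_f r z
  unfold I0
  rw [kx_k0, l2]
  have k1 : k0 (θ - 1) (lp r z) ≤ (r ^ 2 / 2) ^ (θ - 1) := by
    unfold k0
    rw [l1]
    have c := c2_f.2.1 (lp r z)
    have c4 : c2 (lp r z) ^ 4 ≤ 1 := pow_le_one₀ c.1 c.2.1
    calc (r ^ 2 / 2) ^ (θ - 1) * c2 (lp r z) ^ 4 ≤ (r ^ 2 / 2) ^ (θ - 1) * 1 :=
          mul_le_mul_of_nonneg_left c4 (Real.rpow_nonneg (by positivity) _)
      _ = _ := mul_one _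
  have b1 : be κ (lp r z) ^ 2 ≤ 1 := by
    have b0 : 0 ≤ be κ (lp r z) := le_min zero_le_one (mul_nonneg (by linarith) (by rw [e1]; exact hr0.le))
    exact pow_le_one₀ b0 (min_le_left _ _)
  have p0 := (ph_pos L a (z + h / 2)).le
  have k0' : 0 ≤ k0 (θ - 1) (lp r z) := (k0_f (θ - 1)).2.1 _
  calc k0 (θ - 1) (lp r z) * ph L a (z + h / 2) * be κ (lp r z) ^ 2 *
        (mid h (sW v) (lp r z) - sav h (sW v) (lp r z)) ^ 2
      ≤ k0 (θ - 1) (lp r z) * ph L a (z + h / 2) * 1 *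
        (mid h (sW v) (lp r z) - sav h (sW v) (lp r z)) ^ 2 :=
        mul_le_mul_of_nonneg_right (mul_le_mul_of_nonneg_left b1 (mul_nonneg k0' p0)) (sq_nonneg _)
    _ = k0 (θ - 1) (lp r z) * (ph L a (z + h / 2) * tz h (sW v) (lp r z) ^ 2) := by
        unfold tz
        ring
    _ ≤ _ := mul_le_mul_of_nonneg_right k1 (mul_nonneg p0 (sq_nonneg _))

theorem TwY_line {θ κ : ℝ} (h0 : 0 < θ) (hκ : 1 ≤ κ) (L a : ℝ) (v : E3 → E3) {h r : ℝ} (hr0 : 0 < r) {M : ENNReal}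
    (hM : lJ L a h (tz h (sW v)) r ≤ M) :
    ENNReal.ofReal r * (∫⁻ z, ENNReal.ofReal (I0 θ κ L a v h (lp r z))) ≤ ENNReal.ofReal (2 * r ^ (2 * θ - 1)) * M := by
  have h1 : ∫⁻ z, ENNReal.ofReal (I0 θ κ L a v h (lp r z)) ≤
      ENNReal.ofReal ((r ^ 2 / 2) ^ (θ - 1)) * lJ L a h (tz h (sW v)) r := by
    unfold lJ
    rw [← lintegral_const_mul' _ _ ENNReal.ofReal_ne_top]
    refine lintegral_mono fun z => ?_
    rw [← ENNReal.ofReal_mul (Real.rpow_nonneg (by positivity) _)]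
    exact ENNReal.ofReal_le_ofReal (TwY_pt hκ L a v h z hr0)
  calc ENNReal.ofReal r * (∫⁻ z, ENNReal.ofReal (I0 θ κ L a v h (lp r z)))
      ≤ ENNReal.ofReal r * (ENNReal.ofReal ((r ^ 2 / 2) ^ (θ - 1)) * lJ L a h (tz h (sW v)) r) :=
        mul_le_mul' le_rfl h1
    _ = ENNReal.ofReal (r * (r ^ 2 / 2) ^ (θ - 1)) * lJ L a h (tz h (sW v)) r := by
        rw [← mul_assoc, ← ENNReal.ofReal_mul hr0.le]
    _ ≤ _ := mul_le_mul' (ENNReal.ofReal_le_ofReal (TwY_pw h0 hr0)) hM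

/-- Polar coordinates on a cylinder around the axis. -/
theorem TwY_cyl {F : E3 → ENNReal} (hF : Measurable F) (hr : ∀ θ x, F (rot θ x) = F x) {b θ : ℝ} (hb : 0 < b) (h0 : 0 < θ) {M : ENNReal}
    (hM : ∀ r, 0 < r → r < b → ENNReal.ofReal r * (∫⁻ z, F (lp r z)) ≤ ENNReal.ofReal (2 * r ^ (2 * θ - 1)) * M) :
    ∫⁻ x in {x : E3 | rad x < b}, F x ≤ ENNReal.ofReal (2 * Real.pi) * (ENNReal.ofReal (b ^ (2 * θ) / θ) * M) := by
  have hms : MeasurableSet {x : E3 | rad x < b} := measurableSet_lt B_rad_cont.measurable measurable_const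
  have hrot : ∀ t x, {x : E3 | rad x < b}.indicator F (rot t x) = {x : E3 | rad x < b}.indicator F x := by
    intro t x
    by_cases hx : rad x < b
    · rw [indicator_of_mem (show rot t x ∈ {x : E3 | rad x < b} by
        rw [mem_ofPred_eq, B_rad_rot]; exact hx), indicator_of_mem (show x ∈ {x : E3 | rad x < b} from hx), hr]
    · rw [indicator_of_notMem (show rot t x ∉ {x : E3 | rad x < b} by
        rw [mem_ofPred_eq, B_rad_rot]; exact hx), indicator_of_notMem (show x ∉ {x : E3 | rad x < b} from hx)]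
  rw [← lintegral_indicator hms, cy_lint (hF.indicator hms) hrot]
  refine mul_le_mul' le_rfl ?_
  have hpt : ∀ r ∈ Ioi (0 : ℝ), ENNReal.ofReal r * (∫⁻ z, {x : E3 | rad x < b}.indicator F (lp r z)) ≤
      (Ioo 0 b).indicator (fun r => ENNReal.ofReal (2 * r ^ (2 * θ - 1)) * M) r := by
    intro r hr
    have hr0 : 0 < r := hr
    by_cases hx : r < b
    · rw [indicator_of_mem (show r ∈ Ioo 0 b from ⟨hr0, hx⟩)]
      have hz : ∀ z, {x : E3 | rad x < b}.indicator F (lp r z) = F (lp r z) := by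
        intro z
        apply indicator_of_mem
        rw [mem_ofPred_eq, B_rad_lp hr0.le z]
        exact hx
      rw [lintegral_congr hz]
      exact hM r hr0 hx
    · have hz : ∀ z, {x : E3 | rad x < b}.indicator F (lp r z) = 0 := by
        intro z
        apply indicator_of_notMem
        rw [mem_ofPred_eq, B_rad_lp hr0.le z]
        exact hx
      rw [lintegral_congr hz, lintegral_zero, mul_zero]
      exact zero_le
  calc ∫⁻ r in Ioi (0 : ℝ), ENNReal.ofReal r * (∫⁻ z, {x : E3 | rad x < b}.indicator F (lp r z))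
      ≤ ∫⁻ r in Ioi (0 : ℝ), (Ioo 0 b).indicator (fun r => ENNReal.ofReal (2 * r ^ (2 * θ - 1)) * M) r :=
        setLIntegral_mono' measurableSet_Ioi hpt
    _ ≤ ∫⁻ r, (Ioo 0 b).indicator (fun r => ENNReal.ofReal (2 * r ^ (2 * θ - 1)) * M) r :=
        setLIntegral_le_lintegral _ _
    _ = (∫⁻ r in Ioo 0 b, ENNReal.ofReal (2 * r ^ (2 * θ - 1))) * M := by
        rw [lintegral_indicator measurableSet_Ioo, lintegral_mul_const]
        exact ENNReal.measurable_ofReal.comp (measurable_const.mul (measurable_id.pow_const _))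
    _ = _ := by rw [TwY_int h0 hb]

theorem TwY_sec {E : Type*} [MeasurableSpace E] {F : ℝ → E → ℝ} (hF : Measurable (fun q : ℝ × E => F q.1 q.2)) (h : ℝ) :
    Measurable (F h) := by
  have h3 : Measurable (fun x : E => (h, x)) := measurable_const.prodMk measurable_id
  exact hF.comp h3

theorem in0 {θ κ L : ℝ} (h0 : 0 < θ) (h1 : θ ≤ 1 / 2) (hκ : 1 ≤ κ) (hL : 1 ≤ L) (a : ℝ) {v : E3 → E3} (hv : Vs v) {h : ℝ} (hh : 0 < |h|) (hh1 : h ^ 2 < 1 / 128) :
    ∫⁻ x in {x : E3 | rad x < |h|}, ENNReal.ofReal (I0 θ κ L a v h x) ≤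
      ENNReal.ofReal (2 * Real.pi * |h| ^ (2 * θ) / θ) * (ENNReal.ofReal (6 * |h| ^ 3) * (∫⁻ r in Ioo |h| (2 * |h|), lJ L a 0 (pd 2 (pd 2 (sW v))) r) +
        ENNReal.ofReal (48 * |h|) * ∫⁻ ρ in Ioo 0 (2 * |h|), ENNReal.ofReal (ρ ^ 2) * lJ L a 0 (dh (sW v)) ρ) := by
  have hle1 : |h| ≤ 1 := by
    have h2 : |h| ^ 2 < 1 := by
      rw [sq_abs]
      linarith
    nlinarith [abs_nonneg h]
  have hW : Ri (sW v) := (vs_ri hv).2.1
  have hA : Adm θ L a (I0 θ κ L a v) := (adm_I h0 h1 hκ hL a hv).2.2.1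
  have hmI : Measurable (I0 θ κ L a v h) := TwY_sec hA.meas h
  obtain ⟨M, hM⟩ : ∃ M, M = ENNReal.ofReal (6 * |h| ^ 3) * (∫⁻ r in Ioo |h| (2 * |h|), lJ L a 0 (pd 2 (pd 2 (sW v))) r) +
        ENNReal.ofReal (48 * |h|) * ∫⁻ ρ in Ioo 0 (2 * |h|), ENNReal.ofReal (ρ ^ 2) * lJ L a 0 (dh (sW v)) ρ := ⟨_, rfl⟩
  have hJ : ∀ r, 0 < r → r < |h| → lJ L a h (tz h (sW v)) r ≤ M := fun r hr hr' => by
    rw [hM]
    exact TwY_M hL a hW hle1 hr hr'
  have hJ2 : ∀ r, 0 < r → r < |h| → ENNReal.ofReal r * (∫⁻ z, (fun x => ENNReal.ofReal (I0 θ κ L a v h x)) (lp r z)) ≤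
      ENNReal.ofReal (2 * r ^ (2 * θ - 1)) * M := fun r hr hr' =>
    TwY_line h0 hκ L a v hr (hJ r hr hr')
  have hm : Measurable (fun x => ENNReal.ofReal (I0 θ κ L a v h x)) := hmI.ennreal_ofReal
  have hr : ∀ t x, (fun x => ENNReal.ofReal (I0 θ κ L a v h x)) (rot t x) =
      (fun x => ENNReal.ofReal (I0 θ κ L a v h x)) x := fun t x =>
    congrArg ENNReal.ofReal (TwY_rot θ κ L a hL hv h t x)
  have key := TwY_cyl hm hr hh h0 hJ2
  have e1 : ENNReal.ofReal (2 * Real.pi) * (ENNReal.ofReal (|h| ^ (2 * θ) / θ) * M) =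
      ENNReal.ofReal (2 * Real.pi * |h| ^ (2 * θ) / θ) * M := by
    rw [← mul_assoc, ← ENNReal.ofReal_mul (by positivity)]
    congr 2
    ring
  rw [← hM, ← e1]
  exact key

end Pool.Agent.H88.EP
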