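/-
ROW TwZ (MP_09540e_EP). Tonelli estimates in (h, r). Aux lemmas prefixed TwZ_. PROOF. ty1: the left side is `∫⁻_h ∫⁻_r 1_{0 < |h| < 1/8} 1_{|h| < r < 2|h|} n r dr dh` (indicators, lintegral over a set), Tonelli (lintegral_lintegral_swap, the set is measurable in (h, r)): `= ∫⁻_r n r · vol {h : 0 < |h| < 1/8, |h| < r < 2|h|} dr`,
the set is contained in `{h : r/2 < |h| < r}` (volume ≤ 2 (r - r/2) = r; = Ioo (r/2) r ∪ Ioo (-r) (-r/2)) and empty unless `0 < r < 1/4`.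
ty2: likewise: `= ∫⁻_ρ ρ² m ρ ∫⁻_{ρ/2 < |h| < 1/8} |h|^(-2) dh dρ`, inner `≤ 2 ∫_{ρ/2}^∞ h^(-2) dh = 4 / ρ` (integral_Ioi_rpow or on a bounded interval by FTC), empty unless 0 < ρ < 1/4; `ρ² · 4/ρ = 4 ρ`.
-/
import Mathlib

set_option autoImplicit false

open Set Filter Topology MeasureTheory

namespace Pool.Agent.H88.EP

/-- Tonelli over a set of pairs -/
theorem TwZ_swap {f : ℝ → ENNReal} {g : ℝ → ENNReal} (hf : Measurable f) (hg : Measurable g) {S : Set ℝ}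
    (hS : MeasurableSet S) {a b : ℝ → ℝ} (ha : Measurable a) (hb : Measurable b) :
    ∫⁻ h in S, f h * ∫⁻ r in Ioo (a h) (b h), g r =
      ∫⁻ r, g r * ∫⁻ h in {h : ℝ | h ∈ S ∧ a h < r ∧ r < b h}, f h := by
  have hA : MeasurableSet {p : ℝ × ℝ | p.1 ∈ S ∧ a p.1 < p.2 ∧ p.2 < b p.1} := by
    refine (measurable_fst hS).inter ((measurableSet_lt (ha.comp measurable_fst) measurable_snd).inter
      (measurableSet_lt measurable_snd (hb.comp measurable_fst)))
  have hF : Measurable (fun p : ℝ × ℝ => ({p : ℝ × ℝ | p.1 ∈ S ∧ a p.1 < p.2 ∧ p.2 < b p.1}).indicator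
      (fun p => f p.1 * g p.2) p) :=
    ((hf.comp measurable_fst).mul (hg.comp measurable_snd)).indicator hA
  have e1 : ∫⁻ h in S, f h * ∫⁻ r in Ioo (a h) (b h), g r =
      ∫⁻ h, ∫⁻ r, ({p : ℝ × ℝ | p.1 ∈ S ∧ a p.1 < p.2 ∧ p.2 < b p.1}).indicator (fun p => f p.1 * g p.2) (h, r) := by
    rw [← lintegral_indicator hS]
    refine lintegral_congr fun h => ?_
    by_cases hh : h ∈ S
    · rw [indicator_of_mem hh, ← lintegral_indicator measurableSet_Ioo, ← lintegral_const_mul _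
        (hg.indicator measurableSet_Ioo)]
      refine lintegral_congr fun r => ?_
      by_cases hr : r ∈ Ioo (a h) (b h)
      · rw [indicator_of_mem hr, indicator_of_mem]
        exact ⟨hh, hr.1, hr.2⟩
      · rw [indicator_of_notMem hr, indicator_of_notMem, mul_zero]
        rintro ⟨-, h1, h2⟩
        exact hr ⟨h1, h2⟩
    · rw [indicator_of_notMem hh]
      symm
      have e0 : ∀ r : ℝ, ({p : ℝ × ℝ | p.1 ∈ S ∧ a p.1 < p.2 ∧ p.2 < b p.1}).indicator (fun p => f p.1 * g p.2) (h, r) = 0 := by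
        intro r
        rw [indicator_of_notMem]
        rintro ⟨h1, -⟩
        exact hh h1
      rw [lintegral_congr e0, lintegral_zero]
  rw [e1, lintegral_lintegral_swap (f := fun h r => ({p : ℝ × ℝ | p.1 ∈ S ∧ a p.1 < p.2 ∧ p.2 < b p.1}).indicator
    (fun p => f p.1 * g p.2) (h, r)) hF.aemeasurable]
  refine lintegral_congr fun r => ?_
  have hT : MeasurableSet {h : ℝ | h ∈ S ∧ a h < r ∧ r < b h} :=
    hS.inter ((measurableSet_lt ha measurable_const).inter (measurableSet_lt measurable_const hb))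
  rw [← lintegral_indicator hT, ← lintegral_const_mul _ (hf.indicator hT)]
  refine lintegral_congr fun h => ?_
  by_cases hh : h ∈ {h : ℝ | h ∈ S ∧ a h < r ∧ r < b h}
  · rw [indicator_of_mem hh, indicator_of_mem (show (h, r) ∈ {p : ℝ × ℝ | p.1 ∈ S ∧ a p.1 < p.2 ∧ p.2 < b p.1} from hh),
      mul_comm]
  · rw [indicator_of_notMem hh, indicator_of_notMem (show (h, r) ∉ {p : ℝ × ℝ | p.1 ∈ S ∧ a p.1 < p.2 ∧ p.2 < b p.1} from hh),
      mul_zero]

theorem TwZ_meas : MeasurableSet {h : ℝ | 0 < |h| ∧ |h| < 1 / 8} :=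
  (measurableSet_lt measurable_const measurable_abs).inter (measurableSet_lt measurable_abs measurable_const)

/-- the tail integral of the inverse square -/
theorem TwZ_tail (c : ℝ) (hc : 0 < c) :
    ∫⁻ h in Ioi c, ENNReal.ofReal ((h ^ 2)⁻¹) = ENNReal.ofReal (1 / c) := by
  have e1 : EqOn (fun h : ℝ => (h ^ 2)⁻¹) (fun h : ℝ => h ^ (-2 : ℝ)) (Ioi c) := by
    intro h hh
    have h0 : 0 < h := hc.trans hh
    show (h ^ 2)⁻¹ = h ^ (-2 : ℝ)
    rw [Real.rpow_neg h0.le]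
    norm_num
  have hi : IntegrableOn (fun h : ℝ => (h ^ 2)⁻¹) (Ioi c) :=
    (integrableOn_Ioi_rpow_of_lt (by norm_num : (-2 : ℝ) < -1) hc).congr_fun e1.symm measurableSet_Ioi
  rw [← ofReal_integral_eq_lintegral_ofReal hi (Filter.Eventually.of_forall fun h => by positivity)]
  congr 1
  rw [setIntegral_congr_fun measurableSet_Ioi e1, integral_Ioi_rpow_of_lt (by norm_num : (-2 : ℝ) < -1) hc]
  norm_num
  rw [Real.rpow_neg hc.le, Real.rpow_one]

theorem TwZ_tail2 (c : ℝ) (hc : 0 < c) :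
    ∫⁻ h in {h : ℝ | c < |h|}, ENNReal.ofReal ((h ^ 2)⁻¹) ≤ ENNReal.ofReal (2 / c) := by
  have hsub : {h : ℝ | c < |h|} ⊆ Ioi c ∪ Iio (-c) := by
    intro h hh
    rcases lt_abs.1 (show c < |h| from hh) with h1 | h1
    · exact Or.inl h1
    · exact Or.inr (show h < -c by linarith)
  have hneg : ∫⁻ h in Iio (-c), ENNReal.ofReal ((h ^ 2)⁻¹) = ENNReal.ofReal (1 / c) := by
    rw [← TwZ_tail c hc, ← lintegral_indicator measurableSet_Iio, ← lintegral_indicator measurableSet_Ioi,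
      ← lintegral_neg_eq_self]
    refine lintegral_congr fun h => ?_
    by_cases hh : h ∈ Ioi c
    · rw [indicator_of_mem hh, indicator_of_mem (show -h ∈ Iio (-c) from by simpa using hh), neg_sq]
    · rw [indicator_of_notMem hh, indicator_of_notMem (show -h ∉ Iio (-c) from by simpa using hh)]
  calc ∫⁻ h in {h : ℝ | c < |h|}, ENNReal.ofReal ((h ^ 2)⁻¹)
      ≤ ∫⁻ h in Ioi c ∪ Iio (-c), ENNReal.ofReal ((h ^ 2)⁻¹) := lintegral_mono_set hsub
    _ ≤ (∫⁻ h in Ioi c, ENNReal.ofReal ((h ^ 2)⁻¹)) + ∫⁻ h in Iio (-c), ENNReal.ofReal ((h ^ 2)⁻¹) :=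
        lintegral_union_le _ _ _
    _ = ENNReal.ofReal (2 / c) := by
        rw [TwZ_tail c hc, hneg, ← ENNReal.ofReal_add (by positivity) (by positivity)]
        congr 1
        ring

theorem ty1 {n : ℝ → ENNReal} (hn : Measurable n) :
    ∫⁻ h in {h : ℝ | 0 < |h| ∧ |h| < 1 / 8}, ∫⁻ r in Ioo |h| (2 * |h|), n r ≤ ∫⁻ r in Ioo (0 : ℝ) (1 / 4), ENNReal.ofReal r * n r := by
  have e := TwZ_swap (f := fun _ => 1) (g := n) measurable_const hn TwZ_meas (a := fun h => |h|) (b := fun h => 2 * |h|)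
    measurable_abs (measurable_abs.const_mul 2)
  simp only [one_mul] at e
  rw [e, ← lintegral_indicator measurableSet_Ioo]
  refine lintegral_mono fun r => ?_
  by_cases hr : r ∈ Ioo (0 : ℝ) (1 / 4)
  · rw [indicator_of_mem hr, mul_comm (ENNReal.ofReal r)]
    refine mul_le_mul_right ?_ (n r)
    rw [setLIntegral_one]
    have hsub : {h : ℝ | h ∈ {h : ℝ | 0 < |h| ∧ |h| < 1 / 8} ∧ |h| < r ∧ r < 2 * |h|} ⊆
        Ioo (r / 2) r ∪ Ioo (-r) (-(r / 2)) := by
      rintro h ⟨-, h1, h2⟩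
      rcases abs_cases h with ⟨h3, -⟩ | ⟨h3, -⟩
      · exact Or.inl ⟨by linarith, by linarith⟩
      · exact Or.inr ⟨by linarith, by linarith⟩
    refine (measure_mono hsub).trans ((measure_union_le _ _).trans (le_of_eq ?_))
    rw [Real.volume_Ioo, Real.volume_Ioo, ← ENNReal.ofReal_add (by linarith [hr.1]) (by linarith [hr.1])]
    congr 1
    ring
  · rw [indicator_of_notMem hr]
    have hempty : {h : ℝ | h ∈ {h : ℝ | 0 < |h| ∧ |h| < 1 / 8} ∧ |h| < r ∧ r < 2 * |h|} = ∅ := by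
      ext h
      simp only [mem_ofPred_eq, mem_empty_iff_false, iff_false]
      rintro ⟨⟨h0, h3⟩, h1, h2⟩
      exact hr ⟨by linarith, by linarith⟩
    rw [hempty, Measure.restrict_empty, lintegral_zero_measure, mul_zero]

theorem ty2 {m : ℝ → ENNReal} (hm : Measurable m) :
    ∫⁻ h in {h : ℝ | 0 < |h| ∧ |h| < 1 / 8}, ENNReal.ofReal ((h ^ 2)⁻¹) * ∫⁻ ρ in Ioo 0 (2 * |h|), ENNReal.ofReal (ρ ^ 2) * m ρ ≤
      4 * ∫⁻ ρ in Ioo (0 : ℝ) (1 / 4), ENNReal.ofReal ρ * m ρ := by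
  have hf : Measurable (fun h : ℝ => ENNReal.ofReal ((h ^ 2)⁻¹)) := by fun_prop
  have hg : Measurable (fun ρ : ℝ => ENNReal.ofReal (ρ ^ 2) * m ρ) := by
    have h1 : Measurable (fun ρ : ℝ => ENNReal.ofReal (ρ ^ 2)) := by fun_prop
    exact h1.mul hm
  have e := TwZ_swap hf hg TwZ_meas (a := fun _ => 0) (b := fun h => 2 * |h|)
    measurable_const (measurable_abs.const_mul 2)
  rw [e, ← lintegral_const_mul' 4 _ (by norm_num), ← lintegral_indicator measurableSet_Ioo]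
  refine lintegral_mono fun r => ?_
  by_cases hr : r ∈ Ioo (0 : ℝ) (1 / 4)
  · rw [indicator_of_mem hr]
    have hsub : {h : ℝ | h ∈ {h : ℝ | 0 < |h| ∧ |h| < 1 / 8} ∧ 0 < r ∧ r < 2 * |h|} ⊆ {h : ℝ | r / 2 < |h|} := by
      rintro h ⟨-, h1, h2⟩
      show r / 2 < |h|
      linarith
    have h1 : ∫⁻ h in {h : ℝ | h ∈ {h : ℝ | 0 < |h| ∧ |h| < 1 / 8} ∧ 0 < r ∧ r < 2 * |h|}, ENNReal.ofReal ((h ^ 2)⁻¹) ≤
        ENNReal.ofReal (4 / r) := by
      refine (lintegral_mono_set hsub).trans ((TwZ_tail2 (r / 2) (by linarith [hr.1])).trans (le_of_eq ?_))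
      congr 1
      have := hr.1.ne'
      field_simp
      ring
    calc ENNReal.ofReal (r ^ 2) * m r *
          ∫⁻ h in {h : ℝ | h ∈ {h : ℝ | 0 < |h| ∧ |h| < 1 / 8} ∧ 0 < r ∧ r < 2 * |h|}, ENNReal.ofReal ((h ^ 2)⁻¹)
        ≤ ENNReal.ofReal (r ^ 2) * m r * ENNReal.ofReal (4 / r) := mul_le_mul_right h1 _
      _ = (ENNReal.ofReal (r ^ 2) * ENNReal.ofReal (4 / r)) * m r := by ring
      _ = (4 * ENNReal.ofReal r) * m r := by
          rw [← ENNReal.ofReal_mul (by positivity)]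
          congr 1
          rw [show (4 : ENNReal) = ENNReal.ofReal 4 by norm_num, ← ENNReal.ofReal_mul (by norm_num)]
          congr 1
          have := hr.1.ne'
          field_simp
      _ = 4 * (ENNReal.ofReal r * m r) := by rw [mul_assoc]
  · rw [indicator_of_notMem hr]
    have hempty : {h : ℝ | h ∈ {h : ℝ | 0 < |h| ∧ |h| < 1 / 8} ∧ 0 < r ∧ r < 2 * |h|} = ∅ := by
      ext h
      simp only [mem_ofPred_eq, mem_empty_iff_false, iff_false]
      rintro ⟨⟨h0, h3⟩, h1, h2⟩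
      exact hr ⟨h1, by linarith⟩
    show ENNReal.ofReal (r ^ 2) * m r * _ ≤ 0
    rw [hempty, Measure.restrict_empty, lintegral_zero_measure, mul_zero]

end Pool.Agent.H88.EP
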