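/-
ROW Tw0 (MP_09540e_EP). The error term I0. Aux lemmas prefixed Tw0_.
-/
import Pool.Agent.H88.EP.TwY
import Pool.Agent.H88.EP.TwZ

set_option autoImplicit false

open Set Filter Topology MeasureTheory
open scoped ContDiff

namespace Pool.Agent.H88.EP

open Pool.Agent.H16 Pool.Agent.H72.CC Pool.Agent.H87.EP
open Pool.Agent.H87.NS hiding c1
open Pool.Agent.H16.TU hiding Sl
open Pool.Agent.H94.EP

/-- The zone `|h| ≤ r`. -/
private def Tw0_S : Set (ℝ × E3) := {q | |q.1| ≤ rad q.2}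

private theorem Tw0_Sm : MeasurableSet Tw0_S := by
  refine measurableSet_le ?_ ?_
  · exact (continuous_abs.comp continuous_fst).measurable
  · exact (B_rad_cont.comp continuous_snd).measurable

private theorem Tw0_adm {θ L a : ℝ} {F : ℝ → E3 → ℝ} (hF : Adm θ L a F) {S : Set (ℝ × E3)} (hS : MeasurableSet S) :
    Adm θ L a (fun h x => S.indicator (fun q => F q.1 q.2) (h, x)) := by
  refine ⟨hF.meas.indicator hS, ?_⟩
  obtain ⟨B, hB⟩ := hF.bd
  refine ⟨B, fun h hh x hx => ?_⟩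
  refine le_trans ?_ (hB h hh x hx)
  by_cases hq : (h, x) ∈ S
  · rw [indicator_of_mem hq]
  · rw [indicator_of_notMem hq, abs_zero]
    exact abs_nonneg _

private theorem Tw0_be {κ : ℝ} (hκ : 1 ≤ κ) (x : E3) : 0 ≤ be κ x ^ 2 ∧ be κ x ^ 2 ≤ 1 := by
  have h1 : 0 ≤ rad x := Real.sqrt_nonneg _
  have h2 : 0 ≤ be κ x := le_min zero_le_one (mul_nonneg (by linarith) h1)
  exact ⟨sq_nonneg _, pow_le_one₀ h2 (min_le_left _ _)⟩

private theorem Tw0_rad2 (x : E3) : rad x ^ 2 = rsq x := by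
  unfold rad rsq
  exact Real.sq_sqrt (by positivity)

private theorem Tw0_I0nn {κ : ℝ} {L : ℝ} (hL : 1 ≤ L) (θ a : ℝ) (v : E3 → E3) (h : ℝ) (x : E3) :
    0 ≤ I0 θ κ L a v h x :=
  mul_nonneg (mul_nonneg ((kx_f hL (θ - 1) a).2.1 h x) (sq_nonneg _)) (sq_nonneg _)

private theorem Tw0_ptA {κ θ L : ℝ} (hκ : 1 ≤ κ) (h0 : 0 < θ) (a : ℝ) {v : E3 → E3} (hv : Vs v)
    (h : ℝ) (x : E3) : Tw0_S.indicator (fun q => I0 θ κ L a v q.1 q.2) (h, x) ≤
      2 * h ^ 2 * (c1 x ^ 4 * ph L a (x 2 + h / 2) * sav h (fun y => pd 2 (pd 2 (sW v)) y ^ 2) x) := by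
  have hW := (vs_ri hv).2.1
  have hs : 0 ≤ sav h (fun y => pd 2 (pd 2 (sW v)) y ^ 2) x := sav_nn (fun _ => sq_nonneg _) h x
  have hp := ph_pos L a (x 2 + h / 2)
  have hc : 0 ≤ c1 x ^ 4 := pow_nonneg (c1_facts x).1 4
  by_cases hq : (h, x) ∈ Tw0_S
  · rw [indicator_of_mem hq]
    have hr : |h| ≤ rad x := hq
    have h2 : h ^ 2 ≤ rsq x := by
      rw [← Tw0_rad2, ← sq_abs]
      exact pow_le_pow_left₀ (abs_nonneg _) hr 2
    have hW2 : ContDiff ℝ 2 (sW v) := contDiff_infty.1 hW.sm 2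
    have ht := tr_sav hW2 h x
    obtain ⟨b0, b1⟩ := Tw0_be hκ x
    obtain ⟨-, k1, -, -, -, k2, k3, -⟩ := k0_f θ
    have k4 : 0 ≤ k0 (θ - 1) x := (k0_f (θ - 1)).2.1 x
    have k5 := k2 h0 x
    have k6 := (k3 h0.le x).2
    show kx (θ - 1) L a h x * be κ x ^ 2 * (mid h (sW v) x - sav h (sW v) x) ^ 2 ≤ _
    rw [kx_k0]
    obtain ⟨S, hS⟩ : ∃ S, S = sav h (fun y => pd 2 (pd 2 (sW v)) y ^ 2) x := ⟨_, rfl⟩
    rw [← hS] at hs ht ⊢
    calc k0 (θ - 1) x * ph L a (x 2 + h / 2) * be κ x ^ 2 * (mid h (sW v) x - sav h (sW v) x) ^ 2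
        ≤ k0 (θ - 1) x * ph L a (x 2 + h / 2) * 1 * (h ^ 4 * S) := by
          gcongr
      _ = (k0 (θ - 1) x * h ^ 2) * (h ^ 2 * (ph L a (x 2 + h / 2) * S)) := by ring
      _ ≤ (k0 (θ - 1) x * rsq x) * (h ^ 2 * (ph L a (x 2 + h / 2) * S)) := by
          gcongr
      _ = (2 * k0 θ x) * (h ^ 2 * (ph L a (x 2 + h / 2) * S)) := by
          rw [k5]
          ring
      _ ≤ (2 * c1 x ^ 4) * (h ^ 2 * (ph L a (x 2 + h / 2) * S)) := by
          gcongr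
      _ = _ := by ring
  · rw [indicator_of_notMem hq]
    positivity

private theorem Tw0_A {κ θ L : ℝ} (hκ : 1 ≤ κ) (h0 : 0 < θ) (h1 : θ ≤ 1 / 2) (hL : 1 ≤ L) (a : ℝ) {v : E3 → E3} (hv : Vs v) :
    Th θ (fun h x => Tw0_S.indicator (fun q => I0 θ κ L a v q.1 q.2) (h, x)) ≤
      12 * ∫ x, A1 L a x * pd 2 (pd 2 (sW v)) x ^ 2 := by
  have hW := (vs_ri hv).2.1
  have hadm := Tw0_adm (adm_I (κ := κ) h0 h1 hκ hL a hv).2.2.1 Tw0_Sm
  have hJ : 0 ≤ ∫ x, A1 L a x * pd 2 (pd 2 (sW v)) x ^ 2 :=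
    integral_nonneg fun x => mul_nonneg (A1_nn L a x).1 (sq_nonneg _)
  have hi0 : Integrable (fun x => A1 L a x * pd 2 (pd 2 (sW v)) x ^ 2) := F_Asq hL a hW.pd2.pd2
  have hi : Integrable (fun x => c1 x ^ 4 * ph L a (x 2) * (fun y => pd 2 (pd 2 (sW v)) y ^ 2) x) := hi0
  have hcm : Measurable (fun x : E3 => c1 x ^ 4) := by
    have : Continuous (fun x : E3 => c1 x ^ 4) := by
      have h2 : Continuous (c1 : E3 → ℝ) :=
        Real.smoothTransition.continuous.comp (continuous_const.sub (continuous_const.mul C_rsq_smooth.continuous))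
      exact h2.pow 4
    exact this.measurable
  have hcs : ∀ t (x : E3), c1 (sh2 t x) ^ 4 = c1 x ^ 4 := by
    intro t x
    unfold Pool.Agent.H94.EP.c1
    rw [(sh2_f t x).2.2.2.1]
  have h3 := Th_le hadm h0 h1 hL (M := 6 * ∫ x, A1 L a x * pd 2 (pd 2 (sW v)) x ^ 2) (by positivity) ?_
  · linarith
  · intro h hh
    obtain ⟨s1, s2⟩ := sh_sav (c := fun x => c1 x ^ 4) (F := fun y => pd 2 (pd 2 (sW v)) y ^ 2) hL a hcm
      (fun x => pow_nonneg (c1_facts x).1 4) hcs (hW.pd2.pd2.sm.continuous.pow 2) (fun _ => sq_nonneg _) hi hh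
    have hii := (hadm.int h0 h1 hL).1 h hh
    have h4 := integral_mono hii (s1.const_mul (2 * h ^ 2)) fun x => Tw0_ptA (L := L) hκ h0 a hv h x
    have h5 : ∫ x, 2 * h ^ 2 * (c1 x ^ 4 * ph L a (x 2 + h / 2) * sav h (fun y => pd 2 (pd 2 (sW v)) y ^ 2) x) =
        2 * h ^ 2 * ∫ x, c1 x ^ 4 * ph L a (x 2 + h / 2) * sav h (fun y => pd 2 (pd 2 (sW v)) y ^ 2) x :=
      integral_const_mul _ _
    have h6 : ∫ x, c1 x ^ 4 * ph L a (x 2 + h / 2) * sav h (fun y => pd 2 (pd 2 (sW v)) y ^ 2) x ≤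
        3 * ∫ x, A1 L a x * pd 2 (pd 2 (sW v)) x ^ 2 := s2
    have h7 := mul_le_mul_of_nonneg_left h6 (by positivity : 0 ≤ 2 * h ^ 2)
    calc _ ≤ _ := h4
      _ = _ := h5
      _ ≤ _ := h7
      _ = _ := by ring

private theorem Tw0_m1 {n : ℝ → ENNReal} (hn : Measurable n) :
    Measurable (fun h : ℝ => ∫⁻ r in Ioo |h| (2 * |h|), n r) := by
  have ha : Measurable (fun q : ℝ × ℝ => |q.1|) := (continuous_abs.comp continuous_fst).measurable
  have hS : MeasurableSet {q : ℝ × ℝ | |q.1| < q.2 ∧ q.2 < 2 * |q.1|} :=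
    (measurableSet_lt ha measurable_snd).inter (measurableSet_lt measurable_snd (ha.const_mul 2))
  have h1 : Measurable (fun q : ℝ × ℝ => {q : ℝ × ℝ | |q.1| < q.2 ∧ q.2 < 2 * |q.1|}.indicator (fun q => n q.2) q) :=
    (hn.comp measurable_snd).indicator hS
  have h2 := h1.lintegral_prod_right' (ν := volume)
  have e : (fun h : ℝ => ∫⁻ r in Ioo |h| (2 * |h|), n r) =
      fun h => ∫⁻ r, {q : ℝ × ℝ | |q.1| < q.2 ∧ q.2 < 2 * |q.1|}.indicator (fun q => n q.2) (h, r) := by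
    funext h
    rw [← lintegral_indicator measurableSet_Ioo]
    refine lintegral_congr fun r => ?_
    by_cases hr : r ∈ Ioo |h| (2 * |h|)
    · have hr' : (h, r) ∈ {q : ℝ × ℝ | |q.1| < q.2 ∧ q.2 < 2 * |q.1|} := hr
      rw [indicator_of_mem hr, indicator_of_mem hr']
    · have hr' : (h, r) ∉ {q : ℝ × ℝ | |q.1| < q.2 ∧ q.2 < 2 * |q.1|} := hr
      rw [indicator_of_notMem hr, indicator_of_notMem hr']
  rw [e]
  exact h2

private theorem Tw0_pol {L : ℝ} (hL : 1 ≤ L) (a : ℝ) {F : E3 → ℝ} (hF : Ri F) :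
    ENNReal.ofReal (2 * Real.pi) * ∫⁻ r in Ioo (0 : ℝ) (1 / 4), ENNReal.ofReal r * lJ L a 0 F r ≤
      ENNReal.ofReal (∫ x, A1 L a x * F x ^ 2) := by
  have hm : Measurable (fun x : E3 => if rad x < 1 / 4 then ENNReal.ofReal (ph L a (x 2) * F x ^ 2) else 0) := by
    refine Measurable.ite (measurableSet_lt B_rad_cont.measurable measurable_const) ?_ measurable_const
    refine ENNReal.measurable_ofReal.comp (Continuous.measurable ?_)
    exact (C_H_smooth L a).continuous.mul (hF.sm.continuous.pow 2)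
  have h1 := cy_lint hm fun θ x => by
    simp only [B_rad_rot, rot_two', hF.rot]
  have h2 : ∫⁻ r in Ioo (0 : ℝ) (1 / 4), ENNReal.ofReal r * lJ L a 0 F r ≤
      ∫⁻ r in Ioi (0 : ℝ), ENNReal.ofReal r * ∫⁻ z, (fun x : E3 => if rad x < 1 / 4 then ENNReal.ofReal (ph L a (x 2) * F x ^ 2) else 0) (lp r z) := by
    calc _ = ∫⁻ r in Ioo (0 : ℝ) (1 / 4), ENNReal.ofReal r * ∫⁻ z, (fun x : E3 => if rad x < 1 / 4 then ENNReal.ofReal (ph L a (x 2) * F x ^ 2) else 0) (lp r z) := by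
          refine setLIntegral_congr_fun measurableSet_Ioo fun r hr => ?_
          have e1 : lJ L a 0 F r = ∫⁻ z, (fun x : E3 => if rad x < 1 / 4 then ENNReal.ofReal (ph L a (x 2) * F x ^ 2) else 0) (lp r z) := by
            unfold lJ
            refine lintegral_congr fun z => ?_
            have e2 : rad (lp r z) < 1 / 4 := by
              rw [(lp_f r z).2.1, abs_of_pos hr.1]
              exact hr.2
            show _ = if rad (lp r z) < 1 / 4 then ENNReal.ofReal (ph L a (lp r z 2) * F (lp r z) ^ 2) else 0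
            rw [if_pos e2, (lp_f r z).2.2.2.2.1, zero_div, add_zero]
          show ENNReal.ofReal r * lJ L a 0 F r = _
          rw [e1]
      _ ≤ _ := lintegral_mono_set Ioo_subset_Ioi_self
  have h3 : ENNReal.ofReal (2 * Real.pi) * ∫⁻ r in Ioo (0 : ℝ) (1 / 4), ENNReal.ofReal r * lJ L a 0 F r ≤
      ∫⁻ x : E3, if rad x < 1 / 4 then ENNReal.ofReal (ph L a (x 2) * F x ^ 2) else 0 := by
    rw [h1]
    gcongr
  refine h3.trans ?_
  rw [ofReal_integral_eq_lintegral_ofReal (F_Asq hL a hF)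
    (Eventually.of_forall fun x => mul_nonneg (A1_nn L a x).1 (sq_nonneg _))]
  refine lintegral_mono fun x => ?_
  show (if rad x < 1 / 4 then ENNReal.ofReal (ph L a (x 2) * F x ^ 2) else 0) ≤ _
  split_ifs with hx
  · have h4 : rsq x ≤ 1 / 4 := by
      rw [← Tw0_rad2]
      have h5 : 0 ≤ rad x := Real.sqrt_nonneg _
      nlinarith
    rw [A1_one L a h4]
  · exact zero_le

private theorem Tw0_pt {θ κ L : ℝ} (h0 : 0 < θ) (h1 : θ ≤ 1 / 2) (hκ : 1 ≤ κ) (hL : 1 ≤ L) (a : ℝ) {v : E3 → E3} (hv : Vs v)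
    {h : ℝ} (hh : 0 < |h|) (hh1 : h ^ 2 < 1 / 128) :
    ENNReal.ofReal (kh θ h) * ∫⁻ x in {x : E3 | rad x < |h|}, ENNReal.ofReal (I0 θ κ L a v h x) ≤
      ENNReal.ofReal (12 * Real.pi) * (∫⁻ r in Ioo |h| (2 * |h|), lJ L a 0 (pd 2 (pd 2 (sW v))) r) +
      ENNReal.ofReal (96 * Real.pi) * (ENNReal.ofReal ((h ^ 2)⁻¹) *
        ∫⁻ ρ in Ioo 0 (2 * |h|), ENNReal.ofReal (ρ ^ 2) * lJ L a 0 (dh (sW v)) ρ) := by
  obtain ⟨N, hN⟩ : ∃ N, N = ∫⁻ r in Ioo |h| (2 * |h|), lJ L a 0 (pd 2 (pd 2 (sW v))) r := ⟨_, rfl⟩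
  obtain ⟨M, hM⟩ : ∃ M, M = ∫⁻ ρ in Ioo 0 (2 * |h|), ENNReal.ofReal (ρ ^ 2) * lJ L a 0 (dh (sW v)) ρ := ⟨_, rfl⟩
  have hin := in0 h0 h1 hκ hL a hv hh hh1
  rw [← hN, ← hM] at hin ⊢
  have hk : kh θ h ≤ θ * |h| ^ (θ - 3) := (kh_f h0 h1).2.2.2.1 h
  have hpi := Real.pi_pos
  have hle1 : |h| ≤ 1 := by
    rw [← sq_abs] at hh1
    nlinarith
  obtain ⟨b, hb⟩ : ∃ b, b = |h| := ⟨_, rfl⟩
  have hb2 : h ^ 2 = b ^ 2 := by rw [hb, sq_abs]
  rw [← hb] at hin hk hh hle1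
  rw [hb2]
  have hc : (θ * b ^ (θ - 3)) * (2 * Real.pi * b ^ (2 * θ) / θ) ≤ 2 * Real.pi * (b ^ 3)⁻¹ := by
    have e1 : (θ * b ^ (θ - 3)) * (2 * Real.pi * b ^ (2 * θ) / θ) = 2 * Real.pi * (b ^ (θ - 3) * b ^ (2 * θ)) := by
      field_simp
    have e2 : b ^ (θ - 3) * b ^ (2 * θ) = b ^ (3 * θ) * (b ^ 3)⁻¹ := by
      rw [← Real.rpow_add hh, show θ - 3 + 2 * θ = 3 * θ - 3 by ring, Real.rpow_sub hh, div_eq_mul_inv]
      norm_num
    have e3 : b ^ (3 * θ) ≤ 1 := Real.rpow_le_one hh.le hle1 (by linarith)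
    rw [e1, e2]
    have e4 : 0 ≤ (b ^ 3)⁻¹ := by positivity
    have e5 := mul_le_mul_of_nonneg_right e3 e4
    rw [one_mul] at e5
    exact mul_le_mul_of_nonneg_left e5 (by positivity)
  have hc' : ENNReal.ofReal (kh θ h) * ENNReal.ofReal (2 * Real.pi * b ^ (2 * θ) / θ) ≤ ENNReal.ofReal (2 * Real.pi * (b ^ 3)⁻¹) := by
    have e0 : 0 ≤ θ * b ^ (θ - 3) := mul_nonneg h0.le (Real.rpow_nonneg hh.le _)
    calc _ ≤ ENNReal.ofReal (θ * b ^ (θ - 3)) * ENNReal.ofReal (2 * Real.pi * b ^ (2 * θ) / θ) := by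
          gcongr
      _ = ENNReal.ofReal ((θ * b ^ (θ - 3)) * (2 * Real.pi * b ^ (2 * θ) / θ)) := (ENNReal.ofReal_mul e0).symm
      _ ≤ _ := ENNReal.ofReal_le_ofReal hc
  have g1 : ENNReal.ofReal (2 * Real.pi * (b ^ 3)⁻¹) * ENNReal.ofReal (6 * b ^ 3) = ENNReal.ofReal (12 * Real.pi) := by
    rw [← ENNReal.ofReal_mul (by positivity)]
    congr 1
    field_simp
    ring
  have g2 : ENNReal.ofReal (2 * Real.pi * (b ^ 3)⁻¹) * ENNReal.ofReal (48 * b) =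
      ENNReal.ofReal (96 * Real.pi) * ENNReal.ofReal ((b ^ 2)⁻¹) := by
    rw [← ENNReal.ofReal_mul (by positivity), ← ENNReal.ofReal_mul (by positivity)]
    congr 1
    field_simp
    ring
  calc _ ≤ ENNReal.ofReal (kh θ h) * (ENNReal.ofReal (2 * Real.pi * b ^ (2 * θ) / θ) *
        (ENNReal.ofReal (6 * b ^ 3) * N + ENNReal.ofReal (48 * b) * M)) := by
        rw [← hb]
        gcongr
    _ = (ENNReal.ofReal (kh θ h) * ENNReal.ofReal (2 * Real.pi * b ^ (2 * θ) / θ)) *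
        (ENNReal.ofReal (6 * b ^ 3) * N + ENNReal.ofReal (48 * b) * M) := (mul_assoc _ _ _).symm
    _ ≤ ENNReal.ofReal (2 * Real.pi * (b ^ 3)⁻¹) * (ENNReal.ofReal (6 * b ^ 3) * N + ENNReal.ofReal (48 * b) * M) := by
        gcongr
    _ = (ENNReal.ofReal (2 * Real.pi * (b ^ 3)⁻¹) * ENNReal.ofReal (6 * b ^ 3)) * N +
        (ENNReal.ofReal (2 * Real.pi * (b ^ 3)⁻¹) * ENNReal.ofReal (48 * b)) * M := by ring
    _ = _ := by
        rw [g1, g2, mul_assoc (ENNReal.ofReal (96 * Real.pi))]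

private theorem Tw0_B {κ θ L : ℝ} (hκ : 1 ≤ κ) (h0 : 0 < θ) (h1 : θ ≤ 1 / 2) (hL : 1 ≤ L) (a : ℝ) {v : E3 → E3} (hv : Vs v) :
    Th θ (fun h x => Tw0_Sᶜ.indicator (fun q => I0 θ κ L a v q.1 q.2) (h, x)) ≤
      6 * (∫ x, A1 L a x * pd 2 (pd 2 (sW v)) x ^ 2) + 192 * ∫ x, A1 L a x * dh (sW v) x ^ 2 := by
  have hW := (vs_ri hv).2.1
  have hadm := Tw0_adm (adm_I (κ := κ) h0 h1 hκ hL a hv).2.2.1 Tw0_Sm.compl
  have hJ1 : 0 ≤ ∫ x, A1 L a x * pd 2 (pd 2 (sW v)) x ^ 2 :=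
    integral_nonneg fun x => mul_nonneg (A1_nn L a x).1 (sq_nonneg _)
  have hJ2 : 0 ≤ ∫ x, A1 L a x * dh (sW v) x ^ 2 :=
    integral_nonneg fun x => mul_nonneg (A1_nn L a x).1 (sq_nonneg _)
  have hnn : ∀ (h : ℝ) (x : E3), 0 ≤ Tw0_Sᶜ.indicator (fun q => I0 θ κ L a v q.1 q.2) (h, x) := fun h x =>
    indicator_nonneg (fun _ _ => Tw0_I0nn hL _ _ _ _ _) _
  obtain ⟨i1, -, i3⟩ := hadm.int h0 h1 hL
  have hpi := Real.pi_pos
  have hS : MeasurableSet {h : ℝ | 0 < |h| ∧ |h| < 1 / 8} :=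
    (measurableSet_lt measurable_const continuous_abs.measurable).inter
      (measurableSet_lt continuous_abs.measurable measurable_const)
  have key : ENNReal.ofReal (Th θ (fun h x => Tw0_Sᶜ.indicator (fun q => I0 θ κ L a v q.1 q.2) (h, x))) ≤
      ENNReal.ofReal (6 * (∫ x, A1 L a x * pd 2 (pd 2 (sW v)) x ^ 2) + 192 * ∫ x, A1 L a x * dh (sW v) x ^ 2) := by
    have e1 : ENNReal.ofReal (Th θ (fun h x => Tw0_Sᶜ.indicator (fun q => I0 θ κ L a v q.1 q.2) (h, x))) =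
        ∫⁻ h, ENNReal.ofReal (kh θ h * ∫ x, Tw0_Sᶜ.indicator (fun q => I0 θ κ L a v q.1 q.2) (h, x)) := by
      unfold Th
      exact ofReal_integral_eq_lintegral_ofReal i3 (Eventually.of_forall fun h =>
        mul_nonneg ((kh_f h0 h1).1 h).1 (integral_nonneg fun x => hnn h x))
    have e2 : ∀ h : ℝ, ENNReal.ofReal (kh θ h * ∫ x, Tw0_Sᶜ.indicator (fun q => I0 θ κ L a v q.1 q.2) (h, x)) ≤
        {h : ℝ | 0 < |h| ∧ |h| < 1 / 8}.indicator (fun h =>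
          ENNReal.ofReal (12 * Real.pi) * (∫⁻ r in Ioo |h| (2 * |h|), lJ L a 0 (pd 2 (pd 2 (sW v))) r) +
          ENNReal.ofReal (96 * Real.pi) * (ENNReal.ofReal ((h ^ 2)⁻¹) *
            ∫⁻ ρ in Ioo 0 (2 * |h|), ENNReal.ofReal (ρ ^ 2) * lJ L a 0 (dh (sW v)) ρ)) h := by
      intro h
      rcases le_or_gt (1 / 128) (h ^ 2) with hh | hh
      · rw [(kh_f h0 h1).2.1 h hh, zero_mul, ENNReal.ofReal_zero]
        exact zero_le
      · rcases (abs_nonneg h).eq_or_lt with hz | hz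
        · have hz' : h = 0 := abs_eq_zero.1 hz.symm
          have e3 : ∀ x : E3, Tw0_Sᶜ.indicator (fun q => I0 θ κ L a v q.1 q.2) (h, x) = 0 := by
            intro x
            have hx1 : |h| ≤ rad x := by
              rw [← hz]
              exact Real.sqrt_nonneg _
            have hx2 : (h, x) ∉ Tw0_Sᶜ := fun hx => hx (show (h, x) ∈ Tw0_S from hx1)
            exact indicator_of_notMem hx2 _
          simp only [e3, integral_zero, mul_zero, ENNReal.ofReal_zero]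
          exact zero_le
        · have hlt : |h| < 1 / 8 := by
            rw [← sq_abs] at hh
            nlinarith
          have hmem : h ∈ {h : ℝ | 0 < |h| ∧ |h| < 1 / 8} := ⟨hz, hlt⟩
          rw [indicator_of_mem hmem, ENNReal.ofReal_mul ((kh_f h0 h1).1 h).1]
          refine le_trans ?_ (Tw0_pt (κ := κ) h0 h1 hκ hL a hv hz hh)
          gcongr
          rw [ofReal_integral_eq_lintegral_ofReal (i1 h (by linarith)) (Eventually.of_forall fun x => hnn h x)]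
          have hms : MeasurableSet {x : E3 | rad x < |h|} := measurableSet_lt B_rad_cont.measurable measurable_const
          rw [← lintegral_indicator hms]
          refine lintegral_mono fun x => ?_
          by_cases hx : x ∈ {x : E3 | rad x < |h|}
          · have hx' : (h, x) ∈ Tw0_Sᶜ := fun hx2 => not_lt.2 (show |h| ≤ rad x from hx2) hx
            show ENNReal.ofReal (Tw0_Sᶜ.indicator (fun q => I0 θ κ L a v q.1 q.2) (h, x)) ≤ _
            rw [indicator_of_mem hx, indicator_of_mem hx']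
          · have hx' : (h, x) ∉ Tw0_Sᶜ := fun hx2 => hx2 (show |h| ≤ rad x from not_lt.1 hx)
            show ENNReal.ofReal (Tw0_Sᶜ.indicator (fun q => I0 θ κ L a v q.1 q.2) (h, x)) ≤ _
            rw [indicator_of_notMem hx, indicator_of_notMem hx', ENNReal.ofReal_zero]
    have hn : Measurable (lJ L a 0 (pd 2 (pd 2 (sW v)))) := lJ_meas L a 0 hW.pd2.pd2.sm.continuous
    have hm : Measurable (lJ L a 0 (dh (sW v))) := lJ_meas L a 0 hW.dh.sm.continuous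
    have p1 := Tw0_pol hL a hW.pd2.pd2
    have p2 := Tw0_pol hL a hW.dh
    have t1 := ty1 hn
    have t2 := ty2 hm
    rw [e1]
    calc _ ≤ ∫⁻ h, {h : ℝ | 0 < |h| ∧ |h| < 1 / 8}.indicator (fun h =>
          ENNReal.ofReal (12 * Real.pi) * (∫⁻ r in Ioo |h| (2 * |h|), lJ L a 0 (pd 2 (pd 2 (sW v))) r) +
          ENNReal.ofReal (96 * Real.pi) * (ENNReal.ofReal ((h ^ 2)⁻¹) *
            ∫⁻ ρ in Ioo 0 (2 * |h|), ENNReal.ofReal (ρ ^ 2) * lJ L a 0 (dh (sW v)) ρ)) h := lintegral_mono e2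
      _ = ENNReal.ofReal (12 * Real.pi) * (∫⁻ h in {h : ℝ | 0 < |h| ∧ |h| < 1 / 8},
            ∫⁻ r in Ioo |h| (2 * |h|), lJ L a 0 (pd 2 (pd 2 (sW v))) r) +
          ENNReal.ofReal (96 * Real.pi) * ∫⁻ h in {h : ℝ | 0 < |h| ∧ |h| < 1 / 8}, ENNReal.ofReal ((h ^ 2)⁻¹) *
            ∫⁻ ρ in Ioo 0 (2 * |h|), ENNReal.ofReal (ρ ^ 2) * lJ L a 0 (dh (sW v)) ρ := by
          rw [lintegral_indicator hS, lintegral_add_left ((Tw0_m1 hn).const_mul _),
            lintegral_const_mul' _ _ ENNReal.ofReal_ne_top, lintegral_const_mul' _ _ ENNReal.ofReal_ne_top]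
      _ ≤ ENNReal.ofReal (12 * Real.pi) * (∫⁻ r in Ioo (0 : ℝ) (1 / 4), ENNReal.ofReal r * lJ L a 0 (pd 2 (pd 2 (sW v))) r) +
          ENNReal.ofReal (96 * Real.pi) * (4 * ∫⁻ ρ in Ioo (0 : ℝ) (1 / 4), ENNReal.ofReal ρ * lJ L a 0 (dh (sW v)) ρ) := by
          gcongr
      _ = ENNReal.ofReal 6 * (ENNReal.ofReal (2 * Real.pi) * ∫⁻ r in Ioo (0 : ℝ) (1 / 4), ENNReal.ofReal r * lJ L a 0 (pd 2 (pd 2 (sW v))) r) +
          ENNReal.ofReal 192 * (ENNReal.ofReal (2 * Real.pi) * ∫⁻ ρ in Ioo (0 : ℝ) (1 / 4), ENNReal.ofReal ρ * lJ L a 0 (dh (sW v)) ρ) := by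
          have a1 : ENNReal.ofReal (12 * Real.pi) = ENNReal.ofReal 6 * ENNReal.ofReal (2 * Real.pi) := by
            rw [← ENNReal.ofReal_mul (by norm_num)]
            congr 1
            ring
          have a2 : ENNReal.ofReal (96 * Real.pi) * 4 = ENNReal.ofReal 192 * ENNReal.ofReal (2 * Real.pi) := by
            have a3 : (4 : ENNReal) = ENNReal.ofReal 4 := by norm_num
            rw [a3, ← ENNReal.ofReal_mul (by positivity), ← ENNReal.ofReal_mul (by norm_num)]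
            congr 1
            ring
          rw [a1, ← mul_assoc (ENNReal.ofReal (96 * Real.pi)), a2, mul_assoc, mul_assoc]
      _ ≤ ENNReal.ofReal 6 * ENNReal.ofReal (∫ x, A1 L a x * pd 2 (pd 2 (sW v)) x ^ 2) +
          ENNReal.ofReal 192 * ENNReal.ofReal (∫ x, A1 L a x * dh (sW v) x ^ 2) := by
          gcongr
      _ = _ := by
          rw [← ENNReal.ofReal_mul (by norm_num), ← ENNReal.ofReal_mul (by norm_num),
            ← ENNReal.ofReal_add (by positivity) (by positivity)]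
  exact (ENNReal.ofReal_le_ofReal_iff (by positivity)).1 key

theorem q0 : ∃ C : ℝ, 1 ≤ C ∧ ∀ (κ L a : ℝ) (v : E3 → E3), 1 ≤ κ → C ≤ L → Vs v →
    Th (1 / Sc κ) (I0 (1 / Sc κ) κ L a v) ≤ C * (DO L a v + GG L a v) := by
  obtain ⟨C1, hC1, hS1⟩ := Pool.Agent.H87.EP.S1
  obtain ⟨C2, hC2, hS2⟩ := Pool.Agent.H87.EP.S2
  refine ⟨18 * C1 + 192 * C2, by linarith, fun κ L a v hκ hCL hv => ?_⟩
  have hL : 1 ≤ L := by linarith
  obtain ⟨-, h0, h1', -⟩ := Sc_f hκ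
  have h1 : 1 / Sc κ ≤ 1 / 2 := h1'.trans (by norm_num)
  obtain ⟨θ, hθ⟩ : ∃ θ, θ = 1 / Sc κ := ⟨_, rfl⟩
  rw [← hθ] at h0 h1 ⊢
  have hadm := (adm_I (κ := κ) h0 h1 hκ hL a hv).2.2.1
  have hl := Th_lin (Tw0_adm hadm Tw0_Sm) (Tw0_adm hadm Tw0_Sm.compl) h0 h1 hL 1 1
  have e1 : (fun (h : ℝ) (x : E3) => 1 * Tw0_S.indicator (fun q => I0 θ κ L a v q.1 q.2) (h, x) +
      1 * Tw0_Sᶜ.indicator (fun q => I0 θ κ L a v q.1 q.2) (h, x)) = I0 θ κ L a v := by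
    funext h x
    rw [one_mul, one_mul]
    by_cases hq : (h, x) ∈ Tw0_S
    · have hq' : (h, x) ∉ Tw0_Sᶜ := fun h2 => h2 hq
      rw [indicator_of_mem hq, indicator_of_notMem hq', add_zero]
    · have hq' : (h, x) ∈ Tw0_Sᶜ := hq
      rw [indicator_of_notMem hq, indicator_of_mem hq', zero_add]
  rw [e1, one_mul, one_mul] at hl
  have hA := Tw0_A (κ := κ) hκ h0 h1 hL a hv
  have hB := Tw0_B (κ := κ) hκ h0 h1 hL a hv
  have s1 := (F_int_pd2_sq hL a (vs_ri hv).2.1.pd2).trans (hS1 L a v (by linarith) hv)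
  have s2 := hS2 L a v (by linarith) hv
  rw [hl]
  linarith

end Pool.Agent.H88.EP
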