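/-
ROW TwQ (MP_09540e_EP). The error terms I1, I2, I7. Aux lemmas prefixed TwQ_. PROOF. θ = 1 / Sc κ, c = k0 (θ-1) * be κ ^ 2 (shift and rotation invariant, measurable, ≥ 0), all functions W = sW v, R = Rw v, pd 2 W in Ri: continuous, bounded (vs_ri, Rw_ri, Ri.db 0).
q1: for |h| ≤ 1: `dif h W = h sav h (pd 2 W)`, `(dif h W)² ≤ h² sav h ((pd 2 W)²)` (dif_sav, sav_sq), so `I1 h x ≤ h² c x ph(x 2 + h/2) sav h F x`, `F = (pd 2 W)²`; sh_sav (TwB): `∫ I1 ≤ 3 h² ∫ c ph F`, ls (TwS) with M = C (DO + GG) from S3 (H87/EP/F): `≤ 3 h² · 4 Sc κ · C (DO + GG)`. Th_le: `Th I1 ≤ 24 C Sc κ (DO + GG)`.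
q2: `dif h R = h sav h (pd 2 R)`, `pd 2 R = rdr (pd 2 W)` (rdr_pd2), `(rdr (pd 2 W))² ≤ rsq gsq (pd 2 W)` : `(dif h R)² ≤ h² sav h (rsq F)`, F = gsq (pd 2 W) (continuous, bounded: Ri (pd 2 W)); sh_sav with c = k0 (θ-1), function `x ↦ rsq x * F x`: `≤ 3 h² ∫ k0 (θ-1) ph rsq F ≤ 6 h² ∫ A1 F` (ls0), S1: `≤ 6 h² C (DO + GG)`. Note the boundedness used for Continuous etc. only on the
support of c; the integrability hypothesis of sh_sav is given by ls0.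
q7: for |h| ≤ 1: `sav h W ^ 2 ≤ sav h (W²)`: `∫ k0 (θ-1) be² ph(x2+h/2) sav h (W²) ≤ 3 ∫ c ph W² ≤ 12 Sc κ C (DO + GG)` by ls and S4. `sav h R ^ 2 ≤ sav h (R²)`, `R² = rsq · (rsq (dh W)²)` ≤ on the support: `be² ≤ 1`; sh_sav with c' = k0 (θ-1), function `rsq x * (rsq x * dh W x ^ 2)`, ls0 (bounded? use ls0 with F = min or note that F only matters where k0 ≠ 0:
F x := rsq x * dh W x ^ 2 * (cut c1 x), which is bounded and equal on the support; or R² / rsq... use F := |R x| * |dh W x| = rsq (dh W)², bounded since R and dh W are bounded (vs_bd)): `≤ 6 ∫ A1 rsq (dh W)² ≤ 3 ∫ A1 (dh W)² ≤ 3 C (DO + GG)` by S2 (rsq ≤ 1/2 on the support of A1). `∫_h hz1 h · (..) ≤ (1/8)·(..)`: ∫ hz1 = 1/8. Integrability in h: adm_I7.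
-/
import Pool.Agent.H88.EP.TwB
import Pool.Agent.H88.EP.TwV
import Pool.Agent.H88.EP.TwS

set_option autoImplicit false

open Set Filter Topology MeasureTheory
open scoped ContDiff

namespace Pool.Agent.H88.EP

open Pool.Agent.H16 Pool.Agent.H72.CC Pool.Agent.H87.EP
open Pool.Agent.H87.NS hiding c1
open Pool.Agent.H16.TU hiding Sl
open Pool.Agent.H94.EP

theorem be_f {κ : ℝ} (hκ : 0 ≤ κ) : Continuous (be κ) ∧ (∀ x, 0 ≤ be κ x ∧ be κ x ≤ 1) ∧ (∀ h x, be κ (sh2 h x) = be κ x) ∧ ∀ t x, be κ (rot t x) = be κ x := by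
  refine ⟨?_, fun x => ⟨?_, min_le_left _ _⟩, fun h x => ?_, fun t x => ?_⟩
  · unfold be
    exact continuous_const.min (continuous_const.mul B_rad_cont)
  · exact le_min zero_le_one (mul_nonneg hκ (Real.sqrt_nonneg _))
  · unfold be
    rw [(sh2_f h x).2.2.2.2.1]
  · unfold be
    rw [B_rad_rot]

theorem TwQ_core {θ L a : ℝ} {I : ℝ → E3 → ℝ} (hI : Adm θ L a I) (h0 : 0 < θ) (h1 : θ ≤ 1 / 2) (hL : 1 ≤ L)
    {c F : E3 → ℝ} (hc : Measurable c) (hc0 : ∀ x, 0 ≤ c x) (hcs : ∀ t x, c (sh2 t x) = c x)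
    (hF : Continuous F) (hF0 : ∀ x, 0 ≤ F x) (hi : Integrable (fun x => c x * ph L a (x 2) * F x)) {M : ℝ}
    (hM : 0 ≤ M) (hle : ∫ x, c x * ph L a (x 2) * F x ≤ M)
    (hpt : ∀ h, |h| ≤ 1 → ∀ x, I h x ≤ h ^ 2 * (c x * ph L a (x 2 + h / 2) * sav h F x)) :
    Th θ I ≤ 6 * M := by
  have h3 := Th_le hI h0 h1 hL (M := 3 * M) (by positivity) ?_
  · linarith
  · intro h hh
    obtain ⟨s1, s2⟩ := sh_sav hL a hc hc0 hcs hF hF0 hi hh
    have hii := (hI.int h0 h1 hL).1 h hh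
    have h4 := integral_mono hii (s1.const_mul (h ^ 2)) fun x => hpt h hh x
    have h5 : ∫ x, h ^ 2 * (c x * ph L a (x 2 + h / 2) * sav h F x) =
        h ^ 2 * ∫ x, c x * ph L a (x 2 + h / 2) * sav h F x := integral_const_mul _ _
    have h6 : h ^ 2 * ∫ x, c x * ph L a (x 2 + h / 2) * sav h F x ≤ h ^ 2 * (3 * M) :=
      mul_le_mul_of_nonneg_left (s2.trans (by linarith)) (sq_nonneg h)
    calc _ ≤ _ := h4
      _ = _ := h5
      _ ≤ _ := h6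
      _ = _ := by ring

theorem TwQ_cm (θ : ℝ) {κ : ℝ} (hκ : 0 ≤ κ) : Measurable (fun x => k0 (θ - 1) x * be κ x ^ 2) ∧
    (∀ x, 0 ≤ k0 (θ - 1) x * be κ x ^ 2) ∧ ∀ t x, k0 (θ - 1) (sh2 t x) * be κ (sh2 t x) ^ 2 = k0 (θ - 1) x * be κ x ^ 2 := by
  obtain ⟨km, k1, k2, -⟩ := k0_f (θ - 1)
  obtain ⟨b1, b2, b3, -⟩ := be_f hκ
  exact ⟨km.mul (b1.measurable.pow_const 2), fun x => mul_nonneg (k1 x) (sq_nonneg _), fun t x => by rw [k2, b3]⟩

theorem q1 : ∃ C : ℝ, 1 ≤ C ∧ ∀ (κ L a : ℝ) (v : E3 → E3), 1 ≤ κ → C ≤ L → Vs v →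
    Th (1 / Sc κ) (I1 (1 / Sc κ) κ L a v) ≤ C * Sc κ * (DO L a v + GG L a v) := by
  obtain ⟨C, hC1, hC⟩ := H87.EP.S3
  refine ⟨24 * C, by linarith, fun κ L a v hκ hL hv => ?_⟩
  obtain ⟨s20, h0, h1', -⟩ := Sc_f hκ
  have h1 : 1 / Sc κ ≤ 1 / 2 := by linarith
  have hL1 : 1 ≤ L := by linarith
  have hCL : C ≤ L := by linarith
  have hW : Ri (sW v) := (vs_ri hv).2.1
  have hsm : ContDiff ℝ 1 (sW v) := TwV_c1 hW.sm
  have hc2 : Continuous (pd 2 (sW v)) := hW.pd2.sm.continuous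
  have hD := F_DO L a v
  have hG := F_GG L a v
  obtain ⟨cm, c0, cs⟩ := TwQ_cm (1 / Sc κ) (zero_le_one.trans hκ)
  have hM : 0 ≤ C * (DO L a v + GG L a v) := by positivity
  obtain ⟨i1, i2⟩ := ls (F := fun x => pd 2 (sW v) x ^ 2) hκ h0 h1 hL1 a (hc2.pow 2) (fun _ => sq_nonneg _)
    (fun t x => by rw [hW.pd2.rot]) hM (fun r hr hr2 => hC L a v hCL hv r hr hr2)
  have h3 := TwQ_core (a := a) (adm_I (κ := κ) h0 h1 hκ hL1 a hv).2.2.2.1 h0 h1 hL1 cm c0 cs (F := fun x => pd 2 (sW v) x ^ 2)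
    (hc2.pow 2) (fun _ => sq_nonneg _) i1 (M := 4 * Sc κ * (C * (DO L a v + GG L a v))) (by positivity) i2 ?_
  · calc _ ≤ _ := h3
      _ = _ := by ring
  · intro h hh x
    have e1 := dif_sav hsm h x
    have e2 := sav_sq hc2 h x
    unfold I1
    rw [kx_k0, e1]
    have hp := (ph_pos L a (x 2 + h / 2)).le
    have hk := c0 x
    obtain ⟨S, hS⟩ : ∃ S, S = sav h (fun y => pd 2 (sW v) y ^ 2) x := ⟨_, rfl⟩
    obtain ⟨T, hT⟩ : ∃ T, T = sav h (pd 2 (sW v)) x := ⟨_, rfl⟩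
    rw [← hS, ← hT] at e2
    rw [← hS, ← hT]
    calc k0 (1 / Sc κ - 1) x * ph L a (x 2 + h / 2) * be κ x ^ 2 * (h * T) ^ 2
        = h ^ 2 * ((k0 (1 / Sc κ - 1) x * be κ x ^ 2) * ph L a (x 2 + h / 2) * T ^ 2) := by ring
      _ ≤ h ^ 2 * ((k0 (1 / Sc κ - 1) x * be κ x ^ 2) * ph L a (x 2 + h / 2) * S) := by
          gcongr

theorem TwQ_gsq_cont {g : E3 → ℝ} (hg : Ri g) : Continuous (gsq g) := by
  have : gsq g = fun x => rsq x * dh g x ^ 2 + pd 2 g x ^ 2 := by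
    funext x; exact gsq_eq hg x
  rw [this]
  exact (C_rsq_smooth.continuous.mul (hg.dh.sm.continuous.pow 2)).add (hg.pd2.sm.continuous.pow 2)

theorem TwQ_gsq_bd {g : E3 → ℝ} (hg : Ri g) : ∃ B : ℝ, ∀ x, gsq g x ≤ B := by
  obtain ⟨B, hB0, hB⟩ := TwV_b hg
  refine ⟨B ^ 2 + B ^ 2 + B ^ 2, fun x => ?_⟩
  have h := (hB x).2.1
  have e : gsq g x = pd 0 g x ^ 2 + pd 1 g x ^ 2 + pd 2 g x ^ 2 := by
    unfold gsq
    simp [Fin.sum_univ_three]
  rw [e]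
  have k : ∀ i, pd i g x ^ 2 ≤ B ^ 2 := fun i => by
    rw [← sq_abs]
    exact pow_le_pow_left₀ (abs_nonneg _) (h i) 2
  linarith [k 0, k 1, k 2]

theorem q2 : ∃ C : ℝ, 1 ≤ C ∧ ∀ (κ L a : ℝ) (v : E3 → E3), 1 ≤ κ → C ≤ L → Vs v →
    Th (1 / Sc κ) (I2 (1 / Sc κ) L a v) ≤ C * (DO L a v + GG L a v) := by
  obtain ⟨C, hC1, hC⟩ := H87.EP.S1
  refine ⟨12 * C, by linarith, fun κ L a v hκ hL hv => ?_⟩
  obtain ⟨s20, h0, h1', -⟩ := Sc_f hκ
  have h1 : 1 / Sc κ ≤ 1 / 2 := by linarith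
  have hL1 : 1 ≤ L := by linarith
  have hCL : C ≤ L := by linarith
  have hW : Ri (sW v) := (vs_ri hv).2.1
  have hR : Ri (Rw v) := (Rw_ri hv).1
  have hg := TwQ_gsq_cont hW.pd2
  obtain ⟨B, hB⟩ := TwQ_gsq_bd hW.pd2
  have hD := F_DO L a v
  have hG := F_GG L a v
  have hS := hC L a v hCL hv
  obtain ⟨km, k1, k2, -⟩ := k0_f (1 / Sc κ - 1)
  obtain ⟨i1, i2⟩ := ls0 h0 h1 hL1 a hg (fun x => TwS_gsq _ x) hB
  have h3 := TwQ_core (a := a) (adm_I (κ := κ) h0 h1 hκ hL1 a hv).2.2.2.2.1 h0 h1 hL1 km k1 k2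
    (F := fun x => rsq x * gsq (pd 2 (sW v)) x)
    (C_rsq_smooth.continuous.mul hg) (fun x => mul_nonneg (TwW_rsq_nn x) (TwS_gsq _ x)) i1
    (M := 2 * (C * (DO L a v + GG L a v))) (by positivity) (i2.trans (by linarith)) ?_
  · calc _ ≤ _ := h3
      _ = _ := by ring
  · intro h hh x
    have e1 := dif_sav (TwV_c1 hR.sm) h x
    have e2 := sav_sq hR.pd2.sm.continuous h x
    have e3 : sav h (fun y => pd 2 (Rw v) y ^ 2) x ≤ sav h (fun y => rsq y * gsq (pd 2 (sW v)) y) x := by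
      refine sav_mono (hR.pd2.sm.continuous.pow 2) (C_rsq_smooth.continuous.mul hg) h x fun s _ => ?_
      have e4 : pd 2 (Rw v) (sh2 (s * h) x) = rdr (pd 2 (sW v)) (sh2 (s * h) x) := (rdr_pd2 hW.sm _).1
      show pd 2 (Rw v) (sh2 (s * h) x) ^ 2 ≤ _
      rw [e4]
      exact (rdr_pd2 hW.pd2.sm _).2
    have e5 := e2.trans e3
    unfold I2
    rw [kx_k0, e1]
    have hp := (ph_pos L a (x 2 + h / 2)).le
    have hk := k1 x
    obtain ⟨S, hS⟩ : ∃ S, S = sav h (fun y => rsq y * gsq (pd 2 (sW v)) y) x := ⟨_, rfl⟩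
    obtain ⟨T, hT⟩ : ∃ T, T = sav h (pd 2 (Rw v)) x := ⟨_, rfl⟩
    rw [← hS, ← hT] at e5
    rw [← hS, ← hT]
    calc k0 (1 / Sc κ - 1) x * ph L a (x 2 + h / 2) * (h * T) ^ 2
        = h ^ 2 * (k0 (1 / Sc κ - 1) x * ph L a (x 2 + h / 2) * T ^ 2) := by ring
      _ ≤ h ^ 2 * (k0 (1 / Sc κ - 1) x * ph L a (x 2 + h / 2) * S) := by
          gcongr

theorem TwQ_hz {f : ℝ → ℝ} {K : ℝ} (hK : 0 ≤ K) (hi : Integrable (fun h => hz1 h * f h)) (hf : ∀ h, |h| ≤ 1 → f h ≤ K) :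
    ∫ h, hz1 h * f h ≤ K := by
  have h1 : Integrable ((Icc (-(1 / 8) : ℝ) (1 / 8)).indicator (fun _ => K)) :=
    (integrable_indicator_iff measurableSet_Icc).2 (by simp)
  have h2 : ∫ h, (Icc (-(1 / 8) : ℝ) (1 / 8)).indicator (fun _ => K) h = 1 / 4 * K := by
    rw [integral_indicator measurableSet_Icc, setIntegral_const, Measure.real, Real.volume_Icc,
      ENNReal.toReal_ofReal (by norm_num), smul_eq_mul]
    norm_num
  calc ∫ h, hz1 h * f h ≤ ∫ h, (Icc (-(1 / 8) : ℝ) (1 / 8)).indicator (fun _ => K) h := by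
        refine integral_mono hi h1 fun h => ?_
        show hz1 h * f h ≤ _
        unfold hz1
        by_cases hh : h ∈ {h : ℝ | 1 / 16 ≤ |h| ∧ |h| ≤ 1 / 8}
        · have h3 : h ∈ Icc (-(1 / 8) : ℝ) (1 / 8) := abs_le.1 hh.2
          rw [indicator_of_mem hh, indicator_of_mem h3, one_mul]
          exact hf h (by linarith [hh.2])
        · rw [indicator_of_notMem hh, zero_mul]
          exact indicator_nonneg (fun _ _ => hK) _
    _ = 1 / 4 * K := h2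
    _ ≤ K := by linarith

theorem q7 : ∃ C : ℝ, 1 ≤ C ∧ ∀ (κ L a : ℝ) (v : E3 → E3), 1 ≤ κ → C ≤ L → Vs v →
    ∫ h, hz1 h * ∫ x, I7 (1 / Sc κ) κ L a v h x ≤ C * Sc κ * (DO L a v + GG L a v) := by
  obtain ⟨C, hC1, hC⟩ := S4
  obtain ⟨D, hD1, hD⟩ := S2
  refine ⟨12 * C + 3 * D, by linarith, fun κ L a v hκ hL hv => ?_⟩
  obtain ⟨s20, h0, h1', -⟩ := Sc_f hκ
  have h1 : 1 / Sc κ ≤ 1 / 2 := by linarith
  have hL1 : 1 ≤ L := by linarith
  have hCL : C ≤ L := by linarith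
  have hDL : D ≤ L := by linarith
  have hκ0 : 0 ≤ κ := zero_le_one.trans hκ
  have hW : Ri (sW v) := (vs_ri hv).2.1
  obtain ⟨hR, hRe, -⟩ := Rw_ri hv
  have hWc := hW.sm.continuous
  have hRc := hR.sm.continuous
  have hdc := hW.dh.sm.continuous
  have hDO := F_DO L a v
  have hGG := F_GG L a v
  set Q := DO L a v + GG L a v with hQ
  have hQ0 : 0 ≤ Q := by positivity
  obtain ⟨B, hB1, hB⟩ := vs_bd hv
  obtain ⟨cm, c0, cs⟩ := TwQ_cm (1 / Sc κ) hκ0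
  obtain ⟨km, k1, k2, -⟩ := k0_f (1 / Sc κ - 1)
  obtain ⟨i1, i2⟩ := ls (F := fun x => sW v x ^ 2) hκ h0 h1 hL1 a (hWc.pow 2) (fun _ => sq_nonneg _)
    (fun t x => by rw [hW.rot]) (by positivity : 0 ≤ C * Q) (fun r hr hr2 => hC L a v hCL hv r hr hr2)
  have hFc : Continuous (fun x => |Rw v x| * |dh (sW v) x|) := hRc.abs.mul hdc.abs
  have hF0 : ∀ x, 0 ≤ |Rw v x| * |dh (sW v) x| := fun x => by positivity
  have hFB : ∀ x, |Rw v x| * |dh (sW v) x| ≤ B * B := fun x => by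
    have h2 := (hB 0 x).1
    exact mul_le_mul h2.2.2.2.2.1 h2.2.2.2.2.2.1 (abs_nonneg _) (by linarith)
  obtain ⟨j1, j2⟩ := ls0 h0 h1 hL1 a hFc hF0 hFB
  have hRR : ∀ x, rsq x * (|Rw v x| * |dh (sW v) x|) = Rw v x ^ 2 := fun x => by
    rw [← sq_abs, pow_two, hRe x, abs_mul, abs_of_nonneg (TwW_rsq_nn x)]
    ring
  have j3 : ∫ x, A1 L a x * (|Rw v x| * |dh (sW v) x|) ≤ 1 / 2 * (D * Q) := by
    have i5 : Integrable (fun x => A1 L a x * dh (sW v) x ^ 2) := F_Asq hL1 a hW.dh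
    calc ∫ x, A1 L a x * (|Rw v x| * |dh (sW v) x|) ≤ ∫ x, 1 / 2 * (A1 L a x * dh (sW v) x ^ 2) := by
          refine integral_mono (A1_int hL1 a hFc (B := B * B) fun x => by
            rw [abs_of_nonneg (hF0 x)]; exact hFB x) (i5.const_mul _) fun x => ?_
          show A1 L a x * (|Rw v x| * |dh (sW v) x|) ≤ 1 / 2 * (A1 L a x * dh (sW v) x ^ 2)
          have hA := (A1_nn L a x).1
          rcases le_or_gt (1 / 2) (rsq x) with hx | hx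
          · rw [A1_zero L a hx]
            simp
          · rw [hRe x, abs_mul, abs_of_nonneg (TwW_rsq_nn x)]
            have : rsq x * |dh (sW v) x| * |dh (sW v) x| ≤ 1 / 2 * dh (sW v) x ^ 2 := by
              rw [mul_assoc, abs_mul_abs_self, ← pow_two]
              exact mul_le_mul_of_nonneg_right hx.le (sq_nonneg _)
            calc _ ≤ A1 L a x * (1 / 2 * dh (sW v) x ^ 2) := mul_le_mul_of_nonneg_left this hA
              _ = _ := by ring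
      _ = 1 / 2 * ∫ x, A1 L a x * dh (sW v) x ^ 2 := integral_const_mul _ _
      _ ≤ 1 / 2 * (D * Q) := by
          have := hD L a v hDL hv
          linarith
  obtain ⟨-, -, a3, a4⟩ := adm_I7 (κ := κ) h0 h1 hκ hL1 a hv
  have key : ∀ h, |h| ≤ 1 → ∫ x, I7 (1 / Sc κ) κ L a v h x ≤ 3 * (4 * Sc κ * (C * Q)) + 3 * (2 * (1 / 2 * (D * Q))) := by
    intro h hh
    obtain ⟨s1, s2⟩ := sh_sav (F := fun x => sW v x ^ 2) hL1 a cm c0 cs (hWc.pow 2) (fun _ => sq_nonneg _) i1 hh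
    obtain ⟨t1, t2⟩ := sh_sav (F := fun x => rsq x * (|Rw v x| * |dh (sW v) x|)) hL1 a km k1 k2
      (C_rsq_smooth.continuous.mul hFc) (fun x => mul_nonneg (TwW_rsq_nn x) (hF0 x)) j1 hh
    have e1 := integral_mono (a3 h hh) (s1.add t1) fun x => ?_
    · have e2 : ∫ x, ((fun x => k0 (1 / Sc κ - 1) x * be κ x ^ 2 * ph L a (x 2 + h / 2) * sav h (fun x => sW v x ^ 2) x) +
          fun x => k0 (1 / Sc κ - 1) x * ph L a (x 2 + h / 2) * sav h (fun x => rsq x * (|Rw v x| * |dh (sW v) x|)) x) x =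
          (∫ x, k0 (1 / Sc κ - 1) x * be κ x ^ 2 * ph L a (x 2 + h / 2) * sav h (fun x => sW v x ^ 2) x) +
          ∫ x, k0 (1 / Sc κ - 1) x * ph L a (x 2 + h / 2) * sav h (fun x => rsq x * (|Rw v x| * |dh (sW v) x|)) x :=
        integral_add s1 t1
      rw [e2] at e1
      refine e1.trans (add_le_add (s2.trans ?_) (t2.trans ?_))
      · linarith only [i2]
      · linarith
    · show I7 (1 / Sc κ) κ L a v h x ≤ k0 (1 / Sc κ - 1) x * be κ x ^ 2 * ph L a (x 2 + h / 2) * sav h (fun x => sW v x ^ 2) x +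
        k0 (1 / Sc κ - 1) x * ph L a (x 2 + h / 2) * sav h (fun x => rsq x * (|Rw v x| * |dh (sW v) x|)) x
      have f1 := sav_sq hWc h x
      have f2 := sav_sq hRc h x
      have f3 : (fun x => rsq x * (|Rw v x| * |dh (sW v) x|)) = fun x => Rw v x ^ 2 := funext hRR
      rw [f3]
      unfold I7
      rw [kx_k0]
      have hp := (ph_pos L a (x 2 + h / 2)).le
      have hk := k1 x
      have hb := abs_le.1 (TwV_be hκ x)
      have hb0 : 0 ≤ be κ x ^ 2 := sq_nonneg _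
      obtain ⟨S, hS⟩ : ∃ S, S = sav h (fun y => sW v y ^ 2) x := ⟨_, rfl⟩
      obtain ⟨T, hT⟩ : ∃ T, T = sav h (sW v) x := ⟨_, rfl⟩
      obtain ⟨S', hS'⟩ : ∃ S, S = sav h (fun y => Rw v y ^ 2) x := ⟨_, rfl⟩
      obtain ⟨T', hT'⟩ : ∃ T, T = sav h (Rw v) x := ⟨_, rfl⟩
      rw [← hS, ← hT] at f1
      rw [← hS', ← hT'] at f2
      rw [← hS, ← hT, ← hS', ← hT']
      have g1 : be κ x ^ 2 * T' ^ 2 ≤ 1 * S' := mul_le_mul hb.2 f2 (sq_nonneg _) zero_le_one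
      have g2 : be κ x ^ 2 * T ^ 2 ≤ be κ x ^ 2 * S := mul_le_mul_of_nonneg_left f1 hb0
      calc k0 (1 / Sc κ - 1) x * ph L a (x 2 + h / 2) * be κ x ^ 2 * (T ^ 2 + T' ^ 2)
          = (k0 (1 / Sc κ - 1) x * ph L a (x 2 + h / 2)) * (be κ x ^ 2 * T ^ 2 + be κ x ^ 2 * T' ^ 2) := by ring
        _ ≤ (k0 (1 / Sc κ - 1) x * ph L a (x 2 + h / 2)) * (be κ x ^ 2 * S + 1 * S') :=
            mul_le_mul_of_nonneg_left (add_le_add g2 g1) (mul_nonneg hk hp)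
        _ = _ := by ring
  have hK : 0 ≤ 3 * (4 * Sc κ * (C * Q)) + 3 * (2 * (1 / 2 * (D * Q))) := by positivity
  refine (TwQ_hz hK a4 key).trans ?_
  have : D * Q ≤ Sc κ * (D * Q) := by
    have : 0 ≤ D * Q := by positivity
    nlinarith only [s20, this]
  linarith only [this]

end Pool.Agent.H88.EP
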