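/-
ROW TwR (MP_09540e_EP). The error terms I3, I4. Aux lemmas prefixed TwR_. PROOF. θ = 1 / Sc κ ∈ (0, 1/20]; f = fh h v = dif h V = h sav h Z (dif_sav, Z = Zz v = pd 2 V), so `f² ≤ h² sav h (Z²)`, `f⁴ ≤ h⁴ sav h (Z⁴)` (sav_sq, sav_sq4). W = sW v, R = Rw v = rsq dh W (Rw_ri). S6i (H87/EP/J): `∫ A1 rsq² Z⁴ ≤ C ε² (DJ + GG)`.
q3: for x, h (|h| ≤ 1, h ≠ 0; for h = 0 f = 0), λ > 0: `f² |mid h R| = (|h|⁻¹ rsq f²) (|h| |mid h R| / rsq)` ≤ `(λ/2) h⁻² rsq² f⁴ + (h²/(2λ)) (mid h (dh W))²` (mid h R = rsq mid h (dh W)), the same for sav (sav_rsq). K = kx θ ≤ c2⁴-part: `kx θ L a h x ≤ c1 x ^ 4 ph(x 2 + h/2)` (k0_f). With c = c1 ^ 4 (shift invariant), `c * ph L a (x 2) = A1`: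
`∫ I3 ≤ λ h⁻² ∫ c ph(x2+h/2) rsq² f⁴ + (h²/(2λ)) ∫ c ph(x2+h/2) [(mid h D)² + (sav h D)²]`, D = dh W; `rsq² f⁴ ≤ h⁴ sav h (rsq² Z⁴)`, `(mid h D)² ≤ (D(sh2 h x)² + D x²)/2`, `(sav h D)² ≤ sav h (D²)`; sh_sav, sh_int01 (TwB): `≤ 3 λ h² ∫ A1 rsq² Z⁴ + (h²/(2λ)) (3 + 3) ∫ A1 D²` ≤ h² C (λ ε² (DJ+GG) + (1/λ) (DO + GG)) (S2). Th_le gives q3.
(The functions rsq² Z⁴ need not be bounded: the integrability hypothesis of sh_sav is in S6i; D² is bounded, A1_int.) Pointwise domination needs integrability of the majorants only (integral_mono_of_nonneg).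
q4: c = ou (shift invariant, `ou ≤ c1⁴`, `ou ≤ 16 rsq ou`, `ou ≤ 256 rsq² ou`, supported in rsq < 1/2). `f² ≤ h² sav h Z²`, `f² |mid h W| ≤ (μ/2) h⁻² f⁴ + (h²/(2μ)) (mid h W)²`, `(dif h W)² ≤ h² sav h ((pd 2 W)²)`; `∫ ou ph(x2+h/2) sav h (Z²) ≤ 3 ∫ ou ph Z² ≤ 48 ∫ ou ph rsq Z² ≤ 48 GG` (gv_Z of H87/EP/P; `∫ ou ph gv ≤ GG`: ou ≤ indicator of {rsq < 1/2}, gv_int, gv_nn);
`∫ ou ph (pd 2 W)²` similarly (gv_W2), `∫ ou ph(x2+h/2) (mid h W)² ≤ 3 ∫ ou ph W² ≤ 3 GG` (gv_VW), `h⁻² ∫ ou ph(..) f⁴ ≤ 3 h² ∫ ou ph Z⁴ ≤ 768 h² ∫ A1 rsq² Z⁴ ≤ C h² ε² (DJ + GG)`. Sum, Th_le, μ ≤ 1.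
-/
import Pool.Agent.H88.EP.TwQ
import Pool.Agent.H87.EP.J

set_option autoImplicit false

open Set Filter Topology MeasureTheory
open scoped ContDiff

namespace Pool.Agent.H88.EP

open Pool.Agent.H16 Pool.Agent.H72.CC Pool.Agent.H87.EP
open Pool.Agent.H87.NS hiding c1
open Pool.Agent.H16.TU hiding Sl
open Pool.Agent.H94.EP

theorem TwR_rsq_nn (x : E3) : 0 ≤ rsq x := by
  unfold rsq
  positivity

theorem TwR_rsq_cont : Continuous (rsq : E3 → ℝ) := by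
  unfold rsq
  fun_prop

theorem TwR_am {lam a b : ℝ} (hl : 0 < lam) : a * |b| ≤ lam / 2 * a ^ 2 + 1 / (2 * lam) * b ^ 2 := by
  have h1 : 0 ≤ (lam * a - |b|) ^ 2 / (2 * lam) := by positivity
  have h2 : (lam * a - |b|) ^ 2 / (2 * lam) = lam / 2 * a ^ 2 + 1 / (2 * lam) * b ^ 2 - a * |b| := by
    have : |b| ^ 2 = b ^ 2 := sq_abs b
    field_simp
    nlinarith [this]
  linarith

theorem TwR_mid (h : ℝ) (g : E3 → ℝ) (x : E3) : mid h g x ^ 2 ≤ (g (sh2 h x) ^ 2 + g x ^ 2) / 2 := by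
  unfold mid
  nlinarith [sq_nonneg (g (sh2 h x) - g x)]

theorem TwR_ou : Measurable ou ∧ (∀ x, 0 ≤ ou x) ∧ (∀ t x, ou (sh2 t x) = ou x) ∧ (∀ x, ou x ≤ c1 x ^ 4) ∧
    (∀ x, ou x ≤ 16 * rsq x * ou x) ∧ (∀ x, ou x ≤ 256 * (rsq x ^ 2 * c1 x ^ 4)) ∧ (∀ x, ou x = 0 ∨ ou x = 1 ∧ rsq x < 1 / 2) := by
  have hc : ∀ x, ou x = 0 ∨ (ou x = 1 ∧ 1 / 16 ≤ rsq x ∧ rsq x ≤ 1 / 8) := fun x => by
    unfold ou
    by_cases hx : x ∈ {x : E3 | 1 / 16 ≤ rsq x ∧ rsq x ≤ 1 / 8}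
    · right
      rw [indicator_of_mem hx]
      exact ⟨rfl, hx⟩
    · left
      rw [indicator_of_notMem hx]
  refine ⟨?_, fun x => ?_, fun t x => ?_, fun x => ?_, fun x => ?_, fun x => ?_, fun x => ?_⟩
  · refine Measurable.indicator measurable_const ?_
    exact ((isClosed_le continuous_const TwR_rsq_cont).inter (isClosed_le TwR_rsq_cont continuous_const)).measurableSet
  · rcases hc x with h | h
    · rw [h]
    · rw [h.1]; norm_num
  · have h1 : rsq (sh2 t x) = rsq x := (sh2_f t x).2.2.2.1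
    unfold ou
    simp only [indicator, mem_ofPred_eq, h1]
  · have hn := (c1_facts x).1
    rcases hc x with h | h
    · rw [h]; positivity
    · rw [h.1, (c1_facts x).2.2.1 (by linarith [h.2.2])]; norm_num
  · rcases hc x with h | h
    · rw [h]; norm_num
    · rw [h.1]; linarith [h.2.1]
  · have hn := (c1_facts x).1
    rcases hc x with h | h
    · rw [h]; positivity
    · rw [h.1, (c1_facts x).2.2.1 (by linarith [h.2.2])]
      nlinarith [h.2.1]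
  · rcases hc x with h | h
    · exact Or.inl h
    · exact Or.inr ⟨h.1, by linarith [h.2.2]⟩

theorem TwR_c : Measurable (fun x : E3 => c1 x ^ 4) ∧ (∀ x : E3, 0 ≤ c1 x ^ 4) ∧ (∀ t (x : E3), c1 (sh2 t x) ^ 4 = c1 x ^ 4) := by
  refine ⟨?_, fun x => ?_, fun t x => ?_⟩
  · have : Continuous (c1 : E3 → ℝ) := by
      unfold Pool.Agent.H94.EP.c1
      exact Real.smoothTransition.continuous.comp (continuous_const.sub (continuous_const.mul TwR_rsq_cont))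
    exact (this.pow 4).measurable
  · have := (c1_facts x).1
    positivity
  · unfold Pool.Agent.H94.EP.c1
    rw [(sh2_f t x).2.2.2.1]

theorem TwR_int {A B C D : E3 → ℝ} (hA : Integrable A) (hB : Integrable B) (hC : Integrable C) (hD : Integrable D) (p q r : ℝ) :
    Integrable (fun x => r * (p * A x + q * (B x + 1 / 2 * (C x + D x)))) ∧
    ∫ x, r * (p * A x + q * (B x + 1 / 2 * (C x + D x))) =
      r * (p * (∫ x, A x) + q * ((∫ x, B x) + 1 / 2 * ((∫ x, C x) + ∫ x, D x))) := by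
  have h1 : Integrable (fun x => C x + D x) := hC.add hD
  have h2 : Integrable (fun x => 1 / 2 * (C x + D x)) := h1.const_mul _
  have h3 : Integrable (fun x => B x + 1 / 2 * (C x + D x)) := hB.add h2
  have h4 : Integrable (fun x => q * (B x + 1 / 2 * (C x + D x))) := h3.const_mul _
  have h5 : Integrable (fun x => p * A x) := hA.const_mul _
  have h6 : Integrable (fun x => p * A x + q * (B x + 1 / 2 * (C x + D x))) := h5.add h4
  refine ⟨h6.const_mul _, ?_⟩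
  rw [integral_const_mul, integral_add h5 h4, integral_const_mul, integral_const_mul, integral_add hB h2, integral_const_mul,
    integral_add hC hD]

/-- Integrals over the zone of the cutoff. -/
theorem TwR_o {v : E3 → E3} (hv : Vs v) {L : ℝ} (hL : 1 ≤ L) (a : ℝ) {F : E3 → ℝ} (hF : Continuous F) (h0 : ∀ x, 0 ≤ F x) {k : ℝ}
    (hk0 : 0 ≤ k) (hk : ∀ x, ou x * F x ≤ k * (ou x * gv v x)) :
    Integrable (fun x => ou x * ph L a (x 2) * F x) ∧ ∫ x, ou x * ph L a (x 2) * F x ≤ k * GG L a v := by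
  have hi := gv_int hv hL a
  obtain ⟨o1, o2, o3, o4, o5, o6, o7⟩ := TwR_ou
  have hms : MeasurableSet {x : E3 | rsq x < 1 / 2} := (isOpen_lt TwR_rsq_cont continuous_const).measurableSet
  have hphc : Continuous fun x : E3 => ph L a (x 2) := (ph_smooth L a).continuous.comp (by fun_prop)
  have hi2 : Integrable ({x : E3 | rsq x < 1 / 2}.indicator fun x => k * (ph L a (x 2) * gv v x)) :=
    (hi.const_mul k).indicator hms
  have hle : ∀ x, ou x * ph L a (x 2) * F x ≤ ({x : E3 | rsq x < 1 / 2}.indicator fun x => k * (ph L a (x 2) * gv v x)) x := fun x => by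
    have hp := ph_pos L a (x 2)
    have hg := gv_nn v x
    rcases o7 x with h | h
    · rw [h, zero_mul, zero_mul]
      exact indicator_nonneg (fun y _ => mul_nonneg hk0 (mul_nonneg (ph_pos L a _).le (gv_nn v y))) x
    · rw [indicator_of_mem (show x ∈ {x : E3 | rsq x < 1 / 2} from h.2)]
      have := hk x
      rw [h.1, one_mul, one_mul] at this
      rw [h.1, one_mul]
      calc ph L a (x 2) * F x ≤ ph L a (x 2) * (k * gv v x) := mul_le_mul_of_nonneg_left this hp.le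
        _ = k * (ph L a (x 2) * gv v x) := by ring
  have hnn : ∀ x, 0 ≤ ou x * ph L a (x 2) * F x := fun x => mul_nonneg (mul_nonneg (o2 x) (ph_pos L a _).le) (h0 x)
  have hint : Integrable (fun x => ou x * ph L a (x 2) * F x) := by
    refine Integrable.mono' hi2 ?_ (Eventually.of_forall fun x => ?_)
    · exact ((o1.mul hphc.measurable).mul hF.measurable).aestronglyMeasurable
    · rw [Real.norm_of_nonneg (hnn x)]
      exact hle x
  refine ⟨hint, (integral_mono hint hi2 hle).trans (le_of_eq ?_)⟩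
  rw [integral_indicator hms, integral_const_mul]
  rfl

theorem q3 : ∃ C : ℝ, 1 ≤ C ∧ ∀ (ε K κ L a lam : ℝ) (v : E3 → E3), Sl ε K κ v → C ≤ L → 0 < lam →
    Th (1 / Sc κ) (I3 (1 / Sc κ) L a v) ≤ C * (lam * ε ^ 2 * (DJ L a v + GG L a v) + 1 / lam * (DO L a v + GG L a v)) := by
  obtain ⟨C1, hC1, H1⟩ := S6i
  obtain ⟨C2, hC2, H2⟩ := S2
  refine ⟨6 * (C1 + C2), by linarith, fun ε K κ L a lam v hv hCL hlam => ?_⟩
  have hL : 1 ≤ L := by linarith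
  obtain ⟨s1, s2, s3, s4⟩ := Sc_f hv.k1
  obtain ⟨θ, hθ⟩ : ∃ θ, θ = 1 / Sc κ := ⟨_, rfl⟩
  rw [← hθ] at s2 s3 ⊢
  have hθ2 : θ ≤ 1 / 2 := by linarith
  obtain ⟨i1, i2⟩ := H1 ε K κ L a v hv hL
  have j2 := H2 L a v (by linarith) hv.vs
  obtain ⟨n1, n2, n3, n4, n5, n6, n7, n8⟩ := nn_f hL s2 hθ2 a hv.vs
  have hadm := (adm_I s2 hθ2 hv.k1 hL a hv.vs).2.2.2.2.2.1
  obtain ⟨hVr, hWr, hOr, hZr, h2r⟩ := vs_ri hv.vs
  have hD : Ri (dh (sW v)) := hWr.dh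
  obtain ⟨B, hB1, hB⟩ := vs_bd hv.vs
  obtain ⟨cm, cn, cs⟩ := TwR_c
  -- the two functions
  have hFc : Continuous fun x => rsq x ^ 2 * Zz v x ^ 4 := (TwR_rsq_cont.pow 2).mul (hZr.sm.continuous.pow 4)
  have hF0 : ∀ x, 0 ≤ rsq x ^ 2 * Zz v x ^ 4 := fun x => by positivity
  have hGc : Continuous fun x => dh (sW v) x ^ 2 := hD.sm.continuous.pow 2
  have hG0 : ∀ x, 0 ≤ dh (sW v) x ^ 2 := fun x => sq_nonneg _
  have hFi : Integrable (fun x => c1 x ^ 4 * ph L a (x 2) * (rsq x ^ 2 * Zz v x ^ 4)) := by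
    refine i1.congr (Eventually.of_forall fun x => ?_)
    simp only [A1]
    ring
  have hGi : Integrable (fun x => c1 x ^ 4 * ph L a (x 2) * dh (sW v) x ^ 2) := by
    have := A1_int hL a hGc (B := B ^ 2) fun x => by
      rw [abs_of_nonneg (sq_nonneg _), ← sq_abs]
      exact pow_le_pow_left₀ (abs_nonneg _) ((hB 0 x).1.2.2.2.2.2.1) 2
    exact this
  have eF : ∫ x, c1 x ^ 4 * ph L a (x 2) * (rsq x ^ 2 * Zz v x ^ 4) ≤ C1 * ε ^ 2 * (DJ L a v + GG L a v) := by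
    refine le_trans (le_of_eq ?_) i2
    refine integral_congr_ae (Eventually.of_forall fun x => ?_)
    simp only [A1]
    ring
  have eG : ∫ x, c1 x ^ 4 * ph L a (x 2) * dh (sW v) x ^ 2 ≤ C2 * (DO L a v + GG L a v) := j2
  set X := ∫ x, c1 x ^ 4 * ph L a (x 2) * (rsq x ^ 2 * Zz v x ^ 4) with hX
  set Y := ∫ x, c1 x ^ 4 * ph L a (x 2) * dh (sW v) x ^ 2 with hY
  have hX0 : 0 ≤ X := integral_nonneg fun x => mul_nonneg (mul_nonneg (cn x) (ph_pos L a _).le) (hF0 x)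
  have hY0 : 0 ≤ Y := integral_nonneg fun x => mul_nonneg (mul_nonneg (cn x) (ph_pos L a _).le) (hG0 x)
  have key : ∀ h, |h| ≤ 1 → ∫ x, I3 θ L a v h x ≤ (3 * lam * X + 3 / lam * Y) * h ^ 2 := by
    intro h hh
    obtain ⟨a1, a2⟩ := sh_sav hL a cm cn cs hFc hF0 hFi hh
    obtain ⟨b1, b2⟩ := sh_sav hL a cm cn cs hGc hG0 hGi hh
    obtain ⟨⟨d1, d2⟩, d3, d4⟩ := sh_int01 hL a cm cn cs hGc hG0 hGi hh
    have hpt : ∀ x, I3 θ L a v h x ≤ h ^ 2 * (lam * (c1 x ^ 4 * ph L a (x 2 + h / 2) * sav h (fun y => rsq y ^ 2 * Zz v y ^ 4) x) +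
        1 / (2 * lam) * (c1 x ^ 4 * ph L a (x 2 + h / 2) * sav h (fun y => dh (sW v) y ^ 2) x +
          1 / 2 * (c1 x ^ 4 * ph L a (x 2 + h / 2) * dh (sW v) (sh2 h x) ^ 2 + c1 x ^ 4 * ph L a (x 2 + h / 2) * dh (sW v) x ^ 2))) := by
      intro x
      have hρ := TwR_rsq_nn x
      have e1 : fh h v x = h * sav h (Zz v) x := by
        rw [fh_dif, dif_sav (hVr.sm.of_le (by simp)) h x]
        rfl
      have hRw := (Rw_ri hv.vs).2.1
      have e2 : mid h (Rw v) x = rsq x * mid h (dh (sW v)) x := by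
        unfold mid
        rw [hRw, hRw, (sh2_f h x).2.2.2.1]
        ring
      have e3 : sav h (Rw v) x = rsq x * sav h (dh (sW v)) x := by
        have : Rw v = fun y => (fun ρ : ℝ => ρ) (rsq y) * dh (sW v) y := funext fun y => hRw y
        rw [this, sav_rsq (g := dh (sW v)) (fun ρ : ℝ => ρ) h x]
      have e4 : sav h (fun y => rsq y ^ 2 * Zz v y ^ 4) x = rsq x ^ 2 * sav h (fun y => Zz v y ^ 4) x :=
        sav_rsq (g := fun y => Zz v y ^ 4) (fun ρ : ℝ => ρ ^ 2) h x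
      have f1 := sav_sq4 hZr.sm.continuous h x
      have f2 := sav_sq hD.sm.continuous h x
      have f3 := TwR_mid h (dh (sW v)) x
      have hw : kx θ L a h x ≤ c1 x ^ 4 * ph L a (x 2 + h / 2) := by
        rw [kx_k0]
        exact mul_le_mul_of_nonneg_right (((k0_f θ).2.2.2.2.2.2.1 s2.le x).2) (ph_pos L a _).le
      have hw0 : 0 ≤ kx θ L a h x := (kx_f hL θ a).2.1 h x
      obtain ⟨S, hS⟩ : ∃ S, S = sav h (Zz v) x := ⟨_, rfl⟩
      obtain ⟨m, hm⟩ : ∃ m, m = mid h (dh (sW v)) x := ⟨_, rfl⟩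
      obtain ⟨s, hs⟩ : ∃ s, s = sav h (dh (sW v)) x := ⟨_, rfl⟩
      obtain ⟨ρ, hρd⟩ : ∃ ρ, ρ = rsq x := ⟨_, rfl⟩
      obtain ⟨w, hwd⟩ : ∃ w, w = c1 x ^ 4 * ph L a (x 2 + h / 2) := ⟨_, rfl⟩
      obtain ⟨S4, hS4⟩ : ∃ S4, S4 = sav h (fun y => Zz v y ^ 4) x := ⟨_, rfl⟩
      obtain ⟨D2, hD2⟩ : ∃ D2, D2 = sav h (fun y => dh (sW v) y ^ 2) x := ⟨_, rfl⟩
      rw [e4]
      unfold I3
      rw [e1, e2, e3]
      rw [← hS, ← hS4] at f1
      rw [← hs, ← hD2] at f2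
      rw [← hm] at f3
      rw [← hwd] at hw ⊢
      rw [← hρd] at hρ ⊢
      rw [← hS, ← hm, ← hs, ← hS4, ← hD2]
      have g1 : (S ^ 2 * ρ) * |m| ≤ lam / 2 * (S ^ 2 * ρ) ^ 2 + 1 / (2 * lam) * m ^ 2 := TwR_am hlam
      have g2 : (S ^ 2 * ρ) * |s| ≤ lam / 2 * (S ^ 2 * ρ) ^ 2 + 1 / (2 * lam) * s ^ 2 := TwR_am hlam
      have g3 : 0 ≤ 1 / (2 * lam) := by positivity
      have hw' : 0 ≤ w := hw0.trans hw
      have t1 : (h * S) ^ 2 * (|ρ * m| + |ρ * s|) ≤ h ^ 2 * (lam * (ρ ^ 2 * S4) + 1 / (2 * lam) * (D2 +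
          1 / 2 * (dh (sW v) (sh2 h x) ^ 2 + dh (sW v) x ^ 2))) := by
        rw [abs_mul, abs_mul, abs_of_nonneg hρ]
        have t2 : (h * S) ^ 2 * (ρ * |m| + ρ * |s|) = h ^ 2 * ((S ^ 2 * ρ) * |m| + (S ^ 2 * ρ) * |s|) := by ring
        rw [t2]
        refine mul_le_mul_of_nonneg_left ?_ (sq_nonneg h)
        have t3 : lam * (ρ ^ 2 * S ^ 4) ≤ lam * (ρ ^ 2 * S4) := mul_le_mul_of_nonneg_left (mul_le_mul_of_nonneg_left f1 (sq_nonneg ρ)) hlam.le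
        have t4 : 1 / (2 * lam) * m ^ 2 + 1 / (2 * lam) * s ^ 2 ≤ 1 / (2 * lam) * (D2 + 1 / 2 * (dh (sW v) (sh2 h x) ^ 2 + dh (sW v) x ^ 2)) := by
          rw [← mul_add]
          exact mul_le_mul_of_nonneg_left (by linarith) g3
        have t5 : lam / 2 * (S ^ 2 * ρ) ^ 2 = lam / 2 * (ρ ^ 2 * S ^ 4) := by ring
        rw [t5] at g1 g2
        linarith
      have t6 : 0 ≤ (h * S) ^ 2 * (|ρ * m| + |ρ * s|) := by positivity
      calc kx θ L a h x * (h * S) ^ 2 * (|ρ * m| + |ρ * s|) = kx θ L a h x * ((h * S) ^ 2 * (|ρ * m| + |ρ * s|)) := by ring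
        _ ≤ w * ((h * S) ^ 2 * (|ρ * m| + |ρ * s|)) := mul_le_mul_of_nonneg_right hw t6
        _ ≤ w * (h ^ 2 * (lam * (ρ ^ 2 * S4) + 1 / (2 * lam) * (D2 + 1 / 2 * (dh (sW v) (sh2 h x) ^ 2 + dh (sW v) x ^ 2)))) :=
          mul_le_mul_of_nonneg_left t1 hw'
        _ = _ := by ring
    obtain ⟨hUi, hUe⟩ := TwR_int a1 b1 d3 d1 lam (1 / (2 * lam)) (h ^ 2)
    have h0 : ∀ x, 0 ≤ I3 θ L a v h x := fun x => by
      unfold I3
      exact mul_nonneg (mul_nonneg ((kx_f hL θ a).2.1 h x) (sq_nonneg _)) (by positivity)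
    refine (integral_mono_of_nonneg (Eventually.of_forall h0) hUi (Eventually.of_forall hpt)).trans ?_
    rw [hUe]
    have g3 : 0 ≤ 1 / (2 * lam) := by positivity
    have u1 : lam * (∫ x, c1 x ^ 4 * ph L a (x 2 + h / 2) * sav h (fun y => rsq y ^ 2 * Zz v y ^ 4) x) ≤ lam * (3 * X) :=
      mul_le_mul_of_nonneg_left a2 hlam.le
    have u2 : 1 / (2 * lam) * ((∫ x, c1 x ^ 4 * ph L a (x 2 + h / 2) * sav h (fun y => dh (sW v) y ^ 2) x) + 1 / 2 *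
        ((∫ x, c1 x ^ 4 * ph L a (x 2 + h / 2) * dh (sW v) (sh2 h x) ^ 2) + ∫ x, c1 x ^ 4 * ph L a (x 2 + h / 2) * dh (sW v) x ^ 2)) ≤
        1 / (2 * lam) * (6 * Y) := mul_le_mul_of_nonneg_left (by linarith) g3
    have u3 : 1 / (2 * lam) * (6 * Y) = 3 / lam * Y := by field_simp; ring
    calc _ ≤ h ^ 2 * (lam * (3 * X) + 1 / (2 * lam) * (6 * Y)) := mul_le_mul_of_nonneg_left (add_le_add u1 u2) (sq_nonneg h)
      _ = _ := by rw [u3]; ring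
  have hM : 0 ≤ 3 * lam * X + 3 / lam * Y := by positivity
  refine (Th_le hadm s2 hθ2 hL hM key).trans ?_
  have v1 : lam * X ≤ lam * (C1 * ε ^ 2 * (DJ L a v + GG L a v)) := mul_le_mul_of_nonneg_left eF hlam.le
  have v2 : 1 / lam * Y ≤ 1 / lam * (C2 * (DO L a v + GG L a v)) := mul_le_mul_of_nonneg_left eG (by positivity)
  have v3 : 0 ≤ lam * (ε ^ 2 * (DJ L a v + GG L a v)) := by positivity
  have v4 : 0 ≤ 1 / lam * (DO L a v + GG L a v) := by positivity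
  have v5 : 3 / lam * Y = 3 * (1 / lam * Y) := by ring
  have v6 : 0 ≤ C2 * (lam * (ε ^ 2 * (DJ L a v + GG L a v))) := by positivity
  have v7 : 0 ≤ C1 * (1 / lam * (DO L a v + GG L a v)) := by positivity
  rw [v5]
  calc 2 * (3 * lam * X + 3 * (1 / lam * Y)) = 6 * (lam * X) + 6 * (1 / lam * Y) := by ring
    _ ≤ 6 * (lam * (C1 * ε ^ 2 * (DJ L a v + GG L a v))) + 6 * (1 / lam * (C2 * (DO L a v + GG L a v))) := by linarith
    _ ≤ 6 * (lam * (C1 * ε ^ 2 * (DJ L a v + GG L a v))) + 6 * (1 / lam * (C2 * (DO L a v + GG L a v))) +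
        6 * (C2 * (lam * (ε ^ 2 * (DJ L a v + GG L a v)))) + 6 * (C1 * (1 / lam * (DO L a v + GG L a v))) := by linarith
    _ = _ := by ring

theorem q4 : ∃ C : ℝ, 1 ≤ C ∧ ∀ (ε K κ L a μ : ℝ) (v : E3 → E3), Sl ε K κ v → C ≤ L → 0 < μ → μ ≤ 1 →
    Th (1 / Sc κ) (I4 L a v) ≤ C * (μ * ε ^ 2 * (DJ L a v + GG L a v) + 1 / μ * GG L a v) := by
  obtain ⟨C1, hC1, H1⟩ := S6i
  refine ⟨768 * C1, by linarith, fun ε K κ L a μ v hv hCL hμ hμ1 => ?_⟩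
  have hL : 1 ≤ L := by linarith
  obtain ⟨s1, s2, s3, s4⟩ := Sc_f hv.k1
  obtain ⟨θ, hθ⟩ : ∃ θ, θ = 1 / Sc κ := ⟨_, rfl⟩
  rw [← hθ] at s2 s3 ⊢
  have hθ2 : θ ≤ 1 / 2 := by linarith
  obtain ⟨i1, i2⟩ := H1 ε K κ L a v hv hL
  obtain ⟨n1, n2, n3, n4, n5, n6, n7, n8⟩ := nn_f hL s2 hθ2 a hv.vs
  have hadm := (adm_I s2 hθ2 hv.k1 hL a hv.vs).2.2.2.2.2.2.1
  obtain ⟨hVr, hWr, hOr, hZr, h2r⟩ := vs_ri hv.vs
  have hG : Ri (pd 2 (sW v)) := hWr.pd2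
  obtain ⟨o1, o2, o3, o4, o5, o6, o7⟩ := TwR_ou
  have hphc : Continuous fun x : E3 => ph L a (x 2) := (ph_smooth L a).continuous.comp (by fun_prop)
  -- the functions
  have hZc : Continuous fun x => Zz v x ^ 2 := hZr.sm.continuous.pow 2
  have hZ0 : ∀ x, 0 ≤ Zz v x ^ 2 := fun x => sq_nonneg _
  have hWc : Continuous fun x => sW v x ^ 2 := hWr.sm.continuous.pow 2
  have hW0 : ∀ x, 0 ≤ sW v x ^ 2 := fun x => sq_nonneg _
  have hGc : Continuous fun x => pd 2 (sW v) x ^ 2 := hG.sm.continuous.pow 2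
  have hG0 : ∀ x, 0 ≤ pd 2 (sW v) x ^ 2 := fun x => sq_nonneg _
  have hFc : Continuous fun x => Zz v x ^ 4 := hZr.sm.continuous.pow 4
  have hF0 : ∀ x, 0 ≤ Zz v x ^ 4 := fun x => by positivity
  obtain ⟨z1, z2⟩ := TwR_o hv.vs hL a hZc hZ0 (k := 16) (by norm_num) fun x => by
    have h1 := gv_Z hv.vs x
    have h2 := o5 x
    have h3 := hZ0 x
    have h4 := o2 x
    calc ou x * Zz v x ^ 2 ≤ 16 * rsq x * ou x * Zz v x ^ 2 := mul_le_mul_of_nonneg_right h2 h3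
      _ = 16 * (ou x * (rsq x * Zz v x ^ 2)) := by ring
      _ ≤ 16 * (ou x * gv v x) := by
        have := mul_le_mul_of_nonneg_left h1 h4
        linarith
  obtain ⟨g1, g2⟩ := TwR_o hv.vs hL a hGc hG0 (k := 16) (by norm_num) fun x => by
    have h1 := gv_W2 hv.vs x
    have h2 := o5 x
    have h3 := hG0 x
    have h4 := o2 x
    calc ou x * pd 2 (sW v) x ^ 2 ≤ 16 * rsq x * ou x * pd 2 (sW v) x ^ 2 := mul_le_mul_of_nonneg_right h2 h3
      _ = 16 * (ou x * (rsq x * pd 2 (sW v) x ^ 2)) := by ring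
      _ ≤ 16 * (ou x * gv v x) := by
        have := mul_le_mul_of_nonneg_left h1 h4
        linarith
  obtain ⟨w1, w2⟩ := TwR_o hv.vs hL a hWc hW0 (k := 1) (by norm_num) fun x => by
    have h1 := gv_VW hv.vs x
    have h4 := o2 x
    have h5 : sW v x ^ 2 ≤ gv v x := by nlinarith [sq_nonneg (sV v x)]
    rw [one_mul]
    exact mul_le_mul_of_nonneg_left h5 h4
  have hF4 : ∀ x, ou x * ph L a (x 2) * Zz v x ^ 4 ≤ 256 * (A1 L a x * rsq x ^ 2 * Zz v x ^ 4) := fun x => by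
    have h1 := o6 x
    have h2 := ph_pos L a (x 2)
    calc ou x * ph L a (x 2) * Zz v x ^ 4 = ou x * (ph L a (x 2) * Zz v x ^ 4) := by ring
      _ ≤ 256 * (rsq x ^ 2 * c1 x ^ 4) * (ph L a (x 2) * Zz v x ^ 4) := mul_le_mul_of_nonneg_right h1 (mul_nonneg h2.le (hF0 x))
      _ = 256 * (A1 L a x * rsq x ^ 2 * Zz v x ^ 4) := by simp only [A1]; ring
  have f1 : Integrable (fun x => ou x * ph L a (x 2) * Zz v x ^ 4) := by
    refine Integrable.mono' (i1.const_mul 256) ?_ (Eventually.of_forall fun x => ?_)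
    · exact ((o1.mul hphc.measurable).mul hFc.measurable).aestronglyMeasurable
    · rw [Real.norm_of_nonneg (mul_nonneg (mul_nonneg (o2 x) (ph_pos L a _).le) (hF0 x))]
      exact hF4 x
  have f2 : ∫ x, ou x * ph L a (x 2) * Zz v x ^ 4 ≤ 256 * (C1 * ε ^ 2 * (DJ L a v + GG L a v)) := by
    refine (integral_mono f1 (i1.const_mul 256) hF4).trans ?_
    rw [integral_const_mul]
    linarith
  obtain ⟨X, hX⟩ : ∃ X, X = ∫ x, ou x * ph L a (x 2) * Zz v x ^ 4 := ⟨_, rfl⟩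
  rw [← hX] at f2
  have hX0 : 0 ≤ X := by
    rw [hX]
    exact integral_nonneg fun x => mul_nonneg (mul_nonneg (o2 x) (ph_pos L a _).le) (hF0 x)
  have key : ∀ h, |h| ≤ 1 → ∫ x, I4 L a v h x ≤ (3 / 2 * μ * X + (96 + 3 / (2 * μ)) * GG L a v) * h ^ 2 := by
    intro h hh
    obtain ⟨a1, a2⟩ := sh_sav hL a o1 o2 o3 hZc hZ0 z1 hh
    obtain ⟨b1, b2⟩ := sh_sav hL a o1 o2 o3 hGc hG0 g1 hh
    obtain ⟨c1', c2'⟩ := sh_sav hL a o1 o2 o3 hFc hF0 f1 hh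
    obtain ⟨⟨d1, d2⟩, d3, d4⟩ := sh_int01 hL a o1 o2 o3 hWc hW0 w1 hh
    have hpt : ∀ x, I4 L a v h x ≤ h ^ 2 * (1 * (ou x * ph L a (x 2 + h / 2) * sav h (fun y => Zz v y ^ 2) x +
        ou x * ph L a (x 2 + h / 2) * sav h (fun y => pd 2 (sW v) y ^ 2) x) +
        1 / (2 * μ) * (μ ^ 2 * (ou x * ph L a (x 2 + h / 2) * sav h (fun y => Zz v y ^ 4) x) +
          1 / 2 * (ou x * ph L a (x 2 + h / 2) * sW v (sh2 h x) ^ 2 + ou x * ph L a (x 2 + h / 2) * sW v x ^ 2))) := by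
      intro x
      have e1 : fh h v x = h * sav h (Zz v) x := by
        rw [fh_dif, dif_sav (hVr.sm.of_le (by simp)) h x]
        rfl
      have e2 : dif h (sW v) x = h * sav h (pd 2 (sW v)) x := dif_sav (hWr.sm.of_le (by simp)) h x
      have k1 := sav_sq hZr.sm.continuous h x
      have k2 := sav_sq hG.sm.continuous h x
      have k3 := sav_sq4 hZr.sm.continuous h x
      have k4 := TwR_mid h (sW v) x
      obtain ⟨S, hS⟩ : ∃ S, S = sav h (Zz v) x := ⟨_, rfl⟩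
      obtain ⟨R, hR⟩ : ∃ R, R = sav h (pd 2 (sW v)) x := ⟨_, rfl⟩
      obtain ⟨m, hm⟩ : ∃ m, m = mid h (sW v) x := ⟨_, rfl⟩
      obtain ⟨w, hwd⟩ : ∃ w, w = ou x * ph L a (x 2 + h / 2) := ⟨_, rfl⟩
      obtain ⟨S4, hS4⟩ : ∃ S4, S4 = sav h (fun y => Zz v y ^ 4) x := ⟨_, rfl⟩
      obtain ⟨S2, hS2⟩ : ∃ S2, S2 = sav h (fun y => Zz v y ^ 2) x := ⟨_, rfl⟩
      obtain ⟨R2, hR2⟩ : ∃ R2, R2 = sav h (fun y => pd 2 (sW v) y ^ 2) x := ⟨_, rfl⟩
      have hw : 0 ≤ w := by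
        rw [hwd]
        exact mul_nonneg (o2 x) (ph_pos L a _).le
      unfold I4
      rw [e1, e2, ← hwd, ← hS, ← hR, ← hm, ← hS4, ← hS2, ← hR2]
      rw [← hS, ← hS2] at k1
      rw [← hR, ← hR2] at k2
      rw [← hS, ← hS4] at k3
      rw [← hm] at k4
      have q1 : S ^ 2 * |m| ≤ μ / 2 * (S ^ 2) ^ 2 + 1 / (2 * μ) * m ^ 2 := TwR_am hμ
      have q2 : μ / 2 * (S ^ 2) ^ 2 = μ / 2 * S ^ 4 := by ring
      have q3 : μ / 2 * S ^ 4 ≤ μ / 2 * S4 := mul_le_mul_of_nonneg_left k3 (by positivity)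
      have q4 : 1 / (2 * μ) * m ^ 2 ≤ 1 / (2 * μ) * ((sW v (sh2 h x) ^ 2 + sW v x ^ 2) / 2) :=
        mul_le_mul_of_nonneg_left k4 (by positivity)
      have q5 : μ / 2 * S4 = 1 / (2 * μ) * (μ ^ 2 * S4) := by field_simp
      have q6 : (h * S) ^ 2 * (1 + |m|) + (h * R) ^ 2 ≤ h ^ 2 * (S2 + R2 + 1 / (2 * μ) * (μ ^ 2 * S4 +
          1 / 2 * (sW v (sh2 h x) ^ 2 + sW v x ^ 2))) := by
        have q7 : (h * S) ^ 2 * (1 + |m|) + (h * R) ^ 2 = h ^ 2 * (S ^ 2 + S ^ 2 * |m| + R ^ 2) := by ring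
        rw [q7]
        refine mul_le_mul_of_nonneg_left ?_ (sq_nonneg h)
        have q8 : 1 / (2 * μ) * (μ ^ 2 * S4 + 1 / 2 * (sW v (sh2 h x) ^ 2 + sW v x ^ 2)) = 1 / (2 * μ) * (μ ^ 2 * S4) +
          1 / (2 * μ) * ((sW v (sh2 h x) ^ 2 + sW v x ^ 2) / 2) := by ring
        rw [q8, ← q5]
        rw [q2] at q1
        linarith
      calc w * ((h * S) ^ 2 * (1 + |m|) + (h * R) ^ 2) ≤ w * (h ^ 2 * (S2 + R2 + 1 / (2 * μ) * (μ ^ 2 * S4 +
          1 / 2 * (sW v (sh2 h x) ^ 2 + sW v x ^ 2)))) := mul_le_mul_of_nonneg_left q6 hw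
        _ = _ := by ring
    obtain ⟨hUi, hUe⟩ := TwR_int (a1.add b1) (c1'.const_mul (μ ^ 2)) d3 d1 1 (1 / (2 * μ)) (h ^ 2)
    have h0 : ∀ x, 0 ≤ I4 L a v h x := fun x => by
      unfold I4
      exact mul_nonneg (mul_nonneg (o2 x) (ph_pos L a _).le) (by positivity)
    refine (integral_mono_of_nonneg (Eventually.of_forall h0) hUi (Eventually.of_forall hpt)).trans ?_
    rw [hUe]
    have r1 : ∫ x, ((fun x => ou x * ph L a (x 2 + h / 2) * sav h (fun y => Zz v y ^ 2) x) +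
        fun x => ou x * ph L a (x 2 + h / 2) * sav h (fun y => pd 2 (sW v) y ^ 2) x) x =
        (∫ x, ou x * ph L a (x 2 + h / 2) * sav h (fun y => Zz v y ^ 2) x) +
        ∫ x, ou x * ph L a (x 2 + h / 2) * sav h (fun y => pd 2 (sW v) y ^ 2) x := integral_add a1 b1
    rw [r1, integral_const_mul]
    have r2 : 1 / (2 * μ) * (μ ^ 2 * (∫ x, ou x * ph L a (x 2 + h / 2) * sav h (fun y => Zz v y ^ 4) x) + 1 / 2 *
        ((∫ x, ou x * ph L a (x 2 + h / 2) * sW v (sh2 h x) ^ 2) + ∫ x, ou x * ph L a (x 2 + h / 2) * sW v x ^ 2)) ≤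
        1 / (2 * μ) * (μ ^ 2 * (3 * X) + 3 * GG L a v) := by
      refine mul_le_mul_of_nonneg_left ?_ (by positivity)
      have r3 := mul_le_mul_of_nonneg_left c2' (sq_nonneg μ)
      rw [← hX] at r3
      linarith
    have r4 : 1 / (2 * μ) * (μ ^ 2 * (3 * X) + 3 * GG L a v) = 3 / 2 * μ * X + 3 / (2 * μ) * GG L a v := by
      field_simp
    calc _ ≤ h ^ 2 * (1 * (48 * GG L a v + 48 * GG L a v) + 1 / (2 * μ) * (μ ^ 2 * (3 * X) + 3 * GG L a v)) := by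
          refine mul_le_mul_of_nonneg_left (add_le_add ?_ r2) (sq_nonneg h)
          linarith
      _ = _ := by rw [r4]; ring
  have hM : 0 ≤ 3 / 2 * μ * X + (96 + 3 / (2 * μ)) * GG L a v := by positivity
  refine (Th_le hadm s2 hθ2 hL hM key).trans ?_
  have v1 : μ * X ≤ μ * (256 * (C1 * ε ^ 2 * (DJ L a v + GG L a v))) := mul_le_mul_of_nonneg_left f2 hμ.le
  have v2 : 1 ≤ 1 / μ := by rw [le_div_iff₀ hμ]; linarith
  have v3 : GG L a v ≤ 1 / μ * GG L a v := le_mul_of_one_le_left n5 v2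
  have v4 : 3 / (2 * μ) * GG L a v = 3 / 2 * (1 / μ * GG L a v) := by field_simp
  have v5 : 0 ≤ 1 / μ * GG L a v := by positivity
  have v6 : 1 / μ * GG L a v ≤ C1 * (1 / μ * GG L a v) := le_mul_of_one_le_left v5 hC1
  have v7 : 2 * (3 / 2 * μ * X + (96 + 3 / (2 * μ)) * GG L a v) = 3 * (μ * X) + 192 * GG L a v + 2 * (3 / (2 * μ) * GG L a v) := by ring
  rw [v7, v4]
  calc 3 * (μ * X) + 192 * GG L a v + 2 * (3 / 2 * (1 / μ * GG L a v)) ≤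
      3 * (μ * (256 * (C1 * ε ^ 2 * (DJ L a v + GG L a v)))) + 768 * (C1 * (1 / μ * GG L a v)) := by linarith
    _ = _ := by ring

end Pool.Agent.H88.EP
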