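/-
ROW TwN (MP_09540e_EP). The regularised function of the cell lemma: gdel_f, gdel_g (the last part of this header, cellN, is row TwO). Aux lemmas prefixed TwN_. PROOF. f = fh h v, y = rsq / 2, φ x = ph L a (x 2 + h/2), 0 < θ ≤ 1/2, |h| ≤ 1. For 0 < δ ≤ 1 put `gd δ x = (y + δ)^(θ/2) * c2 x ^ 2 * √(φ x) * f x` (smooth: y + δ > 0, φ > 0 smooth, c2 smooth, f smooth), zero for rsq x ≥ 1/8,
`gd² = (y+δ)^θ c2⁴ φ f²`. DB 1: gd and pd i gd are bounded and square integrable: |.| ≤ B √φ on {rsq ≤ 1/8}, zero elsewhere (φ ≤ 3 ph(x 2), ph_cyl of TwI).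
gsq (product of four factors) ≤ 4 ∑ (others)² gsq (factor): `gsq ((y+δ)^(θ/2)) = (θ²/4)(y+δ)^(θ-2) rsq ≤ (θ²/2)(y+δ)^(θ-1) ≤ (θ²/2) y^(θ-1)` (y > 0, θ < 1, rsq = 2y ≤ 2(y+δ)); `gsq (c2²) ≤ C ou` (c2² = F(rsq), derivative bounded, zero outside 1/16 ≤ rsq ≤ 1/8), there (y+δ)^θ ≤ 2; `gsq √φ = φ'²/(4φ) ≤ φ/4` (ph_deriv, L ≥ 1). So a.e.
  `gsq gd + gd² ≤ 4 (y+δ)^θ c2⁴ φ gsq f + 2 θ² kx (θ-1) f² + C ou φ f² + 2 (y+δ)^θ c2⁴ φ f²`.
cellN: S7 (H87/EP/I) for gd: `∫ |v₂| kx θ f² ≤ ∫ |v₂| gd² ≤ C √K ∫ (gsq gd + gd²)` (y^θ ≤ (y+δ)^θ). Let δ → 0 (δ = 1/n; dominated convergence: (y+δ)^θ ≤ 2 on rsq ≤ 1/8, → y^θ): `≤ C √K (4 ∫ G1 + 2 θ² ∫ G2 + C ∫ ou φ f² + 2 ∫ I6)`. `∫ ou φ f²`: f² ≤ h² sav h Z² (dif_sav, sav_sq), sh_sav (TwB) with c = ou: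
`≤ 3 h² ∫ ou ph Z² ≤ 48 h² ∫ ou ph rsq Z² ≤ 48 h² GG` (gv_Z, gv_int; ou ≤ indicator of {rsq < 1/2}). The shifted velocity: `∫ |v (sh2 h x) 2| kx θ f² dx = ∫ |v₂| (kx θ f²)(sh2 (-h) ·)` (sh2_mp; sh2 h (sh2 (-h) y) = y), apply S7 to `gd ∘ sh2 (-h)` (again DB 1, zero for rsq ≥ 1/2; gsq of the shift = shift of gsq, pd_sh; its integral is the same).
`|mid h (uz v) x| ≤ (|v (sh2 h x) 2| + |v x 2|)/2`. The hypotheses of S7 on v: continuity, `Integrable ‖v‖²`, bounded: from Vs (DB for the components; ‖v‖² = ∑ v_i²). Integrability of all terms: adm_I (TwV), Adm.int.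
-/
import Pool.Agent.H88.EP.TwB
import Pool.Agent.H88.EP.TwV
import Pool.Agent.H88.EP.TwS
import Pool.Agent.H88.EP.TwI
import Pool.Agent.H87.EP.I

set_option autoImplicit false

open Set Filter Topology MeasureTheory
open scoped ContDiff

namespace Pool.Agent.H88.EP

open Pool.Agent.H16 Pool.Agent.H72.CC Pool.Agent.H87.EP
open Pool.Agent.H87.NS hiding c1
open Pool.Agent.H16.TU hiding Sl
open Pool.Agent.H94.EP

/-- The regularised function. -/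
noncomputable def gdel (θ L a δ : ℝ) (v : E3 → E3) (h : ℝ) (x : E3) : ℝ :=
  (rsq x / 2 + δ) ^ (θ / 2) * c2 x ^ 2 * √(ph L a (x 2 + h / 2)) * fh h v x

/-! ### The profiles -/

/-- The profile of `c2 ^ 2`. -/
noncomputable def TwN_c (q : ℝ) : ℝ := Real.smoothTransition (2 - 16 * q) ^ 2

theorem TwN_c_cd : ContDiff ℝ ∞ TwN_c :=
  (Real.smoothTransition.contDiff.comp (contDiff_const.sub (contDiff_const.mul contDiff_id))).pow 2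

theorem TwN_c_eq (x : E3) : c2 x ^ 2 = TwN_c (rsq x) := rfl

theorem TwN_c_01 (q : ℝ) : 0 ≤ TwN_c q ∧ TwN_c q ≤ 1 :=
  ⟨pow_nonneg (Real.smoothTransition.nonneg _) 2, pow_le_one₀ (Real.smoothTransition.nonneg _) (Real.smoothTransition.le_one _)⟩

theorem TwN_c_z {q : ℝ} (hq : 1 / 8 ≤ q) : TwN_c q = 0 := by
  unfold TwN_c
  rw [Real.smoothTransition.zero_of_nonpos (by linarith)]
  norm_num

theorem TwN_c1_cd : ContDiff ℝ ∞ (deriv TwN_c) := (contDiff_infty_iff_deriv.1 TwN_c_cd).2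

theorem TwN_c_hd (q : ℝ) : HasDerivAt TwN_c (deriv TwN_c q) q := ((TwN_c_cd.differentiable (by simp)) q).hasDerivAt

theorem TwN_c_off {q : ℝ} (hq : q < 1 / 16 ∨ 1 / 8 < q) : deriv TwN_c q = 0 := by
  obtain ⟨c, hc⟩ : ∃ c : ℝ, TwN_c =ᶠ[𝓝 q] fun _ => c := by
    rcases hq with hq | hq
    · refine ⟨1, ?_⟩
      filter_upwards [gt_mem_nhds hq] with z hz
      unfold TwN_c
      rw [Real.smoothTransition.one_of_one_le (by linarith)]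
      norm_num
    · refine ⟨0, ?_⟩
      filter_upwards [lt_mem_nhds hq] with z hz
      exact TwN_c_z hz.le
  rw [hc.deriv_eq]
  simp

theorem TwN_c_bd : ∃ C : ℝ, 1 ≤ C ∧ ∀ q, |deriv TwN_c q| ≤ C := by
  obtain ⟨A, hA⟩ := isCompact_Icc.exists_bound_of_continuousOn (s := Icc (1 / 16 : ℝ) (1 / 8)) TwN_c1_cd.continuous.continuousOn
  refine ⟨max 1 A, le_max_left _ _, fun q => ?_⟩
  by_cases hq : q < 1 / 16 ∨ 1 / 8 < q
  · rw [TwN_c_off hq, abs_zero]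
    exact zero_le_one.trans (le_max_left _ _)
  · push Not at hq
    exact (hA q hq).trans (le_max_right _ _)

/-- The horizontal profile of `gdel`. -/
noncomputable def TwN_g (θ δ q : ℝ) : ℝ := (q / 2 + δ) ^ (θ / 2) * TwN_c q

/-- Its derivative. -/
noncomputable def TwN_g1 (θ δ q : ℝ) : ℝ := θ / 4 * (q / 2 + δ) ^ (θ / 2 - 1) * TwN_c q + (q / 2 + δ) ^ (θ / 2) * deriv TwN_c q

/-- The vertical profile. -/
noncomputable def TwN_w (L a h t : ℝ) : ℝ := √(ph L a (t + h / 2))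

/-- Its derivative. -/
noncomputable def TwN_w1 (L a h t : ℝ) : ℝ := deriv (ph L a) (t + h / 2) / (2 * √(ph L a (t + h / 2)))

theorem TwN_g_hd (θ : ℝ) {δ q : ℝ} (hδ : 0 < δ) (hq : 0 ≤ q) : HasDerivAt (TwN_g θ δ) (TwN_g1 θ δ q) q := by
  have h0 : q / 2 + δ ≠ 0 := by positivity
  have h1 : HasDerivAt (fun q : ℝ => q / 2 + δ) (1 / 2) q := ((hasDerivAt_id q).div_const 2).add_const δ
  have h2 : HasDerivAt (fun q : ℝ => (q / 2 + δ) ^ (θ / 2)) (1 / 2 * (θ / 2) * (q / 2 + δ) ^ (θ / 2 - 1)) q :=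
    h1.rpow_const (Or.inl h0)
  refine (h2.mul (TwN_c_hd q)).congr_deriv ?_
  unfold TwN_g1
  ring

theorem TwN_w_hd (L a h t : ℝ) : HasDerivAt (TwN_w L a h) (TwN_w1 L a h t) t := by
  have h1 : HasDerivAt (fun t : ℝ => ph L a (t + h / 2)) (deriv (ph L a) (t + h / 2)) t := by
    have h2 : HasDerivAt (ph L a) (deriv (ph L a) (t + h / 2)) (t + h / 2) :=
      (((ph_smooth L a).differentiable (by simp)) _).hasDerivAt
    exact h2.comp_add_const t (h / 2)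
  exact h1.sqrt (ph_pos L a _).ne'

theorem TwN_w_sq (L a h t : ℝ) : TwN_w L a h t ^ 2 = ph L a (t + h / 2) := Real.sq_sqrt (ph_pos L a _).le

theorem TwN_w1_sq {L : ℝ} (hL : 1 ≤ L) (a h t : ℝ) : TwN_w1 L a h t ^ 2 ≤ ph L a (t + h / 2) / 4 := by
  have hp := ph_pos L a (t + h / 2)
  have h1 : |deriv (ph L a) (t + h / 2)| ≤ ph L a (t + h / 2) :=
    (ph_deriv (by linarith) a _).trans (div_le_self hp.le hL)
  unfold TwN_w1
  rw [div_pow, mul_pow, Real.sq_sqrt hp.le, div_le_iff₀ (by positivity)]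
  have h2 : deriv (ph L a) (t + h / 2) ^ 2 ≤ ph L a (t + h / 2) ^ 2 := by
    rw [← sq_abs (deriv (ph L a) (t + h / 2))]
    exact pow_le_pow_left₀ (abs_nonneg _) h1 2
  nlinarith

theorem TwN_eq (θ L a δ : ℝ) (v : E3 → E3) (h : ℝ) :
    gdel θ L a δ v h = fun x => (fun y : E3 => TwN_g θ δ (rsq y) * TwN_w L a h (y 2)) x * fh h v x := rfl

/-! ### Smoothness -/

theorem TwN_fh {v : E3 → E3} (hv : Vs v) (h : ℝ) : ContDiff ℝ ∞ (fh h v) := (sh_ri (vs_ri hv).1 h).2.1.sm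

theorem TwN_M (θ L a h : ℝ) {δ : ℝ} (hδ : 0 < δ) : ContDiff ℝ ∞ (fun y : E3 => TwN_g θ δ (rsq y) * TwN_w L a h (y 2)) := by
  have h1 : ContDiff ℝ ∞ (fun x : E3 => (rsq x / 2 + δ) ^ (θ / 2)) := by
    rw [contDiff_iff_contDiffAt]
    intro x
    have := TwW_rsq_nn x
    exact ((C_rsq_smooth.div_const 2).add contDiff_const).contDiffAt.rpow_const_of_ne (by positivity)
  have h2 : ContDiff ℝ ∞ (fun x : E3 => TwN_c (rsq x)) := TwN_c_cd.comp C_rsq_smooth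
  have h3 : ContDiff ℝ ∞ (fun x : E3 => ph L a (x 2 + h / 2)) :=
    (ph_smooth L a).comp ((Cut_coord 2).add contDiff_const)
  have h4 : ContDiff ℝ ∞ (fun x : E3 => √(ph L a (x 2 + h / 2))) := h3.sqrt fun x => (ph_pos L a _).ne'
  exact (h1.mul h2).mul h4

theorem TwN_sm (θ L a h : ℝ) {δ : ℝ} (hδ : 0 < δ) {v : E3 → E3} (hv : Vs v) : ContDiff ℝ ∞ (gdel θ L a δ v h) := by
  rw [TwN_eq]
  exact (TwN_M θ L a h hδ).mul (TwN_fh hv h)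

/-! ### The gradient -/

theorem TwN_gs (θ L a h : ℝ) {δ : ℝ} (hδ : 0 < δ) {v : E3 → E3} (hv : Vs v) (x : E3) :
    gsq (gdel θ L a δ v h) x ≤ 4 / 3 * ((4 * rsq x * TwN_g1 θ δ (rsq x) ^ 2 * TwN_w L a h (x 2) ^ 2 +
      TwN_g θ δ (rsq x) ^ 2 * TwN_w1 L a h (x 2) ^ 2) * fh h v x ^ 2) +
      4 * (TwN_g θ δ (rsq x) ^ 2 * TwN_w L a h (x 2) ^ 2 * gsq (fh h v) x) := by
  obtain ⟨e0, e1, e2⟩ := TwW_pd (TwN_g_hd θ hδ (TwW_rsq_nn x)) (TwN_w_hd L a h (x 2))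
  have hM := TwN_M θ L a h hδ
  have hf := TwN_fh hv h
  have key : ∀ i, pd i (gdel θ L a δ v h) x = pd i (fun y : E3 => TwN_g θ δ (rsq y) * TwN_w L a h (y 2)) x * fh h v x +
      TwN_g θ δ (rsq x) * TwN_w L a h (x 2) * pd i (fh h v) x := by
    intro i
    rw [TwN_eq]
    unfold pd
    rw [fderiv_fun_mul ((hM.differentiable (by simp)) x) ((hf.differentiable (by simp)) x)]
    simp only [_root_.add_apply, _root_.smul_apply, smul_eq_mul]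
    ring
  have hy : ∀ A B : ℝ, (A + B) ^ 2 ≤ 4 / 3 * A ^ 2 + 4 * B ^ 2 := fun A B => by linarith only [sq_nonneg (A - 3 * B)]
  unfold gsq
  rw [Fin.sum_univ_three, Fin.sum_univ_three, key 0, key 1, key 2, e0, e1, e2]
  have i0 := hy (2 * x 0 * (TwN_g1 θ δ (rsq x) * TwN_w L a h (x 2)) * fh h v x) (TwN_g θ δ (rsq x) * TwN_w L a h (x 2) * pd 0 (fh h v) x)
  have i1 := hy (2 * x 1 * (TwN_g1 θ δ (rsq x) * TwN_w L a h (x 2)) * fh h v x) (TwN_g θ δ (rsq x) * TwN_w L a h (x 2) * pd 1 (fh h v) x)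
  have i2 := hy (TwN_g θ δ (rsq x) * TwN_w1 L a h (x 2) * fh h v x) (TwN_g θ δ (rsq x) * TwN_w L a h (x 2) * pd 2 (fh h v) x)
  refine (add_le_add (add_le_add i0 i1) i2).trans (le_of_eq ?_)
  have hr : rsq x = x 0 ^ 2 + x 1 ^ 2 := rfl
  generalize TwN_g1 θ δ (rsq x) = p
  generalize TwN_g θ δ (rsq x) = q
  rw [hr]
  ring

theorem TwN_g_sq (θ : ℝ) {δ q : ℝ} (hδ : 0 < δ) (hq : 0 ≤ q) : TwN_g θ δ q ^ 2 = (q / 2 + δ) ^ θ * TwN_c q ^ 2 := by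
  unfold TwN_g
  rw [mul_pow, ← Real.rpow_natCast ((q / 2 + δ) ^ (θ / 2)) 2, ← Real.rpow_mul (by positivity)]
  congr 2
  push_cast
  ring

theorem TwN_pw {θ δ q : ℝ} (h0 : 0 < θ) (h1 : θ ≤ 1 / 2) (hδ : 0 < δ) (hδ1 : δ ≤ 1) (hq : 0 ≤ q) (hq1 : q ≤ 1) :
    (q / 2 + δ) ^ θ ≤ 2 := by
  have h2 : q / 2 + δ ≤ 2 := by linarith
  calc (q / 2 + δ) ^ θ ≤ 2 ^ θ := Real.rpow_le_rpow (by positivity) h2 h0.le
    _ ≤ 2 ^ (1 : ℝ) := Real.rpow_le_rpow_of_exponent_le (by norm_num) (by linarith)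
    _ = 2 := Real.rpow_one 2

/-- The bound of `TwN_g1`. -/
theorem TwN_g1_sq (θ : ℝ) {δ q : ℝ} (hδ : 0 < δ) (hq : 0 ≤ q) : TwN_g1 θ δ q ^ 2 ≤
    θ ^ 2 / 8 * (q / 2 + δ) ^ (θ - 2) * TwN_c q ^ 2 + 2 * ((q / 2 + δ) ^ θ * deriv TwN_c q ^ 2) := by
  have hp : 0 < q / 2 + δ := by positivity
  have e1 : ((q / 2 + δ) ^ (θ / 2 - 1)) ^ 2 = (q / 2 + δ) ^ (θ - 2) := by
    rw [← Real.rpow_natCast ((q / 2 + δ) ^ (θ / 2 - 1)) 2, ← Real.rpow_mul hp.le]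
    congr 1
    push_cast
    ring
  have e2 : ((q / 2 + δ) ^ (θ / 2)) ^ 2 = (q / 2 + δ) ^ θ := by
    rw [← Real.rpow_natCast ((q / 2 + δ) ^ (θ / 2)) 2, ← Real.rpow_mul hp.le]
    congr 1
    push_cast
    ring
  unfold TwN_g1
  rw [← e1, ← e2]
  linarith only [sq_nonneg (θ / 4 * (q / 2 + δ) ^ (θ / 2 - 1) * TwN_c q - (q / 2 + δ) ^ (θ / 2) * deriv TwN_c q)]

/-! ### Boundedness -/

theorem TwN_BL {L : ℝ} (hL : 1 ≤ L) (a : ℝ) {G : E3 → ℝ} (hG : Continuous G) {B : ℝ} (hB : 0 ≤ B)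
    (h : ∀ x, G x ^ 2 ≤ B * {x : E3 | rsq x < 1}.indicator (fun x => ph L a (x 2)) x) : ∃ K, BL K G := by
  have hi := (ph_cyl hL a).const_mul B
  have hin : ∀ x : E3, {x : E3 | rsq x < 1}.indicator (fun x => ph L a (x 2)) x ≤ 1 := fun x =>
    indicator_le' (fun _ _ => ph_le L a _) (fun _ _ => zero_le_one) x
  have hint : Integrable (fun x => G x ^ 2) := by
    refine hi.mono' (hG.pow 2).aestronglyMeasurable (ae_of_all _ fun x => ?_)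
    rw [Real.norm_eq_abs, abs_of_nonneg (sq_nonneg _)]
    exact h x
  refine ⟨max (B + 1) (∫ x, G x ^ 2), fun x => ?_, hint, le_max_right _ _⟩
  refine le_trans ?_ (le_max_left _ _)
  have h1 : G x ^ 2 ≤ B := (h x).trans (mul_le_of_le_one_right hB (hin x))
  have h2 : |G x| ^ 2 ≤ B := by rwa [sq_abs]
  nlinarith [sq_nonneg (|G x| - 1), abs_nonneg (G x)]

theorem TwN_ar {g2 g12 w12 p r f2 G D B : ℝ} (hg : g2 ≤ 2) (h1 : g12 ≤ D) (h10 : 0 ≤ g12) (hw : w12 ≤ p / 4)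
    (hw0 : 0 ≤ w12) (hp : 0 ≤ p) (hr : r ≤ 1) (hf : f2 ≤ B ^ 2) (hf0 : 0 ≤ f2) (hG : G ≤ B) (hG0 : 0 ≤ G) :
    4 / 3 * ((4 * r * g12 * p + g2 * w12) * f2) + 4 * (g2 * p * G) ≤ (2 * B ^ 2 + (4 / 3 * ((4 * D + 2) * B ^ 2) + 8 * B)) * p := by
  have hD : 0 ≤ D := h10.trans h1
  have j1 : 4 * r * g12 * p ≤ 4 * D * p := by
    refine mul_le_mul_of_nonneg_right ?_ hp
    calc 4 * r * g12 ≤ 4 * 1 * D := mul_le_mul (by linarith) h1 h10 (by norm_num)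
      _ = _ := by ring
  have j2 : g2 * w12 ≤ 2 * (p / 4) := mul_le_mul hg hw hw0 (by norm_num)
  have j3 : 4 * r * g12 * p + g2 * w12 ≤ (4 * D + 2) * p := by linarith
  have j4 := mul_le_mul j3 hf hf0 (by positivity)
  have j5 : g2 * p * G ≤ 2 * p * B :=
    mul_le_mul (mul_le_mul_of_nonneg_right hg hp) hG hG0 (by positivity)
  have j6 : 0 ≤ 2 * B ^ 2 * p := by positivity
  linarith

theorem TwN_ar0 {g2 p f2 D B : ℝ} (hg : g2 ≤ 2) (hp : 0 ≤ p) (hf : f2 ≤ B ^ 2) (hf0 : 0 ≤ f2) (hD : 0 ≤ D) (hB : 0 ≤ B) :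
    g2 * p * f2 ≤ (2 * B ^ 2 + (4 / 3 * ((4 * D + 2) * B ^ 2) + 8 * B)) * p := by
  have j1 : g2 * p * f2 ≤ 2 * p * B ^ 2 := mul_le_mul (mul_le_mul_of_nonneg_right hg hp) hf hf0 (by positivity)
  have j2 : 0 ≤ (4 / 3 * ((4 * D + 2) * B ^ 2) + 8 * B) * p := by positivity
  linarith

theorem TwN_g1_bd {θ δ : ℝ} (h0 : 0 < θ) (h1 : θ ≤ 1 / 2) (hδ : 0 < δ) (hδ1 : δ ≤ 1) : ∃ D : ℝ, 0 ≤ D ∧ ∀ q, 0 ≤ q → q ≤ 1 →
    TwN_g1 θ δ q ^ 2 ≤ D := by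
  obtain ⟨C, hC1, hC⟩ := TwN_c_bd
  have hD0 : 0 ≤ δ ^ (θ - 2) := Real.rpow_nonneg hδ.le _
  refine ⟨1 / 8 * δ ^ (θ - 2) + 4 * C ^ 2, by positivity, fun q hq hq1 => ?_⟩
  have hc := TwN_c_01 q
  have hcc : TwN_c q ^ 2 ≤ 1 := pow_le_one₀ hc.1 hc.2
  have hpw := TwN_pw h0 h1 hδ hδ1 hq hq1
  have hpw0 : 0 ≤ (q / 2 + δ) ^ θ := Real.rpow_nonneg (by positivity) _
  refine (TwN_g1_sq θ hδ hq).trans ?_
  have i1 : (q / 2 + δ) ^ (θ - 2) ≤ δ ^ (θ - 2) :=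
    Real.rpow_le_rpow_of_nonpos hδ (by linarith) (by linarith)
  have i2 : 0 ≤ (q / 2 + δ) ^ (θ - 2) := Real.rpow_nonneg (by positivity) _
  have i3 : deriv TwN_c q ^ 2 ≤ C ^ 2 := by
    rw [← sq_abs]
    exact pow_le_pow_left₀ (abs_nonneg _) (hC _) 2
  have i6 : θ ^ 2 / 8 ≤ 1 / 8 := by nlinarith only [h0, h1]
  have i4 : θ ^ 2 / 8 * (q / 2 + δ) ^ (θ - 2) * TwN_c q ^ 2 ≤ 1 / 8 * δ ^ (θ - 2) * 1 :=
    mul_le_mul (mul_le_mul i6 i1 i2 (by norm_num)) hcc (sq_nonneg _) (by positivity)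
  have i5 : (q / 2 + δ) ^ θ * deriv TwN_c q ^ 2 ≤ 2 * C ^ 2 := mul_le_mul hpw i3 (sq_nonneg _) (by norm_num)
  linarith

theorem TwN_bd {θ L δ : ℝ} (h0 : 0 < θ) (h1 : θ ≤ 1 / 2) (hL : 1 ≤ L) (a : ℝ) {v : E3 → E3} (hv : Vs v) (hδ : 0 < δ) (hδ1 : δ ≤ 1) {h : ℝ} (hh : |h| ≤ 1) :
    ∃ B : ℝ, 0 ≤ B ∧ ∀ x, gdel θ L a δ v h x ^ 2 ≤ B * {x : E3 | rsq x < 1}.indicator (fun x => ph L a (x 2)) x ∧
      gsq (gdel θ L a δ v h) x ≤ B * {x : E3 | rsq x < 1}.indicator (fun x => ph L a (x 2)) x := by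
  obtain ⟨B, hB1, hB⟩ := vs_bd hv
  obtain ⟨D, hD0, hD⟩ := TwN_g1_bd h0 h1 hδ hδ1
  have hB0 : 0 ≤ B := by linarith
  refine ⟨(2 * B ^ 2 + (4 / 3 * ((4 * D + 2) * B ^ 2) + 8 * B)) * 3, by positivity, fun x => ?_⟩
  have hB' := hB h x
  have hf : fh h v x ^ 2 ≤ B ^ 2 := by
    rw [← sq_abs (fh h v x)]
    refine pow_le_pow_left₀ (abs_nonneg _) (hB'.2.1.1.trans ?_) 2
    exact mul_le_of_le_one_right hB0 hh
  have hf1 : gsq (fh h v) x ≤ B := hB'.2.2.1.trans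
    (mul_le_of_le_one_right hB0 (by rw [← sq_abs]; exact pow_le_one₀ (abs_nonneg _) hh))
  have hf2 : 0 ≤ gsq (fh h v) x := gsq_nonneg _ _
  have hr := TwW_rsq_nn x
  have hgs := TwN_gs θ L a h hδ hv x
  have e1 : gdel θ L a δ v h x ^ 2 = TwN_g θ δ (rsq x) ^ 2 * TwN_w L a h (x 2) ^ 2 * fh h v x ^ 2 := by
    rw [TwN_eq]
    ring
  by_cases hx : rsq x < 1
  · rw [indicator_of_mem (show x ∈ {x : E3 | rsq x < 1} from hx)]
    have hp := ph_pos L a (x 2 + h / 2)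
    have hp0 := ph_pos L a (x 2)
    have hp3 : ph L a (x 2 + h / 2) ≤ 3 * ph L a (x 2) := by
      refine ph_shift hL a (x 2) (h / 2) ?_
      rw [abs_div, abs_of_pos (by norm_num : (0 : ℝ) < 2)]
      linarith [abs_nonneg h]
    have hw := TwN_w_sq L a h (x 2)
    have hw1 := TwN_w1_sq hL a h (x 2)
    have hg : TwN_g θ δ (rsq x) ^ 2 ≤ 2 := by
      have hc := TwN_c_01 (rsq x)
      rw [TwN_g_sq θ hδ hr]
      calc (rsq x / 2 + δ) ^ θ * TwN_c (rsq x) ^ 2 ≤ 2 * 1 :=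
            mul_le_mul (TwN_pw h0 h1 hδ hδ1 hr hx.le) (pow_le_one₀ hc.1 hc.2) (sq_nonneg _) (by norm_num)
        _ = 2 := by norm_num
    have hg1 := hD (rsq x) hr hx.le
    have hK : 0 ≤ 2 * B ^ 2 + (4 / 3 * ((4 * D + 2) * B ^ 2) + 8 * B) := by positivity
    have hpB := mul_le_mul_of_nonneg_left hp3 hK
    rw [hw] at hgs e1
    constructor
    · rw [e1]
      have := TwN_ar0 hg hp.le hf (sq_nonneg _) hD0 hB0
      linarith only [hpB, this]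
    · have := TwN_ar hg hg1 (sq_nonneg _) hw1 (sq_nonneg _) hp.le hx.le hf (sq_nonneg _) hf1 hf2
      linarith
  · rw [indicator_of_notMem (show x ∉ {x : E3 | rsq x < 1} from hx), mul_zero]
    have hx1 : 1 ≤ rsq x := not_lt.1 hx
    have hc : TwN_c (rsq x) = 0 := TwN_c_z (by linarith)
    have hg : TwN_g θ δ (rsq x) = 0 := by
      unfold TwN_g
      rw [hc, mul_zero]
    have hg1 : TwN_g1 θ δ (rsq x) = 0 := by
      unfold TwN_g1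
      rw [hc, TwN_c_off (Or.inr (by linarith)), mul_zero, mul_zero, add_zero]
    constructor
    · rw [e1, hg]
      simp
    · refine hgs.trans ?_
      rw [hg, hg1]
      simp

theorem gdel_f {θ L δ : ℝ} (h0 : 0 < θ) (h1 : θ ≤ 1 / 2) (hL : 1 ≤ L) (a : ℝ) {v : E3 → E3} (hv : Vs v) (hδ : 0 < δ) (hδ1 : δ ≤ 1) {h : ℝ} (hh : |h| ≤ 1) :
    ContDiff ℝ ∞ (gdel θ L a δ v h) ∧ (∃ B : ℝ, DB 1 B (gdel θ L a δ v h)) ∧ (∀ x, 1 / 8 ≤ rsq x → gdel θ L a δ v h x = 0) ∧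
    ∀ x, gdel θ L a δ v h x ^ 2 = (rsq x / 2 + δ) ^ θ * c2 x ^ 4 * ph L a (x 2 + h / 2) * fh h v x ^ 2 := by
  have hs := TwN_sm θ L a h hδ hv
  obtain ⟨B, hB0, hB⟩ := TwN_bd h0 h1 hL a hv hδ hδ1 hh
  refine ⟨hs, ?_, fun x hx => ?_, fun x => ?_⟩
  · obtain ⟨K0, hK0⟩ := TwN_BL hL a hs.continuous hB0 fun x => (hB x).1
    have hd : ∀ i : Fin 3, ∃ K, BL K (pd i (gdel θ L a δ v h)) := fun i => by
      refine TwN_BL hL a (pd_smooth hs i).continuous hB0 fun x => le_trans ?_ (hB x).2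
      exact Finset.single_le_sum (f := fun i => pd i (gdel θ L a δ v h) x ^ 2) (fun j _ => sq_nonneg _) (Finset.mem_univ i)
    choose K hK using hd
    refine ⟨K0 + ∑ i, |K i|, BL_mono hK0 (le_add_of_nonneg_right (Finset.sum_nonneg fun i _ => abs_nonneg _)), fun i => ?_⟩
    refine BL_mono (hK i) ?_
    have e1 : |K i| ≤ ∑ i, |K i| := Finset.single_le_sum (f := fun i => |K i|) (fun j _ => abs_nonneg _) (Finset.mem_univ i)
    have e2 := BL_nonneg hK0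
    linarith [le_abs_self (K i)]
  · have : gdel θ L a δ v h x = TwN_g θ δ (rsq x) * TwN_w L a h (x 2) * fh h v x := rfl
    rw [this]
    unfold TwN_g
    rw [TwN_c_z hx, mul_zero, zero_mul, zero_mul]
  · have : gdel θ L a δ v h x = TwN_g θ δ (rsq x) * TwN_w L a h (x 2) * fh h v x := rfl
    rw [this, mul_pow, mul_pow, TwN_g_sq θ hδ (TwW_rsq_nn x), TwN_w_sq, ← TwN_c_eq]
    ring

theorem gdel_g : ∃ C : ℝ, 1 ≤ C ∧ ∀ (θ L a δ h : ℝ) (v : E3 → E3), 0 < θ → θ ≤ 1 / 2 → 1 ≤ L → Vs v → 0 < δ → δ ≤ 1 → |h| ≤ 1 → ∀ x : E3, 0 < rsq x →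
    gsq (gdel θ L a δ v h) x ≤ 4 * ((rsq x / 2 + δ) ^ θ * c2 x ^ 4 * ph L a (x 2 + h / 2) * gsq (fh h v) x) + 2 * θ ^ 2 * G2 θ L a v h x
      + C * (ou x * ph L a (x 2 + h / 2) * fh h v x ^ 2) + (rsq x / 2 + δ) ^ θ * c2 x ^ 4 * ph L a (x 2 + h / 2) * fh h v x ^ 2 := by
  obtain ⟨C, hC1, hC⟩ := TwN_c_bd
  refine ⟨3 * C ^ 2, by nlinarith, fun θ L a δ h v h0 h1 hL hv hδ hδ1 hh x hx => ?_⟩
  have hr := hx.le
  have hp := ph_pos L a (x 2 + h / 2)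
  have hw := TwN_w_sq L a h (x 2)
  have hw1 := TwN_w1_sq hL a h (x 2)
  have hc4 : TwN_c (rsq x) ^ 2 = c2 x ^ 4 := by
    rw [← TwN_c_eq]
    ring
  have hg : TwN_g θ δ (rsq x) ^ 2 = (rsq x / 2 + δ) ^ θ * c2 x ^ 4 := by
    rw [TwN_g_sq θ hδ hr, hc4]
  have hc4n : 0 ≤ c2 x ^ 4 := by rw [← hc4]; positivity
  have hP0 : 0 ≤ (rsq x / 2 + δ) ^ θ := Real.rpow_nonneg (by positivity) _
  have hf := sq_nonneg (fh h v x)
  -- the term with the derivative of the power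
  have hG1 : 4 / 3 * (4 * rsq x * TwN_g1 θ δ (rsq x) ^ 2) ≤
      2 * θ ^ 2 * ((rsq x / 2) ^ (θ - 1) * c2 x ^ 4) + 3 * C ^ 2 * ou x := by
    have i0 := TwN_g1_sq θ hδ hr
    rw [hc4] at i0
    have i1 : rsq x * (rsq x / 2 + δ) ^ (θ - 2) ≤ 2 * (rsq x / 2) ^ (θ - 1) := by
      have j1 : (rsq x / 2 + δ) ^ (θ - 1) ≤ (rsq x / 2) ^ (θ - 1) :=
        Real.rpow_le_rpow_of_nonpos (by positivity) (by linarith) (by linarith)
      have j2 : (rsq x / 2 + δ) * (rsq x / 2 + δ) ^ (θ - 2) = (rsq x / 2 + δ) ^ (θ - 1) := by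
        rw [mul_comm, ← Real.rpow_add_one (by positivity)]
        congr 1
        ring
      have j3 : 0 ≤ (rsq x / 2 + δ) ^ (θ - 2) := Real.rpow_nonneg (by positivity) _
      calc rsq x * (rsq x / 2 + δ) ^ (θ - 2) ≤ 2 * (rsq x / 2 + δ) * (rsq x / 2 + δ) ^ (θ - 2) :=
            mul_le_mul_of_nonneg_right (by linarith) j3
        _ = 2 * (rsq x / 2 + δ) ^ (θ - 1) := by rw [mul_assoc, j2]
        _ ≤ _ := by linarith
    have i2 : rsq x * ((rsq x / 2 + δ) ^ θ * deriv TwN_c (rsq x) ^ 2) ≤ 1 / 4 * C ^ 2 * ou x := by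
      by_cases hq : rsq x < 1 / 16 ∨ 1 / 8 < rsq x
      · rw [TwN_c_off hq]
        have := TwW_ou0 x
        have : 0 ≤ 1 / 4 * C ^ 2 * ou x := by positivity
        simpa using this
      · push Not at hq
        rw [TwW_ou hq, mul_one]
        have k1 : deriv TwN_c (rsq x) ^ 2 ≤ C ^ 2 := by
          rw [← sq_abs]
          exact pow_le_pow_left₀ (abs_nonneg _) (hC _) 2
        have k2 := TwN_pw h0 h1 hδ hδ1 hr (by linarith [hq.2] : rsq x ≤ 1)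
        have k3 : (rsq x / 2 + δ) ^ θ * deriv TwN_c (rsq x) ^ 2 ≤ 2 * C ^ 2 := mul_le_mul k2 k1 (sq_nonneg _) (by norm_num)
        calc rsq x * ((rsq x / 2 + δ) ^ θ * deriv TwN_c (rsq x) ^ 2) ≤ 1 / 8 * (2 * C ^ 2) :=
              mul_le_mul hq.2 k3 (by positivity) (by norm_num)
          _ = _ := by ring
    have i3 : 0 ≤ (rsq x / 2) ^ (θ - 1) * c2 x ^ 4 := mul_nonneg (Real.rpow_nonneg (by positivity) _) hc4n
    have i4 := mul_le_mul_of_nonneg_right i1 hc4n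
    have i5 := mul_le_mul_of_nonneg_left i4 (sq_nonneg θ)
    have i6 := mul_le_mul_of_nonneg_left i0 hr
    have i7 := TwW_ou0 x
    have i8 : 0 ≤ θ ^ 2 * ((rsq x / 2) ^ (θ - 1) * c2 x ^ 4) := by positivity
    have i9 : 0 ≤ C ^ 2 * ou x := by positivity
    have e1 : 4 / 3 * (4 * rsq x * TwN_g1 θ δ (rsq x) ^ 2) = 16 / 3 * (rsq x * TwN_g1 θ δ (rsq x) ^ 2) := by ring
    have e2 : rsq x * (θ ^ 2 / 8 * (rsq x / 2 + δ) ^ (θ - 2) * c2 x ^ 4 + 2 * ((rsq x / 2 + δ) ^ θ * deriv TwN_c (rsq x) ^ 2)) =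
        1 / 8 * (θ ^ 2 * (rsq x * (rsq x / 2 + δ) ^ (θ - 2) * c2 x ^ 4)) + 2 * (rsq x * ((rsq x / 2 + δ) ^ θ * deriv TwN_c (rsq x) ^ 2)) := by
      ring
    rw [e2] at i6
    rw [e1]
    have e3 : θ ^ 2 * (2 * (rsq x / 2) ^ (θ - 1) * c2 x ^ 4) = 2 * (θ ^ 2 * ((rsq x / 2) ^ (θ - 1) * c2 x ^ 4)) := by ring
    rw [e3] at i5
    linarith only [i2, i5, i6, i8, i9]
  -- the term with the derivative of the vertical profile
  have hG2 : 4 / 3 * (TwN_g θ δ (rsq x) ^ 2 * TwN_w1 L a h (x 2) ^ 2) ≤ (rsq x / 2 + δ) ^ θ * c2 x ^ 4 * ph L a (x 2 + h / 2) := by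
    rw [hg]
    have i1 : 0 ≤ (rsq x / 2 + δ) ^ θ * c2 x ^ 4 := by positivity
    have i2 := mul_le_mul_of_nonneg_left hw1 i1
    have i3 : 0 ≤ (rsq x / 2 + δ) ^ θ * c2 x ^ 4 * ph L a (x 2 + h / 2) := by positivity
    linarith only [i2, i3]
  have hkx : G2 θ L a v h x = (rsq x / 2) ^ (θ - 1) * c2 x ^ 4 * ph L a (x 2 + h / 2) * fh h v x ^ 2 := rfl
  refine (TwN_gs θ L a h hδ hv x).trans ?_
  rw [hw, hkx]
  have k1 := mul_le_mul_of_nonneg_right (mul_le_mul_of_nonneg_right hG1 hp.le) hf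
  have k2 := mul_le_mul_of_nonneg_right hG2 hf
  rw [hg]
  rw [hg] at k2
  linarith

end Pool.Agent.H88.EP
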