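/-
ROW TwO (MP_09540e_EP). The transport error I5 for fixed `h` (cell lemma): ou_h, cellN (gdel_f, gdel_g are row TwN: import them). Aux lemmas prefixed TwO_. PROOF. f = fh h v, y = rsq / 2, φ x = ph L a (x 2 + h/2), 0 < θ ≤ 1/2, |h| ≤ 1. For 0 < δ ≤ 1 put `gd δ x = (y + δ)^(θ/2) * c2 x ^ 2 * √(φ x) * f x` (smooth: y + δ > 0, φ > 0 smooth, c2 smooth, f smooth), zero for rsq x ≥ 1/8,
`gd² = (y+δ)^θ c2⁴ φ f²`. DB 1: gd and pd i gd are bounded and square integrable: |.| ≤ B √φ on {rsq ≤ 1/8}, zero elsewhere (φ ≤ 3 ph(x 2), ph_cyl of TwI).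
gsq (product of four factors) ≤ 4 ∑ (others)² gsq (factor): `gsq ((y+δ)^(θ/2)) = (θ²/4)(y+δ)^(θ-2) rsq ≤ (θ²/2)(y+δ)^(θ-1) ≤ (θ²/2) y^(θ-1)` (y > 0, θ < 1, rsq = 2y ≤ 2(y+δ)); `gsq (c2²) ≤ C ou` (c2² = F(rsq), derivative bounded, zero outside 1/16 ≤ rsq ≤ 1/8), there (y+δ)^θ ≤ 2; `gsq √φ = φ'²/(4φ) ≤ φ/4` (ph_deriv, L ≥ 1). So a.e.
  `gsq gd + gd² ≤ 4 (y+δ)^θ c2⁴ φ gsq f + 2 θ² kx (θ-1) f² + C ou φ f² + 2 (y+δ)^θ c2⁴ φ f²`.
cellN: S7 (H87/EP/I) for gd: `∫ |v₂| kx θ f² ≤ ∫ |v₂| gd² ≤ C √K ∫ (gsq gd + gd²)` (y^θ ≤ (y+δ)^θ). Let δ → 0 (δ = 1/n; dominated convergence: (y+δ)^θ ≤ 2 on rsq ≤ 1/8, → y^θ): `≤ C √K (4 ∫ G1 + 2 θ² ∫ G2 + C ∫ ou φ f² + 2 ∫ I6)`. `∫ ou φ f²`: f² ≤ h² sav h Z² (dif_sav, sav_sq), sh_sav (TwB) with c = ou: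
`≤ 3 h² ∫ ou ph Z² ≤ 48 h² ∫ ou ph rsq Z² ≤ 48 h² GG` (gv_Z, gv_int; ou ≤ indicator of {rsq < 1/2}). The shifted velocity: `∫ |v (sh2 h x) 2| kx θ f² dx = ∫ |v₂| (kx θ f²)(sh2 (-h) ·)` (sh2_mp; sh2 h (sh2 (-h) y) = y), apply S7 to `gd ∘ sh2 (-h)` (again DB 1, zero for rsq ≥ 1/2; gsq of the shift = shift of gsq, pd_sh; its integral is the same).
`|mid h (uz v) x| ≤ (|v (sh2 h x) 2| + |v x 2|)/2`. The hypotheses of S7 on v: continuity, `Integrable ‖v‖²`, bounded: from Vs (DB for the components; ‖v‖² = ∑ v_i²). Integrability of all terms: adm_I (TwV), Adm.int.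
-/
import Pool.Agent.H88.EP.TwB
import Pool.Agent.H88.EP.TwV
import Pool.Agent.H88.EP.TwS
import Pool.Agent.H88.EP.TwI
import Pool.Agent.H88.EP.TwN
import Pool.Agent.H87.EP.I

set_option autoImplicit false

open Set Filter Topology MeasureTheory
open scoped ContDiff

namespace Pool.Agent.H88.EP

open Pool.Agent.H16 Pool.Agent.H72.CC Pool.Agent.H87.EP
open Pool.Agent.H87.NS hiding c1
open Pool.Agent.H16.TU hiding Sl
open Pool.Agent.H94.EP

theorem TwO_co2 : Continuous (fun x : E3 => x 2) := by fun_prop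

theorem TwO_phc (L a h : ℝ) : Continuous (fun x : E3 => ph L a (x 2 + h / 2)) :=
  (ph_smooth L a).continuous.comp (TwO_co2.add continuous_const)

theorem TwO_oum : Measurable ou := by
  unfold ou
  exact measurable_const.indicator
    ((isClosed_le continuous_const TwV_rsq_cont).measurableSet.inter
      (isClosed_le TwV_rsq_cont continuous_const).measurableSet)

theorem TwO_ou0 (x : E3) : 0 ≤ ou x := Set.indicator_nonneg (fun _ _ => zero_le_one) x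

theorem TwO_vb {v : E3 → E3} (hv : Vs v) : ∃ M, ∀ x, ‖v x‖ ≤ M := by
  obtain ⟨B, hB⟩ := hv.db 0
  have hB0 : 0 ≤ B := (abs_nonneg _).trans ((hB 0).1 0)
  refine ⟨3 * B + 1, fun x => ?_⟩
  have h1 : ‖v x‖ ^ 2 = ∑ j : Fin 3, (v x j) ^ 2 := by
    rw [EuclideanSpace.norm_sq_eq]
    exact Finset.sum_congr rfl fun j _ => by rw [Real.norm_eq_abs, sq_abs]
  have h2 : ∀ j : Fin 3, (v x j) ^ 2 ≤ B ^ 2 := fun j => by
    have := (hB j).1 x
    rw [← sq_abs]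
    exact pow_le_pow_left₀ (abs_nonneg _) this 2
  have h3 : ‖v x‖ ^ 2 ≤ 3 * B ^ 2 := by
    rw [h1, Fin.sum_univ_three]
    linarith [h2 0, h2 1, h2 2]
  have h4 : ‖v x‖ ^ 2 ≤ (3 * B + 1) ^ 2 := by nlinarith
  exact (pow_le_pow_iff_left₀ (norm_nonneg _) (by linarith) two_ne_zero).1 h4

theorem ou_h {L : ℝ} (hL : 1 ≤ L) (a : ℝ) {v : E3 → E3} (hv : Vs v) {h : ℝ} (hh : |h| ≤ 1) :
    Integrable (fun x => ou x * ph L a (x 2 + h / 2) * fh h v x ^ 2) ∧ ∫ x, ou x * ph L a (x 2 + h / 2) * fh h v x ^ 2 ≤ 48 * h ^ 2 * GG L a v :=  by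
  have hri := vs_ri hv
  have hV := hri.1
  have hZ := hri.2.2.2.1
  have hF : Continuous (fun y => Zz v y ^ 2) := hZ.sm.continuous.pow 2
  have hF0 : ∀ y, 0 ≤ Zz v y ^ 2 := fun y => sq_nonneg _
  have hgi : Integrable (fun x => {x : E3 | rsq x < 1 / 2}.indicator (fun x => ph L a (x 2) * gv v x) x) :=
    (gv_int hv hL a).indicator (isOpen_lt TwV_rsq_cont continuous_const).measurableSet
  have hpt : ∀ x, ou x * ph L a (x 2) * Zz v x ^ 2 ≤
      16 * {x : E3 | rsq x < 1 / 2}.indicator (fun x => ph L a (x 2) * gv v x) x := by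
    intro x
    by_cases hx : 1 / 16 ≤ rsq x ∧ rsq x ≤ 1 / 8
    · have h1 : ou x = 1 := by
        unfold ou
        exact Set.indicator_of_mem (s := {x : E3 | 1 / 16 ≤ rsq x ∧ rsq x ≤ 1 / 8}) hx _
      have h2 : x ∈ {x : E3 | rsq x < 1 / 2} := by
        show rsq x < 1 / 2
        linarith [hx.2]
      rw [h1, Set.indicator_of_mem h2]
      have h3 := gv_Z hv x
      have h4 : Zz v x ^ 2 ≤ 16 * gv v x := by nlinarith [hx.1, sq_nonneg (Zz v x)]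
      have h5 := (ph_pos L a (x 2)).le
      have h6 := mul_le_mul_of_nonneg_left h4 h5
      linarith
    · have h1 : ou x = 0 := by
        unfold ou
        exact Set.indicator_of_notMem (s := {x : E3 | 1 / 16 ≤ rsq x ∧ rsq x ≤ 1 / 8}) hx _
      rw [h1, zero_mul, zero_mul]
      apply mul_nonneg (by norm_num)
      exact Set.indicator_nonneg (fun y _ => mul_nonneg (ph_pos L a _).le (gv_nn v y)) x
  have hnn : ∀ x, 0 ≤ ou x * ph L a (x 2) * Zz v x ^ 2 := fun x =>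
    mul_nonneg (mul_nonneg (TwO_ou0 x) (ph_pos L a _).le) (sq_nonneg _)
  have hm0 : Measurable (fun x => ou x * ph L a (x 2) * Zz v x ^ 2) :=
    (TwO_oum.mul ((ph_smooth L a).continuous.comp TwO_co2).measurable).mul hF.measurable
  have hi0 : Integrable (fun x => ou x * ph L a (x 2) * Zz v x ^ 2) := by
    refine (hgi.const_mul 16).mono' hm0.aestronglyMeasurable (Eventually.of_forall fun x => ?_)
    rw [Real.norm_of_nonneg (hnn x)]
    exact hpt x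
  have hle0 : ∫ x, ou x * ph L a (x 2) * Zz v x ^ 2 ≤ 16 * GG L a v := by
    have h1 := integral_mono hi0 (hgi.const_mul 16) hpt
    rw [integral_const_mul, integral_indicator (isOpen_lt TwV_rsq_cont continuous_const).measurableSet] at h1
    exact h1
  have hcs : ∀ t x, ou (sh2 t x) = ou x := by
    intro t x
    have h1 := (sh2_f t x).2.2.2.1
    unfold ou
    by_cases hx : 1 / 16 ≤ rsq x ∧ rsq x ≤ 1 / 8
    · rw [Set.indicator_of_mem (s := {x : E3 | 1 / 16 ≤ rsq x ∧ rsq x ≤ 1 / 8}) hx,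
        Set.indicator_of_mem (s := {x : E3 | 1 / 16 ≤ rsq x ∧ rsq x ≤ 1 / 8})]
      show 1 / 16 ≤ rsq (sh2 t x) ∧ rsq (sh2 t x) ≤ 1 / 8
      rw [h1]; exact hx
    · rw [Set.indicator_of_notMem (s := {x : E3 | 1 / 16 ≤ rsq x ∧ rsq x ≤ 1 / 8}) hx,
        Set.indicator_of_notMem (s := {x : E3 | 1 / 16 ≤ rsq x ∧ rsq x ≤ 1 / 8})]
      intro h2
      apply hx
      have h3 : 1 / 16 ≤ rsq (sh2 t x) ∧ rsq (sh2 t x) ≤ 1 / 8 := h2
      rw [h1] at h3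
      exact h3
  obtain ⟨hs1, hs2⟩ := sh_sav hL a TwO_oum TwO_ou0 hcs hF hF0 hi0 hh
  have hf : ∀ x, fh h v x ^ 2 ≤ h ^ 2 * sav h (fun y => Zz v y ^ 2) x := by
    intro x
    have h1 : fh h v x = h * sav h (Zz v) x := by
      rw [fh_dif]
      exact dif_sav (TwV_c1 hV.sm) h x
    rw [h1, mul_pow]
    exact mul_le_mul_of_nonneg_left (sav_sq hZ.sm.continuous h x) (sq_nonneg _)
  have hpt2 : ∀ x, ou x * ph L a (x 2 + h / 2) * fh h v x ^ 2 ≤
      h ^ 2 * (ou x * ph L a (x 2 + h / 2) * sav h (fun y => Zz v y ^ 2) x) := by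
    intro x
    have h1 := mul_le_mul_of_nonneg_left (hf x) (mul_nonneg (TwO_ou0 x) (ph_pos L a (x 2 + h / 2)).le)
    calc ou x * ph L a (x 2 + h / 2) * fh h v x ^ 2 ≤ ou x * ph L a (x 2 + h / 2) * (h ^ 2 * sav h (fun y => Zz v y ^ 2) x) := h1
      _ = _ := by ring
  have hnn2 : ∀ x, 0 ≤ ou x * ph L a (x 2 + h / 2) * fh h v x ^ 2 := fun x =>
    mul_nonneg (mul_nonneg (TwO_ou0 x) (ph_pos L a _).le) (sq_nonneg _)
  have hfc : Continuous (fh h v) := (sh_ri hV h).2.1.sm.continuous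
  have hi : Integrable (fun x => ou x * ph L a (x 2 + h / 2) * fh h v x ^ 2) := by
    refine (hs1.const_mul (h ^ 2)).mono' ?_ (Eventually.of_forall fun x => ?_)
    · exact ((TwO_oum.mul (TwO_phc L a h).measurable).mul (hfc.pow 2).measurable).aestronglyMeasurable
    · rw [Real.norm_of_nonneg (hnn2 x)]
      exact hpt2 x
  refine ⟨hi, ?_⟩
  have h1 := integral_mono hi (hs1.const_mul (h ^ 2)) hpt2
  rw [integral_const_mul] at h1
  have h2 : 3 * ∫ x, ou x * ph L a (x 2) * Zz v x ^ 2 ≤ 48 * GG L a v := by linarith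
  have h3 := mul_le_mul_of_nonneg_left (hs2.trans h2) (sq_nonneg h)
  calc ∫ x, ou x * ph L a (x 2 + h / 2) * fh h v x ^ 2 ≤ _ := h1
    _ ≤ h ^ 2 * (48 * GG L a v) := h3
    _ = 48 * h ^ 2 * GG L a v := by ring

/-- The two estimates for the regularised function. -/
theorem TwO_reg : ∃ C : ℝ, 1 ≤ C ∧ ∀ (K B : ℝ) (v : E3 → E3) (g : E3 → ℝ) (h : ℝ), Vs v →
    (∀ z, ∫ x in Metric.ball (axp z) 1, ‖v x‖ ^ 2 ≤ K) → ContDiff ℝ ∞ g → DB 1 B g → (∀ x, 1 / 8 ≤ rsq x → g x = 0) →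
    Integrable (fun x => g x ^ 2 * |mid h (uz v) x|) ∧
    ∫ x, g x ^ 2 * |mid h (uz v) x| ≤ C * √K * ∫ x, (gsq g x + g x ^ 2) := by
  obtain ⟨C, hC, hS⟩ := S7
  refine ⟨C, hC, ?_⟩
  intro K B v g h hv hK hg hB hz
  obtain ⟨hvc, hvi⟩ := F_vint hv
  have hvb := TwO_vb hv
  obtain ⟨a1, a2⟩ := hS K B v g hvc hvi hvb hK (TwV_c1 hg) hB (fun x hx => hz x (by linarith))
  -- the shifted function
  have hs : ContDiff ℝ ∞ (fun y => g (sh2 (-h) y)) :=
    hg.comp (sh2_sm.comp (contDiff_const.prodMk contDiff_id))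
  have hsz : ∀ x, 1 / 2 ≤ rsq x → g (sh2 (-h) x) = 0 := by
    intro x hx
    apply hz
    rw [(sh2_f (-h) x).2.2.2.1]
    linarith
  obtain ⟨b1, b2⟩ := hS K B v (fun y => g (sh2 (-h) y)) hvc hvi hvb hK (TwV_c1 hs)
    (TwA_shDB 1 B (-h) g hB) hsz
  have hinv : ∀ x, sh2 (-h) (sh2 h x) = x := by
    intro x
    unfold sh2
    rw [add_assoc, ← add_smul, add_neg_cancel, zero_smul, add_zero]
  have hmp := sh2_mp h
  have b1' : Integrable (fun x => |v (sh2 h x) 2| * g x ^ 2) := by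
    have h1 := hmp.integrable_comp_of_integrable b1
    refine h1.congr (Eventually.of_forall fun x => ?_)
    show |v (sh2 h x) 2| * g (sh2 (-h) (sh2 h x)) ^ 2 = |v (sh2 h x) 2| * g x ^ 2
    rw [hinv]
  have hint : ∀ F : E3 → ℝ, ∫ x, F (sh2 h x) = ∫ x, F x := by
    intro F
    unfold sh2
    exact integral_add_right_eq_self F (h • e 2)
  have hint2 : ∀ F : E3 → ℝ, ∫ x, F (sh2 (-h) x) = ∫ x, F x := by
    intro F
    unfold sh2
    exact integral_add_right_eq_self F (-h • e 2)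
  have b3 : ∫ x, |v (sh2 h x) 2| * g x ^ 2 = ∫ x, |v x 2| * g (sh2 (-h) x) ^ 2 := by
    rw [← hint (fun x => |v x 2| * g (sh2 (-h) x) ^ 2)]
    refine integral_congr_ae (Eventually.of_forall fun x => ?_)
    show |v (sh2 h x) 2| * g x ^ 2 = |v (sh2 h x) 2| * g (sh2 (-h) (sh2 h x)) ^ 2
    rw [hinv]
  have b4 : ∫ x, (gsq (fun y => g (sh2 (-h) y)) x + g (sh2 (-h) x) ^ 2) = ∫ x, (gsq g x + g x ^ 2) := by
    rw [← hint2 (fun x => gsq g x + g x ^ 2)]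
    refine integral_congr_ae (Eventually.of_forall fun x => ?_)
    show gsq (fun y => g (sh2 (-h) y)) x + g (sh2 (-h) x) ^ 2 = gsq g (sh2 (-h) x) + g (sh2 (-h) x) ^ 2
    rw [(pd_sh 0 g (-h) x).2.2]
  have b5 : ∫ x, |v (sh2 h x) 2| * g x ^ 2 ≤ C * √K * ∫ x, (gsq g x + g x ^ 2) := by
    rw [b3, ← b4]
    exact b2
  have hm : ∀ x, g x ^ 2 * |mid h (uz v) x| ≤ (1 / 2) * (|v (sh2 h x) 2| * g x ^ 2) + (1 / 2) * (|v x 2| * g x ^ 2) := by
    intro x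
    have h1 : |mid h (uz v) x| ≤ (|v (sh2 h x) 2| + |v x 2|) / 2 := by
      unfold mid uz
      rw [abs_div, abs_of_pos (by norm_num : (0:ℝ) < 2)]
      exact div_le_div_of_nonneg_right (abs_add_le _ _) (by norm_num)
    have h2 := mul_le_mul_of_nonneg_left h1 (sq_nonneg (g x))
    linarith
  have hbig : Integrable (fun x => (1 / 2) * (|v (sh2 h x) 2| * g x ^ 2) + (1 / 2) * (|v x 2| * g x ^ 2)) :=
    (b1'.const_mul _).add (a1.const_mul _)
  have hn : ∀ x, 0 ≤ g x ^ 2 * |mid h (uz v) x| := fun x => mul_nonneg (sq_nonneg _) (abs_nonneg _)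
  have huz : Continuous (uz v) := (vs_ri hv).2.2.2.2.sm.continuous
  have hmidc : Continuous (mid h (uz v)) := (sh_ri (vs_ri hv).2.2.2.2 h).2.2.1.sm.continuous
  have hI : Integrable (fun x => g x ^ 2 * |mid h (uz v) x|) := by
    refine hbig.mono' ((hg.continuous.pow 2).mul hmidc.abs).aestronglyMeasurable
      (Eventually.of_forall fun x => ?_)
    rw [Real.norm_of_nonneg (hn x)]
    exact hm x
  refine ⟨hI, (integral_mono hI hbig hm).trans ?_⟩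
  rw [integral_add (b1'.const_mul _) (a1.const_mul _), integral_const_mul, integral_const_mul]
  linarith

theorem TwO_add5 {f₁ f₂ f₃ f₄ f₅ : E3 → ℝ} (h₁ : Integrable f₁) (h₂ : Integrable f₂) (h₃ : Integrable f₃)
    (h₄ : Integrable f₄) (h₅ : Integrable f₅) (a b c d e : ℝ) :
    ∫ x, (a * f₁ x + b * f₂ x + c * f₃ x + d * f₄ x + e * f₅ x) =
      a * (∫ x, f₁ x) + b * (∫ x, f₂ x) + c * (∫ x, f₃ x) + d * (∫ x, f₄ x) + e * ∫ x, f₅ x := by
  have k2 : Integrable (fun x => a * f₁ x + b * f₂ x) := (h₁.const_mul a).add (h₂.const_mul b)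
  have k3 : Integrable (fun x => a * f₁ x + b * f₂ x + c * f₃ x) := k2.add (h₃.const_mul c)
  have k4 : Integrable (fun x => a * f₁ x + b * f₂ x + c * f₃ x + d * f₄ x) := k3.add (h₄.const_mul d)
  rw [integral_add k4 (h₅.const_mul e), integral_add k3 (h₄.const_mul d), integral_add k2 (h₃.const_mul c),
    integral_add (h₁.const_mul a) (h₂.const_mul b), integral_const_mul, integral_const_mul, integral_const_mul,
    integral_const_mul, integral_const_mul]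

theorem TwO_lim {A b c θ : ℝ} (hθ : 0 < θ) (h : ∀ δ : ℝ, 0 < δ → δ ≤ 1 → A ≤ b + c * δ ^ θ) : A ≤ b := by
  have h1 : Tendsto (fun δ : ℝ => b + c * δ ^ θ) (𝓝[>] 0) (𝓝 (b + c * 0 ^ θ)) := by
    have h2 : Continuous (fun δ : ℝ => b + c * δ ^ θ) :=
      continuous_const.add (continuous_const.mul (Real.continuous_rpow_const hθ.le))
    exact (h2.tendsto 0).mono_left nhdsWithin_le_nhds
  rw [Real.zero_rpow hθ.ne', mul_zero, add_zero] at h1
  refine ge_of_tendsto h1 ?_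
  have h3 : Ioc (0 : ℝ) 1 ∈ 𝓝[>] (0 : ℝ) := Ioc_mem_nhdsGT one_pos
  filter_upwards [h3] with δ hδ
  exact h δ hδ.1 hδ.2


theorem cellN : ∃ C : ℝ, 1 ≤ C ∧ ∀ (ε K κ θ L a h : ℝ) (v : E3 → E3), Sl ε K κ v → 0 < θ → θ ≤ 1 / 2 → 1 ≤ L → |h| ≤ 1 →
    ∫ x, I5 θ L a v h x ≤ C * √K * ((∫ x, G1 θ L a v h x) + θ ^ 2 * (∫ x, G2 θ L a v h x) + (∫ x, I6 θ L a v h x) + h ^ 2 * GG L a v) :=  by
  obtain ⟨C₁, hC₁, hreg⟩ := TwO_reg
  obtain ⟨C₂, hC₂, hgd⟩ := gdel_g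
  refine ⟨48 * C₁ * C₂, by nlinarith, ?_⟩
  intro ε K κ θ L a h v hS h0 h1 hL hh
  have hv := hS.vs
  have hV := (vs_ri hv).1
  have hfR : Ri (fh h v) := (sh_ri hV h).2.1
  obtain ⟨Bf, hBf⟩ := hfR.db 1
  have hgf : Integrable (gsq (fh h v)) := (gsq_int hBf).1
  have hf2 : Integrable (fun x => fh h v x ^ 2) := (DB_BL hBf).2.1
  obtain ⟨m1, m2, -, -, -, -, -, -, m6⟩ := adm_I h0 h1 hS.k1 hL a hv
  have i1 : Integrable (G1 θ L a v h) := (m1.int h0 h1 hL).1 h hh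
  have i2 : Integrable (G2 θ L a v h) := (m2.int h0 h1 hL).1 h hh
  have i6 : Integrable (I6 θ L a v h) := (m6.int h0 h1 hL).1 h hh
  obtain ⟨io, ho⟩ := ou_h hL a hv hh
  have hc2 := c2_f
  have hrs : ∀ x : E3, 0 ≤ rsq x := fun x => by unfold rsq; positivity
  have hphn : ∀ x : E3, 0 ≤ ph L a (x 2 + h / 2) := fun x => (ph_pos L a _).le
  have hphl : ∀ x : E3, ph L a (x 2 + h / 2) ≤ 1 := fun x => ph_le L a _
  have hc4 : ∀ x, 0 ≤ c2 x ^ 4 ∧ c2 x ^ 4 ≤ 1 := fun x =>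
    ⟨pow_nonneg (hc2.2.1 x).1 4, pow_le_one₀ (hc2.2.1 x).1 (hc2.2.1 x).2.1⟩
  have hw : ∀ x, 0 ≤ c2 x ^ 4 * ph L a (x 2 + h / 2) ∧ c2 x ^ 4 * ph L a (x 2 + h / 2) ≤ 1 := fun x =>
    ⟨mul_nonneg (hc4 x).1 (hphn x), mul_le_one₀ (hc4 x).2 (hphn x) (hphl x)⟩
  have hwc : Continuous (fun x => c2 x ^ 4 * ph L a (x 2 + h / 2)) :=
    (hc2.1.continuous.pow 4).mul (TwO_phc L a h)
  -- the error term
  have iM : Integrable (fun x => c2 x ^ 4 * ph L a (x 2 + h / 2) * (4 * gsq (fh h v) x + 2 * fh h v x ^ 2)) := by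
    have hb : Integrable (fun x => 4 * gsq (fh h v) x + 2 * fh h v x ^ 2) := (hgf.const_mul 4).add (hf2.const_mul 2)
    refine hb.mono' ?_ (Eventually.of_forall fun x => ?_)
    · exact hwc.aestronglyMeasurable.mul hb.aestronglyMeasurable
    · have hn : 0 ≤ 4 * gsq (fh h v) x + 2 * fh h v x ^ 2 := by
        have := gsq_nonneg (fh h v) x
        positivity
      rw [Real.norm_of_nonneg (mul_nonneg (hw x).1 hn)]
      exact mul_le_of_le_one_left hn (hw x).2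
  set M : ℝ := ∫ x, c2 x ^ 4 * ph L a (x 2 + h / 2) * (4 * gsq (fh h v) x + 2 * fh h v x ^ 2) with hM
  have nG1 : 0 ≤ ∫ x, G1 θ L a v h x := integral_nonneg fun x =>
    mul_nonneg (mul_nonneg (mul_nonneg (Real.rpow_nonneg (by have := hrs x; positivity) _) (hc4 x).1) (hphn x)) (gsq_nonneg _ x)
  have nG2 : 0 ≤ ∫ x, G2 θ L a v h x := integral_nonneg fun x =>
    mul_nonneg (mul_nonneg (mul_nonneg (Real.rpow_nonneg (by have := hrs x; positivity) _) (hc4 x).1) (hphn x)) (sq_nonneg _)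
  have nI6 : 0 ≤ ∫ x, I6 θ L a v h x := integral_nonneg fun x =>
    mul_nonneg (mul_nonneg (mul_nonneg (Real.rpow_nonneg (by have := hrs x; positivity) _) (hc4 x).1) (hphn x)) (sq_nonneg _)
  have nou : 0 ≤ ∫ x, ou x * ph L a (x 2 + h / 2) * fh h v x ^ 2 := integral_nonneg fun x =>
    mul_nonneg (mul_nonneg (TwO_ou0 x) (hphn x)) (sq_nonneg _)
  have hkey : ∀ δ : ℝ, 0 < δ → δ ≤ 1 → ∫ x, I5 θ L a v h x ≤ C₁ * √K * (4 * (∫ x, G1 θ L a v h x)
      + 2 * θ ^ 2 * (∫ x, G2 θ L a v h x) + C₂ * (∫ x, ou x * ph L a (x 2 + h / 2) * fh h v x ^ 2)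
      + 2 * (∫ x, I6 θ L a v h x)) + (C₁ * √K * M) * δ ^ θ := by
    intro δ hδ hδ1
    obtain ⟨g1, ⟨B, g2⟩, g3, g4⟩ := gdel_f h0 h1 hL a hv hδ hδ1 hh
    obtain ⟨r1, r2⟩ := hreg K B v (gdel θ L a δ v h) h hv hS.en g1 g2 g3
    have e1 : ∫ x, I5 θ L a v h x ≤ ∫ x, gdel θ L a δ v h x ^ 2 * |mid h (uz v) x| := by
      refine integral_mono_of_nonneg (Eventually.of_forall fun x => ?_) r1 (Eventually.of_forall fun x => ?_)
      · exact mul_nonneg (mul_nonneg (mul_nonneg (mul_nonneg (Real.rpow_nonneg (by have := hrs x; positivity) _) (hc4 x).1) (hphn x))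
          (sq_nonneg _)) (abs_nonneg _)
      · show kx θ L a h x * fh h v x ^ 2 * |mid h (uz v) x| ≤ gdel θ L a δ v h x ^ 2 * |mid h (uz v) x|
        refine mul_le_mul_of_nonneg_right ?_ (abs_nonneg _)
        rw [g4 x]
        unfold kx
        have h2 : (rsq x / 2) ^ θ ≤ (rsq x / 2 + δ) ^ θ :=
          Real.rpow_le_rpow (by have := hrs x; positivity) (by linarith) h0.le
        have h3 := mul_le_mul_of_nonneg_right h2 (mul_nonneg (hw x).1 (sq_nonneg (fh h v x)))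
        calc (rsq x / 2) ^ θ * c2 x ^ 4 * ph L a (x 2 + h / 2) * fh h v x ^ 2
            = (rsq x / 2) ^ θ * (c2 x ^ 4 * ph L a (x 2 + h / 2) * fh h v x ^ 2) := by ring
          _ ≤ (rsq x / 2 + δ) ^ θ * (c2 x ^ 4 * ph L a (x 2 + h / 2) * fh h v x ^ 2) := h3
          _ = _ := by ring
    have e2 : ∫ x, (gsq (gdel θ L a δ v h) x + gdel θ L a δ v h x ^ 2) ≤
        ∫ x, (4 * G1 θ L a v h x + 2 * θ ^ 2 * G2 θ L a v h x + C₂ * (ou x * ph L a (x 2 + h / 2) * fh h v x ^ 2)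
          + 2 * I6 θ L a v h x + δ ^ θ * (c2 x ^ 4 * ph L a (x 2 + h / 2) * (4 * gsq (fh h v) x + 2 * fh h v x ^ 2))) := by
      refine integral_mono_of_nonneg (Eventually.of_forall fun x => ?_) ?_ ?_
      · have := gsq_nonneg (gdel θ L a δ v h) x
        show 0 ≤ gsq (gdel θ L a δ v h) x + gdel θ L a δ v h x ^ 2
        positivity
      · exact ((((i1.const_mul 4).add (i2.const_mul (2 * θ ^ 2))).add (io.const_mul C₂)).add (i6.const_mul 2)).add (iM.const_mul (δ ^ θ))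
      · have hae : ∀ᵐ x : E3, 0 < rsq x := by
          have h5 := cy_null 0
          rw [ae_iff]
          refine measure_mono_null ?_ h5
          intro x hx
          have h6 : ¬ 0 < rsq x := hx
          show rsq x = 0
          exact le_antisymm (not_lt.1 h6) (hrs x)
        filter_upwards [hae] with x hx
        have h2 := hgd θ L a δ h v h0 h1 hL hv hδ hδ1 hh x hx
        have h3 := g4 x
        have h4 : (rsq x / 2 + δ) ^ θ ≤ (rsq x / 2) ^ θ + δ ^ θ :=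
          Real.rpow_add_le_add_rpow (by positivity) hδ.le h0.le (by linarith)
        have h5 : 0 ≤ c2 x ^ 4 * ph L a (x 2 + h / 2) * (4 * gsq (fh h v) x + 2 * fh h v x ^ 2) := by
          refine mul_nonneg (hw x).1 ?_
          have := gsq_nonneg (fh h v) x
          positivity
        have h6 := mul_le_mul_of_nonneg_right h4 h5
        have h7 : G1 θ L a v h x = (rsq x / 2) ^ θ * c2 x ^ 4 * ph L a (x 2 + h / 2) * gsq (fh h v) x := rfl
        have h8 : I6 θ L a v h x = (rsq x / 2) ^ θ * c2 x ^ 4 * ph L a (x 2 + h / 2) * fh h v x ^ 2 := rfl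
        rw [h3, h7, h8]
        nlinarith [h2, h6]
    have e3 : ∫ x, (4 * G1 θ L a v h x + 2 * θ ^ 2 * G2 θ L a v h x + C₂ * (ou x * ph L a (x 2 + h / 2) * fh h v x ^ 2)
          + 2 * I6 θ L a v h x + δ ^ θ * (c2 x ^ 4 * ph L a (x 2 + h / 2) * (4 * gsq (fh h v) x + 2 * fh h v x ^ 2))) =
        4 * (∫ x, G1 θ L a v h x) + 2 * θ ^ 2 * (∫ x, G2 θ L a v h x) + C₂ * (∫ x, ou x * ph L a (x 2 + h / 2) * fh h v x ^ 2)
          + 2 * (∫ x, I6 θ L a v h x) + δ ^ θ * M := by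
      exact TwO_add5 i1 i2 io i6 iM 4 (2 * θ ^ 2) C₂ 2 (δ ^ θ)
    have hCK : 0 ≤ C₁ * √K := mul_nonneg (by linarith) (Real.sqrt_nonneg _)
    have e4 := mul_le_mul_of_nonneg_left (e2.trans e3.le) hCK
    calc ∫ x, I5 θ L a v h x ≤ _ := e1
      _ ≤ _ := r2
      _ ≤ _ := e4
      _ = _ := by ring
  have hfin := TwO_lim h0 hkey
  refine hfin.trans ?_
  have hK0 : 0 ≤ √K := Real.sqrt_nonneg _
  have hGG : 0 ≤ h ^ 2 * GG L a v := by linarith
  have hC₂' : C₂ * (∫ x, ou x * ph L a (x 2 + h / 2) * fh h v x ^ 2) ≤ C₂ * (48 * h ^ 2 * GG L a v) :=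
    mul_le_mul_of_nonneg_left ho (by linarith)
  have hθ2 : 0 ≤ θ ^ 2 * (∫ x, G2 θ L a v h x) := mul_nonneg (sq_nonneg _) nG2
  have hsum : 4 * (∫ x, G1 θ L a v h x) + 2 * θ ^ 2 * (∫ x, G2 θ L a v h x)
      + C₂ * (∫ x, ou x * ph L a (x 2 + h / 2) * fh h v x ^ 2) + 2 * (∫ x, I6 θ L a v h x) ≤
      48 * C₂ * ((∫ x, G1 θ L a v h x) + θ ^ 2 * (∫ x, G2 θ L a v h x) + (∫ x, I6 θ L a v h x) + h ^ 2 * GG L a v) := by
    have q1 : (∫ x, G1 θ L a v h x) ≤ C₂ * (∫ x, G1 θ L a v h x) := le_mul_of_one_le_left nG1 hC₂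
    have q2 : θ ^ 2 * (∫ x, G2 θ L a v h x) ≤ C₂ * (θ ^ 2 * (∫ x, G2 θ L a v h x)) := le_mul_of_one_le_left hθ2 hC₂
    have q3 : (∫ x, I6 θ L a v h x) ≤ C₂ * (∫ x, I6 θ L a v h x) := le_mul_of_one_le_left nI6 hC₂
    nlinarith
  calc C₁ * √K * _ ≤ C₁ * √K * _ := mul_le_mul_of_nonneg_left hsum (mul_nonneg (by linarith) hK0)
    _ = _ := by ring


end Pool.Agent.H88.EP
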