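/-
ROW TwU (MP_09540e_EP). The two-point functional is controlled by the one-point functional and by its gain.
-/
import Pool.Agent.H88.EP.TwB
import Pool.Agent.H88.EP.TwV
import Pool.Agent.H88.EP.TwS

set_option autoImplicit false

open Set Filter Topology MeasureTheory
open scoped ContDiff

namespace Pool.Agent.H88.EP

open Pool.Agent.H16 Pool.Agent.H72.CC Pool.Agent.H87.EP
open Pool.Agent.H87.NS hiding c1
open Pool.Agent.H16.TU hiding Sl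
open Pool.Agent.H94.EP

theorem TwU_c1s (h : ℝ) (x : E3) : H94.EP.c1 (sh2 h x) = H94.EP.c1 x := by
  unfold H94.EP.c1
  rw [(sh2_f h x).2.2.2.1]

theorem TwU_c1c : Continuous (H94.EP.c1) := by
  unfold H94.EP.c1
  have h1 : Continuous (rsq : E3 → ℝ) := by
    unfold rsq
    fun_prop
  exact Real.smoothTransition.continuous.comp (by fun_prop)

/-- The bound for fixed `h`. -/
theorem TwU_h {θ L : ℝ} (h0 : 0 < θ) (h1 : θ ≤ 1 / 2) (hL : 1 ≤ L) (a : ℝ) {v : E3 → E3} (hv : Vs v) {h : ℝ} (hh : |h| ≤ 1) :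
    ∫ x, I6 θ L a v h x ≤ 3 * NJ L a v * h ^ 2 := by
  obtain ⟨rV, -, -, rZ, -⟩ := vs_ri hv
  obtain ⟨B, hB1, hB⟩ := vs_bd hv
  have hZc : Continuous (Zz v) := rZ.sm.continuous
  have hcm : Measurable (fun x : E3 => H94.EP.c1 x ^ 4) := (TwU_c1c.pow 4).measurable
  have hc0 : ∀ x : E3, 0 ≤ H94.EP.c1 x ^ 4 := fun x => by
    have := (c1_facts x).1
    positivity
  have hZ2 : Continuous (fun x => Zz v x ^ 2) := hZc.pow 2
  have hA : Integrable (fun x => A1 L a x * Zz v x ^ 2) := by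
    refine A1_int hL a hZ2 (B := B ^ 2) (fun x => ?_)
    have := (hB 0 x).1.2.2.1
    rw [abs_of_nonneg (sq_nonneg _), ← sq_abs (Zz v x)]
    exact pow_le_pow_left₀ (abs_nonneg _) this 2
  have hs := sh_sav hL a hcm hc0 (fun t x => by rw [TwU_c1s]) hZ2 (fun x => sq_nonneg _) hA hh
  obtain ⟨hs1, hs2⟩ := hs
  have hpt : ∀ x, I6 θ L a v h x ≤ h ^ 2 * (H94.EP.c1 x ^ 4 * ph L a (x 2 + h / 2) * sav h (fun y => Zz v y ^ 2) x) := by
    intro x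
    have e1 : fh h v x = h * sav h (Zz v) x := dif_sav (rV.sm.of_le (by simp)) h x
    have e2 := sav_sq hZc h x
    have e3 := ((k0_f θ).2.2.2.2.2.2.1 h0.le x).2
    have e4 := (k0_f θ).2.1 x
    have e5 := (ph_pos L a (x 2 + h / 2)).le
    unfold I6
    rw [kx_k0, e1, mul_pow]
    calc k0 θ x * ph L a (x 2 + h / 2) * (h ^ 2 * sav h (Zz v) x ^ 2)
        ≤ H94.EP.c1 x ^ 4 * ph L a (x 2 + h / 2) * (h ^ 2 * sav h (fun y => Zz v y ^ 2) x) := by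
          apply mul_le_mul (mul_le_mul_of_nonneg_right e3 e5) (mul_le_mul_of_nonneg_left e2 (sq_nonneg h)) (by positivity)
          exact mul_nonneg (hc0 x) e5
      _ = _ := by ring
  have hnn : ∀ x, 0 ≤ I6 θ L a v h x := fun x => by
    unfold I6
    exact mul_nonneg ((kx_f hL θ a).2.1 h x) (sq_nonneg _)
  calc ∫ x, I6 θ L a v h x ≤ ∫ x, h ^ 2 * (H94.EP.c1 x ^ 4 * ph L a (x 2 + h / 2) * sav h (fun y => Zz v y ^ 2) x) :=
        integral_mono_of_nonneg (ae_of_all _ hnn) (hs1.const_mul _) (ae_of_all _ hpt)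
    _ = h ^ 2 * ∫ x, H94.EP.c1 x ^ 4 * ph L a (x 2 + h / 2) * sav h (fun y => Zz v y ^ 2) x := integral_const_mul _ _
    _ ≤ h ^ 2 * (3 * NJ L a v) := mul_le_mul_of_nonneg_left hs2 (sq_nonneg h)
    _ = _ := by ring

theorem p1n : ∃ C : ℝ, 1 ≤ C ∧ ∀ (κ L a : ℝ) (v : E3 → E3), Vs v → 1 ≤ κ → 1 ≤ L →
    BB (1 / Sc κ) L a v ≤ C * NJ L a v := by
  refine ⟨6, by norm_num, fun κ L a v hv hκ hL => ?_⟩
  obtain ⟨s1, s2, s3, -⟩ := Sc_f hκ
  have hθ : 1 / Sc κ ≤ 1 / 2 := by linarith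
  obtain ⟨n1, -⟩ := nn_f (θ := 1 / Sc κ) hL s2 hθ a hv
  obtain ⟨-, -, -, -, -, -, -, -, a6⟩ := adm_I (κ := κ) s2 hθ hκ hL a hv
  have := Th_le a6 s2 hθ hL (M := 3 * NJ L a v) (by positivity) (fun h hh => TwU_h s2 hθ hL a hv hh)
  rw [(Th_f (1 / Sc κ) L a v).2.2]
  linarith

theorem bb_gb {κ L : ℝ} (hκ : 1 ≤ κ) (hL : 1 ≤ L) (a : ℝ) {v : E3 → E3} (hv : Vs v) :
    BB (1 / Sc κ) L a v ≤ Sc κ / 8 * GB (1 / Sc κ) L a v := by
  obtain ⟨s1, s2, s3, -⟩ := Sc_f hκ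
  have hθ : 1 / Sc κ ≤ 1 / 2 := by linarith
  obtain ⟨-, a2, -, -, -, -, -, -, a6⟩ := adm_I (κ := κ) s2 hθ hκ hL a hv
  have e := (Th_f (1 / Sc κ) L a v)
  rw [e.2.2, e.2.1]
  have h1 := Th_mono a6 (a2.lin a2 (1 / 16) 0) s2 hθ hL (fun h _ x _ => by
    unfold I6 G2
    have e1 := (k0_f (1 / Sc κ)).2.2.2.2.2.2.2 s2 x
    have e2 := (ph_pos L a (x 2 + h / 2)).le
    rw [kx_k0, kx_k0]
    have e3 := mul_le_mul_of_nonneg_right (mul_le_mul_of_nonneg_right e1 e2) (sq_nonneg (fh h v x))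
    linarith)
  rw [Th_lin a2 a2 s2 hθ hL] at h1
  have hg2 : 0 ≤ Th (1 / Sc κ) (G2 (1 / Sc κ) L a v) := by
    refine Th_nn s2 hθ (fun h x => ?_)
    unfold G2
    exact mul_nonneg ((kx_f hL _ a).2.1 h x) (sq_nonneg _)
  have hS : 0 < Sc κ := by linarith
  have e4 : Sc κ / 8 * (1 / Sc κ * (1 - 1 / Sc κ) * Th (1 / Sc κ) (G2 (1 / Sc κ) L a v)) =
      1 / 8 * ((1 - 1 / Sc κ) * Th (1 / Sc κ) (G2 (1 / Sc κ) L a v)) := by
    field_simp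
  rw [e4]
  have e5 : 1 / 2 * Th (1 / Sc κ) (G2 (1 / Sc κ) L a v) ≤ (1 - 1 / Sc κ) * Th (1 / Sc κ) (G2 (1 / Sc κ) L a v) :=
    mul_le_mul_of_nonneg_right (by linarith) hg2
  linarith

end Pool.Agent.H88.EP
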