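/-
ROW TwT (MP_09540e_EP). The transport error I5.
-/
import Pool.Agent.H88.EP.TwO
import Pool.Agent.H88.EP.TwU

set_option autoImplicit false

open Set Filter Topology MeasureTheory
open scoped ContDiff

namespace Pool.Agent.H88.EP

open Pool.Agent.H16 Pool.Agent.H72.CC Pool.Agent.H87.EP
open Pool.Agent.H87.NS hiding c1
open Pool.Agent.H16.TU hiding Sl
open Pool.Agent.H94.EP

theorem q5 : ∃ C : ℝ, 1 ≤ C ∧ ∀ (ε K κ L a : ℝ) (v : E3 → E3), Sl ε K κ v → 1 ≤ L →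
    Th (1 / Sc κ) (I5 (1 / Sc κ) L a v) ≤ C * √K * (DB2 (1 / Sc κ) L a v + GB (1 / Sc κ) L a v + NJ L a v + GG L a v) := by
  obtain ⟨C, hC1, hC⟩ := cellN
  obtain ⟨C9, h9, H6⟩ := p1n
  refine ⟨C * (C9 + 2), by nlinarith, ?_⟩
  intro ε K κ L a v hv hL
  obtain ⟨s1, s2, s3, -⟩ := Sc_f hv.k1
  have hθ : 1 / Sc κ ≤ 1 / 2 := by linarith
  set θ := 1 / Sc κ with hθd
  obtain ⟨n1, n2, n3, n4, n5, n6, n7, n8⟩ := nn_f (θ := θ) hL s2 hθ a hv.vs
  obtain ⟨a1, a2, -, -, -, -, -, a5, a6⟩ := adm_I (κ := κ) s2 hθ hv.k1 hL a hv.vs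
  have i1 := (a1.int s2 hθ hL).2.2
  have i2 := (a2.int s2 hθ hL).2.2
  have i5 := (a5.int s2 hθ hL).2.2
  have i6 := (a6.int s2 hθ hL).2.2
  obtain ⟨k1, k2, k3, -, -, -, k7, k8⟩ := kh_f s2 hθ
  have hK : 0 ≤ √K := Real.sqrt_nonneg K
  have hpt : ∀ h, kh θ h * ∫ x, I5 θ L a v h x ≤ C * √K * ((kh θ h * ∫ x, G1 θ L a v h x) + θ ^ 2 * (kh θ h * ∫ x, G2 θ L a v h x) +
      (kh θ h * ∫ x, I6 θ L a v h x) + kh θ h * h ^ 2 * GG L a v) := by
    intro h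
    by_cases hh : |h| ≤ 1
    · have := mul_le_mul_of_nonneg_left (hC ε K κ θ L a h v hv s2 hθ hL hh) (k1 h).1
      refine this.trans (le_of_eq ?_)
      ring
    · rw [k3 h (not_le.1 hh)]
      simp
  have hI : Integrable (fun h => C * √K * ((kh θ h * ∫ x, G1 θ L a v h x) + θ ^ 2 * (kh θ h * ∫ x, G2 θ L a v h x) +
      (kh θ h * ∫ x, I6 θ L a v h x) + kh θ h * h ^ 2 * GG L a v)) :=
    ((((i1.add (i2.const_mul (θ ^ 2))).add i6).add (k7.mul_const (GG L a v))).const_mul _)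
  have h1 : Th θ (I5 θ L a v) ≤ C * √K * (Th θ (G1 θ L a v) + θ ^ 2 * Th θ (G2 θ L a v) + Th θ (I6 θ L a v) + (∫ h, kh θ h * h ^ 2) * GG L a v) := by
    have e : ∫ h, C * √K * ((kh θ h * ∫ x, G1 θ L a v h x) + θ ^ 2 * (kh θ h * ∫ x, G2 θ L a v h x) +
      (kh θ h * ∫ x, I6 θ L a v h x) + kh θ h * h ^ 2 * GG L a v) =
        C * √K * (Th θ (G1 θ L a v) + θ ^ 2 * Th θ (G2 θ L a v) + Th θ (I6 θ L a v) + (∫ h, kh θ h * h ^ 2) * GG L a v) := by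
      have j1 : Integrable (fun h => (kh θ h * ∫ x, G1 θ L a v h x) + θ ^ 2 * (kh θ h * ∫ x, G2 θ L a v h x)) := i1.add (i2.const_mul (θ ^ 2))
      have j2 : Integrable (fun h => (kh θ h * ∫ x, G1 θ L a v h x) + θ ^ 2 * (kh θ h * ∫ x, G2 θ L a v h x) + kh θ h * ∫ x, I6 θ L a v h x) := j1.add i6
      rw [integral_const_mul, integral_add j2 (k7.mul_const (GG L a v)),
        integral_add j1 i6, integral_add i1 (i2.const_mul (θ ^ 2)), integral_const_mul, integral_mul_const]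
      rfl
    rw [← e]
    exact integral_mono i5 hI hpt
  obtain ⟨f1, f2, f3⟩ := Th_f θ L a v
  have hg2 : 0 ≤ Th θ (G2 θ L a v) := by
    refine Th_nn s2 hθ (fun h x => ?_)
    unfold G2
    exact mul_nonneg ((kx_f hL _ a).2.1 h x) (sq_nonneg _)
  have h2 : θ ^ 2 * Th θ (G2 θ L a v) ≤ GB θ L a v := by
    rw [f2, pow_two]
    apply mul_le_mul_of_nonneg_right _ hg2
    exact mul_le_mul_of_nonneg_left (by linarith) s2.le
  have h3 : Th θ (I6 θ L a v) ≤ C9 * NJ L a v := H6 κ L a v hv.vs hv.k1 hL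
  have h4 : (∫ h, kh θ h * h ^ 2) * GG L a v ≤ 2 * GG L a v := mul_le_mul_of_nonneg_right k8 n5
  rw [← f1] at h1
  have h5 : DB2 θ L a v + θ ^ 2 * Th θ (G2 θ L a v) + Th θ (I6 θ L a v) + (∫ h, kh θ h * h ^ 2) * GG L a v ≤
      (C9 + 2) * (DB2 θ L a v + GB θ L a v + NJ L a v + GG L a v) := by
    have e1 : (C9 + 2) * (DB2 θ L a v + GB θ L a v + NJ L a v + GG L a v) = (DB2 θ L a v + GB θ L a v + C9 * NJ L a v + 2 * GG L a v) +
      ((C9 + 1) * (DB2 θ L a v + GB θ L a v) + 2 * NJ L a v + C9 * GG L a v) := by ring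
    have e2 : 0 ≤ (C9 + 1) * (DB2 θ L a v + GB θ L a v) + 2 * NJ L a v + C9 * GG L a v := by positivity
    linarith
  calc Th θ (I5 θ L a v) ≤ _ := h1
    _ ≤ C * √K * ((C9 + 2) * (DB2 θ L a v + GB θ L a v + NJ L a v + GG L a v)) := mul_le_mul_of_nonneg_left h5 (by positivity)
    _ = _ := by ring

end Pool.Agent.H88.EP
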