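import Pool.Agent.H88.EP.TwM

/-! The pointwise bound of the integrand. Auxiliary lemmas are prefixed `TwP_`. -/

set_option autoImplicit false

open Set Filter Topology MeasureTheory
open scoped ContDiff

namespace Pool.Agent.H88.EP

open Pool.Agent.H16 Pool.Agent.H72.CC Pool.Agent.H87.EP
open Pool.Agent.H87.NS hiding c1
open Pool.Agent.H16.TU hiding Sl
open Pool.Agent.H94.EP

theorem TwP_rad_nn (x : E3) : 0 ≤ rad x := by
  unfold rad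
  exact Real.sqrt_nonneg _

theorem TwP_be {κ : ℝ} (hκ : 1 ≤ κ) (x : E3) : 0 ≤ be κ x ∧ be κ x ≤ 1 := by
  unfold be
  refine ⟨le_min zero_le_one (mul_nonneg (by linarith) (TwP_rad_nn x)), min_le_left _ _⟩

theorem TwP_V {ε K κ : ℝ} {v : E3 → E3} (hv : Sl ε K κ v) {x : E3} (hx : 0 < rsq x) (h1 : rad x < 1) :
    |sV v x| ≤ ε * be κ x / rsq x := by
  have h2 := hv.gam x h1
  rw [circ_eq hv.vs.ax, abs_mul, abs_of_pos hx] at h2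
  rw [le_div_iff₀ hx]
  unfold be
  linarith

theorem V_bd {ε K κ : ℝ} {v : E3 → E3} (hv : Sl ε K κ v) (h : ℝ) {x : E3} (hx : 0 < rsq x) (h1 : rad x < 1) :
    |sV v x| ≤ ε * be κ x / rsq x ∧ |mid h (sV v) x| ≤ ε * be κ x / rsq x ∧ |fh h v x| ≤ 2 * (ε * be κ x / rsq x) ∧ 0 ≤ be κ x ∧ be κ x ≤ 1 := by
  obtain ⟨-, -, -, s4, s5, -⟩ := sh2_f h x
  have h2 := TwP_V hv hx h1
  have h3 : |sV v (sh2 h x)| ≤ ε * be κ x / rsq x := by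
    have h4 := TwP_V hv (x := sh2 h x) (by rw [s4]; exact hx) (by rw [s5]; exact h1)
    unfold be at h4 ⊢
    rw [s4, s5] at h4
    exact h4
  refine ⟨h2, ?_, ?_, TwP_be hv.k1 x⟩
  · unfold mid
    rw [abs_div, abs_of_pos (by norm_num : (0 : ℝ) < 2)]
    have := abs_add_le (sV v (sh2 h x)) (sV v x)
    linarith
  · unfold fh
    have := abs_sub (sV v (sh2 h x)) (sV v x)
    linarith

/-- the weighted inequality of the means -/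
theorem TwP_am {θ : ℝ} (h : 0 < θ) (c x y : ℝ) : c * x * y ≤ θ / 64 * x ^ 2 + 16 * c ^ 2 / θ * y ^ 2 := by
  have h1 : 0 ≤ (θ * x / 8 - 4 * c * y) ^ 2 / θ := by positivity
  have h2 : (θ * x / 8 - 4 * c * y) ^ 2 / θ = θ / 64 * x ^ 2 + 16 * c ^ 2 / θ * y ^ 2 - c * x * y := by
    field_simp
    ring
  linarith

section Num

variable {q K1 f β ε θ : ℝ}

theorem TwP_t1 {T : ℝ} (hK : 0 ≤ K1) (hq : 0 < q) (hθ : 0 < θ) (hθ1 : θ ≤ 1 / 2) (hqf : q / 2 * |f| ≤ ε * β) :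
    -((3 - θ) * (q / 2 * K1) * f ^ 2 * T) ≤ θ / 64 * (K1 * f ^ 2) + 144 * (ε ^ 2 / θ) * (K1 * β ^ 2 * T ^ 2) := by
  have b1 : 0 ≤ (q / 2 * K1) * f ^ 2 := by positivity
  have b2 : -((3 - θ) * T) ≤ 3 * |T| := by
    have b3 := neg_abs_le T
    have b4 := abs_nonneg T
    nlinarith
  have a1 : -((3 - θ) * (q / 2 * K1) * f ^ 2 * T) ≤ (q / 2 * K1) * f ^ 2 * (3 * |T|) := by
    have b5 := mul_le_mul_of_nonneg_left b2 b1
    refine le_trans (le_of_eq ?_) b5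
    ring
  have a2 : (q / 2 * K1) * f ^ 2 * (3 * |T|) ≤ K1 * (3 * |f| * (ε * β * |T|)) := by
    have b3 : 0 ≤ K1 * |f| * |T| * 3 := by positivity
    have b4 := mul_le_mul_of_nonneg_left hqf b3
    rw [← sq_abs f]
    refine (le_of_eq ?_).trans (b4.trans (le_of_eq ?_))
    · ring
    · ring
  have a4 := mul_le_mul_of_nonneg_left (TwP_am hθ 3 |f| (ε * β * |T|)) hK
  refine a1.trans (a2.trans (a4.trans (le_of_eq ?_)))
  rw [mul_pow, mul_pow, sq_abs, sq_abs]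
  ring

theorem TwP_ab (a b c : ℝ) : a * (b * c) ≤ |a| * (|b| * |c|) := by
  rw [← abs_mul, ← abs_mul]
  exact le_abs_self _

theorem TwP_t2 {Vb Wd : ℝ} (hK : 0 ≤ K1) (hq : 0 < q) (hθ : 0 < θ) (hqV : q * |Vb| ≤ ε * β) :
    Vb * (2 * θ * (q / 2 * K1) * f * Wd) ≤ θ / 64 * (K1 * f ^ 2) + 16 * θ * ε ^ 2 * (K1 * β ^ 2 * Wd ^ 2) := by
  have a1 := mul_le_mul_of_nonneg_left (TwP_ab Vb f Wd) (by positivity : 0 ≤ θ * K1 * q)
  have a2 := mul_le_mul_of_nonneg_left hqV (by positivity : 0 ≤ θ * K1 * (|f| * |Wd|))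
  have a4 := mul_le_mul_of_nonneg_left (TwP_am zero_lt_one 1 |f| (ε * β * |Wd|)) (by positivity : 0 ≤ θ * K1)
  have a5 : θ * K1 * (1 / 64 * |f| ^ 2 + 16 * 1 ^ 2 / 1 * (ε * β * |Wd|) ^ 2) =
      θ / 64 * (K1 * f ^ 2) + 16 * θ * ε ^ 2 * (K1 * β ^ 2 * Wd ^ 2) := by
    rw [mul_pow, mul_pow, sq_abs, sq_abs]
    ring
  rw [← a5]
  refine le_trans (le_of_eq ?_) (a1.trans (le_trans (le_of_eq ?_) (a2.trans (le_trans (le_of_eq ?_) a4))))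
  · ring
  · ring
  · ring

theorem TwP_t3 {Vb Wd rf g : ℝ} (hK : 0 ≤ K1) (hq : 0 < q) (hqV : q * |Vb| ≤ ε * β) (hr : rf ^ 2 ≤ q * g) :
    Vb * (q / 2 * K1 * rf * Wd) ≤ 1 / 64 * (q / 2 * K1 * g) + 8 * ε ^ 2 * (K1 * β ^ 2 * Wd ^ 2) := by
  have a1 := TwP_am zero_lt_one 1 rf (q * Vb * Wd)
  have a2 : (q * Vb * Wd) ^ 2 ≤ (ε * β) ^ 2 * Wd ^ 2 := by
    have b1 : (q * |Vb|) ^ 2 ≤ (ε * β) ^ 2 := pow_le_pow_left₀ (by positivity) hqV 2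
    rw [mul_pow, sq_abs] at b1
    rw [mul_pow, mul_pow]
    exact mul_le_mul_of_nonneg_right b1 (sq_nonneg _)
  have a3 : rf * (q * Vb * Wd) ≤ 1 / 64 * (q * g) + 16 * ((ε * β) ^ 2 * Wd ^ 2) := by linarith
  have a4 := mul_le_mul_of_nonneg_left a3 (by positivity : 0 ≤ K1 / 2)
  refine le_trans (le_of_eq ?_) (a4.trans (le_of_eq ?_))
  · ring
  · ring

theorem TwP_t4 {Vb Rd : ℝ} (hK : 0 ≤ K1) (hq : 0 < q) (hθ : 0 < θ) (he : 0 < ε) (hb1 : β ≤ 1) (hqV : q * |Vb| ≤ ε * β) :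
    Vb * (q / 2 * K1 * f * Rd) ≤ θ / 64 * (K1 * f ^ 2) + 4 * (ε ^ 2 / θ) * (K1 * Rd ^ 2) := by
  have b2 : q * |Vb| ≤ ε := hqV.trans (by nlinarith)
  have a1 := mul_le_mul_of_nonneg_left (TwP_ab Vb f Rd) (by positivity : 0 ≤ K1 / 2 * q)
  have a2 := mul_le_mul_of_nonneg_left b2 (by positivity : 0 ≤ K1 / 2 * (|f| * |Rd|))
  have a4 := mul_le_mul_of_nonneg_left (TwP_am hθ (1 / 2) |f| (ε * |Rd|)) hK
  have a5 : K1 * (θ / 64 * |f| ^ 2 + 16 * (1 / 2) ^ 2 / θ * (ε * |Rd|) ^ 2) =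
      θ / 64 * (K1 * f ^ 2) + 4 * (ε ^ 2 / θ) * (K1 * Rd ^ 2) := by
    rw [mul_pow, sq_abs, sq_abs]
    ring
  rw [← a5]
  refine le_trans (le_of_eq ?_) (a1.trans (le_trans (le_of_eq ?_) (a2.trans (le_trans (le_of_eq ?_) a4))))
  · ring
  · ring
  · ring

theorem TwP_t5 {Rs Rb : ℝ} (hK : 0 ≤ K1) (hq : 0 < q) (hθ : 0 < θ) (hθ1 : θ ≤ 1 / 2) :
    1 / 2 * (q / 2 * K1) * f ^ 2 * ((3 - θ) * Rs - Rb) ≤ 3 / 2 * (q / 2 * K1 * f ^ 2 * (|Rb| + |Rs|)) := by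
  have b1 : 0 ≤ 1 / 2 * (q / 2 * K1) * f ^ 2 := by positivity
  have b2 : (3 - θ) * Rs - Rb ≤ 3 * (|Rb| + |Rs|) := by
    have c1 := le_abs_self Rs
    have c2 := neg_abs_le Rb
    have c3 := abs_nonneg Rs
    have c4 := abs_nonneg Rb
    nlinarith
  refine (mul_le_mul_of_nonneg_left b2 b1).trans (le_of_eq ?_)
  ring

theorem TwP_t6 {kc Wb o C2 : ℝ} (hkc : |kc| ≤ C2 * o) :
    1 / 2 * kc * f ^ 2 * Wb ≤ 1 / 2 * (C2 * (o * (f ^ 2 * |Wb|))) := by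
  have b1 : kc * Wb ≤ C2 * o * |Wb| := by
    calc kc * Wb ≤ |kc * Wb| := le_abs_self _
      _ = |kc| * |Wb| := abs_mul _ _
      _ ≤ C2 * o * |Wb| := mul_le_mul_of_nonneg_right hkc (abs_nonneg _)
  have b3 := mul_le_mul_of_nonneg_left b1 (by positivity : 0 ≤ 1 / 2 * f ^ 2)
  refine le_trans (le_of_eq ?_) (b3.trans (le_of_eq ?_))
  · ring
  · ring

theorem TwP_t7 {Vb kc Wd o C2 : ℝ} (ho : 0 ≤ o) (hC2 : 0 ≤ C2) (hkc : |kc| ≤ C2 * o) (b0 : |Vb| * o ≤ 16 * o) :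
    Vb * (kc * f * Wd) ≤ 8 * (C2 * (o * f ^ 2)) + 8 * (C2 * (o * Wd ^ 2)) := by
  have b1 : Vb * (kc * f * Wd) ≤ |Vb| * (|kc| * |f| * |Wd|) := by
    rw [← abs_mul, ← abs_mul, ← abs_mul]
    exact le_abs_self _
  have c2 := mul_le_mul_of_nonneg_left hkc (by positivity : 0 ≤ |Vb| * |f| * |Wd|)
  have c3 := mul_le_mul_of_nonneg_left b0 (by positivity : 0 ≤ C2 * (|f| * |Wd|))
  have b4 : |f| * |Wd| ≤ (f ^ 2 + Wd ^ 2) / 2 := by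
    have c1 := sq_nonneg (|f| - |Wd|)
    have c2 := sq_abs f
    have c3 := sq_abs Wd
    nlinarith
  have b5 := mul_le_mul_of_nonneg_left b4 (by positivity : 0 ≤ 16 * C2 * o)
  refine b1.trans (le_trans (le_of_eq ?_) (c2.trans (le_trans (le_of_eq ?_) (c3.trans (le_trans (le_of_eq ?_)
    (b5.trans (le_of_eq ?_)))))))
  · ring
  · ring
  · ring
  · ring

theorem TwP_t8 {p2 ub L : ℝ} (hL : 1 ≤ L) (hp : |p2| ≤ q / 2 * K1 / L) :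
    1 / 2 * p2 * f ^ 2 * ub ≤ 1 / (2 * L) * (q / 2 * K1 * f ^ 2 * |ub|) := by
  have b1 : p2 * ub ≤ q / 2 * K1 / L * |ub| := by
    calc p2 * ub ≤ |p2 * ub| := le_abs_self _
      _ = |p2| * |ub| := abs_mul _ _
      _ ≤ q / 2 * K1 / L * |ub| := mul_le_mul_of_nonneg_right hp (abs_nonneg _)
  have b2 := mul_le_mul_of_nonneg_left b1 (by positivity : 0 ≤ 1 / 2 * f ^ 2)
  have hL0 : L ≠ 0 := by linarith
  refine le_trans (le_of_eq ?_) (b2.trans (le_of_eq ?_))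
  · ring
  · field_simp

theorem TwP_t9 {La o C1 L : ℝ} (hL : 1 ≤ L)
    (hLa : |La - 2 * θ * (θ - 1) * K1| ≤ C1 * o + 10 * (q / 2 * K1) / L ^ 2) :
    1 / 2 * f ^ 2 * La ≤ -(θ * (1 - θ)) * (K1 * f ^ 2) + 1 / 2 * (C1 * (o * f ^ 2)) + 5 / L ^ 2 * (q / 2 * K1 * f ^ 2) := by
  have b1 : La ≤ 2 * θ * (θ - 1) * K1 + (C1 * o + 10 * (q / 2 * K1) / L ^ 2) := by
    have := (abs_le.1 hLa).2
    linarith
  have b2 := mul_le_mul_of_nonneg_left b1 (by positivity : 0 ≤ 1 / 2 * f ^ 2)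
  have hL0 : L ≠ 0 := by linarith
  refine b2.trans (le_of_eq ?_)
  field_simp
  ring

end Num

/-- the numerical part -/
theorem TwP_alg {q K1 g f T Wd Rd Vb Rb Rs Wb ub rf β ε θ L o kc p2 La C1 C2 : ℝ} (hq : 0 < q) (hK : 0 ≤ K1)
    (hb : 0 ≤ β) (hb1 : β ≤ 1) (he : 0 < ε) (he1 : ε ≤ 1) (hθ : 0 < θ) (hθ1 : θ ≤ 1 / 2) (hL : 1 ≤ L)
    (ho : 0 ≤ o) (hC1 : 1 ≤ C1) (hC2 : 1 ≤ C2) (hV : |Vb| ≤ ε * β / q) (hf : |f| ≤ 2 * (ε * β / q))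
    (hr : rf ^ 2 ≤ q * g) (hkc : |kc| ≤ C2 * o) (hoq : o = 0 ∨ 1 / 16 ≤ q) (hp : |p2| ≤ q / 2 * K1 / L)
    (hLa : |La - 2 * θ * (θ - 1) * K1| ≤ C1 * o + 10 * (q / 2 * K1) / L ^ 2) :
    -(q / 2 * K1 * g) + 1 / 2 * f ^ 2 * La - (3 - θ) * (q / 2 * K1) * f ^ 2 * T + 1 / 2 * kc * f ^ 2 * Wb
      + 1 / 2 * p2 * f ^ 2 * ub + 1 / 2 * (q / 2 * K1) * f ^ 2 * ((3 - θ) * Rs - Rb)
      + Vb * ((2 * θ * (q / 2 * K1) + kc) * f * Wd + q / 2 * K1 * rf * Wd + q / 2 * K1 * f * Rd) ≤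
    -(63 / 64) * (q / 2 * K1 * g) - (θ * (1 - θ) - 3 * θ / 64) * (K1 * f ^ 2) + 144 * (ε ^ 2 / θ) * (K1 * β ^ 2 * T ^ 2)
      + (16 * θ + 8) * ε ^ 2 * (K1 * β ^ 2 * Wd ^ 2) + 4 * (ε ^ 2 / θ) * (K1 * Rd ^ 2)
      + 3 / 2 * (q / 2 * K1 * f ^ 2 * (|Rb| + |Rs|)) + (C1 + 8 * C2) * (o * (f ^ 2 * (1 + |Wb|) + Wd ^ 2))
      + 1 / (2 * L) * (q / 2 * K1 * f ^ 2 * |ub|) + 5 / L ^ 2 * (q / 2 * K1 * f ^ 2) := by
  have hqf : q / 2 * |f| ≤ ε * β := by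
    calc q / 2 * |f| ≤ q / 2 * (2 * (ε * β / q)) := mul_le_mul_of_nonneg_left hf (by positivity)
      _ = ε * β := by field_simp
  have hqV : q * |Vb| ≤ ε * β := by
    calc q * |Vb| ≤ q * (ε * β / q) := mul_le_mul_of_nonneg_left hV hq.le
      _ = ε * β := by field_simp
  have b0 : |Vb| * o ≤ 16 * o := by
    rcases hoq with h | h
    · rw [h]; simp
    · have c1 : |Vb| ≤ 16 := by
        have c2 : ε * β ≤ 1 := by nlinarith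
        have c3 := abs_nonneg Vb
        nlinarith
      exact mul_le_mul_of_nonneg_right c1 ho
  have t1 := TwP_t1 (T := T) hK hq hθ hθ1 hqf
  have t2 := TwP_t2 (f := f) (Wd := Wd) hK hq hθ hqV
  have t3 := TwP_t3 (Wd := Wd) hK hq hqV hr
  have t4 := TwP_t4 (f := f) (Rd := Rd) hK hq hθ he hb1 hqV
  have t5 := TwP_t5 (f := f) (Rs := Rs) (Rb := Rb) hK hq hθ hθ1
  have t6 := TwP_t6 (f := f) (Wb := Wb) hkc
  have t7 := TwP_t7 (f := f) (Wd := Wd) ho (by linarith) hkc b0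
  have t8 := TwP_t8 (f := f) (ub := ub) hL hp
  have t9 := TwP_t9 (f := f) hL hLa
  have w0 := abs_nonneg Wb
  have o4 : 0 ≤ C1 * (o * f ^ 2) := by positivity
  have o6 : 0 ≤ C1 * (o * (f ^ 2 * |Wb|)) := by positivity
  have o7 : 0 ≤ C2 * (o * (f ^ 2 * |Wb|)) := by positivity
  have o8 : 0 ≤ C1 * (o * Wd ^ 2) := by positivity
  have e1 : Vb * ((2 * θ * (q / 2 * K1) + kc) * f * Wd + q / 2 * K1 * rf * Wd + q / 2 * K1 * f * Rd) =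
      Vb * (2 * θ * (q / 2 * K1) * f * Wd) + Vb * (kc * f * Wd) + Vb * (q / 2 * K1 * rf * Wd)
        + Vb * (q / 2 * K1 * f * Rd) := by ring
  have e2 : (C1 + 8 * C2) * (o * (f ^ 2 * (1 + |Wb|) + Wd ^ 2)) = C1 * (o * f ^ 2) + 8 * (C2 * (o * f ^ 2))
      + C1 * (o * (f ^ 2 * |Wb|)) + 8 * (C2 * (o * (f ^ 2 * |Wb|))) + C1 * (o * Wd ^ 2) + 8 * (C2 * (o * Wd ^ 2)) := by
    ring
  have e9 : (θ * (1 - θ) - 3 * θ / 64) * (K1 * f ^ 2) = θ * (1 - θ) * (K1 * f ^ 2) - 3 * (θ / 64 * (K1 * f ^ 2)) := by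
    ring
  have e10 : (16 * θ + 8) * ε ^ 2 * (K1 * β ^ 2 * Wd ^ 2) = 16 * θ * ε ^ 2 * (K1 * β ^ 2 * Wd ^ 2)
      + 8 * ε ^ 2 * (K1 * β ^ 2 * Wd ^ 2) := by ring
  rw [e1, e2, e9, e10]
  generalize hx1 : Vb * (2 * θ * (q / 2 * K1) * f * Wd) = x1 at *
  generalize hx2 : Vb * (kc * f * Wd) = x2 at *
  generalize hx3 : Vb * (q / 2 * K1 * rf * Wd) = x3 at *
  generalize hx4 : Vb * (q / 2 * K1 * f * Rd) = x4 at *
  generalize hx5 : (3 - θ) * (q / 2 * K1) * f ^ 2 * T = x5 at *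
  generalize hx6 : 1 / 2 * (q / 2 * K1) * f ^ 2 * ((3 - θ) * Rs - Rb) = x6 at *
  generalize hx7 : 1 / 2 * kc * f ^ 2 * Wb = x7 at *
  generalize hx8 : 1 / 2 * p2 * f ^ 2 * ub = x8 at *
  generalize hx9 : 1 / 2 * f ^ 2 * La = x9 at *
  generalize hy1 : C1 * (o * f ^ 2) = y1 at *
  generalize hy2 : C2 * (o * f ^ 2) = y2 at *
  generalize hy3 : C1 * (o * (f ^ 2 * |Wb|)) = y3 at *
  generalize hy4 : C2 * (o * (f ^ 2 * |Wb|)) = y4 at *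
  generalize hy5 : C1 * (o * Wd ^ 2) = y5 at *
  generalize hy6 : C2 * (o * Wd ^ 2) = y6 at *
  generalize hz1 : θ / 64 * (K1 * f ^ 2) = z1 at *
  generalize hz2 : 144 * (ε ^ 2 / θ) * (K1 * β ^ 2 * T ^ 2) = z2 at *
  generalize hz3 : 16 * θ * ε ^ 2 * (K1 * β ^ 2 * Wd ^ 2) = z3 at *
  generalize hz4 : 8 * ε ^ 2 * (K1 * β ^ 2 * Wd ^ 2) = z4 at *
  generalize hz5 : 4 * (ε ^ 2 / θ) * (K1 * Rd ^ 2) = z5 at *
  generalize hz6 : 3 / 2 * (q / 2 * K1 * f ^ 2 * (|Rb| + |Rs|)) = z6 at *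
  generalize hz7 : 1 / (2 * L) * (q / 2 * K1 * f ^ 2 * |ub|) = z7 at *
  generalize hz8 : 5 / L ^ 2 * (q / 2 * K1 * f ^ 2) = z8 at *
  have e11 : -(θ * (1 - θ)) * (K1 * f ^ 2) = -(θ * (1 - θ) * (K1 * f ^ 2)) := by ring
  rw [e11] at t9
  generalize hz9 : θ * (1 - θ) * (K1 * f ^ 2) = z9 at *
  generalize hw1 : q / 2 * K1 * g = w1 at *
  linarith

/-- The zone. -/
theorem TwP_ou (x : E3) : ou x = 0 ∨ (1 / 16 ≤ rsq x ∧ rsq x ≤ 1 / 8) := by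
  by_cases h : 1 / 16 ≤ rsq x ∧ rsq x ≤ 1 / 8
  · exact Or.inr h
  · left
    unfold ou
    exact Set.indicator_of_notMem (s := {x : E3 | 1 / 16 ≤ rsq x ∧ rsq x ≤ 1 / 8}) h (fun _ => (1 : ℝ))

theorem TwP_rsq {x : E3} (h : 1 ≤ rad x) : 1 ≤ rsq x := by
  have h1 : rsq x = rad x ^ 2 := by
    unfold rad rsq
    rw [Real.sq_sqrt (by positivity)]
  rw [h1]
  nlinarith

theorem P1_le : ∃ C : ℝ, 1 ≤ C ∧ ∀ (ε K κ θ L a : ℝ) (v : E3 → E3), Sl ε K κ v → 0 < θ → θ ≤ 1 / 2 → 1 ≤ L → ∀ (h : ℝ) (x : E3), 0 < rsq x →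
    P1 θ L a v h x ≤ - (63 / 64) * G1 θ L a v h x - (θ * (1 - θ) - 3 * θ / 64) * G2 θ L a v h x + 144 * (ε ^ 2 / θ) * I0 θ κ L a v h x
      + (16 * θ + 8) * ε ^ 2 * I1 θ κ L a v h x + 4 * (ε ^ 2 / θ) * I2 θ L a v h x + 3 / 2 * I3 θ L a v h x + C * I4 L a v h x
      + 1 / (2 * L) * I5 θ L a v h x + 5 / L ^ 2 * I6 θ L a v h x := by
  obtain ⟨C1, hC1, hlap⟩ := kx_lap
  obtain ⟨C2, hC2, hkc⟩ := kc_bd
  refine ⟨C1 + 8 * C2, by linarith, ?_⟩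
  intro ε K κ θ L a v hv hθ hθ1 hL h x hx
  have hs : |θ| ≤ 1 := by rw [abs_of_pos hθ]; linarith
  obtain ⟨-, k2, -, k4, -, k6, -⟩ := kx_f hL θ a
  obtain ⟨-, m2, -, m4, -, -, -⟩ := kx_f hL (θ - 1) a
  have hK := k6 hθ h x
  have hK1 := m2 h x
  have hp := (kx_pd2 hL θ a h hx).2
  have hk := hkc θ L a h hs x
  have hl := hlap θ L a h hs hL x hx
  have ho : 0 ≤ ou x * ph L a (x 2 + h / 2) := mul_nonneg (TwW_ou0 x) (ph_pos L a _).le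
  rw [P1_eq θ L a v h hx]
  unfold G1 G2 I0 I1 I2 I3 I4 I5 I6
  rcases lt_or_ge (rad x) 1 with h1 | h1
  · obtain ⟨-, v2, v3, v4, v5⟩ := V_bd hv h hx h1
    have hri : Ri (fh h v) := by
      rw [fh_dif]
      exact (sh_ri (vs_ri hv.vs).1 h).2.1
    have hr := (rdr_pd2 hri.sm x).2
    rw [hK] at hp hl ⊢
    have hoq : ou x * ph L a (x 2 + h / 2) = 0 ∨ 1 / 16 ≤ rsq x := by
      rcases TwP_ou x with h2 | h2
      · left; rw [h2, zero_mul]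
      · exact Or.inr h2.1
    exact TwP_alg hx hK1 v4 v5 hv.e0 hv.e1 hθ hθ1 hL ho hC1 hC2 v2 v3 hr hk hoq hp hl
  · have hq := TwP_rsq h1
    have z1 : kx θ L a h x = 0 := k4 h x (by linarith)
    have z2 : kx (θ - 1) L a h x = 0 := m4 h x (by linarith)
    have z3 : ou x = 0 := by
      rcases TwP_ou x with h2 | h2
      · exact h2
      · linarith [h2.2]
    rw [z1, z2, z3] at hl
    rw [z3] at hk
    rw [z1] at hp
    have z4 : kc θ L a h x = 0 := by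
      have : |kc θ L a h x| ≤ 0 := by simpa using hk
      exact abs_nonpos_iff.1 this
    have z5 : pd 2 (kx θ L a h) x = 0 := by
      have : |pd 2 (kx θ L a h) x| ≤ 0 := by simpa using hp
      exact abs_nonpos_iff.1 this
    have z6 : lap (kx θ L a h) x - 2 / rsq x * rdr (kx θ L a h) x = 0 := by
      have : |lap (kx θ L a h) x - 2 / rsq x * rdr (kx θ L a h) x| ≤ 0 := by simpa using hl
      exact abs_nonpos_iff.1 this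
    rw [z1, z2, z3, z4, z5, z6]
    simp

theorem xx_pt : ∃ C : ℝ, 1 ≤ C ∧ ∀ (ε K κ θ L a : ℝ) (v : E3 → E3), Sl ε K κ v → 0 < θ → θ ≤ 1 / 2 → 1 ≤ L → ∀ (h : ℝ) (x : E3), 0 < rsq x →
    |θ * |h| ^ (θ - 3) * (h * zh h * deriv zh h)| * |b0f θ L a v h x| ≤
      θ / 64 * (kh θ h * G2 θ L a v h x) + C * ε ^ 2 * (hz1 h * I7 θ κ L a v h x) := by
  obtain ⟨-, zz, zd, ze, Cz, hCz, hz⟩ := zh_f
  refine ⟨8192 * Cz ^ 2, by nlinarith, ?_⟩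
  intro ε K κ θ L a v hv hθ hθ1 hL h x hx
  obtain ⟨-, k2, -, k4, -, k6, -⟩ := kx_f hL θ a
  obtain ⟨-, m2, -, m4, -, -, -⟩ := kx_f hL (θ - 1) a
  have hK1 := m2 h x
  have hkh := ((kh_f hθ hθ1).1 h).1
  have hG2 : 0 ≤ G2 θ L a v h x := by
    unfold G2
    positivity
  have hI7 : 0 ≤ I7 θ κ L a v h x := by
    unfold I7
    positivity
  have hhz : 0 ≤ hz1 h := indicator_nonneg (fun _ _ => zero_le_one) _
  have hR : 0 ≤ θ / 64 * (kh θ h * G2 θ L a v h x) + 8192 * Cz ^ 2 * ε ^ 2 * (hz1 h * I7 θ κ L a v h x) := by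
    positivity
  rcases le_or_gt 1 (rad x) with h1 | h1
  · have z1 : kx θ L a h x = 0 := k4 h x (by linarith [TwP_rsq h1])
    have z2 : b0f θ L a v h x = 0 := by
      unfold b0f
      rw [z1]
      ring
    rw [z2, abs_zero, mul_zero]
    exact hR
  by_cases hd : deriv zh h = 0
  · rw [hd, mul_zero, mul_zero, abs_zero, zero_mul]
    exact hR
  have hh1 : 1 / 16 ≤ |h| := by
    by_contra hc
    push Not at hc
    exact hd ((zd h hc.le).2 hc)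
  have hh2 : h ^ 2 < 1 / 128 := by
    by_contra hc
    push Not at hc
    exact hd (ze h hc).2
  have hh3 : |h| ≤ 1 / 8 := by
    rw [← sq_abs] at hh2
    nlinarith [abs_nonneg h]
  have hz1' : hz1 h = 1 := by
    unfold hz1
    exact Set.indicator_of_mem (s := {h : ℝ | 1 / 16 ≤ |h| ∧ |h| ≤ 1 / 8}) (a := h) ⟨hh1, hh3⟩ (fun _ => (1 : ℝ))
  have hh0 : 0 < |h| := by linarith
  -- the power
  set A : ℝ := |h| ^ (θ - 3) with hA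
  have hA0 : 0 ≤ A := Real.rpow_nonneg (abs_nonneg h) _
  have hA1 : A ≤ 4096 := by
    have a1 : A ≤ |h| ^ (-3 : ℝ) := by
      rw [hA]
      exact Real.rpow_le_rpow_of_exponent_ge hh0 (by linarith) (by linarith)
    have a2 : |h| ^ (-3 : ℝ) = (|h| ^ 3)⁻¹ := by
      rw [Real.rpow_neg (abs_nonneg _)]
      norm_cast
    have a3 : (|h| ^ 3)⁻¹ ≤ ((1 / 16 : ℝ) ^ 3)⁻¹ := by
      apply inv_anti₀ (by positivity)
      exact pow_le_pow_left₀ (by norm_num) hh1 3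
    rw [a2] at a1
    refine a1.trans (a3.trans ?_)
    norm_num
  have hA2 : A * |h| ^ 2 ≤ 64 := by
    have a1 : |h| ^ 2 ≤ (1 / 8) ^ 2 := pow_le_pow_left₀ (abs_nonneg h) hh3 2
    calc A * |h| ^ 2 ≤ 4096 * (1 / 8) ^ 2 := mul_le_mul hA1 a1 (by positivity) (by norm_num)
      _ = 64 := by norm_num
  obtain ⟨-, -, v3, v4, v5⟩ := V_bd hv h hx h1
  set β : ℝ := be κ x with hβ
  set f : ℝ := fh h v x with hf
  set Ws : ℝ := sav h (sW v) x with hWs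
  set Rs : ℝ := sav h (Rw v) x with hRs
  set K1 : ℝ := kx (θ - 1) L a h x with hK1d
  set z : ℝ := zh h with hzd
  set z' : ℝ := deriv zh h with hz'd
  have he := hv.e0
  have hqf : rsq x / 2 * |f| ≤ ε * β := by
    calc rsq x / 2 * |f| ≤ rsq x / 2 * (2 * (ε * β / rsq x)) := mul_le_mul_of_nonneg_left v3 (by positivity)
      _ = ε * β := by field_simp
  have hz0 : 0 ≤ z := (zz h).1
  have hz'1 : |z'| ≤ Cz := hz h
  have hb : |b0f θ L a v h x| ≤ K1 * (ε * β) * |f| * (2 * |Ws| + |Rs|) := by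
    unfold b0f
    rw [k6 hθ h x, ← hK1d, ← hf, ← hWs, ← hRs]
    rw [abs_mul, abs_mul, abs_mul, abs_of_nonneg hK1, abs_of_pos (by positivity : 0 < rsq x / 2), abs_of_nonneg (sq_nonneg f)]
    have b1 : |2 * Ws + Rs| ≤ 2 * |Ws| + |Rs| := by
      refine (abs_add_le _ _).trans ?_
      rw [abs_mul, abs_of_pos (by norm_num : (0 : ℝ) < 2)]
    have b2 : rsq x / 2 * K1 * f ^ 2 ≤ K1 * (ε * β) * |f| := by
      rw [← sq_abs f]
      have b3 := mul_le_mul_of_nonneg_left hqf (by positivity : 0 ≤ K1 * |f|)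
      nlinarith
    exact mul_le_mul b2 b1 (abs_nonneg _) (by positivity)
  have hl : |θ * A * (h * z * z')| = θ * A * |h| * (z * |z'|) := by
    rw [abs_mul, abs_mul, abs_mul, abs_mul, abs_of_pos hθ, abs_of_nonneg hA0, abs_of_nonneg hz0]
    ring
  rw [hl]
  have s1 : θ * A * |h| * (z * |z'|) * |b0f θ L a v h x| ≤
      θ * A * K1 * (1 * (z * |f|) * (|h| * |z'| * (ε * β) * (2 * |Ws| + |Rs|))) := by
    refine (mul_le_mul_of_nonneg_left hb (by positivity)).trans (le_of_eq ?_)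
    ring
  have s3 := mul_le_mul_of_nonneg_left (TwP_am hθ 1 (z * |f|) (|h| * |z'| * (ε * β) * (2 * |Ws| + |Rs|)))
    (by positivity : 0 ≤ θ * A * K1)
  have s4 : (|h| * |z'| * (ε * β) * (2 * |Ws| + |Rs|)) ^ 2 ≤ |h| ^ 2 * Cz ^ 2 * (ε * β) ^ 2 * (8 * (Ws ^ 2 + Rs ^ 2)) := by
    rw [mul_pow, mul_pow, mul_pow]
    have c1 : |z'| ^ 2 ≤ Cz ^ 2 := pow_le_pow_left₀ (abs_nonneg _) hz'1 2
    have c2 : (2 * |Ws| + |Rs|) ^ 2 ≤ 8 * (Ws ^ 2 + Rs ^ 2) := by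
      have d1 := sq_abs Ws
      have d2 := sq_abs Rs
      have d3 := sq_nonneg (2 * |Ws| - |Rs|)
      nlinarith
    have c3 : |h| ^ 2 * |z'| ^ 2 * (ε * β) ^ 2 ≤ |h| ^ 2 * Cz ^ 2 * (ε * β) ^ 2 :=
      mul_le_mul_of_nonneg_right (mul_le_mul_of_nonneg_left c1 (by positivity)) (by positivity)
    exact mul_le_mul c3 c2 (by positivity) (by positivity)
  have s5 : θ * A * K1 * (θ / 64 * (z * |f|) ^ 2) = θ / 64 * (kh θ h * G2 θ L a v h x) := by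
    have d0 : kh θ h = θ * A * z ^ 2 := rfl
    have d1 : G2 θ L a v h x = K1 * f ^ 2 := rfl
    rw [d0, d1, mul_pow, sq_abs]
    ring
  obtain ⟨Q, hQ⟩ : ∃ Q : ℝ, Q = (|h| * |z'| * (ε * β) * (2 * |Ws| + |Rs|)) ^ 2 := ⟨_, rfl⟩
  rw [← hQ] at s3 s4
  have s6 : θ * A * K1 * (16 * 1 ^ 2 / θ * Q) ≤ 8192 * Cz ^ 2 * ε ^ 2 * (hz1 h * I7 θ κ L a v h x) := by
    have d0 : θ * A * K1 * (16 * 1 ^ 2 / θ * Q) = A * K1 * (16 * Q) := by
      field_simp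
    have d1 := mul_le_mul_of_nonneg_left s4 (by positivity : 0 ≤ A * K1 * 16)
    have d4 : I7 θ κ L a v h x = K1 * β ^ 2 * (Ws ^ 2 + Rs ^ 2) := rfl
    have d5 := mul_le_mul_of_nonneg_right hA2 (by positivity : 0 ≤ 128 * (Cz ^ 2 * ε ^ 2 * (K1 * β ^ 2 * (Ws ^ 2 + Rs ^ 2))))
    rw [hz1', d4, d0]
    refine le_trans (le_of_eq ?_) (d1.trans (le_trans (le_of_eq ?_) (d5.trans (le_of_eq ?_))))
    · ring
    · ring
    · ring
  rw [mul_add (θ * A * K1), s5] at s3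
  exact s1.trans (s3.trans (add_le_add le_rfl s6))

end Pool.Agent.H88.EP
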