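/-
ROW TwX (MP_09540e_EP). The term XX with the derivative of the cutoff `zh`. Aux lemmas prefixed TwX_. PROOF. θ = 1 / Sc κ. `|XX| ≤ ∫ h, |c h| * ∫ x, |b0f h x|`, `c h = θ |h|^(θ-3) (h zh zh')` (zero unless `1/16 ≤ |h| ≤ 1/8`, zh_f; abs_integral_le_integral_abs twice). For |h| ≤ 1 (elsewhere both sides vanish) xx_pt (TwP) and integration in x (a.e. 0 < rsq x: ax_null; Adm.int for b0f, G2;
adm_I7 for I7): `|c h| ∫ |b0f| ≤ (θ/64) kh θ h ∫ G2 + C ε² hz1 h ∫ I7`; integrate in h (Adm.int, adm_I7; the left side is measurable and dominated: or use integral_mono_of_nonneg, which only needs the majorant integrable): `≤ (θ/64) Th G2 + C ε² ∫ hz1 ∫ I7`, q7 (TwQ).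
-/
import Pool.Agent.H88.EP.TwP
import Pool.Agent.H88.EP.TwQ

set_option autoImplicit false

open Set Filter Topology MeasureTheory
open scoped ContDiff

namespace Pool.Agent.H88.EP

open Pool.Agent.H16 Pool.Agent.H72.CC Pool.Agent.H87.EP
open Pool.Agent.H87.NS hiding c1
open Pool.Agent.H16.TU hiding Sl
open Pool.Agent.H94.EP

theorem xx : ∃ C : ℝ, 1 ≤ C ∧ ∀ (ε K κ L a : ℝ) (v : E3 → E3), Sl ε K κ v → C ≤ L →
    |XX (1 / Sc κ) L a v| ≤ 1 / Sc κ / 64 * Th (1 / Sc κ) (G2 (1 / Sc κ) L a v) + C * ε ^ 2 * Sc κ * (DO L a v + GG L a v) := by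
  obtain ⟨C1, hC1, h1⟩ := xx_pt
  obtain ⟨C2, hC2, h2⟩ := q7
  refine ⟨C1 * C2, by nlinarith, fun ε K κ L a v hv hL => ?_⟩
  have hL2 : C2 ≤ L := by nlinarith
  have hL1 : 1 ≤ L := hC2.trans hL2
  obtain ⟨-, hθ, hθ', -⟩ := Sc_f hv.k1
  have hθ2 : 1 / Sc κ ≤ 1 / 2 := hθ'.trans (by norm_num)
  have hq := h2 κ L a v hv.k1 hL2 hv.vs
  have hp := h1 ε K κ (1 / Sc κ) L a v hv hθ hθ2 hL1
  generalize hθe : 1 / Sc κ = θ at hθ hθ' hθ2 hq hp ⊢
  obtain ⟨iG, -, kG⟩ := (adm_I hθ hθ2 hv.k1 hL1 a hv.vs).2.1.int hθ hθ2 hL1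
  obtain ⟨ib, -, -⟩ := (adm_P hθ hθ2 hL1 a hv.vs).2.2.1.int hθ hθ2 hL1
  obtain ⟨-, -, i7, k7⟩ := adm_I7 hθ hθ2 hv.k1 hL1 a hv.vs
  have hax : ∀ᵐ x : E3, 0 < rsq x := by
    rw [ae_iff]
    exact ax_null
  have key : ∀ h : ℝ, |θ * |h| ^ (θ - 3) * (h * zh h * deriv zh h) * ∫ x, b0f θ L a v h x| ≤
      θ / 64 * (kh θ h * ∫ x, G2 θ L a v h x) + C1 * ε ^ 2 * (hz1 h * ∫ x, I7 θ κ L a v h x) := by
    intro h
    rcases le_or_gt |h| 1 with hh | hh
    · rw [abs_mul]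
      have e1 : |∫ x, b0f θ L a v h x| ≤ ∫ x, |b0f θ L a v h x| := abs_integral_le_integral_abs
      calc |θ * |h| ^ (θ - 3) * (h * zh h * deriv zh h)| * |∫ x, b0f θ L a v h x|
          ≤ |θ * |h| ^ (θ - 3) * (h * zh h * deriv zh h)| * ∫ x, |b0f θ L a v h x| :=
            mul_le_mul_of_nonneg_left e1 (abs_nonneg _)
        _ = ∫ x, |θ * |h| ^ (θ - 3) * (h * zh h * deriv zh h)| * |b0f θ L a v h x| := by
            rw [integral_const_mul]
        _ ≤ ∫ x, (θ / 64 * (kh θ h * G2 θ L a v h x) + C1 * ε ^ 2 * (hz1 h * I7 θ κ L a v h x)) := by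
            refine integral_mono_ae ((ib h hh).abs.const_mul _)
              ((((iG h hh).const_mul _).const_mul _).add (((i7 h hh).const_mul _).const_mul _)) ?_
            filter_upwards [hax] with x hx
            exact hp h x hx
        _ = θ / 64 * (kh θ h * ∫ x, G2 θ L a v h x) + C1 * ε ^ 2 * (hz1 h * ∫ x, I7 θ κ L a v h x) := by
            rw [integral_add (((iG h hh).const_mul _).const_mul _) (((i7 h hh).const_mul _).const_mul _),
              integral_const_mul, integral_const_mul, integral_const_mul, integral_const_mul]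
    · have hsq : (1 : ℝ) / 128 ≤ h ^ 2 := by
        rw [← sq_abs]
        nlinarith
      have z1 : deriv zh h = 0 := (zh_f.2.2.2.1 h hsq).2
      have z2 : kh θ h = 0 := (kh_f hθ hθ2).2.2.1 h hh
      have z3 : hz1 h = 0 := by
        unfold hz1
        refine indicator_of_notMem (fun hc => ?_) _
        have := hc.2
        linarith
      rw [z1, z2, z3]
      simp
  have hint : Integrable (fun h => θ / 64 * (kh θ h * ∫ x, G2 θ L a v h x) +
      C1 * ε ^ 2 * (hz1 h * ∫ x, I7 θ κ L a v h x)) := (kG.const_mul _).add (k7.const_mul _)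
  have hmain : |XX θ L a v| ≤ ∫ h, (θ / 64 * (kh θ h * ∫ x, G2 θ L a v h x) +
      C1 * ε ^ 2 * (hz1 h * ∫ x, I7 θ κ L a v h x)) := by
    unfold XX
    refine abs_integral_le_integral_abs.trans ?_
    exact integral_mono_of_nonneg (Filter.Eventually.of_forall fun h => abs_nonneg _) hint
      (Filter.Eventually.of_forall key)
  rw [integral_add (kG.const_mul _) (k7.const_mul _), integral_const_mul, integral_const_mul] at hmain
  have hc : C1 * ε ^ 2 * (∫ h, hz1 h * ∫ x, I7 θ κ L a v h x) ≤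
      C1 * ε ^ 2 * (C2 * Sc κ * (DO L a v + GG L a v)) :=
    mul_le_mul_of_nonneg_left hq (by positivity)
  have ht : Th θ (G2 θ L a v) = ∫ h, kh θ h * ∫ x, G2 θ L a v h x := rfl
  rw [ht]
  calc |XX θ L a v| ≤ _ := hmain
    _ ≤ θ / 64 * (∫ h, kh θ h * ∫ x, G2 θ L a v h x) + C1 * ε ^ 2 * (C2 * Sc κ * (DO L a v + GG L a v)) := by
        linarith
    _ = θ / 64 * (∫ h, kh θ h * ∫ x, G2 θ L a v h x) + C1 * C2 * ε ^ 2 * Sc κ * (DO L a v + GG L a v) := by ring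

end Pool.Agent.H88.EP
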