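/-
ROW TwC (MP_09540e_EP). P1c: assembly.
-/
import Pool.Agent.H88.EP.TwX
import Pool.Agent.H88.EP.TwR
import Pool.Agent.H88.EP.Tw0
import Pool.Agent.H88.EP.TwT
import Pool.Agent.H88.EP.TwU

set_option autoImplicit false

open Set Filter Topology MeasureTheory
open scoped ContDiff

namespace Pool.Agent.H88.EP

open Pool.Agent.H16 Pool.Agent.H72.CC Pool.Agent.H87.EP
open Pool.Agent.H87.NS hiding c1
open Pool.Agent.H16.TU hiding Sl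
open Pool.Agent.H94.EP

/-- The linear combination of the integrands. -/
theorem TwC_lin {C ε K κ θ L a : ℝ} (v : E3 → E3) (hv : Sl ε K κ v) (h0 : 0 < θ) (h1 : θ ≤ 1 / 2) (hL : 1 ≤ L)
    (hP : ∀ (h : ℝ) (x : E3), 0 < rsq x →
    P1 θ L a v h x ≤ - (63 / 64) * G1 θ L a v h x - (θ * (1 - θ) - 3 * θ / 64) * G2 θ L a v h x + 144 * (ε ^ 2 / θ) * I0 θ κ L a v h x
      + (16 * θ + 8) * ε ^ 2 * I1 θ κ L a v h x + 4 * (ε ^ 2 / θ) * I2 θ L a v h x + 3 / 2 * I3 θ L a v h x + C * I4 L a v h x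
      + 1 / (2 * L) * I5 θ L a v h x + 5 / L ^ 2 * I6 θ L a v h x) :
    Th θ (P1 θ L a v) ≤ - (63 / 64) * Th θ (G1 θ L a v) - (θ * (1 - θ) - 3 * θ / 64) * Th θ (G2 θ L a v) + 144 * (ε ^ 2 / θ) * Th θ (I0 θ κ L a v)
      + (16 * θ + 8) * ε ^ 2 * Th θ (I1 θ κ L a v) + 4 * (ε ^ 2 / θ) * Th θ (I2 θ L a v) + 3 / 2 * Th θ (I3 θ L a v) + C * Th θ (I4 L a v)
      + 1 / (2 * L) * Th θ (I5 θ L a v) + 5 / L ^ 2 * Th θ (I6 θ L a v) := by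
  obtain ⟨a1, a2, b0, b1, b2, b3, b4, b5, b6⟩ := adm_I (κ := κ) h0 h1 hv.k1 hL a hv.vs
  obtain ⟨-, p1, -⟩ := adm_P h0 h1 hL a hv.vs
  have e1 := a1.lin a2 (- (63 / 64)) (- (θ * (1 - θ) - 3 * θ / 64))
  have e2 := b0.lin b1 (144 * (ε ^ 2 / θ)) ((16 * θ + 8) * ε ^ 2)
  have e3 := b2.lin b3 (4 * (ε ^ 2 / θ)) (3 / 2)
  have e4 := b4.lin b5 C (1 / (2 * L))
  have f1 := e1.lin e2 1 1
  have f2 := e3.lin e4 1 1
  have f3 := f1.lin f2 1 1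
  have f4 := f3.lin b6 1 (5 / L ^ 2)
  have hm := Th_mono p1 f4 h0 h1 hL (fun h _ x hx => by
    have := hP h x hx
    have e : off (P1 θ L a v) h x = P1 θ L a v h x := by
      unfold off
      rw [indicator_of_mem (show x ∈ {x : E3 | 0 < rsq x} from hx)]
    rw [e]
    linarith)
  rw [Th_off] at hm
  rw [Th_lin f3 b6 h0 h1 hL 1 (5 / L ^ 2), Th_lin f1 f2 h0 h1 hL 1 1, Th_lin e1 e2 h0 h1 hL 1 1, Th_lin e3 e4 h0 h1 hL 1 1,
    Th_lin a1 a2 h0 h1 hL, Th_lin b0 b1 h0 h1 hL, Th_lin b2 b3 h0 h1 hL, Th_lin b4 b5 h0 h1 hL] at hm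
  linarith

/-- The arithmetic. -/
theorem TwC_ar {C1 C2 C3 C4 C5 C6 C7 C8 C9 C10 C ε S K L D2 GB g2 J O G n0 t0 t1 t2 t3 t4 t5 t6 X : ℝ}
    (h1 : 1 ≤ C1) (h2 : 1 ≤ C2) (h3 : 1 ≤ C3) (h4 : 1 ≤ C4) (h5 : 1 ≤ C5) (h6 : 1 ≤ C6) (h7 : 1 ≤ C7) (h8 : 1 ≤ C8) (h9 : 1 ≤ C9) (h10 : 1 ≤ C10)
    (hε : 0 < ε) (hε1 : ε ≤ 1) (hS : 20 ≤ S) (hεS : ε ^ 2 * S ≤ 1) (hK : 2 ≤ K) (hCL : C * K ≤ L)
    (hC1 : 64 * C7 * C8 ≤ C) (hC2 : 320 * C9 * C8 ≤ C)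
    (hD2 : 0 ≤ D2) (hg2 : 0 ≤ g2) (hJ : 0 ≤ J) (hO : 0 ≤ O) (hG : 0 ≤ G)
    (hGB : GB = 1 / S * (1 - 1 / S) * g2)
    (q0 : t0 ≤ C2 * (O + G)) (q1 : t1 ≤ C3 * S * (O + G)) (q2 : t2 ≤ C4 * (O + G))
    (q3 : t3 ≤ C5 * (1 / (96 * C5 * ε ^ 2) * ε ^ 2 * (J + G) + 1 / (1 / (96 * C5 * ε ^ 2)) * (O + G)))
    (q4 : t4 ≤ C6 * (1 / (64 * C1 * C6) * ε ^ 2 * (J + G) + 1 / (1 / (64 * C1 * C6)) * G))
    (q5 : t5 ≤ C7 * √K * (D2 + GB + n0 + G)) (q6 : t6 ≤ C9 * n0) (hn : n0 ≤ C8 * (J + G)) (hn0 : 0 ≤ n0)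
    (hX : |X| ≤ 1 / S / 64 * g2 + C10 * ε ^ 2 * S * (O + G)) :
    - (63 / 64) * D2 - (1 / S * (1 - 1 / S) - 3 * (1 / S) / 64) * g2 + 144 * (ε ^ 2 / (1 / S)) * t0
      + (16 * (1 / S) + 8) * ε ^ 2 * t1 + 4 * (ε ^ 2 / (1 / S)) * t2 + 3 / 2 * t3 + C1 * t4
      + 1 / (2 * L) * t5 + 5 / L ^ 2 * t6 - X ≤
    - (1 / 2) * (D2 + GB) + 1 / 16 * J + (144 * C2 + 24 * C3 + 4 * C4 + 144 * C5 ^ 2 + 64 * C1 ^ 2 * C6 ^ 2 + C10 + 4) * (ε ^ 2 * S * O + G) := by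
  have hS0 : 0 < S := by linarith
  have hK0 : 0 < K := by linarith
  have n2 : (0 : ℝ) ≤ C2 := by linarith
  have n3 : (0 : ℝ) ≤ C3 := by linarith only [h3]
  have n4 : (0 : ℝ) ≤ C4 := by linarith
  have n5 : (0 : ℝ) < C5 := by linarith
  have n6 : (0 : ℝ) < C6 := by linarith
  have n1 : (0 : ℝ) < C1 := by linarith
  have n7 : (0 : ℝ) ≤ C7 := by linarith
  have n8 : (0 : ℝ) ≤ C8 := by linarith
  have n9 : (0 : ℝ) ≤ C9 := by linarith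
  have n10 : (0 : ℝ) ≤ C10 := by linarith
  have h78 : 1 ≤ C7 * C8 := one_le_mul_of_one_le_of_one_le h7 h8
  have hC0 : 1 ≤ C := by
    have : 64 * C7 * C8 = 64 * (C7 * C8) := by ring
    linarith only [hC1, h78]
  have hL1 : C ≤ L := by
    have : C * 1 ≤ C * K := mul_le_mul_of_nonneg_left (by linarith) (by linarith only [hC1, h78])
    linarith only [hCL, this]
  have hL0 : 0 < L := by linarith only [hC1, h78, hL1]
  have he2 : 0 < ε ^ 2 := by positivity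
  have he21 : ε ^ 2 ≤ 1 := pow_le_one₀ hε.le hε1
  have hθ : 1 / S ≤ 1 / 20 := one_div_le_one_div_of_le (by norm_num) hS
  have hθ0 : 0 < 1 / S := by positivity
  have hdiv : ε ^ 2 / (1 / S) = ε ^ 2 * S := by field_simp
  have hOG : 0 ≤ O + G := by linarith
  have hJG : 0 ≤ J + G := by linarith
  have hGBn : 0 ≤ GB := by
    rw [hGB]
    exact mul_nonneg (mul_nonneg hθ0.le (by linarith)) hg2
  have hεG : ε ^ 2 * S * G ≤ G := by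
    have := mul_le_mul_of_nonneg_right hεS hG
    linarith
  have hEG : ε ^ 2 * S * (O + G) ≤ ε ^ 2 * S * O + G := by
    have : ε ^ 2 * S * (O + G) = ε ^ 2 * S * O + ε ^ 2 * S * G := by ring
    linarith
  have r0 : 144 * (ε ^ 2 / (1 / S)) * t0 ≤ 144 * C2 * (ε ^ 2 * S * O + G) := by
    rw [hdiv]
    calc 144 * (ε ^ 2 * S) * t0 ≤ 144 * (ε ^ 2 * S) * (C2 * (O + G)) := mul_le_mul_of_nonneg_left q0 (by positivity)
      _ = 144 * C2 * (ε ^ 2 * S * (O + G)) := by ring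
      _ ≤ _ := mul_le_mul_of_nonneg_left hEG (by positivity)
  have r1 : (16 * (1 / S) + 8) * ε ^ 2 * t1 ≤ 24 * C3 * (ε ^ 2 * S * O + G) := by
    calc (16 * (1 / S) + 8) * ε ^ 2 * t1 ≤ (16 * (1 / S) + 8) * ε ^ 2 * (C3 * S * (O + G)) := mul_le_mul_of_nonneg_left q1 (by positivity)
      _ ≤ 24 * ε ^ 2 * (C3 * S * (O + G)) := by
        apply mul_le_mul_of_nonneg_right _ (by positivity)
        apply mul_le_mul_of_nonneg_right _ he2.le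
        linarith
      _ = 24 * C3 * (ε ^ 2 * S * (O + G)) := by ring
      _ ≤ _ := mul_le_mul_of_nonneg_left hEG (by positivity)
  have r2 : 4 * (ε ^ 2 / (1 / S)) * t2 ≤ 4 * C4 * (ε ^ 2 * S * O + G) := by
    rw [hdiv]
    calc 4 * (ε ^ 2 * S) * t2 ≤ 4 * (ε ^ 2 * S) * (C4 * (O + G)) := mul_le_mul_of_nonneg_left q2 (by positivity)
      _ = 4 * C4 * (ε ^ 2 * S * (O + G)) := by ring
      _ ≤ _ := mul_le_mul_of_nonneg_left hEG (by positivity)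
  have hA : 0 ≤ ε ^ 2 * S * O := by positivity
  have hE1 : ε ^ 2 * (O + G) ≤ ε ^ 2 * S * O + G := by
    have e3 : ε ^ 2 * O * 1 ≤ ε ^ 2 * O * S := mul_le_mul_of_nonneg_left (by linarith only [hS, hθ, hθ0]) (by positivity)
    have e4 : ε ^ 2 * G ≤ 1 * G := mul_le_mul_of_nonneg_right he21 hG
    have e5 : ε ^ 2 * (O + G) = ε ^ 2 * O * 1 + ε ^ 2 * G := by ring
    have e6 : ε ^ 2 * O * S = ε ^ 2 * S * O := by ring
    linarith only [e3, e4]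
  have r3 : 3 / 2 * t3 ≤ 1 / 64 * (J + G) + 144 * C5 ^ 2 * (ε ^ 2 * S * O + G) := by
    have e1 : C5 * (1 / (96 * C5 * ε ^ 2) * ε ^ 2 * (J + G) + 1 / (1 / (96 * C5 * ε ^ 2)) * (O + G)) =
        1 / 96 * (J + G) + 96 * C5 ^ 2 * (ε ^ 2 * (O + G)) := by
      have hC5 : C5 ≠ 0 := n5.ne'
      field_simp
    rw [e1] at q3
    have e2 : 144 * C5 ^ 2 * (ε ^ 2 * (O + G)) ≤ 144 * C5 ^ 2 * (ε ^ 2 * S * O + G) := mul_le_mul_of_nonneg_left hE1 (by positivity)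
    have e3 : 144 * C5 ^ 2 * (ε ^ 2 * (O + G)) = 3 / 2 * (96 * C5 ^ 2 * (ε ^ 2 * (O + G))) := by ring
    linarith only [q3, e2]
  have hJ1 : ε ^ 2 * (J + G) ≤ J + G := by
    have := mul_le_mul_of_nonneg_right he21 hJG
    linarith only [this]
  have r4 : C1 * t4 ≤ 1 / 64 * (J + G) + 64 * C1 ^ 2 * C6 ^ 2 * G := by
    calc C1 * t4 ≤ C1 * (C6 * (1 / (64 * C1 * C6) * ε ^ 2 * (J + G) + 1 / (1 / (64 * C1 * C6)) * G)) := mul_le_mul_of_nonneg_left q4 n1.le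
      _ = 1 / 64 * (ε ^ 2 * (J + G)) + 64 * C1 ^ 2 * C6 ^ 2 * G := by
        have hC1 : C1 ≠ 0 := n1.ne'
        have hC6 : C6 ≠ 0 := n6.ne'
        field_simp
      _ ≤ _ := by linarith only [hJ1]
  have hsK : √K ≤ K := by
    have : √K ≤ √(K ^ 2) := Real.sqrt_le_sqrt (by rw [pow_two]; exact le_mul_of_one_le_left hK0.le (by linarith only [hK, hθ, hθ0]))
    rwa [Real.sqrt_sq hK0.le] at this
  have hsK0 : 0 ≤ √K := Real.sqrt_nonneg K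
  have r5 : 1 / (2 * L) * t5 ≤ 1 / 128 * (D2 + GB + J + 2 * G) := by
    have e4 : 0 ≤ D2 + GB + G := by linarith only [hD2, hG, hGBn]
    have e1 : t5 ≤ C7 * K * (C8 * (D2 + GB + J + 2 * G)) := by
      have e2 : D2 + GB + n0 + G ≤ C8 * (D2 + GB + J + 2 * G) := by
        have e5 : 1 * (D2 + GB + G) ≤ C8 * (D2 + GB + G) := mul_le_mul_of_nonneg_right h8 e4
        have e6 : C8 * (D2 + GB + J + 2 * G) = C8 * (D2 + GB + G) + C8 * (J + G) := by ring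
        linarith only [hn, e5]
      have e3 : 0 ≤ D2 + GB + n0 + G := by linarith only [hD2, hG, hn0, hGBn]
      calc t5 ≤ C7 * √K * (D2 + GB + n0 + G) := q5
        _ ≤ C7 * K * (C8 * (D2 + GB + J + 2 * G)) := by
          apply mul_le_mul _ e2 e3 (by positivity)
          exact mul_le_mul_of_nonneg_left hsK n7
    have e4 : 0 ≤ D2 + GB + J + 2 * G := by linarith only [hD2, hJ, hG, hGBn]
    rw [one_div_mul_eq_div, div_le_iff₀ (by positivity)]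
    have e5 : 64 * C7 * C8 * K ≤ L := le_trans (mul_le_mul_of_nonneg_right hC1 hK0.le) hCL
    calc t5 ≤ C7 * K * (C8 * (D2 + GB + J + 2 * G)) := e1
      _ = (64 * C7 * C8 * K) * (1 / 64 * (D2 + GB + J + 2 * G)) := by ring
      _ ≤ L * (1 / 64 * (D2 + GB + J + 2 * G)) := mul_le_mul_of_nonneg_right e5 (by linarith only [hD2, hJ, hG, hGBn])
      _ = 1 / 128 * (D2 + GB + J + 2 * G) * (2 * L) := by ring
  have r6 : 5 / L ^ 2 * t6 ≤ 1 / 64 * (J + G) := by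
    have e1 : t6 ≤ C9 * C8 * (J + G) := by
      have : C9 * n0 ≤ C9 * (C8 * (J + G)) := mul_le_mul_of_nonneg_left hn n9
      have h' : C9 * (C8 * (J + G)) = C9 * C8 * (J + G) := by ring
      linarith only [q6, this]
    rw [div_mul_eq_mul_div, div_le_iff₀ (by positivity)]
    have e2 : 320 * C9 * C8 ≤ L ^ 2 := by
      have h' : L * 1 ≤ L * L := mul_le_mul_of_nonneg_left (by linarith only [hC1, h78, hL1, hθ, hθ0]) hL0.le
      have h'' : L ^ 2 = L * L := by ring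
      linarith only [hC2, hL1, h']
    have e3 := mul_le_mul_of_nonneg_right e2 hJG
    have e4 : 320 * C9 * C8 * (J + G) = 64 * (5 * (C9 * C8 * (J + G))) := by ring
    have e5 : 1 / 64 * (J + G) * L ^ 2 = 1 / 64 * (L ^ 2 * (J + G)) := by ring
    rw [e5]
    linarith only [e1, e3]
  have rX : - X ≤ 1 / S / 64 * g2 + C10 * (ε ^ 2 * S * O + G) := by
    have h1 := neg_abs_le X
    have h2 : C10 * ε ^ 2 * S * (O + G) = C10 * (ε ^ 2 * S * (O + G)) := by ring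
    have h3 := mul_le_mul_of_nonneg_left hEG n10
    linarith only [hX, h1, h3]
  have rg : - (1 / S * (1 - 1 / S) - 3 * (1 / S) / 64) * g2 + 1 / S / 64 * g2 ≤ - (14 / 15) * GB := by
    rw [hGB]
    have h3 : 0 ≤ 1 / S * g2 * (1 / 20 - 1 / S) := mul_nonneg (mul_nonneg hθ0.le hg2) (by linarith only [hθ])
    have h4 : 0 ≤ 1 / S * g2 := mul_nonneg hθ0.le hg2
    have h5 : - (14 / 15) * (1 / S * (1 - 1 / S) * g2) - (- (1 / S * (1 - 1 / S) - 3 * (1 / S) / 64) * g2 + 1 / S / 64 * g2) =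
        1 / 15 * (1 / S * g2 * (1 / 20 - 1 / S)) + (1 / 15 * (19 / 20) - 1 / 16) * (1 / S * g2) := by ring
    linarith only [hGB, hGBn, h3]
  have hAG : 64 * C1 ^ 2 * C6 ^ 2 * G ≤ 64 * C1 ^ 2 * C6 ^ 2 * (ε ^ 2 * S * O + G) := by
    apply mul_le_mul_of_nonneg_left _ (by positivity)
    linarith only [hA]
  have hG4 : G ≤ ε ^ 2 * S * O + G := by linarith only [hA]
  have hfin : 144 * C2 * (ε ^ 2 * S * O + G) + 24 * C3 * (ε ^ 2 * S * O + G) + 4 * C4 * (ε ^ 2 * S * O + G) + 144 * C5 ^ 2 * (ε ^ 2 * S * O + G)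
      + 64 * C1 ^ 2 * C6 ^ 2 * (ε ^ 2 * S * O + G) + C10 * (ε ^ 2 * S * O + G) + 4 * (ε ^ 2 * S * O + G) =
      (144 * C2 + 24 * C3 + 4 * C4 + 144 * C5 ^ 2 + 64 * C1 ^ 2 * C6 ^ 2 + C10 + 4) * (ε ^ 2 * S * O + G) := by ring
  rw [← hfin]
  linarith

theorem p1c : ∃ C : ℝ, 1 ≤ C ∧ ∀ (ε K κ L a : ℝ) (v : E3 → E3), Sl ε K κ v → C * K ≤ L → ε ^ 2 * Sc κ ≤ 1 →
    RB (1 / Sc κ) L a v / 2 ≤ - (1 / 2) * (DB2 (1 / Sc κ) L a v + GB (1 / Sc κ) L a v) + 1 / 16 * DJ L a v +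
      C * (ε ^ 2 * Sc κ * DO L a v + (1 + K) * GG L a v + ε ^ 2 * L * K) := by
  obtain ⟨C1, h1, hP⟩ := P1_le
  obtain ⟨C2, h2, H0⟩ := q0
  obtain ⟨C3, h3, H1⟩ := q1
  obtain ⟨C4, h4, H2⟩ := q2
  obtain ⟨C5, h5, H3⟩ := q3
  obtain ⟨C6, h6, H4⟩ := q4
  obtain ⟨C7, h7, H5⟩ := q5
  obtain ⟨C8, h8, HN⟩ := NJ_le
  obtain ⟨C9, h9, H6⟩ := p1n
  obtain ⟨C10, h10, HX⟩ := xx
  set D : ℝ := 144 * C2 + 24 * C3 + 4 * C4 + 144 * C5 ^ 2 + 64 * C1 ^ 2 * C6 ^ 2 + C10 + 4 with hD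
  have hD0 : 0 ≤ D := by rw [hD]; positivity
  set C : ℝ := 64 * C7 * C8 + 320 * C9 * C8 + C2 + C3 + C4 + C5 + C6 + C10 + D with hC
  have hp1 : 0 ≤ 64 * C7 * C8 := by positivity
  have hp2 : 0 ≤ 320 * C9 * C8 := by positivity
  refine ⟨C, by linarith, ?_⟩
  intro ε K κ L a v hv hCL hεS
  have hK := hv.K2
  have hC0 : 0 ≤ C := by linarith
  have hLC : C ≤ L := by
    have := mul_le_mul_of_nonneg_left (show (1 : ℝ) ≤ K by linarith) hC0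
    linarith
  have hL : 1 ≤ L := by linarith
  obtain ⟨s1, s2, s3, -⟩ := Sc_f hv.k1
  have hθ : 1 / Sc κ ≤ 1 / 2 := by linarith
  obtain ⟨n1, n2, n3, n4, n5, n6, n7, n8⟩ := nn_f (θ := 1 / Sc κ) hL s2 hθ a hv.vs
  have t := TwC_lin (κ := κ) v hv s2 hθ hL (hP ε K κ (1 / Sc κ) L a v hv s2 hθ hL)
  have e := RB_eq (a := a) s2 hθ hL hv.vs
  obtain ⟨f1, f2, f3⟩ := Th_f (1 / Sc κ) L a v
  have hg2 : 0 ≤ Th (1 / Sc κ) (G2 (1 / Sc κ) L a v) := by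
    refine Th_nn s2 hθ (fun h x => ?_)
    unfold G2
    exact mul_nonneg ((kx_f hL _ a).2.1 h x) (sq_nonneg _)
  have hlam : 0 < 1 / (96 * C5 * ε ^ 2) := by
    have := hv.e0
    positivity
  have hμ : 0 < 1 / (64 * C1 * C6) := by positivity
  have hμ1 : 1 / (64 * C1 * C6) ≤ 1 := by
    rw [div_le_one (by positivity)]
    have := one_le_mul_of_one_le_of_one_le h1 h6
    have h' : 64 * C1 * C6 = 64 * (C1 * C6) := by ring
    linarith only [s2, s3, this]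
  have hq6 : Th (1 / Sc κ) (I6 (1 / Sc κ) L a v) ≤ C9 * NJ L a v := H6 κ L a v hv.vs hv.k1 hL
  have A := TwC_ar (C := C) (D2 := DB2 (1 / Sc κ) L a v) (GB := GB (1 / Sc κ) L a v) (J := DJ L a v) (O := DO L a v) (G := GG L a v)
    (n0 := NJ L a v) h1 h2 h3 h4 h5 h6 h7 h8 h9 h10 hv.e0 hv.e1 s1 hεS hK hCL (by linarith only [h2, h3, h4, h5, h6, h10, hD0, hp2, s2, s3]) (by linarith only [h2, h3, h4, h5, h6, h10, hD0, hp1, s2, s3]) n7 hg2 n3 n4 n5 f2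
    (H0 κ L a v hv.k1 (by linarith only [h3, h4, h5, h6, h10, hD0, hp1, hp2, hLC, s2, s3]) hv.vs) (H1 κ L a v hv.k1 (by linarith only [h2, h4, h5, h6, h10, hD0, hp1, hp2, hLC, s2, s3]) hv.vs) (H2 κ L a v hv.k1 (by linarith only [h2, h3, h5, h6, h10, hD0, hp1, hp2, hLC, s2, s3]) hv.vs)
    (H3 ε K κ L a _ v hv (by linarith only [h2, h3, h4, h6, h10, hD0, hp1, hp2, hLC, s2, s3]) hlam) (H4 ε K κ L a _ v hv (by linarith only [h2, h3, h4, h5, h10, hD0, hp1, hp2, hLC, s2, s3]) hμ hμ1)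
    (H5 ε K κ L a v hv hL) hq6 (HN L a v hL hv.vs) n1 (HX ε K κ L a v hv (by linarith only [h2, h3, h4, h5, h6, hD0, hp1, hp2, hLC, s2, s3]))
  rw [e]
  rw [f1] at A ⊢
  have hfin : D * (ε ^ 2 * Sc κ * DO L a v + GG L a v) ≤ C * (ε ^ 2 * Sc κ * DO L a v + (1 + K) * GG L a v + ε ^ 2 * L * K) := by
    have hS0 : 0 ≤ Sc κ := by linarith only [s1, s2, s3]
    have a1 : 0 ≤ ε ^ 2 * Sc κ * DO L a v := by positivity
    have a2 : 0 ≤ ε ^ 2 * L * K := by positivity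
    have a3 : 0 ≤ K * GG L a v := mul_nonneg (by linarith only [hK, s2, s3]) n5
    have a4 : ε ^ 2 * Sc κ * DO L a v + GG L a v ≤ ε ^ 2 * Sc κ * DO L a v + (1 + K) * GG L a v + ε ^ 2 * L * K := by linarith only [a2, a3]
    exact mul_le_mul (by linarith only [h2, h3, h4, h5, h6, h10, hp1, hp2, s2, s3]) a4 (by linarith only [n5, a1]) hC0
  linarith only [t, A, hfin]

end Pool.Agent.H88.EP
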