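/-
ROW TwF (MP_09540e_EP). P1h.
-/
import Pool.Agent.H88.EP.TwU

set_option autoImplicit false

open Set Filter Topology MeasureTheory
open scoped ContDiff

namespace Pool.Agent.H88.EP

open Pool.Agent.H16 Pool.Agent.H72.CC Pool.Agent.H87.EP
open Pool.Agent.H87.NS hiding c1
open Pool.Agent.H16.TU hiding Sl
open Pool.Agent.H94.EP

theorem p1h : ∃ C : ℝ, 1 ≤ C ∧ ∀ (ε K κ L a l : ℝ) (v : E3 → E3), Sl ε K κ v → C ≤ L → 0 ≤ l →
    FF (1 / Sc κ) l L a v ≤ C * Sc κ * (D3 (1 / Sc κ) L a v + l * DO L a v) + C * (1 + l) * GG L a v := by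
  obtain ⟨C8, h8, HN⟩ := NJ_le
  obtain ⟨C9, h9, H6⟩ := p1n
  obtain ⟨C7, h7, HO⟩ := NO_le
  refine ⟨(1 + C9) * C8 + C7, by nlinarith, ?_⟩
  intro ε K κ L a l v hv hCL hl
  have hp : 1 ≤ C8 * C9 := one_le_mul_of_one_le_of_one_le h8 h9
  have hC : (1 + C9) * C8 + C7 = C8 + C8 * C9 + C7 := by ring
  have hL : 1 ≤ L := by linarith
  obtain ⟨s1, s2, s3, -⟩ := Sc_f hv.k1
  have hθ : 1 / Sc κ ≤ 1 / 2 := by linarith
  obtain ⟨n1, n2, n3, n4, n5, n6, n7, n8⟩ := nn_f (θ := 1 / Sc κ) hL s2 hθ a hv.vs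
  have a1 := HN L a v hL hv.vs
  have a2 := H6 κ L a v hv.vs hv.k1 hL
  have a3 := HO L a v hL hv.vs
  unfold FF D3
  have b1 : NJ L a v + BB (1 / Sc κ) L a v ≤ (1 + C9) * C8 * (DJ L a v + GG L a v) := by
    have : (1 + C9) * NJ L a v ≤ (1 + C9) * (C8 * (DJ L a v + GG L a v)) := mul_le_mul_of_nonneg_left a1 (by linarith)
    linarith
  have b2 : l * NO L a v ≤ l * (C7 * (DO L a v + GG L a v)) := mul_le_mul_of_nonneg_left a3 hl
  set C := (1 + C9) * C8 + C7 with hCd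
  have hCp : 0 ≤ C := by linarith
  have c1' : (1 + C9) * C8 * (DJ L a v + GG L a v) ≤ C * (DJ L a v + GG L a v) := mul_le_mul_of_nonneg_right (by linarith) (by linarith)
  have c2' : l * (C7 * (DO L a v + GG L a v)) ≤ C * (l * DO L a v + l * GG L a v) := by
    have : C7 * (l * DO L a v + l * GG L a v) ≤ C * (l * DO L a v + l * GG L a v) :=
      mul_le_mul_of_nonneg_right (by nlinarith) (by positivity)
    linarith
  have d1 : C * 1 * (DJ L a v + DB2 (1 / Sc κ) L a v + GB (1 / Sc κ) L a v + l * DO L a v) ≤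
      C * Sc κ * (DJ L a v + DB2 (1 / Sc κ) L a v + GB (1 / Sc κ) L a v + l * DO L a v) := by
    apply mul_le_mul_of_nonneg_right _ (by positivity)
    exact mul_le_mul_of_nonneg_left (by linarith) hCp
  have d2 : 0 ≤ C * (DJ L a v + DB2 (1 / Sc κ) L a v + GB (1 / Sc κ) L a v + l * DO L a v) := by positivity
  have d3 : 0 ≤ C * (1 + l) * GG L a v := by positivity
  have d4 : C * (DJ L a v + GG L a v) + C * (l * DO L a v + l * GG L a v) ≤
      C * (DJ L a v + DB2 (1 / Sc κ) L a v + GB (1 / Sc κ) L a v + l * DO L a v) + C * (1 + l) * GG L a v := by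
    have e1 : 0 ≤ C * (DB2 (1 / Sc κ) L a v + GB (1 / Sc κ) L a v) := by positivity
    have e2 : C * (DJ L a v + DB2 (1 / Sc κ) L a v + GB (1 / Sc κ) L a v + l * DO L a v) + C * (1 + l) * GG L a v -
      (C * (DJ L a v + GG L a v) + C * (l * DO L a v + l * GG L a v)) = C * (DB2 (1 / Sc κ) L a v + GB (1 / Sc κ) L a v) := by ring
    linarith
  linarith

end Pool.Agent.H88.EP
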