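/-
ROW TwG (MP_09540e_EP). P1g: the gain controls `∫ Z² / rsq` away from the axis. Aux lemmas prefixed TwG_. PROOF. θ = 1 / Sc κ, Z = Zz v = pd 2 V, Zc = pd 2 Z.
pt_z: f = fh h v = h sav h Z (dif_sav). For s ∈ [0,1]: `Z (sh2 (s h) x) - Z x = ∫_0^s h Zc (sh2 (t h) x) dt` (TwA_dl, FTC), so its square is `≤ s ∫_0^s h² Zc² ≤ h² sav h (Zc²)`; Jensen: `(sav h Z - Z x)² ≤ h² sav h (Zc²)`. Then `h² Z² ≤ 2 f² + 2 h² (sav h Z - Z)² ≤ 2 f² + 2 h⁴ sav h (Zc²)`.
khc: for 0 < c ≤ 1/16: zh = 1 on (0, c) (zh_f), `kh θ h * h² = θ h^(θ-1)` there, `∫_0^c θ h^(θ-1) = c^θ` (integral_rpow; lintegral over Ioo = ofReal of the integral).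
num: `(r²/2)^(θ-1) (r/4)^θ = (2/r²) (r³/8)^θ` and `(r³/8)^θ ≥ (8 κ³)^(-θ) = exp (- θ (log 8 + 3 log κ)) ≥ exp (-3/4) ≥ exp (-1) ≥ 0.36` as `log 8 ≤ 2.1 ≤ 15`, `Sc κ = 20 + 4 log κ`: `θ (log 8 + 3 log κ) ≤ (15 + 3 log κ) θ = 3/4`; exp 1 < 2.72 (Real.exp_one_lt_d9), `(1/3) · 2 · 0.36 ≥ 1/5`.
ptw (x in the zone E: 1 ≤ κ rad x, rsq x ≤ 1/16; r = rad x, so r ≤ 1/4, c2 x = 1, k0 (θ-1) x = (r²/2)^(θ-1)): for h ∈ (0, r/4): `ph L a (x 2 + h/2) ≥ ph L a (x 2)/3` (ph_shift), so `kh [2 G2 + 2 h⁴ X] ≥ kh k0 ph(x2+h/2) h² Z² ≥ (kh h²) k0 (ph(x 2)/3) Z²`; integrate in h (khc with c = r/4) and use num: `≥ (1/5) ph Z² / rsq`.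
sec (the second part): for h ∈ (0, 1]: sh_sav (TwB) with `c x = 1_{4 h < rad x} k0 (θ-1) x` (measurable, shift invariant) and F = Zc² (bounded: integrability of `c ph F` by wr_int, `k0 (θ-1) ph ≤ wr` up to rsq < 1/8): `∫ c ph(x2+h/2) sav h F ≤ 3 ∫ c ph F`. For h > 1 kh = 0. So the left side of sec is `≤ ∫⁻_{h>0} ofReal (6 kh h⁴) ∫⁻_x 1_{4h < rad x} ofReal (k0 (θ-1) ph Zc²)`, Tonelli,
`∫_0^{r/4} 6 kh h⁴ ≤ 6 θ ∫_0^{r/4} h dh = (3/16) θ rsq` (kh h⁴ ≤ θ h^(θ+1) ≤ θ h for h ≤ 1), `rsq k0 (θ-1) = 2 k0 θ ≤ 2 c1⁴` (k0_f): `≤ (3/8) θ ∫ A1 Zc² ≤ (3/8) θ DJ` (Zc² ≤ gsq Z).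
p1g: `ofReal (1/5 YY) ≤ ∫⁻_{x ∈ E} ∫⁻_{h ∈ (0, r/4)} ofReal (kh (2 G2 + 2 h⁴ X)) ≤ ofReal (2 Th G2) + (3/8) θ DJ` (ptw, sec; first part: Tonelli, `∫⁻_x ∫⁻_h ofReal (2 kh G2) = ofReal (2 Th G2)`: G2 ≥ 0, adm_I, Adm.int, ofReal_integral_eq_lintegral_ofReal twice). YY as a real integral of a nonnegative function: integral_eq_lintegral_of_nonneg_ae and
ENNReal.toReal_mono (no integrability needed). `Th G2 = GB / (θ (1-θ)) ≤ (20/19) Sc κ GB`. So `YY ≤ 5 (2 (20/19) Sc κ GB + (3/8) DJ / Sc κ) ≤ 11 (Sc κ GB + DJ / Sc κ)`.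
-/
import Pool.Agent.H88.EP.TwB
import Pool.Agent.H88.EP.TwV
import Pool.Agent.H88.EP.TwS

set_option autoImplicit false

open Set Filter Topology MeasureTheory
open scoped ContDiff

namespace Pool.Agent.H88.EP

open Pool.Agent.H16 Pool.Agent.H72.CC Pool.Agent.H87.EP
open Pool.Agent.H87.NS hiding c1
open Pool.Agent.H16.TU hiding Sl
open Pool.Agent.H94.EP

/-- The integrand of the second part. -/
noncomputable def gX (θ L a : ℝ) (v : E3 → E3) (h : ℝ) (x : E3) : ℝ := k0 (θ - 1) x * ph L a (x 2 + h / 2) * sav h (fun y => pd 2 (Zz v) y ^ 2) x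

/-- The endpoint against the mean. -/
theorem TwG_sz {g : E3 → ℝ} (hg : ContDiff ℝ 1 g) (h : ℝ) (x : E3) :
    (sav h g x - g x) ^ 2 ≤ h ^ 2 * sav h (fun y => pd 2 g y ^ 2) x := by
  have g1 : Continuous (pd 2 g) := pd_cont hg 2
  have c0 : Continuous fun s : ℝ => g (sh2 (s * h) x) := TwA_ln hg.continuous h x
  have c1' : Continuous fun s : ℝ => pd 2 g (sh2 (s * h) x) := TwA_ln g1 h x
  have cw : Continuous fun s : ℝ => s - 1 := by fun_prop
  have d0 := TwA_dl (hg.differentiable (by simp)) h x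
  have hd : ∀ s : ℝ, HasDerivAt (fun s : ℝ => (s - 1) * g (sh2 (s * h) x))
      (g (sh2 (s * h) x) + h * ((s - 1) * pd 2 g (sh2 (s * h) x))) s := by
    intro s
    have e1 : HasDerivAt (fun s : ℝ => s - 1) 1 s := (hasDerivAt_id s).sub_const _
    refine (e1.mul (d0 s)).congr_deriv ?_
    ring
  have hI : ∫ s in (0 : ℝ)..1, (g (sh2 (s * h) x) + h * ((s - 1) * pd 2 g (sh2 (s * h) x))) = g x := by
    rw [intervalIntegral.integral_eq_sub_of_hasDerivAt (fun s _ => hd s)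
      ((c0.add (continuous_const.mul (cw.mul c1'))).intervalIntegrable _ _),
      (TwA_end g h x).1, (TwA_end g h x).2]
    ring
  have i1 : IntervalIntegrable (fun s => g (sh2 (s * h) x)) volume 0 1 := c0.intervalIntegrable _ _
  have i2 : IntervalIntegrable (fun s => h * ((s - 1) * pd 2 g (sh2 (s * h) x))) volume 0 1 :=
    (continuous_const.mul (cw.mul c1')).intervalIntegrable _ _
  rw [intervalIntegral.integral_add i1 i2, intervalIntegral.integral_const_mul] at hI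
  have h1 : sav h g x - g x = - h * ∫ s in (0 : ℝ)..1, (s - 1) * pd 2 g (sh2 (s * h) x) := by
    rw [← hI]
    unfold sav
    ring
  have hj := Avk_jensen (g := fun s => (s - 1) * pd 2 g (sh2 (s * h) x)) (cw.mul c1')
  rw [h1, mul_pow, neg_sq]
  refine mul_le_mul_of_nonneg_left (hj.trans ?_) (by positivity)
  refine intervalIntegral.integral_mono_on zero_le_one (((cw.mul c1').pow 2).intervalIntegrable _ _)
    ((c1'.pow 2).intervalIntegrable _ _) fun s hs => ?_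
  show ((s - 1) * pd 2 g (sh2 (s * h) x)) ^ 2 ≤ pd 2 g (sh2 (s * h) x) ^ 2
  rw [mul_pow]
  have h2 : (s - 1) ^ 2 ≤ 1 := by nlinarith [hs.1, hs.2]
  calc (s - 1) ^ 2 * pd 2 g (sh2 (s * h) x) ^ 2 ≤ 1 * pd 2 g (sh2 (s * h) x) ^ 2 :=
        mul_le_mul_of_nonneg_right h2 (sq_nonneg _)
    _ = _ := one_mul _

theorem pt_z {v : E3 → E3} (hv : Vs v) (h : ℝ) (x : E3) :
    h ^ 2 * Zz v x ^ 2 ≤ 2 * fh h v x ^ 2 + 2 * h ^ 4 * sav h (fun y => pd 2 (Zz v) y ^ 2) x := by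
  obtain ⟨hV, -, -, hZ, -⟩ := vs_ri hv
  have h1 : fh h v x = h * sav h (Zz v) x := dif_sav (TwV_c1 hV.sm) h x
  have h2 := mul_le_mul_of_nonneg_left (TwG_sz (TwV_c1 hZ.sm) h x) (sq_nonneg h)
  obtain ⟨S, hS⟩ : ∃ S, S = sav h (fun y => pd 2 (Zz v) y ^ 2) x := ⟨_, rfl⟩
  obtain ⟨m, hm⟩ : ∃ m, m = sav h (Zz v) x := ⟨_, rfl⟩
  obtain ⟨z, hz⟩ : ∃ z, z = Zz v x := ⟨_, rfl⟩
  rw [h1]
  rw [← hS, ← hm, ← hz] at h2 ⊢
  nlinarith [sq_nonneg (h * m - (h * (z - m))), sq_nonneg (h * (2 * m - z))]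

theorem khc {θ c : ℝ} (h0 : 0 < θ) (hc : 0 < c) (hc1 : c ≤ 1 / 16) : ∫⁻ h in Ioo 0 c, ENNReal.ofReal (kh θ h * h ^ 2) = ENNReal.ofReal (c ^ θ) := by
  have e1 : ∫⁻ h in Ioo 0 c, ENNReal.ofReal (kh θ h * h ^ 2) = ∫⁻ h in Ioo 0 c, ENNReal.ofReal (θ * h ^ (θ - 1)) := by
    refine setLIntegral_congr_fun measurableSet_Ioo fun h hh => ?_
    show ENNReal.ofReal (kh θ h * h ^ 2) = ENNReal.ofReal (θ * h ^ (θ - 1))
    rw [TwH_k2 hh.1.ne', abs_of_pos hh.1, TwH_z1 (by rw [abs_of_pos hh.1]; linarith [hh.2])]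
    norm_num
  have h1 : IntervalIntegrable (fun t : ℝ => t ^ (θ - 1)) volume 0 c := intervalIntegral.intervalIntegrable_rpow' (by linarith)
  have h2 : IntegrableOn (fun t : ℝ => θ * t ^ (θ - 1)) (Ioc 0 c) := ((intervalIntegrable_iff_integrableOn_Ioc_of_le hc.le).1 h1).const_mul _
  have h3 : ∫ t in Ioc (0 : ℝ) c, θ * t ^ (θ - 1) = c ^ θ := by
    rw [integral_const_mul, ← intervalIntegral.integral_of_le hc.le, integral_rpow (Or.inl (by linarith))]
    simp only [sub_add_cancel]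
    rw [Real.zero_rpow h0.ne']
    field_simp
    simp
  rw [e1, ← h3, integral_Ioc_eq_integral_Ioo, ofReal_integral_eq_lintegral_ofReal]
  · exact h2.mono_set Ioo_subset_Ioc_self
  · refine (ae_restrict_iff' measurableSet_Ioo).2 (ae_of_all _ fun t ht => ?_)
    exact mul_nonneg h0.le (Real.rpow_nonneg ht.1.le _)

theorem num {κ r : ℝ} (hκ : 1 ≤ κ) (hr : 0 < r) (h1 : 1 ≤ κ * r) :
    1 / 5 * (1 / r ^ 2) ≤ 1 / 3 * ((r ^ 2 / 2) ^ (1 / Sc κ - 1) * (r / 4) ^ (1 / Sc κ)) := by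
  obtain ⟨s1, s2, s3, s4⟩ := Sc_f hκ
  have hκ0 : 0 < κ := by linarith
  have hS : 0 < Sc κ := by linarith
  obtain ⟨θ, hθ⟩ : ∃ θ, θ = 1 / Sc κ := ⟨_, rfl⟩
  have hθS : θ * Sc κ = 1 := by
    rw [hθ]
    field_simp
  rw [← hθ] at s2 s3 ⊢
  have e1 : (r ^ 2 / 2) ^ (θ - 1) * (r / 4) ^ θ = (2 / r ^ 2) * (r ^ 3 / 8) ^ θ := by
    rw [Real.rpow_sub_one (by positivity), show r ^ 3 / 8 = (r ^ 2 / 2) * (r / 4) by ring, Real.mul_rpow (by positivity) (by positivity)]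
    field_simp
  have e2 : (9 : ℝ) / 25 ≤ (r ^ 3 / 8) ^ θ := by
    have e3 : (1 / (8 * κ ^ 3)) ≤ r ^ 3 / 8 := by
      rw [div_le_div_iff₀ (by positivity) (by norm_num)]
      have : 1 ≤ (κ * r) ^ 3 := one_le_pow₀ h1
      nlinarith
    have e4 : (1 / (8 * κ ^ 3)) ^ θ ≤ (r ^ 3 / 8) ^ θ := Real.rpow_le_rpow (by positivity) e3 s2.le
    refine le_trans ?_ e4
    have e5 : Real.log (1 / (8 * κ ^ 3)) = - (3 * Real.log 2 + 3 * Real.log κ) := by
      rw [one_div, Real.log_inv, Real.log_mul (by norm_num) (by positivity), Real.log_pow,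
        show (8 : ℝ) = 2 ^ 3 by norm_num, Real.log_pow]
      push_cast
      ring
    rw [Real.rpow_def_of_pos (by positivity), e5]
    have hl2 : Real.log 2 ≤ 1 := by
      have := Real.log_two_lt_d9
      linarith
    have e6 : θ * (3 * Real.log 2 + 3 * Real.log κ) ≤ 1 := by
      have e7 : 3 * Real.log 2 + 3 * Real.log κ ≤ Sc κ := by linarith
      calc θ * (3 * Real.log 2 + 3 * Real.log κ) ≤ θ * Sc κ := mul_le_mul_of_nonneg_left e7 s2.le
        _ = 1 := hθS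
    have e8 : Real.exp (-1) ≤ Real.exp (-(3 * Real.log 2 + 3 * Real.log κ) * θ) := Real.exp_le_exp.2 (by linarith)
    refine le_trans ?_ e8
    rw [Real.exp_neg, ← one_div, div_le_div_iff₀ (by norm_num) (Real.exp_pos 1)]
    have := Real.exp_one_lt_d9
    linarith
  rw [e1]
  have hr2 : 0 < 1 / r ^ 2 := by positivity
  have e9 : 2 / r ^ 2 * (r ^ 3 / 8) ^ θ = (1 / r ^ 2) * (2 * (r ^ 3 / 8) ^ θ) := by ring
  rw [e9]
  nlinarith only [s3, s2, e2, hr2]

theorem ptw {κ L : ℝ} (hκ : 1 ≤ κ) (hL : 1 ≤ L) (a : ℝ) {v : E3 → E3} (hv : Vs v) {x : E3} (hx : 1 ≤ κ * rad x) (hx1 : rsq x ≤ 1 / 16) :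
    ENNReal.ofReal (1 / 5 * (ph L a (x 2) * Zz v x ^ 2 / rsq x)) ≤
      ∫⁻ h in Ioo 0 (rad x / 4), ENNReal.ofReal (kh (1 / Sc κ) h * (2 * G2 (1 / Sc κ) L a v h x + 2 * h ^ 4 * gX (1 / Sc κ) L a v h x)) := by
  obtain ⟨s1, s2, s3, s4⟩ := Sc_f hκ
  have hn := fun r hr h1 => num (κ := κ) (r := r) hκ hr h1
  obtain ⟨θ, hθ⟩ : ∃ θ, θ = 1 / Sc κ := ⟨_, rfl⟩
  rw [← hθ] at s2 s3 hn ⊢
  have hκ0 : 0 < κ := by linarith
  have hr0 : 0 < rad x := by
    by_contra hneg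
    have : κ * rad x ≤ 0 := mul_nonpos_of_nonneg_of_nonpos hκ0.le (not_lt.1 hneg)
    linarith
  have hrs : rad x ^ 2 = rsq x := rad_sq' x
  have hr1 : rad x ≤ 1 / 4 := by
    by_contra hneg
    have : 1 / 4 < rad x := not_le.1 hneg
    nlinarith only [hκ, hx, hx1, hrs, hneg]
  have hc2 : c2 x = 1 := (c2_f.2.1 x).2.2.1 hx1
  obtain ⟨k, hk⟩ : ∃ k, k = k0 (θ - 1) x := ⟨_, rfl⟩
  have hk0 : 0 ≤ k := by
    rw [hk]
    exact (k0_f (θ - 1)).2.1 x
  have hke : k = (rad x ^ 2 / 2) ^ (θ - 1) := by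
    rw [hk, hrs]
    unfold k0
    rw [hc2, one_pow, mul_one]
  obtain ⟨p, hp⟩ : ∃ p, p = ph L a (x 2) := ⟨_, rfl⟩
  have hp0 : 0 < p := by
    rw [hp]
    exact ph_pos _ _ _
  obtain ⟨z, hz⟩ : ∃ z, z = Zz v x := ⟨_, rfl⟩
  have hc0 : 0 ≤ k * (p / 3) * z ^ 2 := by positivity
  have step : ∀ h ∈ Ioo 0 (rad x / 4), ENNReal.ofReal (k * (p / 3) * z ^ 2) * ENNReal.ofReal (kh θ h * h ^ 2) ≤
      ENNReal.ofReal (kh θ h * (2 * G2 θ L a v h x + 2 * h ^ 4 * gX θ L a v h x)) := by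
    intro h hh
    rw [← ENNReal.ofReal_mul hc0]
    apply ENNReal.ofReal_le_ofReal
    have hkh : 0 ≤ kh θ h := ((kh_f s2 (by linarith)).1 h).1
    have e1 : 2 * G2 θ L a v h x + 2 * h ^ 4 * gX θ L a v h x =
        (k * ph L a (x 2 + h / 2)) * (2 * fh h v x ^ 2 + 2 * h ^ 4 * sav h (fun y => pd 2 (Zz v) y ^ 2) x) := by
      unfold G2 gX
      rw [kx_k0, hk]
      ring
    have hpt := pt_z hv h x
    have hsh : p ≤ 3 * ph L a (x 2 + h / 2) := by
      have hab : |(-(h / 2))| ≤ 1 := by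
        rw [abs_neg, abs_of_pos (by linarith [hh.1])]
        linarith [hh.2]
      have h1 := ph_shift hL a (x 2 + h / 2) (-(h / 2)) hab
      rw [hp]
      simpa using h1
    obtain ⟨q, hq⟩ : ∃ q, q = ph L a (x 2 + h / 2) := ⟨_, rfl⟩
    rw [← hz] at hpt
    rw [e1]
    rw [← hq] at hsh ⊢
    have hq0 : 0 < q := by
      rw [hq]
      exact ph_pos _ _ _
    calc k * (p / 3) * z ^ 2 * (kh θ h * h ^ 2) = kh θ h * ((k * (p / 3)) * (h ^ 2 * z ^ 2)) := by ring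
      _ ≤ kh θ h * ((k * q) * (2 * fh h v x ^ 2 + 2 * h ^ 4 * sav h (fun y => pd 2 (Zz v) y ^ 2) x)) := by
          refine mul_le_mul_of_nonneg_left ?_ hkh
          refine mul_le_mul (mul_le_mul_of_nonneg_left (by linarith) hk0) hpt (by positivity) (by positivity)
  have e2 : ENNReal.ofReal (k * (p / 3) * z ^ 2) * ENNReal.ofReal ((rad x / 4) ^ θ) ≤
      ∫⁻ h in Ioo 0 (rad x / 4), ENNReal.ofReal (kh θ h * (2 * G2 θ L a v h x + 2 * h ^ 4 * gX θ L a v h x)) := by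
    rw [← khc s2 (by linarith : 0 < rad x / 4) (by linarith), ← lintegral_const_mul' _ _ ENNReal.ofReal_ne_top]
    exact setLIntegral_mono' measurableSet_Ioo step
  refine le_trans ?_ e2
  rw [← ENNReal.ofReal_mul hc0, ← hp, ← hz, ← hrs]
  apply ENNReal.ofReal_le_ofReal
  have h5 := hn (rad x) hr0 hx
  rw [← hke] at h5
  have h6 := mul_le_mul_of_nonneg_right h5 (by positivity : 0 ≤ p * z ^ 2)
  calc 1 / 5 * (p * z ^ 2 / rad x ^ 2) = 1 / 5 * (1 / rad x ^ 2) * (p * z ^ 2) := by ring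
    _ ≤ _ := h6
    _ = _ := by ring

/-- The zone of integration. -/
def TwG_E : Set (E3 × ℝ) := {q | 0 < q.2 ∧ q.2 < rad q.1 / 4}

theorem TwG_Em : MeasurableSet TwG_E := by
  refine (measurableSet_lt measurable_const measurable_snd).inter (measurableSet_lt measurable_snd ?_)
  exact (TwV_mrad.comp measurable_fst).div_const 4

theorem TwG_in (x : E3) (F : ℝ → ENNReal) : ∫⁻ h in Ioo 0 (rad x / 4), F h = ∫⁻ h, TwG_E.indicator (fun q => F q.2) (x, h) := by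
  rw [← lintegral_indicator measurableSet_Ioo]
  refine lintegral_congr fun h => ?_
  by_cases hh : h ∈ Ioo 0 (rad x / 4)
  · have h2 : (x, h) ∈ TwG_E := hh
    rw [indicator_of_mem hh, indicator_of_mem h2]
  · have h2 : (x, h) ∉ TwG_E := hh
    rw [indicator_of_notMem hh, indicator_of_notMem h2]

/-- Measurability of the restricted inner integrals. -/
theorem TwG_im {F : E3 × ℝ → ENNReal} (hF : Measurable F) : Measurable (fun x : E3 => ∫⁻ h in Ioo 0 (rad x / 4), F (x, h)) := by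
  have e : (fun x : E3 => ∫⁻ h in Ioo 0 (rad x / 4), F (x, h)) = fun x => ∫⁻ h, TwG_E.indicator F (x, h) := by
    funext x
    rw [TwG_in x (fun h => F (x, h))]
    refine lintegral_congr fun h => ?_
    by_cases h2 : (x, h) ∈ TwG_E
    · rw [indicator_of_mem h2, indicator_of_mem h2]
    · rw [indicator_of_notMem h2, indicator_of_notMem h2]
  rw [e]
  exact (hF.indicator TwG_Em).lintegral_prod_right'

theorem TwG_gXm {θ L a : ℝ} {v : E3 → E3} (hv : Vs v) : Measurable (fun q : E3 × ℝ => gX θ L a v q.2 q.1) := by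
  have hZ := (vs_ri hv).2.2.2.1
  have hg : Continuous (fun y => pd 2 (Zz v) y ^ 2) := hZ.pd2.sm.continuous.pow 2
  obtain ⟨g, hgg⟩ : ∃ g : E3 → ℝ, g = fun y => pd 2 (Zz v) y ^ 2 := ⟨_, rfl⟩
  have hsw : Measurable (fun q : E3 × ℝ => ((q.2, q.1) : ℝ × E3)) := measurable_snd.prodMk measurable_fst
  have c1' : Measurable (fun q : E3 × ℝ => k0 (θ - 1) q.1) := (k0_f (θ - 1)).1.comp measurable_fst
  have hp : Measurable (fun q : E3 × ℝ => q.1 2 + q.2 / 2) := (TwB_co2.comp measurable_fst).add (measurable_snd.div_const 2)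
  have c2' : Measurable (fun q : E3 × ℝ => ph L a (q.1 2 + q.2 / 2)) := (TwB_phm L a).comp hp
  have c3 : Measurable (fun q : E3 × ℝ => sav q.2 g q.1) := by
    rw [← hgg] at hg
    exact (sav_cont hg).1.measurable.comp hsw
  have h4 : Measurable (fun q : E3 × ℝ => k0 (θ - 1) q.1 * ph L a (q.1 2 + q.2 / 2) * sav q.2 g q.1) := (c1'.mul c2').mul c3
  rw [hgg] at h4
  exact h4

/-- The moment of the kernel. -/
theorem TwG_k4 {θ r : ℝ} (h0 : 0 < θ) (h1 : θ ≤ 1 / 2) (hr : 0 ≤ r) :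
    ∫⁻ h in Ioo 0 (r / 4), ENNReal.ofReal (kh θ h * (2 * h ^ 4)) ≤ ENNReal.ofReal (θ * r ^ 2 / 16) := by
  obtain ⟨k1, -, k3, k4, -⟩ := kh_f h0 h1
  have e1 : ∀ h ∈ Ioo 0 (r / 4), ENNReal.ofReal (kh θ h * (2 * h ^ 4)) ≤ ENNReal.ofReal (2 * θ * h) := by
    intro h hh
    apply ENNReal.ofReal_le_ofReal
    rcases le_or_gt h 1 with h5 | h5
    · have h6 := k4 h
      rw [abs_of_pos hh.1] at h6
      have h7 : h ^ (θ - 3) * h ^ 4 ≤ h := by
        have h8 : h ^ (θ - 3) * h ^ 4 = h ^ (θ + 1) := by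
          rw [← Real.rpow_natCast h 4, ← Real.rpow_add hh.1]
          congr 1
          push_cast
          ring
        rw [h8]
        calc h ^ (θ + 1) ≤ h ^ (1 : ℝ) := Real.rpow_le_rpow_of_exponent_ge hh.1 h5 (by linarith)
          _ = h := Real.rpow_one h
      have h9 : 0 ≤ 2 * h ^ 4 := by positivity
      calc kh θ h * (2 * h ^ 4) ≤ θ * h ^ (θ - 3) * (2 * h ^ 4) := mul_le_mul_of_nonneg_right h6 h9
        _ = 2 * θ * (h ^ (θ - 3) * h ^ 4) := by ring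
        _ ≤ 2 * θ * h := mul_le_mul_of_nonneg_left h7 (by positivity)
    · rw [k3 h (by rw [abs_of_pos hh.1]; exact h5), zero_mul]
      have := hh.1
      positivity
  refine (setLIntegral_mono' measurableSet_Ioo e1).trans (le_of_eq ?_)
  have h2 : ∫ t in (0 : ℝ)..(r / 4), 2 * θ * t = θ * r ^ 2 / 16 := by
    rw [intervalIntegral.integral_const_mul, integral_id]
    ring
  rw [intervalIntegral.integral_of_le (by positivity), integral_Ioc_eq_integral_Ioo] at h2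
  rw [← h2, ofReal_integral_eq_lintegral_ofReal]
  · have hc : Continuous (fun t : ℝ => 2 * θ * t) := by fun_prop
    exact (hc.integrableOn_Icc).mono_set Ioo_subset_Icc_self
  · refine (ae_restrict_iff' measurableSet_Ioo).2 (ae_of_all _ fun t ht => ?_)
    have := ht.1
    simp only [Pi.zero_apply]
    positivity

theorem sec {θ L : ℝ} (h0 : 0 < θ) (h1 : θ ≤ 1 / 2) (hL : 1 ≤ L) (a : ℝ) {v : E3 → E3} (hv : Vs v) :
    ∫⁻ x, ∫⁻ h in Ioo 0 (rad x / 4), ENNReal.ofReal (kh θ h * (2 * h ^ 4 * gX θ L a v h x)) ≤ ENNReal.ofReal (3 / 8 * θ * DJ L a v) := by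
  obtain ⟨k1, k2, k3, k4, k5, -⟩ := kh_f h0 h1
  have hZ := (vs_ri hv).2.2.2.1
  obtain ⟨F, hF⟩ : ∃ F : E3 → ℝ, F = fun y => pd 2 (Zz v) y ^ 2 := ⟨_, rfl⟩
  have hFc : Continuous F := by
    rw [hF]
    exact hZ.pd2.sm.continuous.pow 2
  have hF0 : ∀ x, 0 ≤ F x := fun x => by
    rw [hF]
    exact sq_nonneg _
  obtain ⟨m1, m2, m3, -⟩ := k0_f (θ - 1)
  have hgX : ∀ h x, gX θ L a v h x = k0 (θ - 1) x * ph L a (x 2 + h / 2) * sav h F x := fun h x => by
    rw [hF]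
    rfl
  have hM : Measurable (fun q : E3 × ℝ => ENNReal.ofReal (kh θ q.2 * (2 * q.2 ^ 4 * gX θ L a v q.2 q.1))) :=
    ENNReal.measurable_ofReal.comp ((k5.comp measurable_snd).mul (((measurable_snd.pow_const 4).const_mul 2).mul (TwG_gXm hv)))
  -- swap
  have e1 : ∫⁻ x, ∫⁻ h in Ioo 0 (rad x / 4), ENNReal.ofReal (kh θ h * (2 * h ^ 4 * gX θ L a v h x)) =
      ∫⁻ h, ∫⁻ x, TwG_E.indicator (fun q => ENNReal.ofReal (kh θ q.2 * (2 * q.2 ^ 4 * gX θ L a v q.2 q.1))) (x, h) := by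
    rw [← lintegral_lintegral_swap (f := fun (x : E3) (h : ℝ) => TwG_E.indicator (fun q => ENNReal.ofReal (kh θ q.2 * (2 * q.2 ^ 4 * gX θ L a v q.2 q.1))) (x, h))
      (hM.indicator TwG_Em).aemeasurable]
    refine lintegral_congr fun x => ?_
    rw [TwG_in x (fun h => ENNReal.ofReal (kh θ h * (2 * h ^ 4 * gX θ L a v h x)))]
    refine lintegral_congr fun h => ?_
    by_cases h2 : (x, h) ∈ TwG_E
    · rw [indicator_of_mem h2, indicator_of_mem h2]
    · rw [indicator_of_notMem h2, indicator_of_notMem h2]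
  have hM2 : Measurable (fun q : E3 × ℝ => ENNReal.ofReal (kh θ q.2 * (2 * q.2 ^ 4)) * ENNReal.ofReal (k0 (θ - 1) q.1 * ph L a (q.1 2) * F q.1)) := by
    refine (ENNReal.measurable_ofReal.comp ((k5.comp measurable_snd).mul ((measurable_snd.pow_const 4).const_mul 2))).mul
      (ENNReal.measurable_ofReal.comp (((m1.comp measurable_fst).mul ?_).mul (hFc.measurable.comp measurable_fst)))
    exact ((TwB_phm L a).comp TwB_co2).comp measurable_fst
  -- transfer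
  have e2 : ∀ h : ℝ, ∫⁻ x, TwG_E.indicator (fun q => ENNReal.ofReal (kh θ q.2 * (2 * q.2 ^ 4 * gX θ L a v q.2 q.1))) (x, h) ≤
      3 * ∫⁻ x, TwG_E.indicator (fun q => ENNReal.ofReal (kh θ q.2 * (2 * q.2 ^ 4)) * ENNReal.ofReal (k0 (θ - 1) q.1 * ph L a (q.1 2) * F q.1)) (x, h) := by
    intro h
    rcases le_or_gt h 0 with hh | hh
    · have z1 : ∀ x : E3, TwG_E.indicator (fun q => ENNReal.ofReal (kh θ q.2 * (2 * q.2 ^ 4 * gX θ L a v q.2 q.1))) (x, h) = 0 := fun x =>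
        indicator_of_notMem (fun hx => absurd hx.1 (not_lt.2 hh)) _
      simp only [z1, lintegral_zero, zero_le]
    rcases le_or_gt h 1 with hh1 | hh1
    · have hab : |h| ≤ 1 := by
        rw [abs_of_pos hh]
        exact hh1
      have hk0 : 0 ≤ kh θ h * (2 * h ^ 4) := mul_nonneg (k1 h).1 (by positivity)
      obtain ⟨c, hc⟩ : ∃ c : E3 → ℝ, c = {x : E3 | h < rad x / 4}.indicator (k0 (θ - 1)) := ⟨_, rfl⟩
      have hms : MeasurableSet {x : E3 | h < rad x / 4} := measurableSet_lt measurable_const (TwV_mrad.div_const 4)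
      have hcm : Measurable c := by
        rw [hc]
        exact m1.indicator hms
      have hc0 : ∀ x, 0 ≤ c x := fun x => by
        rw [hc]
        exact indicator_nonneg (fun y _ => m2 y) x
      have hcs : ∀ t x, c (sh2 t x) = c x := by
        intro t x
        rw [hc]
        by_cases hx : h < rad x / 4
        · rw [indicator_of_mem (show x ∈ {x : E3 | h < rad x / 4} from hx), indicator_of_mem, m3]
          show h < rad (sh2 t x) / 4
          rw [(sh2_f t x).2.2.2.2.1]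
          exact hx
        · rw [indicator_of_notMem (show x ∉ {x : E3 | h < rad x / 4} from hx), indicator_of_notMem]
          show ¬ h < rad (sh2 t x) / 4
          rw [(sh2_f t x).2.2.2.2.1]
          exact hx
      have hFl : ∀ x : E3, Continuous (fun s : ℝ => F (sh2 (s * h) x)) := fun x =>
        hFc.comp (TwB_shc.comp ((continuous_id.mul continuous_const).prodMk continuous_const))
      have hl := TwB_a (μ := (volume : Measure E3)) (T := sh2) (p := fun x => x 2) hL a sh2_mp TwB_co2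
        (fun t x => (sh2_f t x).2.2.1) hcm hc0 hcs hFc.measurable hF0 hab TwB_shc.measurable
        (fun x => (hFl x).intervalIntegrable 0 1)
      have a1 : ∀ x : E3, TwG_E.indicator (fun q => ENNReal.ofReal (kh θ q.2 * (2 * q.2 ^ 4 * gX θ L a v q.2 q.1))) (x, h) =
          ENNReal.ofReal (kh θ h * (2 * h ^ 4)) * ENNReal.ofReal (c x * ph L a (x 2 + h / 2) * ∫ s in (0 : ℝ)..1, F (sh2 (s * h) x)) := by
        intro x
        rw [← ENNReal.ofReal_mul hk0]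
        by_cases hx : h < rad x / 4
        · have h2 : (x, h) ∈ TwG_E := ⟨hh, hx⟩
          rw [indicator_of_mem h2, hc, indicator_of_mem (show x ∈ {x : E3 | h < rad x / 4} from hx)]
          show ENNReal.ofReal (kh θ h * (2 * h ^ 4 * gX θ L a v h x)) = _
          rw [hgX]
          congr 1
          unfold sav
          ring
        · have h2 : (x, h) ∉ TwG_E := fun h3 => hx h3.2
          rw [indicator_of_notMem h2, hc, indicator_of_notMem (show x ∉ {x : E3 | h < rad x / 4} from hx)]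
          simp
      have a2 : ∀ x : E3, TwG_E.indicator (fun q => ENNReal.ofReal (kh θ q.2 * (2 * q.2 ^ 4)) * ENNReal.ofReal (k0 (θ - 1) q.1 * ph L a (q.1 2) * F q.1)) (x, h) =
          ENNReal.ofReal (kh θ h * (2 * h ^ 4)) * ENNReal.ofReal (c x * ph L a (x 2) * F x) := by
        intro x
        by_cases hx : h < rad x / 4
        · have h2 : (x, h) ∈ TwG_E := ⟨hh, hx⟩
          rw [indicator_of_mem h2, hc, indicator_of_mem (show x ∈ {x : E3 | h < rad x / 4} from hx)]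
        · have h2 : (x, h) ∉ TwG_E := fun h3 => hx h3.2
          rw [indicator_of_notMem h2, hc, indicator_of_notMem (show x ∉ {x : E3 | h < rad x / 4} from hx)]
          simp
      rw [lintegral_congr a1, lintegral_congr a2, lintegral_const_mul' _ _ ENNReal.ofReal_ne_top,
        lintegral_const_mul' _ _ ENNReal.ofReal_ne_top]
      calc _ ≤ ENNReal.ofReal (kh θ h * (2 * h ^ 4)) * (3 * ∫⁻ x, ENNReal.ofReal (c x * ph L a (x 2) * F x)) := by
            gcongr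
        _ = _ := by ring
    · have z0 : kh θ h = 0 := k3 h (by rw [abs_of_pos hh]; exact hh1)
      have z1 : ∀ x : E3, TwG_E.indicator (fun q => ENNReal.ofReal (kh θ q.2 * (2 * q.2 ^ 4 * gX θ L a v q.2 q.1))) (x, h) = 0 := by
        intro x
        by_cases h2 : (x, h) ∈ TwG_E
        · rw [indicator_of_mem h2]
          show ENNReal.ofReal (kh θ h * (2 * h ^ 4 * gX θ L a v h x)) = 0
          rw [z0, zero_mul, ENNReal.ofReal_zero]
        · exact indicator_of_notMem h2 _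
      simp only [z1, lintegral_zero, zero_le]
  -- swap back
  have e3 : ∫⁻ h, ∫⁻ x, TwG_E.indicator (fun q => ENNReal.ofReal (kh θ q.2 * (2 * q.2 ^ 4)) * ENNReal.ofReal (k0 (θ - 1) q.1 * ph L a (q.1 2) * F q.1)) (x, h) =
      ∫⁻ x, ENNReal.ofReal (k0 (θ - 1) x * ph L a (x 2) * F x) * ∫⁻ h in Ioo 0 (rad x / 4), ENNReal.ofReal (kh θ h * (2 * h ^ 4)) := by
    rw [← lintegral_lintegral_swap (f := fun (x : E3) (h : ℝ) => TwG_E.indicator (fun q => ENNReal.ofReal (kh θ q.2 * (2 * q.2 ^ 4)) * ENNReal.ofReal (k0 (θ - 1) q.1 * ph L a (q.1 2) * F q.1)) (x, h))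
      (hM2.indicator TwG_Em).aemeasurable]
    refine lintegral_congr fun x => ?_
    rw [← lintegral_const_mul' _ _ ENNReal.ofReal_ne_top, TwG_in x]
    refine lintegral_congr fun h => ?_
    by_cases h2 : (x, h) ∈ TwG_E
    · rw [indicator_of_mem h2, indicator_of_mem h2]
      exact mul_comm _ _
    · rw [indicator_of_notMem h2, indicator_of_notMem h2]
  have hDJ := F_gsq hL a hZ
  have e4 : ∀ x : E3, 3 * (ENNReal.ofReal (k0 (θ - 1) x * ph L a (x 2) * F x) * ∫⁻ h in Ioo 0 (rad x / 4), ENNReal.ofReal (kh θ h * (2 * h ^ 4))) ≤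
      ENNReal.ofReal (3 / 8 * θ * (A1 L a x * gsq (Zz v) x)) := by
    intro x
    have hr0 : 0 ≤ rad x := Real.sqrt_nonneg _
    have h5 := TwG_k4 h0 h1 hr0
    have h6 : 0 ≤ k0 (θ - 1) x * ph L a (x 2) * F x := mul_nonneg (mul_nonneg (m2 x) (ph_pos _ _ _).le) (hF0 x)
    calc _ ≤ 3 * (ENNReal.ofReal (k0 (θ - 1) x * ph L a (x 2) * F x) * ENNReal.ofReal (θ * rad x ^ 2 / 16)) := by
          gcongr
      _ = ENNReal.ofReal (3 * (k0 (θ - 1) x * ph L a (x 2) * F x * (θ * rad x ^ 2 / 16))) := by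
          rw [ENNReal.ofReal_mul (by norm_num : (0 : ℝ) ≤ 3), ENNReal.ofReal_mul h6]
          norm_num
      _ ≤ _ := by
          apply ENNReal.ofReal_le_ofReal
          have q1 : k0 θ x = rsq x / 2 * k0 (θ - 1) x := (k0_f θ).2.2.2.2.2.1 h0 x
          have q2 : k0 θ x ≤ c1 x ^ 4 := ((k0_f θ).2.2.2.2.2.2.1 h0.le x).2
          have q3 : rad x ^ 2 = rsq x := rad_sq' x
          have q4 : F x ≤ gsq (Zz v) x := by
            rw [hF]
            exact F_pd2_gsq _ x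
          have q5 : 0 < ph L a (x 2) := ph_pos _ _ _
          have q6 : 0 ≤ gsq (Zz v) x := TwS_gsq _ x
          have q7 : 0 ≤ k0 θ x := (k0_f θ).2.1 x
          calc 3 * (k0 (θ - 1) x * ph L a (x 2) * F x * (θ * rad x ^ 2 / 16)) =
                3 / 8 * θ * (k0 θ x * ph L a (x 2) * F x) := by
                rw [q1, q3]
                ring
            _ ≤ 3 / 8 * θ * (c1 x ^ 4 * ph L a (x 2) * gsq (Zz v) x) := by
                refine mul_le_mul_of_nonneg_left ?_ (by positivity)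
                refine mul_le_mul (mul_le_mul_of_nonneg_right q2 q5.le) q4 (hF0 x) ?_
                exact mul_nonneg (pow_nonneg (c1_facts x).1 4) q5.le
            _ = _ := rfl
  rw [e1]
  refine (lintegral_mono e2).trans ?_
  rw [lintegral_const_mul' _ _ (by norm_num), e3, ← lintegral_const_mul' _ _ (by norm_num)]
  refine (lintegral_mono e4).trans (le_of_eq ?_)
  rw [← ofReal_integral_eq_lintegral_ofReal (hDJ.const_mul _) (ae_of_all _ fun x => ?_), integral_const_mul]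
  · rfl
  · exact mul_nonneg (by positivity) (mul_nonneg (A1_nn L a x).1 (TwS_gsq _ x))

theorem TwG_sw {F : ℝ → E3 → ℝ} (hF : Measurable (fun q : ℝ × E3 => F q.1 q.2)) : Measurable (fun q : E3 × ℝ => F q.2 q.1) :=
  hF.comp (measurable_snd.prodMk measurable_fst)

theorem TwG_sl {F : E3 × ℝ → ENNReal} (hF : Measurable F) (x : E3) : Measurable (fun h : ℝ => F (x, h)) :=
  hF.comp (measurable_const.prodMk measurable_id)

theorem TwG_G2m {θ L a : ℝ} {v : E3 → E3} (hv : Vs v) (h0 : 0 < θ) (h1 : θ ≤ 1 / 2) (hL : 1 ≤ L) :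
    Measurable (fun q : E3 × ℝ => G2 θ L a v q.2 q.1) :=
  TwG_sw (F := G2 θ L a v) (adm_I (κ := 1) h0 h1 le_rfl hL a hv).2.1.meas

/-- The first part. -/
theorem TwG_fst {θ L : ℝ} (h0 : 0 < θ) (h1 : θ ≤ 1 / 2) (hL : 1 ≤ L) (a : ℝ) {v : E3 → E3} (hv : Vs v) :
    ∫⁻ x, ∫⁻ h in Ioo 0 (rad x / 4), ENNReal.ofReal (kh θ h * (2 * G2 θ L a v h x)) ≤ ENNReal.ofReal (2 * Th θ (G2 θ L a v)) := by
  obtain ⟨k1, k2, k3, k4, k5, -⟩ := kh_f h0 h1
  have hadm := (adm_I (κ := 1) h0 h1 le_rfl hL a hv).2.1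
  obtain ⟨i1, -, i3⟩ := hadm.int h0 h1 hL
  have hG0 : ∀ h x, 0 ≤ G2 θ L a v h x := fun h x => mul_nonneg ((kx_f hL (θ - 1) a).2.1 h x) (sq_nonneg _)
  have hM : Measurable (fun q : E3 × ℝ => ENNReal.ofReal (kh θ q.2 * (2 * G2 θ L a v q.2 q.1))) :=
    ENNReal.measurable_ofReal.comp ((k5.comp measurable_snd).mul ((TwG_G2m hv h0 h1 hL).const_mul 2))
  calc _ ≤ ∫⁻ x, ∫⁻ h, ENNReal.ofReal (kh θ h * (2 * G2 θ L a v h x)) := lintegral_mono fun x => setLIntegral_le_lintegral _ _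
    _ = ∫⁻ h, ∫⁻ x, ENNReal.ofReal (kh θ h * (2 * G2 θ L a v h x)) :=
        lintegral_lintegral_swap (f := fun (x : E3) (h : ℝ) => ENNReal.ofReal (kh θ h * (2 * G2 θ L a v h x))) hM.aemeasurable
    _ = ∫⁻ h, ENNReal.ofReal (2 * (kh θ h * ∫ x, G2 θ L a v h x)) := by
        refine lintegral_congr fun h => ?_
        rcases le_or_gt |h| 1 with hh | hh
        · have e : 2 * (kh θ h * ∫ x, G2 θ L a v h x) = ∫ x, kh θ h * (2 * G2 θ L a v h x) := by
            rw [integral_const_mul, integral_const_mul]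
            ring
          rw [e, ofReal_integral_eq_lintegral_ofReal (((i1 h hh).const_mul 2).const_mul _)
            (ae_of_all _ fun x => mul_nonneg (k1 h).1 (mul_nonneg zero_le_two (hG0 h x)))]
        · rw [k3 h hh]
          simp
    _ = ENNReal.ofReal (2 * Th θ (G2 θ L a v)) := by
        rw [← ofReal_integral_eq_lintegral_ofReal (i3.const_mul 2) (ae_of_all _ fun h =>
          mul_nonneg zero_le_two (mul_nonneg (k1 h).1 (integral_nonneg fun x => hG0 h x))), integral_const_mul]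
        rfl

theorem p1g : ∃ C : ℝ, 1 ≤ C ∧ ∀ (ε K κ L a : ℝ) (v : E3 → E3), Sl ε K κ v → C ≤ L →
    YY κ L a v ≤ C * (Sc κ * GB (1 / Sc κ) L a v + DJ L a v / Sc κ) := by
  refine ⟨11, by norm_num, fun ε K κ L a v hS hCL => ?_⟩
  have hv := hS.vs
  have hκ := hS.k1
  have hL : 1 ≤ L := by linarith
  obtain ⟨s1, s2, s3, s4⟩ := Sc_f hκ
  have hSp : 0 < Sc κ := by linarith
  have hpt := fun x hx hx1 => ptw (x := x) hκ hL a hv hx hx1
  obtain ⟨θ, hθ⟩ : ∃ θ, θ = 1 / Sc κ := ⟨_, rfl⟩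
  have hθS : θ * Sc κ = 1 := by
    rw [hθ]
    field_simp
  have hdiv : DJ L a v / Sc κ = θ * DJ L a v := by
    rw [hθ]
    ring
  rw [hdiv]
  rw [← hθ] at s2 s3 hpt ⊢
  have h1 : θ ≤ 1 / 2 := by linarith
  obtain ⟨k1, k2, k3, k4, k5, -⟩ := kh_f s2 h1
  obtain ⟨-, -, n3, -, -, -, -, n8⟩ := nn_f hL s2 h1 a hv
  have hG0 : ∀ h x, 0 ≤ G2 θ L a v h x := fun h x => mul_nonneg ((kx_f hL (θ - 1) a).2.1 h x) (sq_nonneg _)
  have hTh0 : 0 ≤ Th θ (G2 θ L a v) := Th_nn s2 h1 hG0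
  have hZ := (vs_ri hv).2.2.2.1
  obtain ⟨E, hE⟩ : ∃ E : Set E3, E = {x : E3 | 1 ≤ κ * rad x ∧ rsq x ≤ 1 / 16} := ⟨_, rfl⟩
  have hEm : MeasurableSet E := by
    rw [hE]
    exact (measurableSet_le measurable_const (TwV_mrad.const_mul κ)).inter (measurableSet_le TwV_rsq_cont.measurable measurable_const)
  have hm : Measurable (fun x : E3 => ph L a (x 2) * Zz v x ^ 2 / rsq x) :=
    (((TwB_phm L a).comp TwB_co2).mul (hZ.sm.continuous.measurable.pow_const 2)).div TwV_rsq_cont.measurable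
  have hnn : ∀ x, 0 ≤ ph L a (x 2) * Zz v x ^ 2 / rsq x := fun x =>
    div_nonneg (mul_nonneg (ph_pos _ _ _).le (sq_nonneg _)) (TwW_rsq_nn x)
  have hYY : YY κ L a v = (∫⁻ x in E, ENNReal.ofReal (ph L a (x 2) * Zz v x ^ 2 / rsq x)).toReal := by
    unfold YY
    rw [← hE, integral_eq_lintegral_of_nonneg_ae (ae_of_all _ hnn) hm.aestronglyMeasurable.restrict]
  have hMG : Measurable (fun q : E3 × ℝ => ENNReal.ofReal (kh θ q.2 * (2 * G2 θ L a v q.2 q.1))) :=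
    ENNReal.measurable_ofReal.comp ((k5.comp measurable_snd).mul ((TwG_G2m hv s2 h1 hL).const_mul 2))
  have hcut : ∀ x : E3, ∫⁻ h in Ioo 0 (rad x / 4), ENNReal.ofReal (kh θ h * (2 * G2 θ L a v h x + 2 * h ^ 4 * gX θ L a v h x)) ≤
      (∫⁻ h in Ioo 0 (rad x / 4), ENNReal.ofReal (kh θ h * (2 * G2 θ L a v h x))) +
      ∫⁻ h in Ioo 0 (rad x / 4), ENNReal.ofReal (kh θ h * (2 * h ^ 4 * gX θ L a v h x)) := by
    intro x
    have hm' := TwG_sl hMG x
    have hm2 : Measurable (fun h : ℝ => ENNReal.ofReal (kh θ h * (2 * G2 θ L a v h x))) := hm'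
    rw [← lintegral_add_left hm2]
    refine lintegral_mono fun h => ?_
    show ENNReal.ofReal (kh θ h * (2 * G2 θ L a v h x + 2 * h ^ 4 * gX θ L a v h x)) ≤
      ENNReal.ofReal (kh θ h * (2 * G2 θ L a v h x)) + ENNReal.ofReal (kh θ h * (2 * h ^ 4 * gX θ L a v h x))
    rw [mul_add]
    exact ENNReal.ofReal_add_le
  have key : ENNReal.ofReal (1 / 5) * ∫⁻ x in E, ENNReal.ofReal (ph L a (x 2) * Zz v x ^ 2 / rsq x) ≤
      ENNReal.ofReal (2 * Th θ (G2 θ L a v) + 3 / 8 * θ * DJ L a v) := by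
    rw [← lintegral_const_mul' _ _ ENNReal.ofReal_ne_top]
    calc ∫⁻ x in E, ENNReal.ofReal (1 / 5) * ENNReal.ofReal (ph L a (x 2) * Zz v x ^ 2 / rsq x)
        ≤ ∫⁻ x in E, ((∫⁻ h in Ioo 0 (rad x / 4), ENNReal.ofReal (kh θ h * (2 * G2 θ L a v h x))) +
            ∫⁻ h in Ioo 0 (rad x / 4), ENNReal.ofReal (kh θ h * (2 * h ^ 4 * gX θ L a v h x))) := by
          refine setLIntegral_mono' hEm fun x hx => ?_
          rw [hE] at hx
          rw [← ENNReal.ofReal_mul (by norm_num)]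
          exact (hpt x hx.1 hx.2).trans (hcut x)
      _ ≤ ∫⁻ x, ((∫⁻ h in Ioo 0 (rad x / 4), ENNReal.ofReal (kh θ h * (2 * G2 θ L a v h x))) +
            ∫⁻ h in Ioo 0 (rad x / 4), ENNReal.ofReal (kh θ h * (2 * h ^ 4 * gX θ L a v h x))) := setLIntegral_le_lintegral _ _
      _ = (∫⁻ x, ∫⁻ h in Ioo 0 (rad x / 4), ENNReal.ofReal (kh θ h * (2 * G2 θ L a v h x))) +
            ∫⁻ x, ∫⁻ h in Ioo 0 (rad x / 4), ENNReal.ofReal (kh θ h * (2 * h ^ 4 * gX θ L a v h x)) :=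
          lintegral_add_left (TwG_im hMG) _
      _ ≤ ENNReal.ofReal (2 * Th θ (G2 θ L a v)) + ENNReal.ofReal (3 / 8 * θ * DJ L a v) :=
          add_le_add (TwG_fst s2 h1 hL a hv) (sec s2 h1 hL a hv)
      _ = _ := (ENNReal.ofReal_add (by positivity) (by positivity)).symm
  have h5 : 1 / 5 * YY κ L a v ≤ 2 * Th θ (G2 θ L a v) + 3 / 8 * θ * DJ L a v := by
    have h6 := ENNReal.toReal_mono ENNReal.ofReal_ne_top key
    rw [ENNReal.toReal_mul, ENNReal.toReal_ofReal (by norm_num), ENNReal.toReal_ofReal (by positivity), ← hYY] at h6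
    exact h6
  have hGB : GB θ L a v = θ * (1 - θ) * Th θ (G2 θ L a v) := (Th_f θ L a v).2.1
  have h7 : Sc κ * GB θ L a v = (1 - θ) * Th θ (G2 θ L a v) := by
    rw [hGB]
    calc Sc κ * (θ * (1 - θ) * Th θ (G2 θ L a v)) = (θ * Sc κ) * ((1 - θ) * Th θ (G2 θ L a v)) := by ring
      _ = _ := by rw [hθS, one_mul]
  rw [h7]
  have h8 : 0 ≤ θ * DJ L a v := mul_nonneg s2.le n3
  linarith only [mul_le_mul_of_nonneg_right s3 hTh0, s3, hTh0, h5, h8]

end Pool.Agent.H88.EP
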