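/-
ROW TwJ (MP_09540e_EP). The identity for fixed `h`. Aux lemmas prefixed TwJ_. PROOF. Fix h (|h| ≤ 1), K = kx θ L a h, f = fh h v, primes = values at `sh2 h x`, W = sW v, V = sV v, w = uz v, R = rdr W = Rw v, Wd = dif h W = W' - W, Vb = mid h V, so `V' = Vb + f/2`, `V = Vb - f/2`, `W' = mid h W + Wd/2`, `W = mid h W - Wd/2`.
id_pt (pointwise, 0 < rsq x). `evJ sqf v f G K = - 2 gsq f K + 2 f G K + f² (adv v K + lap K - 2/rsq rdr K)` (deriv sqf s = 2 s, deriv (deriv sqf) = 2). `adv (v x) K x = W rdr K + w pd 2 K`: by `v x 0 = x 0 W - x 1 V`, `v x 1 = x 1 W + x 0 V` (circ_eq, flux_eq: rsq W = x0 v0 + x1 v1, rsq V = x0 v1 - x1 v0; solve for 0 < rsq: TwJ_v) and `x 0 pd 1 K - x 1 pd 0 K = 0`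
(K is rotation invariant and differentiable at x: differentiate `K (rot t x) = K x` at t = 0; or K = F(rsq, x 2) by the chain rule: `pd i K = x i * k'`). In the same way for V (rotation invariant, smooth): `adv (v (sh2 h x) - v x) (sV v) (sh2 h x) = (W' - W) rdr V' + (w' - w) Z'`, where the components of `v (sh2 h x) - v x` are `x 0 (W' - W) - x 1 (V' - V)`, `x 1 (W' - W) + x 0 (V' - V)` and
`x 0 pd 1 V' - x 1 pd 0 V' = 0`. So `Gh = - 2 (W' V' - W V) - Wd rdr V' - (w' - w) Z'`, and `W' V' - W V = Wb f + Wd Vb` (Wb = mid h W). Then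
   `(1/2) evJ = - K gsq f - 2 K f (Wb f + Wd Vb) - K f Wd (rdr Vb + (1/2) rdr f) - K f wd Z' + (1/2) f² (W rdr K + w pd 2 K) + (1/2) f² (lap K - 2/rsq rdr K)`, wd = w' - w = dif h w.
With `g1 := K f Wd Vb`, `g2 := K Wd f²` (product rule for rdr, all factors differentiable at x):
   `- K f Wd rdr Vb = - rdr g1 + Vb rdr (K f Wd)`, `- (1/2) K f Wd rdr f = - (1/4) K Wd rdr (f²) = - (1/4) rdr g2 + (1/4) f² (rdr K Wd + K rdr Wd)`, `rdr Wd = R' - R = dif h R`.
   `- K f wd Z' = - (1/2) a1f + (1/4) pd 2 K f² wd + (1/2) K f² pd 2 w'`, `pd 2 w' = - (2 W' + R')` (Rw_ri at sh2 h x), `(1/4) pd 2 K f² wd + (1/2) f² w pd 2 K = (1/2) f² pd 2 K (w' + w)/2`, `(1/2) f² W rdr K + (1/4) f² rdr K Wd = (1/2) f² rdr K Wb`,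
   coefficient of K f²: `- 2 Wb + (1/4)(R' - R) - (1/2)(2 W' + R') = - 2 Wb - W' - (1/4) R' - (1/4) R`; and `- W' = - Wb - Wd / 2`, so it is `- 3 Wb - Wd/2 - (1/2) mid h R`; the `- (1/2) K f² Wd = - (1/2) g2`. Altogether
   `(1/2) evJ = P0 - (1/2) a1f - (rdr g1 + 2 g1) - (1/4) (rdr g2 + 2 g2)`  (id_pt; after unfolding everything it is `ring` / linear_combination once the values rdr g1, rdr g2, adv are substituted).
id_h: integrate: `∫ (rdr g_i + 2 g_i) = 0` by ibp_r (TwI): g_i is rotation invariant (all factors are), measurable, zero for rsq ≥ 1/8, bounded by `B ph (x 2)` (kx θ ≤ 3 ph(x 2): kx_f, k0_f, θ > 0; the other factors bounded by vs_bd), `|rdr g_i| ≤ B ph` (`rdr K` by kx_rdr, kc_bd; `|rdr f| ≤ B |h| rad`, on rsq ≤ 1/8; `rdr Wd = dif h R`, `rdr Vb`: |rdr V| = |rsq dh V| ≤ B).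
The integrability of P0 and a1f: adm_P (TwV) with off_int. Then `∫ (1/2) evJ = ∫ P0 - (1/2) ∫ a1f` by integral_congr_ae (a.e. x has 0 < rsq x: ax_null).
-/
import Pool.Agent.H88.EP.TwV
import Pool.Agent.H88.EP.TwI

set_option autoImplicit false

open Set Filter Topology MeasureTheory
open scoped ContDiff

namespace Pool.Agent.H88.EP

open Pool.Agent.H16 Pool.Agent.H72.CC Pool.Agent.H87.EP
open Pool.Agent.H87.NS hiding c1
open Pool.Agent.H16.TU hiding Sl
open Pool.Agent.H94.EP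

/-! Rotation invariant functions. -/

theorem TwJ_gen {g : E3 → ℝ} {x : E3} (hg : DifferentiableAt ℝ g x) (hr : ∀ θ y, g (rot θ y) = g y) :
    x 0 * pd 1 g x - x 1 * pd 0 g x = 0 := by
  have h1 : HasDerivAt (fun s => g (rot s x)) (fderiv ℝ g x (rotGen x)) 0 := by
    have hg' : HasFDerivAt g (fderiv ℝ g x) (rot 0 x) := by
      rw [rot_zero_angle]
      exact hg.hasFDerivAt
    have h2 := hg'.comp_hasDerivAt (0 : ℝ) (hasDerivAt_rot 0 x)
    rw [rot_zero_angle] at h2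
    exact h2
  have h3 : HasDerivAt (fun s => g (rot s x)) 0 0 := by
    have h4 : (fun s => g (rot s x)) = fun _ => g x := funext fun s => hr s x
    rw [h4]
    exact hasDerivAt_const _ _
  have h5 := h1.unique h3
  have h6 : rotGen x = hor (rotGen x) := by
    apply ext3
    · rfl
    · rfl
    · rfl
  rw [h6, VRep_hor, rotGen_zero', rotGen_one'] at h5
  linarith

theorem TwJ_v {v : E3 → E3} (hv : Vs v) {x : E3} (hx : 0 < rsq x) :
    v x 0 = x 0 * sW v x - x 1 * sV v x ∧ v x 1 = x 1 * sW v x + x 0 * sV v x := by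
  have h1 := circ_eq hv.ax x
  have h2 := flux_eq hv.ax x
  unfold circ at h1
  unfold radFlux at h2
  have e : rsq x = x 0 ^ 2 + x 1 ^ 2 := rfl
  constructor
  · apply mul_left_cancel₀ hx.ne'
    have h3 : rsq x * (x 0 * sW v x - x 1 * sV v x) = x 0 * (rsq x * sW v x) - x 1 * (rsq x * sV v x) := by ring
    rw [h3, ← h1, ← h2, e]
    ring
  · apply mul_left_cancel₀ hx.ne'
    have h3 : rsq x * (x 1 * sW v x + x 0 * sV v x) = x 1 * (rsq x * sW v x) + x 0 * (rsq x * sV v x) := by ring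
    rw [h3, ← h1, ← h2, e]
    ring

/-- The transport term for rotation invariant functions. -/
theorem adv_ri {v : E3 → E3} (hv : Vs v) {g : E3 → ℝ} {x : E3} (hx : 0 < rsq x) (hg : DifferentiableAt ℝ g x) (hr : ∀ θ y, g (rot θ y) = g y) :
    adv (v x) g x = sW v x * rdr g x + v x 2 * pd 2 g x ∧ x 0 * pd 1 g x - x 1 * pd 0 g x = 0 := by
  have h1 := TwJ_gen hg hr
  obtain ⟨h2, h3⟩ := TwJ_v hv hx
  refine ⟨?_, h1⟩
  unfold adv rdr
  rw [Fin.sum_univ_three, h2, h3]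
  linear_combination sV v x * h1

theorem TwJ_dif {g : E3 → ℝ} (hg : Ri g) (x : E3) : DifferentiableAt ℝ g x := (hg.sm.differentiable (by simp)) x

theorem Gh_eq {v : E3 → E3} (hv : Vs v) (h : ℝ) {x : E3} (hx : 0 < rsq x) :
    Gh h v x = - 2 * (mid h (sW v) x * fh h v x + dif h (sW v) x * mid h (sV v) x) - dif h (sW v) x * rdr (sV v) (sh2 h x)
      - dif h (uz v) x * Zz v (sh2 h x) := by
  have hV := (vs_ri hv).1
  obtain ⟨y, hy⟩ : ∃ y, y = sh2 h x := ⟨_, rfl⟩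
  obtain ⟨y0, y1, _, yr, _, _⟩ := sh2_f h x
  have hy0 : 0 < rsq (sh2 h x) := by rw [yr]; exact hx
  obtain ⟨a0, a1⟩ := TwJ_v hv hx
  obtain ⟨b0, b1⟩ := TwJ_v hv hy0
  have g1 := TwJ_gen (TwJ_dif hV (sh2 h x)) hV.rot
  have c0 : (v (sh2 h x) - v x) 0 = v (sh2 h x) 0 - v x 0 := rfl
  have c1 : (v (sh2 h x) - v x) 1 = v (sh2 h x) 1 - v x 1 := rfl
  have c2 : (v (sh2 h x) - v x) 2 = v (sh2 h x) 2 - v x 2 := rfl
  unfold Gh adv
  rw [Fin.sum_univ_three, c0, c1, c2, a0, a1, b0, b1]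
  unfold mid dif fh rdr uz Zz
  rw [y0, y1] at g1 ⊢
  linear_combination (- (sV v (sh2 h x) - sV v x)) * g1

theorem TwJ_rm {a b : E3 → ℝ} {x : E3} (ha : DifferentiableAt ℝ a x) (hb : DifferentiableAt ℝ b x) :
    rdr (fun y => a y * b y) x = rdr a x * b x + a x * rdr b x := by
  unfold rdr pd
  rw [fderiv_fun_mul ha hb]
  simp only [_root_.add_apply, _root_.smul_apply, smul_eq_mul]
  ring

theorem TwJ_rdif {g : E3 → ℝ} (hg : Ri g) (h : ℝ) (x : E3) : rdr (dif h g) x = rdr g (sh2 h x) - rdr g x ∧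
    rdr (mid h g) x = (rdr g (sh2 h x) + rdr g x) / 2 := by
  have h1 := (sh_ri hg h).1
  have h2 : rdr (fun y => g (sh2 h y)) x = rdr g (sh2 h x) := (pd_sh 0 g h x).2.1
  constructor
  · rw [TwA_dif, ← h2]
    unfold rdr
    rw [F_pd_lin h1 hg, F_pd_lin h1 hg]
    ring
  · rw [TwA_mid, ← h2]
    unfold rdr
    rw [F_pd_lin h1 hg, F_pd_lin h1 hg]
    ring

/-- The derivatives of the two products. -/
theorem TwJ_g {θ L : ℝ} (hL : 1 ≤ L) (a : ℝ) {v : E3 → E3} (hv : Vs v) (h : ℝ) {x : E3} (hx : 0 < rsq x) :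
    rdr (fun y => kx θ L a h y * fh h v y * dif h (sW v) y * mid h (sV v) y) x =
      rdr (kx θ L a h) x * fh h v x * dif h (sW v) x * mid h (sV v) x +
      kx θ L a h x * rdr (fh h v) x * dif h (sW v) x * mid h (sV v) x +
      kx θ L a h x * fh h v x * rdr (dif h (sW v)) x * mid h (sV v) x +
      kx θ L a h x * fh h v x * dif h (sW v) x * rdr (mid h (sV v)) x ∧
    rdr (fun y => kx θ L a h y * dif h (sW v) y * fh h v y ^ 2) x =
      rdr (kx θ L a h) x * dif h (sW v) x * fh h v x ^ 2 +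
      kx θ L a h x * rdr (dif h (sW v)) x * fh h v x ^ 2 +
      2 * (kx θ L a h x * dif h (sW v) x * fh h v x * rdr (fh h v) x) ∧
    DifferentiableAt ℝ (fun y => kx θ L a h y * fh h v y * dif h (sW v) y * mid h (sV v) y) x ∧
    DifferentiableAt ℝ (fun y => kx θ L a h y * dif h (sW v) y * fh h v y ^ 2) x := by
  obtain ⟨hV, hW, _⟩ := vs_ri hv
  have dK : DifferentiableAt ℝ (kx θ L a h) x := (kx_cd θ a h hL hx).1.differentiableAt (by simp)
  have df : DifferentiableAt ℝ (fh h v) x := TwJ_dif (sh_ri hV h).2.1 x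
  have dW : DifferentiableAt ℝ (dif h (sW v)) x := TwJ_dif (sh_ri hW h).2.1 x
  have dV : DifferentiableAt ℝ (mid h (sV v)) x := TwJ_dif (sh_ri hV h).2.2.1 x
  have p1 : DifferentiableAt ℝ (fun y => kx θ L a h y * fh h v y) x := dK.mul df
  have p2 : DifferentiableAt ℝ (fun y => kx θ L a h y * fh h v y * dif h (sW v) y) x := p1.mul dW
  have q1 : DifferentiableAt ℝ (fun y => kx θ L a h y * dif h (sW v) y) x := dK.mul dW
  have q2 : DifferentiableAt ℝ (fun y => kx θ L a h y * dif h (sW v) y * fh h v y) x := q1.mul df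
  have e2 : (fun y => kx θ L a h y * dif h (sW v) y * fh h v y ^ 2) =
      fun y => kx θ L a h y * dif h (sW v) y * fh h v y * fh h v y := by
    funext y
    ring
  refine ⟨?_, ?_, p2.mul dV, ?_⟩
  · rw [TwJ_rm p2 dV, TwJ_rm p1 dW, TwJ_rm dK df]
    ring
  · rw [e2, TwJ_rm q2 df, TwJ_rm q1 df, TwJ_rm dK dW]
    ring
  · rw [e2]
    exact q2.mul df

theorem TwJ_sqf : deriv sqf = (fun s => 2 * s) ∧ deriv (deriv sqf) = fun _ => 2 := by
  have h1 : deriv sqf = (fun s => 2 * s) := by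
    funext s
    have : HasDerivAt sqf (2 * s) s := by
      have h2 := (hasDerivAt_id s).pow 2
      refine (h2.congr_deriv ?_)
      simp
    exact this.deriv
  refine ⟨h1, ?_⟩
  rw [h1]
  funext s
  have : HasDerivAt (fun s : ℝ => 2 * s) (2 * 1) s := (hasDerivAt_id s).const_mul 2
  rw [this.deriv, mul_one]

theorem id_pt {θ L : ℝ} (h0 : 0 < θ) (h1 : θ ≤ 1 / 2) (hL : 1 ≤ L) (a : ℝ) {v : E3 → E3} (hv : Vs v) (h : ℝ) {x : E3} (hx : 0 < rsq x) :
    1 / 2 * evJ sqf v (fh h v) (Gh h v) (kx θ L a h) x = P0 θ L a v h x - 1 / 2 * a1f θ L a v h x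
      - (rdr (fun y => kx θ L a h y * fh h v y * dif h (sW v) y * mid h (sV v) y) x
          + 2 * (kx θ L a h x * fh h v x * dif h (sW v) x * mid h (sV v) x))
      - 1 / 4 * (rdr (fun y => kx θ L a h y * dif h (sW v) y * fh h v y ^ 2) x + 2 * (kx θ L a h x * dif h (sW v) x * fh h v x ^ 2)) := by
  obtain ⟨hV, hW, _⟩ := vs_ri hv
  obtain ⟨g1, g2, -, -⟩ := TwJ_g (θ := θ) hL a hv h hx
  have dK : DifferentiableAt ℝ (kx θ L a h) x := (kx_cd θ a h hL hx).1.differentiableAt (by simp)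
  have hadv := (adv_ri hv hx dK ((kx_f hL θ a).2.2.1 h)).1
  have hG := Gh_eq hv h hx
  have r1 : rdr (fh h v) x = rdr (sV v) (sh2 h x) - rdr (sV v) x := (TwJ_rdif hV h x).1
  have r2 : rdr (mid h (sV v)) x = (rdr (sV v) (sh2 h x) + rdr (sV v) x) / 2 := (TwJ_rdif hV h x).2
  have r3 : rdr (dif h (sW v)) x = Rw v (sh2 h x) - Rw v x := (TwJ_rdif hW h x).1
  have hp := (Rw_ri hv).2.2.2 (sh2 h x)
  have hev : evJ sqf v (fh h v) (Gh h v) (kx θ L a h) x =
      - 2 * gsq (fh h v) x * kx θ L a h x + 2 * fh h v x * Gh h v x * kx θ L a h x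
        + fh h v x ^ 2 * (adv (v x) (kx θ L a h) x + lap (kx θ L a h) x - 2 / rsq x * rdr (kx θ L a h) x) := by
    unfold evJ
    rw [TwJ_sqf.2, TwJ_sqf.1]
    rfl
  rw [hev, g1, g2, hG, hadv, r1, r2, r3]
  unfold P0 a1f
  rw [hp, r1]
  have e1 : fh h v x = sV v (sh2 h x) - sV v x := rfl
  have e2 : mid h (sW v) x = (sW v (sh2 h x) + sW v x) / 2 := rfl
  have e3 : dif h (sW v) x = sW v (sh2 h x) - sW v x := rfl
  have e4 : mid h (sV v) x = (sV v (sh2 h x) + sV v x) / 2 := rfl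
  have e5 : mid h (uz v) x = (v (sh2 h x) 2 + v x 2) / 2 := rfl
  have e6 : dif h (uz v) x = v (sh2 h x) 2 - v x 2 := rfl
  have e7 : mid h (Rw v) x = (Rw v (sh2 h x) + Rw v x) / 2 := rfl
  have e8 : dif h (Rw v) x = Rw v (sh2 h x) - Rw v x := rfl
  rw [e1, e2, e3, e4, e5, e6, e7, e8]
  ring

/-! The integrals. -/

theorem TwJ_abs4 {a b c d T P : ℝ} (hT : 0 ≤ T) (hP : 0 ≤ P) (ha : |a| ≤ T * P) (hb : |b| ≤ T) (hc : |c| ≤ T) (hd : |d| ≤ T) :
    |a * b * c * d| ≤ T ^ 4 * P := by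
  rw [abs_mul, abs_mul, abs_mul]
  calc |a| * |b| * |c| * |d| ≤ T * P * T * T * T := by
        refine mul_le_mul (mul_le_mul (mul_le_mul ha hb (abs_nonneg _) (by positivity)) hc (abs_nonneg _) (by positivity))
          hd (abs_nonneg _) (by positivity)
    _ = T ^ 4 * P := by ring

/-- All the bounds. -/
theorem TwJ_bd {θ L : ℝ} (h0 : 0 < θ) (h1 : θ ≤ 1 / 2) (hL : 1 ≤ L) (a : ℝ) {v : E3 → E3} (hv : Vs v) {h : ℝ} (hh : |h| ≤ 1) :
    ∃ T : ℝ, 1 ≤ T ∧ ∀ x, |kx θ L a h x| ≤ T * ph L a (x 2) ∧ |fh h v x| ≤ T ∧ |dif h (sW v) x| ≤ T ∧ |mid h (sV v) x| ≤ T ∧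
      |rdr (dif h (sW v)) x| ≤ T ∧ (0 < rsq x → |rdr (kx θ L a h) x| ≤ T * ph L a (x 2)) ∧
      |kx θ L a h x * rdr (fh h v) x| ≤ T * ph L a (x 2) ∧ |kx θ L a h x * rdr (mid h (sV v)) x| ≤ T * ph L a (x 2) := by
  obtain ⟨hV, hW, _⟩ := vs_ri hv
  obtain ⟨B, hB1, hB⟩ := vs_bd hv
  obtain ⟨D, hD⟩ := hV.dh.db 0
  obtain ⟨C, hC1, hC⟩ := kc_bd
  have hD1 : ∀ x, |dh (sV v) x| ≤ D := fun x => hD.1 x
  have hD0 : 0 ≤ D := (abs_nonneg _).trans (hD1 0)
  obtain ⟨k1, k2, k3, k4, k5, k6, k7⟩ := kx_f hL θ a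
  obtain ⟨m1, m2, m3, m4, m5, m6, m7, m8⟩ := k0_f θ
  have hk0 : ∀ x, k0 θ x ≤ 1 := fun x => by
    have e1 := (m7 h0.le x).1
    have e2 := (c2_f.2.1 x).2.1
    have e3 := (c2_f.2.1 x).1
    exact e1.trans (pow_le_one₀ e3 e2)
  have hK : ∀ x, kx θ L a h x ≤ 3 * ph L a (x 2) := fun x => by
    have e1 := k5 h x (by linarith)
    have e2 := ph_pos L a (x 2)
    have e3 : k0 θ x * ph L a (x 2) ≤ 1 * ph L a (x 2) := mul_le_mul_of_nonneg_right (hk0 x) e2.le
    linarith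
  have hKn := k2 h
  -- on the support
  have hsup : ∀ x (t : ℝ), 0 ≤ t → (rsq x ≤ 1 / 8 → t ≤ B + D) → kx θ L a h x * t ≤ 3 * (B + D) * ph L a (x 2) := by
    intro x t ht hle
    have e2 := ph_pos L a (x 2)
    rcases le_or_gt (1 / 8) (rsq x) with h8 | h8
    · rw [k4 h x h8, zero_mul]
      positivity
    · calc kx θ L a h x * t ≤ 3 * ph L a (x 2) * (B + D) := mul_le_mul (hK x) (hle h8.le) ht (by positivity)
        _ = _ := by ring
  have hrd : ∀ x, rsq x ≤ 1 / 8 → |rdr (sV v) x| ≤ D := fun x hx => by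
    rw [rdr_eq hV, abs_mul, abs_of_nonneg (TwW_rsq_nn x)]
    calc rsq x * |dh (sV v) x| ≤ 1 * D := mul_le_mul (by linarith) (hD1 x) (abs_nonneg _) zero_le_one
      _ = D := one_mul D
  refine ⟨3 * (B + D) + 3 + 3 * C, by linarith, fun x => ?_⟩
  have hp := ph_pos L a (x 2)
  have hT1 : B ≤ 3 * (B + D) + 3 + 3 * C := by linarith
  obtain ⟨b1, b2, b3, b4, b5⟩ := hB h x
  have hBh : B * |h| ≤ B := mul_le_of_le_one_right (by linarith) hh
  have hT2 : 3 * (B + D) * ph L a (x 2) ≤ (3 * (B + D) + 3 + 3 * C) * ph L a (x 2) :=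
    mul_le_mul_of_nonneg_right (by linarith) hp.le
  refine ⟨?_, b2.1.trans (hBh.trans hT1), b2.2.1.trans (hBh.trans hT1), b5.2.2.2.2.2.2.trans hT1, ?_, ?_, ?_, ?_⟩
  · rw [abs_of_nonneg (hKn x)]
    refine (hK x).trans (mul_le_mul_of_nonneg_right (by linarith) hp.le)
  · have e1 : rdr (dif h (sW v)) x = dif h (Rw v) x := (TwJ_rdif hW h x).1
    rw [e1]
    exact b2.2.2.1.trans (hBh.trans hT1)
  · intro hx
    rw [kx_rdr θ L a h hx]
    have e1 := hC θ L a h (by rw [abs_of_pos h0]; linarith) x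
    have e2 : ou x ≤ 1 := by
      unfold ou
      exact indicator_le_self' (fun _ _ => zero_le_one) x
    have e3 := ph_pos L a (x 2 + h / 2)
    have e4 : ph L a (x 2 + h / 2) ≤ 3 * ph L a (x 2) := ph_shift hL a (x 2) (h / 2) (by
      rw [abs_div, abs_of_pos (by norm_num : (0 : ℝ) < 2)]
      linarith)
    have e5 : ou x * ph L a (x 2 + h / 2) ≤ 1 * (3 * ph L a (x 2)) := mul_le_mul e2 e4 e3.le zero_le_one
    have e6 : |2 * θ * kx θ L a h x| ≤ 3 * ph L a (x 2) := by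
      rw [abs_mul, abs_of_pos (by linarith : 0 < 2 * θ), abs_of_nonneg (hKn x)]
      calc 2 * θ * kx θ L a h x ≤ 1 * (3 * ph L a (x 2)) := mul_le_mul (by linarith) (hK x) (hKn x) zero_le_one
        _ = _ := one_mul _
    have e7 : |kc θ L a h x| ≤ C * (3 * ph L a (x 2)) := by
      refine e1.trans (mul_le_mul_of_nonneg_left ?_ (by linarith))
      rw [one_mul] at e5
      exact e5
    refine (abs_add_le _ _).trans ((add_le_add e6 e7).trans ?_)
    have e8 : 3 * ph L a (x 2) + C * (3 * ph L a (x 2)) = (3 + 3 * C) * ph L a (x 2) := by ring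
    rw [e8]
    exact mul_le_mul_of_nonneg_right (by linarith) hp.le
  · rw [abs_mul, abs_of_nonneg (hKn x)]
    refine (hsup x _ (abs_nonneg _) fun h8 => ?_).trans hT2
    refine b4.trans ?_
    have e1 : rad x ≤ 1 := by
      have e2 : rad x ^ 2 ≤ 1 := by
        rw [rad_sq']
        linarith
      have e3 : 0 ≤ rad x := Real.sqrt_nonneg _
      nlinarith only [h0, h1, e2, e3]
    calc B * |h| * rad x ≤ B * 1 := mul_le_mul hBh e1 (Real.sqrt_nonneg _) (by linarith)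
      _ ≤ B + D := by linarith
  · rw [abs_mul, abs_of_nonneg (hKn x)]
    refine (hsup x _ (abs_nonneg _) fun h8 => ?_).trans hT2
    rw [(TwJ_rdif hV h x).2]
    have e1 := hrd x h8
    have e2 := hrd (sh2 h x) (by rw [(sh2_f h x).2.2.2.1]; exact h8)
    rw [abs_div, abs_of_pos (by norm_num : (0 : ℝ) < 2)]
    have e3 := abs_add_le (rdr (sV v) (sh2 h x)) (rdr (sV v) x)
    linarith

theorem TwJ_ibp {θ L : ℝ} (h0 : 0 < θ) (h1 : θ ≤ 1 / 2) (hL : 1 ≤ L) (a : ℝ) {v : E3 → E3} (hv : Vs v) {h : ℝ} (hh : |h| ≤ 1) :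
    (Integrable (fun x => rdr (fun y => kx θ L a h y * fh h v y * dif h (sW v) y * mid h (sV v) y) x
        + 2 * (kx θ L a h x * fh h v x * dif h (sW v) x * mid h (sV v) x)) ∧
      ∫ x, (rdr (fun y => kx θ L a h y * fh h v y * dif h (sW v) y * mid h (sV v) y) x
        + 2 * (kx θ L a h x * fh h v x * dif h (sW v) x * mid h (sV v) x)) = 0) ∧
    (Integrable (fun x => rdr (fun y => kx θ L a h y * dif h (sW v) y * fh h v y ^ 2) x
        + 2 * (kx θ L a h x * dif h (sW v) x * fh h v x ^ 2)) ∧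
      ∫ x, (rdr (fun y => kx θ L a h y * dif h (sW v) y * fh h v y ^ 2) x
        + 2 * (kx θ L a h x * dif h (sW v) x * fh h v x ^ 2)) = 0) := by
  obtain ⟨hV, hW, _⟩ := vs_ri hv
  obtain ⟨T, hT1, hb⟩ := TwJ_bd h0 h1 hL a hv hh
  have hT : 0 ≤ T := by linarith
  have one : |(1 : ℝ)| ≤ T := by rw [abs_one]; exact hT1
  obtain ⟨k1, k2, k3, k4, k5, k6, k7⟩ := kx_f hL θ a
  have cK : Continuous (kx θ L a h) := k7 h0 h
  have rf : Ri (fh h v) := (sh_ri hV h).2.1
  have rW : Ri (dif h (sW v)) := (sh_ri hW h).2.1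
  have rV : Ri (mid h (sV v)) := (sh_ri hV h).2.2.1
  have gen : ∀ G : E3 → ℝ, Continuous G → (∀ x, 0 < rsq x → DifferentiableAt ℝ G x) → (∀ θ x, G (rot θ x) = G x) →
      (∀ x, 1 / 8 ≤ rsq x → G x = 0) → (∀ x, |G x| ≤ 4 * T ^ 4 * ph L a (x 2)) →
      (∀ x, 0 < rsq x → |rdr G x| ≤ 4 * T ^ 4 * ph L a (x 2)) →
      Integrable (fun x => rdr G x + 2 * G x) ∧ ∫ x, (rdr G x + 2 * G x) = 0 := by
    intro G c1 c2 c3 c4 c5 c6
    obtain ⟨i1, i2, i3⟩ := ibp_r hL c2 c1.measurable c3 c4 c5 c6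
    have i4 := i1.const_mul 2
    refine ⟨i2.add i4, ?_⟩
    rw [integral_add i2 i4, integral_const_mul, i3]
    ring
  constructor
  · refine gen (fun y => kx θ L a h y * fh h v y * dif h (sW v) y * mid h (sV v) y) ?_ ?_ ?_ ?_ ?_ ?_
    · exact ((cK.mul rf.sm.continuous).mul rW.sm.continuous).mul rV.sm.continuous
    · intro x hx
      exact (TwJ_g hL a hv h hx).2.2.1
    · intro t x
      show kx θ L a h (rot t x) * fh h v (rot t x) * dif h (sW v) (rot t x) * mid h (sV v) (rot t x) = _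
      rw [k3, rf.rot, rW.rot, rV.rot]
    · intro x hx
      show kx θ L a h x * fh h v x * dif h (sW v) x * mid h (sV v) x = 0
      rw [k4 h x hx, zero_mul, zero_mul, zero_mul]
    · intro x
      obtain ⟨b1, b2, b3, b4, b5, b6, b7, b8⟩ := hb x
      have hp := ph_pos L a (x 2)
      have e1 := TwJ_abs4 hT hp.le b1 b2 b3 b4
      have e2 : 0 ≤ T ^ 4 * ph L a (x 2) := by positivity
      refine e1.trans ?_
      linarith
    · intro x hx
      obtain ⟨b1, b2, b3, b4, b5, b6, b7, b8⟩ := hb x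
      have hp := ph_pos L a (x 2)
      rw [(TwJ_g hL a hv h hx).1]
      have e1 := TwJ_abs4 hT hp.le (b6 hx) b2 b3 b4
      have e2 := TwJ_abs4 hT hp.le b7 b3 b4 one
      have e3 := TwJ_abs4 hT hp.le b1 b2 b5 b4
      have e4 := TwJ_abs4 hT hp.le b8 b2 b3 one
      have f2 : kx θ L a h x * rdr (fh h v) x * dif h (sW v) x * mid h (sV v) x * 1 =
        kx θ L a h x * rdr (fh h v) x * dif h (sW v) x * mid h (sV v) x := mul_one _
      have f4 : kx θ L a h x * rdr (mid h (sV v)) x * fh h v x * dif h (sW v) x * 1 =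
        kx θ L a h x * fh h v x * dif h (sW v) x * rdr (mid h (sV v)) x := by ring
      rw [f2] at e2
      rw [f4] at e4
      refine (abs_add_le _ _).trans ((add_le_add ((abs_add_le _ _).trans (add_le_add ((abs_add_le _ _).trans
        (add_le_add e1 e2)) e3)) e4).trans (le_of_eq ?_))
      ring
  · refine gen (fun y => kx θ L a h y * dif h (sW v) y * fh h v y ^ 2) ?_ ?_ ?_ ?_ ?_ ?_
    · exact (cK.mul rW.sm.continuous).mul (rf.sm.continuous.pow 2)
    · intro x hx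
      exact (TwJ_g hL a hv h hx).2.2.2
    · intro t x
      show kx θ L a h (rot t x) * dif h (sW v) (rot t x) * fh h v (rot t x) ^ 2 = _
      rw [k3, rf.rot, rW.rot]
    · intro x hx
      show kx θ L a h x * dif h (sW v) x * fh h v x ^ 2 = 0
      rw [k4 h x hx, zero_mul, zero_mul]
    · intro x
      obtain ⟨b1, b2, b3, b4, b5, b6, b7, b8⟩ := hb x
      have hp := ph_pos L a (x 2)
      have e1 := TwJ_abs4 hT hp.le b1 b3 b2 b2
      have f1 : kx θ L a h x * dif h (sW v) x * fh h v x * fh h v x = kx θ L a h x * dif h (sW v) x * fh h v x ^ 2 := by ring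
      have e2 : 0 ≤ T ^ 4 * ph L a (x 2) := by positivity
      rw [f1] at e1
      refine e1.trans ?_
      linarith
    · intro x hx
      obtain ⟨b1, b2, b3, b4, b5, b6, b7, b8⟩ := hb x
      have hp := ph_pos L a (x 2)
      rw [(TwJ_g hL a hv h hx).2.1]
      have e1 := TwJ_abs4 hT hp.le (b6 hx) b3 b2 b2
      have e2 := TwJ_abs4 hT hp.le b1 b5 b2 b2
      have e3 := TwJ_abs4 hT hp.le b7 b3 b2 one
      have f1 : rdr (kx θ L a h) x * dif h (sW v) x * fh h v x * fh h v x =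
        rdr (kx θ L a h) x * dif h (sW v) x * fh h v x ^ 2 := by ring
      have f2 : kx θ L a h x * rdr (dif h (sW v)) x * fh h v x * fh h v x =
        kx θ L a h x * rdr (dif h (sW v)) x * fh h v x ^ 2 := by ring
      have f3 : kx θ L a h x * rdr (fh h v) x * dif h (sW v) x * fh h v x * 1 =
        kx θ L a h x * dif h (sW v) x * fh h v x * rdr (fh h v) x := by ring
      rw [f1] at e1
      rw [f2] at e2
      rw [f3] at e3
      have e4 : |2 * (kx θ L a h x * dif h (sW v) x * fh h v x * rdr (fh h v) x)| ≤ 2 * (T ^ 4 * ph L a (x 2)) := by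
        rw [abs_mul, abs_of_pos (by norm_num : (0 : ℝ) < 2)]
        exact mul_le_mul_of_nonneg_left e3 (by norm_num)
      refine (abs_add_le _ _).trans ((add_le_add ((abs_add_le _ _).trans (add_le_add e1 e2)) e4).trans (le_of_eq ?_))
      ring

theorem TwJ_lin {A B C D : E3 → ℝ} (hA : Integrable A) (hB : Integrable B) (hC : Integrable C) (hD : Integrable D) (c d : ℝ) :
    ∫ x, (A x - c * B x - C x - d * D x) = (∫ x, A x) - c * (∫ x, B x) - (∫ x, C x) - d * ∫ x, D x := by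
  have e1 : Integrable (fun x => c * B x) := hB.const_mul c
  have e2 : Integrable (fun x => d * D x) := hD.const_mul d
  have e3 : Integrable (fun x => A x - c * B x) := hA.sub e1
  have e4 : Integrable (fun x => A x - c * B x - C x) := e3.sub hC
  rw [integral_sub e4 e2, integral_sub e3 hC, integral_sub hA e1, integral_const_mul, integral_const_mul]

theorem id_h {θ L : ℝ} (h0 : 0 < θ) (h1 : θ ≤ 1 / 2) (hL : 1 ≤ L) (a : ℝ) {v : E3 → E3} (hv : Vs v) {h : ℝ} (hh : |h| ≤ 1) :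
    (1 / 2 * ∫ x, evJ sqf v (fh h v) (Gh h v) (kx θ L a h) x) = (∫ x, P0 θ L a v h x) - 1 / 2 * ∫ x, a1f θ L a v h x := by
  obtain ⟨⟨i1, j1⟩, ⟨i2, j2⟩⟩ := TwJ_ibp h0 h1 hL a hv hh
  obtain ⟨p0, -, -, -, p1⟩ := adm_P h0 h1 hL a hv
  have q0 : Integrable (P0 θ L a v h) := (off_int _ h).2.1 ((p0.int h0 h1 hL).1 h hh)
  have q1 : Integrable (a1f θ L a v h) := (off_int _ h).2.1 ((p1.int h0 h1 hL).1 h hh)
  have hae : ∀ᵐ x : E3, 1 / 2 * evJ sqf v (fh h v) (Gh h v) (kx θ L a h) x = P0 θ L a v h x - 1 / 2 * a1f θ L a v h x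
      - (rdr (fun y => kx θ L a h y * fh h v y * dif h (sW v) y * mid h (sV v) y) x
          + 2 * (kx θ L a h x * fh h v x * dif h (sW v) x * mid h (sV v) x))
      - 1 / 4 * (rdr (fun y => kx θ L a h y * dif h (sW v) y * fh h v y ^ 2) x + 2 * (kx θ L a h x * dif h (sW v) x * fh h v x ^ 2)) := by
    have hn : ∀ᵐ x : E3, 0 < rsq x := by
      rw [ae_iff]
      exact ax_null
    filter_upwards [hn] with x hx
    exact id_pt h0 h1 hL a hv h hx
  rw [← integral_const_mul, integral_congr_ae hae]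
  refine (TwJ_lin q0 q1 i1 i2 (1 / 2) (1 / 4)).trans ?_
  rw [j1, j2]
  ring

end Pool.Agent.H88.EP
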