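/-
ROW TwK (MP_09540e_EP). `a h = ∫ K f² (u_z' - u_z)` is C¹ in `h`. Aux lemmas prefixed TwK_.
-/
import Pool.Agent.H88.EP.TwV

set_option autoImplicit false

open Set Filter Topology MeasureTheory
open scoped ContDiff

namespace Pool.Agent.H88.EP

open Pool.Agent.H16 Pool.Agent.H72.CC Pool.Agent.H87.EP
open Pool.Agent.H87.NS hiding c1
open Pool.Agent.H16.TU hiding Sl
open Pool.Agent.H94.EP

theorem TwK_line {g : E3 → ℝ} (hg : ContDiff ℝ ∞ g) (x : E3) (t : ℝ) :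
    HasDerivAt (fun t : ℝ => g (sh2 t x)) (pd 2 g (sh2 t x)) t := by
  have h1 := TwA_dl (hg.differentiable (by simp)) 1 x t
  simpa only [mul_one, one_mul] using h1

theorem TwK_lc {g : E3 → ℝ} (hg : Continuous g) (x : E3) : Continuous (fun t : ℝ => g (sh2 t x)) :=
  hg.comp (sh2_sm.continuous.comp (by fun_prop : Continuous fun t : ℝ => (t, x)))

theorem TwK_ae : ∀ᵐ x : E3, 0 < rsq x := by
  rw [ae_iff]
  exact ax_null

theorem TwK_off (F : ℝ → E3 → ℝ) (h : ℝ) : off F h =ᵐ[volume] F h := by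
  filter_upwards [TwK_ae] with x hx
  exact indicator_of_mem (s := {x : E3 | 0 < rsq x}) hx (F h)

theorem TwK_pt {θ L : ℝ} (hL : 1 ≤ L) (a : ℝ) {v : E3 → E3} (hv : Vs v) {x : E3} (hx : 0 < rsq x) (t : ℝ) :
    HasDerivAt (fun t => a0f θ L a v t x) (a1f θ L a v t x) t := by
  obtain ⟨rV, -, -, -, ru⟩ := vs_ri hv
  have hV := TwK_line rV.sm x t
  have hu := TwK_line (g := uz v) ru.sm x t
  have hp : HasDerivAt (fun t : ℝ => ph L a (x 2 + t / 2)) (deriv (ph L a) (x 2 + t / 2) * (1 / 2)) t := by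
    have h1 : HasDerivAt (fun t : ℝ => x 2 + t / 2) (1 / 2) t := ((hasDerivAt_id t).div_const 2).const_add (x 2)
    have h2 : HasDerivAt (ph L a) (deriv (ph L a) (x 2 + t / 2)) (x 2 + t / 2) :=
      (((ph_smooth L a).differentiable (by simp)) _).hasDerivAt
    exact HasDerivAt.comp (h₂ := ph L a) (h := fun t : ℝ => x 2 + t / 2) t h2 h1
  have h1 := (((hp.const_mul (k0 θ x)).mul ((hV.sub_const (sV v x)).pow 2))).mul (hu.sub_const (uz v x))
  refine h1.congr_deriv ?_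
  unfold a1f
  rw [(kx_pd2 hL θ a t hx).1, kx_k0, fh_dif]
  unfold dif Zz
  simp only [Pi.mul_apply, Pi.pow_apply]
  push_cast
  ring

theorem TwK_ct {θ L : ℝ} (hL : 1 ≤ L) (a : ℝ) {v : E3 → E3} (hv : Vs v) {x : E3} (hx : 0 < rsq x) :
    Continuous (fun t => a1f θ L a v t x) := by
  obtain ⟨rV, -, -, rZ, ru⟩ := vs_ri hv
  have cV := TwK_lc rV.sm.continuous x
  have cZ := TwK_lc rZ.sm.continuous x
  have cu := TwK_lc (g := uz v) ru.sm.continuous x
  have cu2 : Continuous (fun t : ℝ => pd 2 (uz v) (sh2 t x)) := TwK_lc (pd_cont (ru.sm.of_le (by simp)) 2) x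
  have cp : Continuous (fun t : ℝ => ph L a (x 2 + t / 2)) := (ph_smooth L a).continuous.comp (by fun_prop)
  have cp1 : Continuous (fun t : ℝ => deriv (ph L a) (x 2 + t / 2)) :=
    (contDiff_infty_iff_deriv.1 (ph_smooth L a)).2.continuous.comp (by fun_prop)
  have e : (fun t => a1f θ L a v t x) = fun t =>
      1 / 2 * (k0 θ x * deriv (ph L a) (x 2 + t / 2)) * (sV v (sh2 t x) - sV v x) ^ 2 * (uz v (sh2 t x) - uz v x) +
        2 * (k0 θ x * ph L a (x 2 + t / 2)) * (sV v (sh2 t x) - sV v x) * Zz v (sh2 t x) * (uz v (sh2 t x) - uz v x) +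
        (k0 θ x * ph L a (x 2 + t / 2)) * (sV v (sh2 t x) - sV v x) ^ 2 * pd 2 (uz v) (sh2 t x) := by
    funext t
    unfold a1f
    rw [(kx_pd2 hL θ a t hx).1, kx_k0, fh_dif]
    rfl
  rw [e]
  fun_prop

theorem TwK_bd {θ L : ℝ} (h0 : 0 < θ) (h1 : θ ≤ 1 / 2) (hL : 1 ≤ L) (a : ℝ) {v : E3 → E3} (hv : Vs v) :
    ∃ B : ℝ, 0 ≤ B ∧ (∀ h, |h| ≤ 1 → ∀ x, 0 < rsq x → |a1f θ L a v h x| ≤ B * (h ^ 2 * wr θ L a x)) ∧
      ∀ h, |h| ≤ 1 → ∀ x, 0 < rsq x → |a0f θ L a v h x| ≤ B * (|h| ^ 3 * wr θ L a x) := by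
  obtain ⟨-, -, -, hA, hA'⟩ := adm_P h0 h1 hL a hv
  obtain ⟨B1, hB1⟩ := hA'.bd
  obtain ⟨B2, hB2, hb⟩ := vs_bd hv
  have hw := (wr_int (θ := θ) h0 hL a).2
  refine ⟨max (max B1 0) (3 * B2 ^ 3), le_trans (le_max_right _ _) (le_max_left _ _), fun h hh x hx => ?_, fun h hh x hx => ?_⟩
  · have h2 := hB1 h hh x hx
    have e : off (a1f θ L a v) h x = a1f θ L a v h x := indicator_of_mem (s := {x : E3 | 0 < rsq x}) hx _
    rw [e] at h2
    refine h2.trans ?_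
    have h3 : 0 ≤ h ^ 2 * wr θ L a x := mul_nonneg (sq_nonneg _) (hw x)
    exact mul_le_mul_of_nonneg_right ((le_max_left B1 0).trans (le_max_left _ _)) h3
  · have hk : kx θ L a h x ≤ 3 * wr θ L a x := by
      obtain ⟨-, kx0, -, kz, kb, -⟩ := kx_f hL θ a
      by_cases hq : 1 / 8 ≤ rsq x
      · rw [kz h x hq]
        have := hw x
        positivity
      · push Not at hq
        refine (kb h x (by linarith)).trans ?_
        have e1 : wr θ L a x = (rsq x / 2) ^ (θ - 1) * ph L a (x 2) :=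
          indicator_of_mem (s := {x : E3 | rsq x < 1}) (by show rsq x < 1; linarith) _
        rw [e1]
        have hp := (ph_pos L a (x 2)).le
        have h3 : k0 θ x ≤ (rsq x / 2) ^ (θ - 1) := by
          obtain ⟨-, k00, -, -, -, -, -, k16⟩ := k0_f θ
          have h4 := k16 h0 x
          have h5 := (k0_f (θ - 1)).2.1 x
          have h6 : k0 (θ - 1) x ≤ (rsq x / 2) ^ (θ - 1) := by
            unfold k0
            have h7 := (c2_f.2.1 x).1
            have h8 := (c2_f.2.1 x).2.1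
            have h9 : c2 x ^ 4 ≤ 1 := pow_le_one₀ h7 h8
            have h10 : 0 ≤ (rsq x / 2) ^ (θ - 1) := Real.rpow_nonneg (by positivity) _
            calc (rsq x / 2) ^ (θ - 1) * c2 x ^ 4 ≤ (rsq x / 2) ^ (θ - 1) * 1 := mul_le_mul_of_nonneg_left h9 h10
              _ = _ := mul_one _
          linarith
        have h11 := mul_le_mul_of_nonneg_right h3 hp
        linarith
    obtain ⟨-, ⟨f1, -, -, f4⟩, -⟩ := hb h x
    have kn := (kx_f hL θ a).2.1 h x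
    unfold a0f
    rw [abs_mul, abs_mul, abs_of_nonneg kn, abs_of_nonneg (sq_nonneg _)]
    have hB0 : 0 ≤ B2 * |h| := by positivity
    have h12 : fh h v x ^ 2 ≤ (B2 * |h|) ^ 2 := by
      rw [← sq_abs]
      exact pow_le_pow_left₀ (abs_nonneg _) f1 2
    have hw0 := hw x
    calc kx θ L a h x * fh h v x ^ 2 * |dif h (uz v) x| ≤ 3 * wr θ L a x * (B2 * |h|) ^ 2 * (B2 * |h|) := by
          gcongr
      _ = 3 * B2 ^ 3 * (|h| ^ 3 * wr θ L a x) := by ring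
      _ ≤ _ := by
          apply mul_le_mul_of_nonneg_right (le_max_right _ _)
          positivity

theorem TwK_ms {F : ℝ → E3 → ℝ} (hF : Measurable (fun q : ℝ × E3 => F q.1 q.2)) (h : ℝ) : Measurable (F h) :=
  hF.comp (measurable_prodMk_left (x := h))

theorem TwK_m1 {θ L : ℝ} (h0 : 0 < θ) (h1 : θ ≤ 1 / 2) (hL : 1 ≤ L) (a : ℝ) {v : E3 → E3} (hv : Vs v) (h : ℝ) :
    AEStronglyMeasurable (a1f θ L a v h) := by
  obtain ⟨-, -, -, hA, hA'⟩ := adm_P h0 h1 hL a hv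
  have h2 : Measurable (off (a1f θ L a v) h) := TwK_ms hA'.meas h
  exact h2.aestronglyMeasurable.congr (TwK_off _ h)

theorem a_der {θ L : ℝ} (h0 : 0 < θ) (h1 : θ ≤ 1 / 2) (hL : 1 ≤ L) (a : ℝ) {v : E3 → E3} (hv : Vs v) {h : ℝ} (hh : |h| < 1) :
    HasDerivAt (fun t => ∫ x, a0f θ L a v t x) (∫ x, a1f θ L a v h x) h := by
  obtain ⟨-, -, -, hA, hA'⟩ := adm_P h0 h1 hL a hv
  obtain ⟨B, hB, hb1, -⟩ := TwK_bd h0 h1 hL a hv
  obtain ⟨hwi, hw⟩ := wr_int (θ := θ) h0 hL a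
  have hs : Ioo (-1 : ℝ) 1 ∈ 𝓝 h := isOpen_Ioo.mem_nhds (abs_lt.1 hh)
  refine (hasDerivAt_integral_of_dominated_loc_of_deriv_le (F := fun t x => a0f θ L a v t x) (F' := fun t x => a1f θ L a v t x)
    (bound := fun x => B * wr θ L a x) hs ?_ ?_ ?_ ?_ (hwi.const_mul B) ?_).2
  · exact Eventually.of_forall fun t => (TwK_ms hA.meas t).aestronglyMeasurable
  · exact (hA.int h0 h1 hL).1 h hh.le
  · exact TwK_m1 h0 h1 hL a hv h
  · filter_upwards [TwK_ae] with x hx t ht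
    have ht1 : |t| ≤ 1 := (abs_lt.2 ht).le
    rw [Real.norm_eq_abs]
    refine (hb1 t ht1 x hx).trans ?_
    have h3 : t ^ 2 ≤ 1 := by
      rw [← sq_abs]
      exact pow_le_one₀ (abs_nonneg _) ht1
    apply mul_le_mul_of_nonneg_left _ hB
    calc t ^ 2 * wr θ L a x ≤ 1 * wr θ L a x := mul_le_mul_of_nonneg_right h3 (hw x)
      _ = _ := one_mul _
  · filter_upwards [TwK_ae] with x hx t ht
    exact TwK_pt hL a hv hx t

theorem a_c {θ L : ℝ} (h0 : 0 < θ) (h1 : θ ≤ 1 / 2) (hL : 1 ≤ L) (a : ℝ) {v : E3 → E3} (hv : Vs v) :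
    ContinuousOn (fun h => ∫ x, a1f θ L a v h x) (Ioo (-1) 1) := by
  obtain ⟨B, hB, hb1, -⟩ := TwK_bd h0 h1 hL a hv
  obtain ⟨hwi, hw⟩ := wr_int (θ := θ) h0 hL a
  refine continuousOn_of_dominated (bound := fun x => B * wr θ L a x) (fun t _ => TwK_m1 h0 h1 hL a hv t) ?_ (hwi.const_mul B) ?_
  · intro t ht
    filter_upwards [TwK_ae] with x hx
    have ht1 : |t| ≤ 1 := (abs_lt.2 ht).le
    rw [Real.norm_eq_abs]
    refine (hb1 t ht1 x hx).trans ?_
    have h3 : t ^ 2 ≤ 1 := by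
      rw [← sq_abs]
      exact pow_le_one₀ (abs_nonneg _) ht1
    apply mul_le_mul_of_nonneg_left _ hB
    calc t ^ 2 * wr θ L a x ≤ 1 * wr θ L a x := mul_le_mul_of_nonneg_right h3 (hw x)
      _ = _ := one_mul _
  · filter_upwards [TwK_ae] with x hx
    exact (TwK_ct hL a hv hx).continuousOn

theorem a_bd {θ L : ℝ} (h0 : 0 < θ) (h1 : θ ≤ 1 / 2) (hL : 1 ≤ L) (a : ℝ) {v : E3 → E3} (hv : Vs v) :
    ∃ B : ℝ, ∀ h, |h| ≤ 1 → |∫ x, a0f θ L a v h x| ≤ B * |h| ^ 3 ∧ |∫ x, a1f θ L a v h x| ≤ B * h ^ 2 := by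
  obtain ⟨B, hB, hb1, hb0⟩ := TwK_bd h0 h1 hL a hv
  obtain ⟨hwi, hw⟩ := wr_int (θ := θ) h0 hL a
  refine ⟨B * ∫ x, wr θ L a x, fun h hh => ⟨?_, ?_⟩⟩
  · have h2 : ‖∫ x, a0f θ L a v h x‖ ≤ ∫ x, B * |h| ^ 3 * wr θ L a x := by
      refine norm_integral_le_of_norm_le (hwi.const_mul _) ?_
      filter_upwards [TwK_ae] with x hx
      rw [Real.norm_eq_abs]
      refine (hb0 h hh x hx).trans (le_of_eq ?_)
      ring
    rw [Real.norm_eq_abs, integral_const_mul] at h2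
    refine h2.trans (le_of_eq ?_)
    ring
  · have h2 : ‖∫ x, a1f θ L a v h x‖ ≤ ∫ x, B * h ^ 2 * wr θ L a x := by
      refine norm_integral_le_of_norm_le (hwi.const_mul _) ?_
      filter_upwards [TwK_ae] with x hx
      rw [Real.norm_eq_abs]
      refine (hb1 h hh x hx).trans (le_of_eq ?_)
      ring
    rw [Real.norm_eq_abs, integral_const_mul] at h2
    refine h2.trans (le_of_eq ?_)
    ring

theorem a_b {θ L : ℝ} (h0 : 0 < θ) (h1 : θ ≤ 1 / 2) (hL : 1 ≤ L) (a : ℝ) {v : E3 → E3} (hv : Vs v) (h : ℝ) :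
    ∫ x, a0f θ L a v h x = - h * ∫ x, b0f θ L a v h x := by
  rw [← integral_const_mul]
  refine integral_congr_ae (Eventually.of_forall fun x => ?_)
  show a0f θ L a v h x = -h * b0f θ L a v h x
  unfold a0f b0f
  rw [uz_sav hv]
  ring

end Pool.Agent.H88.EP
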