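/-
ROW TwL (MP_09540e_EP). Integration by parts in `h` (one variable). Aux lemmas prefixed TwL_. PROOF. Let `k = kh θ`, `k h = θ |h|^(θ-3) zh h²`. For h > 0: `k' h = (θ - 3) k h / h + 2 θ h^(θ-3) zh h zh' h` (rpow derivative), for h < 0 by evenness (k (-h) = k h): the same formula `k' h = (θ - 3) k h / h + 2 θ |h|^(θ-3) zh h zh' h`.
All integrals live on |h| ≤ 1/8 (zh = deriv zh = 0 for h² ≥ 1/128). Bounds: `|k α'| ≤ B k h²`, `|k β| ≤ B k h²` (β h = - α h / h for h ≠ 0, so |β| ≤ B h²; the value at h = 0 is irrelevant, k 0 = 0), `|2 θ |h|^(θ-3) h zh zh' β| ≤ C B` supported in `1/16 ≤ |h| ≤ 1/8`: all integrable (kh_f: k h² integrable).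
Measurability of β: `β h = - α h / h` off 0, α continuous on (-1, 1). On (0, ∞): `F h = k h α h` (for h ≥ 1/8 it vanishes) is differentiable on (0, 1) with `F' = k' α + k α' = - (θ-3) k β - 2 θ h^(θ-3) zh zh' h β + k α'` (α = - h β), zero near and beyond 1/8; `F h → 0` as h → 0+ (`|F| ≤ θ h^(θ-3) B h³ = θ B h^θ`). So
`∫_{(0,∞)} F' = 0` (`integral_Ioi_of_hasDerivAt_of_tendsto`, or on (0, 1) `intervalIntegral` version `integral_eq_of_hasDerivAt_of_tendsto`). The same on (-∞, 0). Sum: `0 = ∫ k α' + (3 - θ) ∫ k β - ∫ 2 θ |h|^(θ-3) h zh zh' β`.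
-/
import Pool.Agent.H88.EP.TwH

/-!
ROW TwL (MP_09540e_EP). Integration by parts in `h` (one variable).
-/

set_option autoImplicit false

open Set Filter Topology MeasureTheory
open scoped ContDiff

namespace Pool.Agent.H88.EP

open Pool.Agent.H16 Pool.Agent.H72.CC Pool.Agent.H87.EP
open Pool.Agent.H87.NS hiding c1
open Pool.Agent.H16.TU hiding Sl
open Pool.Agent.H94.EP

theorem TwL_rpow (p h : ℝ) (hh : h ≠ 0) :
    HasDerivAt (fun x : ℝ => |x| ^ p) (|h| ^ p * (p / h)) h := by
  have h1 : HasDerivAt (fun x : ℝ => Real.exp (Real.log x * p)) (Real.exp (Real.log h * p) *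
      (h⁻¹ * p)) h := ((Real.hasDerivAt_log hh).mul_const p).exp
  have h2 : |h| ^ p * (p / h) = Real.exp (Real.log h * p) * (h⁻¹ * p) := by
    rw [Real.rpow_def_of_pos (abs_pos.2 hh), Real.log_abs]
    ring
  rw [h2]
  refine h1.congr_of_eventuallyEq ?_
  filter_upwards [isOpen_ne.mem_nhds hh] with x hx
  rw [Real.rpow_def_of_pos (abs_pos.2 hx), Real.log_abs]

theorem TwL_kh0 {θ : ℝ} (h1 : θ ≤ 1 / 2) : kh θ 0 = 0 := by
  unfold kh
  rw [abs_zero, Real.zero_rpow (by linarith)]
  ring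

theorem TwL_ind {f : ℝ → ℝ} (hf : ContinuousOn f (Ioo (-1) 1)) :
    Measurable ((Ioo (-1 : ℝ) 1).indicator f) := by
  refine measurable_of_restrict_of_restrict_compl (measurableSet_Ioo (a := (-1 : ℝ)) (b := 1)) ?_ ?_
  · have : (Ioo (-1 : ℝ) 1).domRestrict ((Ioo (-1 : ℝ) 1).indicator f) =
        (Ioo (-1 : ℝ) 1).domRestrict f := by
      ext x
      exact Set.indicator_of_mem x.2 f
    rw [this]
    exact (continuousOn_iff_continuous_domRestrict.1 hf).measurable
  · have : (Ioo (-1 : ℝ) 1)ᶜ.domRestrict ((Ioo (-1 : ℝ) 1).indicator f) = fun _ => 0 := by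
      ext x
      exact Set.indicator_of_notMem x.2 f
    rw [this]
    exact measurable_const

theorem kh_ibp {θ B : ℝ} (h0 : 0 < θ) (h1 : θ ≤ 1 / 2) {α α' β : ℝ → ℝ} (hd : ∀ h, |h| < 1 → HasDerivAt α (α' h) h)
    (hc : ContinuousOn α' (Ioo (-1) 1)) (ha : ∀ h, |h| ≤ 1 → |α h| ≤ B * |h| ^ 3) (ha' : ∀ h, |h| ≤ 1 → |α' h| ≤ B * h ^ 2)
    (hb : ∀ h, α h = - h * β h) (hβ : ∀ h, |h| ≤ 1 → |β h| ≤ B * h ^ 2) :
    Integrable (fun h => kh θ h * α' h) ∧ Integrable (fun h => kh θ h * β h) ∧
    Integrable (fun h => θ * |h| ^ (θ - 3) * (h * zh h * deriv zh h) * β h) ∧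
    ∫ h, kh θ h * α' h = - (3 - θ) * (∫ h, kh θ h * β h) + 2 * ∫ h, θ * |h| ^ (θ - 3) * (h * zh h * deriv zh h) * β h := by
  obtain ⟨hzs, hz1, hz2, hz3, C, hC1, hzC⟩ := zh_f
  obtain ⟨hk1, hk2, hk3, hk4, hk5, hk6, hk7, hk8⟩ := kh_f h0 h1
  have hB : 0 ≤ B := by
    have := ha 1 (by simp)
    simp only [abs_one, one_pow, mul_one] at this
    exact (abs_nonneg _).trans this
  have hout : ∀ h : ℝ, h ∉ Ioo (-1 : ℝ) 1 → 1 / 128 ≤ h ^ 2 := by
    intro h hh
    have h2 : 1 ≤ |h| := by
      by_contra hcon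
      push Not at hcon
      exact hh (abs_lt.1 hcon)
    have h3 : 1 ≤ |h| ^ 2 := one_le_pow₀ h2
    rw [sq_abs] at h3
    linarith
  have hαc : ContinuousOn α (Ioo (-1) 1) := fun h hh =>
    (hd h (abs_lt.2 hh)).continuousAt.continuousWithinAt
  obtain ⟨βt, hβt⟩ : ∃ βt : ℝ → ℝ, βt = fun h => -((Ioo (-1 : ℝ) 1).indicator α h / h) := ⟨_, rfl⟩
  have hβm : Measurable βt := by
    rw [hβt]
    exact ((TwL_ind hαc).div measurable_id).neg
  have hβe : ∀ h, h ∈ Ioo (-1 : ℝ) 1 → h ≠ 0 → βt h = β h := by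
    intro h hh hh0
    rw [hβt]
    simp only
    rw [indicator_of_mem hh, hb h]
    field_simp
  have hβo : ∀ h, h ∉ Ioo (-1 : ℝ) 1 → βt h = 0 := by
    intro h hh
    rw [hβt]
    simp only
    rw [indicator_of_notMem hh]
    simp
  have hβ0 : βt 0 = 0 := by rw [hβt]; simp
  have hβb : ∀ h, |h| ≤ 1 → |βt h| ≤ B * h ^ 2 := by
    intro h hh
    by_cases hm : h ∈ Ioo (-1 : ℝ) 1
    · by_cases hh0 : h = 0
      · rw [hh0, hβ0]; simp
      · rw [hβe h hm hh0]; exact hβ h hh
    · rw [hβo h hm, abs_zero]; positivity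
  have ek : ∀ h, kh θ h * β h = kh θ h * βt h := by
    intro h
    by_cases hm : h ∈ Ioo (-1 : ℝ) 1
    · by_cases hh0 : h = 0
      · rw [hh0, TwL_kh0 h1, zero_mul, zero_mul]
      · rw [hβe h hm hh0]
    · rw [hk2 h (hout h hm), zero_mul, zero_mul]
  have hI2 : Integrable (fun h => kh θ h * β h) := by
    have := (kh_int h0 h1 hβm.aestronglyMeasurable hβb).1
    refine this.congr (Eventually.of_forall fun h => (ek h).symm)
  have hI1 : Integrable (fun h => kh θ h * α' h) := by
    have := (kh_int (f := (Ioo (-1 : ℝ) 1).indicator α') h0 h1 (TwL_ind hc).aestronglyMeasurable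
      (B := B) ?_).1
    · refine this.congr (Eventually.of_forall fun h => ?_)
      by_cases hm : h ∈ Ioo (-1 : ℝ) 1
      · simp only [indicator_of_mem hm]
      · simp only [indicator_of_notMem hm, hk2 h (hout h hm), zero_mul, mul_zero]
    · intro h hh
      by_cases hm : h ∈ Ioo (-1 : ℝ) 1
      · rw [indicator_of_mem hm]; exact ha' h hh
      · rw [indicator_of_notMem hm, abs_zero]; positivity
  have eE : ∀ h, θ * |h| ^ (θ - 3) * (h * zh h * deriv zh h) * β h =
      θ * |h| ^ (θ - 3) * (h * zh h * deriv zh h) * βt h := by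
    intro h
    by_cases hm : h ∈ Ioo (-1 : ℝ) 1
    · by_cases hh0 : h = 0
      · rw [hh0]; ring
      · rw [hβe h hm hh0]
    · rw [(hz3 h (hout h hm)).1]; ring
  have hI3 : Integrable (fun h => θ * |h| ^ (θ - 3) * (h * zh h * deriv zh h) * β h) := by
    have hm1 : Measurable (fun h : ℝ => θ * |h| ^ (θ - 3) * (h * zh h * deriv zh h) * βt h) := by
      have hz : Measurable zh := hzs.continuous.measurable
      have hz' : Measurable (deriv zh) := (hzs.continuous_deriv (by simp)).measurable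
      exact ((measurable_const.mul ((continuous_abs.measurable).pow_const _)).mul
        ((measurable_id.mul hz).mul hz')).mul hβm
    refine Integrable.congr (f := fun h => θ * |h| ^ (θ - 3) * (h * zh h * deriv zh h) * βt h) ?_
      (Eventually.of_forall fun h => (eE h).symm)
    refine IntegrableOn.integrable_of_forall_notMem_eq_zero (s := Ioo (-1 : ℝ) 1) ?_ ?_
    · refine Measure.integrableOn_of_bounded (M := θ * (1 / 16) ^ (θ - 3) * C * B) (by simp)
        hm1.aestronglyMeasurable ?_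
      refine (ae_restrict_iff' measurableSet_Ioo).2 (Eventually.of_forall fun h hm => ?_)
      have hh1 : |h| < 1 := abs_lt.2 hm
      rw [Real.norm_eq_abs]
      by_cases hs : |h| < 1 / 16
      · rw [(hz2 h hs.le).2 hs]
        simp only [mul_zero, zero_mul, abs_zero]
        have : 0 ≤ C := by linarith
        positivity
      · push Not at hs
        rw [abs_mul, abs_mul, abs_mul, abs_mul, abs_mul, abs_of_pos h0, abs_of_nonneg (Real.rpow_nonneg (abs_nonneg h) _),
          abs_of_nonneg (hz1 h).1]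
        have e1 : |h| ^ (θ - 3) ≤ (1 / 16 : ℝ) ^ (θ - 3) :=
          Real.rpow_le_rpow_of_nonpos (by norm_num) hs (by linarith)
        have e2 : |h| * zh h * |deriv zh h| ≤ 1 * 1 * C :=
          mul_le_mul (mul_le_mul hh1.le (hz1 h).2.1 (hz1 h).1 (by norm_num)) (hzC h) (abs_nonneg _)
            (by norm_num)
        have e3 : |βt h| ≤ B := by
          refine (hβb h hh1.le).trans ?_
          have : h ^ 2 ≤ 1 := by rw [← sq_abs]; exact pow_le_one₀ (abs_nonneg h) hh1.le
          nlinarith only [h0, h1, hB, this]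
        have e4 : 0 ≤ |h| * zh h * |deriv zh h| :=
          mul_nonneg (mul_nonneg (abs_nonneg _) (hz1 h).1) (abs_nonneg _)
        have e5 : 0 ≤ |h| ^ (θ - 3) := Real.rpow_nonneg (abs_nonneg h) _
        have hC0 : 0 ≤ C := by linarith
        calc θ * |h| ^ (θ - 3) * (|h| * zh h * |deriv zh h|) * |βt h|
            ≤ θ * (1 / 16 : ℝ) ^ (θ - 3) * (1 * 1 * C) * B := by gcongr
          _ = _ := by ring
    · intro h hm
      rw [(hz3 h (hout h hm)).1]; ring
  refine ⟨hI1, hI2, hI3, ?_⟩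
  obtain ⟨F, hF⟩ : ∃ F : ℝ → ℝ, F = fun h => kh θ h * α h := ⟨_, rfl⟩
  obtain ⟨G, hG⟩ : ∃ G : ℝ → ℝ, G = fun h => kh θ h * α' h - (θ - 3) * (kh θ h * β h) -
      2 * (θ * |h| ^ (θ - 3) * (h * zh h * deriv zh h) * β h) := ⟨_, rfl⟩
  have hGi : Integrable G := by
    rw [hG]; exact (hI1.sub (hI2.const_mul _)).sub (hI3.const_mul _)
  have hFd : ∀ h, h ≠ 0 → HasDerivAt F (G h) h := by
    intro h hh0
    by_cases hm : |h| < 1
    · have d1 : HasDerivAt (fun x : ℝ => |x| ^ (θ - 3)) (|h| ^ (θ - 3) * ((θ - 3) / h)) h :=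
        TwL_rpow _ _ hh0
      have d2 : HasDerivAt zh (deriv zh h) h :=
        (hzs.differentiable (by simp)).differentiableAt.hasDerivAt
      have d3 : HasDerivAt (kh θ) (θ * (|h| ^ (θ - 3) * ((θ - 3) / h)) * zh h ^ 2 +
          θ * |h| ^ (θ - 3) * (2 * zh h * deriv zh h)) h := by
        have h3 := (d1.const_mul θ).mul (d2.mul d2)
        have h4 : kh θ = (fun x : ℝ => θ * |x| ^ (θ - 3)) * (zh * zh) := by
          funext x
          simp only [kh, Pi.mul_apply]
          ring
        rw [h4]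
        refine h3.congr_deriv ?_
        simp only [Pi.mul_apply]
        ring
      have d4 := d3.mul (hd h hm)
      rw [hF]
      refine d4.congr_deriv ?_
      rw [hG]
      simp only
      rw [hb h]
      unfold kh
      field_simp
      ring
    · have h2 : 1 / 128 < h ^ 2 := by
        push Not at hm
        have h3 : 1 ≤ |h| ^ 2 := one_le_pow₀ hm
        rw [sq_abs] at h3
        linarith
      have ev : F =ᶠ[𝓝 h] fun _ => 0 := by
        filter_upwards [(isOpen_lt continuous_const (continuous_pow 2)).mem_nhds h2] with x hx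
        rw [hF]
        simp only
        rw [hk2 x (le_of_lt hx), zero_mul]
      have h5 : G h = 0 := by
        rw [hG]
        simp only
        rw [hk2 h h2.le, (hz3 h h2.le).1]
        ring
      rw [h5]
      exact (hasDerivAt_const h 0).congr_of_eventuallyEq ev
  have hF0 : F 0 = 0 := by
    rw [hF]
    simp only
    rw [TwL_kh0 h1, zero_mul]
  have hFc : ContinuousAt F 0 := by
    rw [ContinuousAt, hF0]
    refine squeeze_zero_norm' (a := fun h => θ * B * |h| ^ θ) ?_ ?_
    · filter_upwards [Metric.ball_mem_nhds (0 : ℝ) one_pos] with h hh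
      have hh1 : |h| < 1 := by
        rw [Metric.mem_ball, Real.dist_eq, sub_zero] at hh
        exact hh
      rw [hF, Real.norm_eq_abs]
      simp only
      rw [abs_mul, abs_of_nonneg (hk1 h).1]
      by_cases hh0 : h = 0
      · rw [hh0, TwL_kh0 h1, zero_mul]
        positivity
      · calc kh θ h * |α h| ≤ (θ * |h| ^ (θ - 3)) * (B * |h| ^ 3) :=
              mul_le_mul (hk4 h) (ha h hh1.le) (abs_nonneg _) (by positivity)
          _ = θ * B * |h| ^ θ := by
            have h6 : |h| ^ θ = |h| ^ (θ - 3) * |h| ^ 3 := by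
              rw [← Real.rpow_natCast |h| 3, ← Real.rpow_add (abs_pos.2 hh0)]
              congr 1
              push_cast
              ring
            rw [h6]
            ring
    · have h7 : Tendsto (fun h : ℝ => θ * B * |h| ^ θ) (𝓝 0) (𝓝 (θ * B * |(0 : ℝ)| ^ θ)) := by
        refine Tendsto.const_mul _ ?_
        exact (Real.continuousAt_rpow_const _ _ (Or.inr h0.le)).tendsto.comp
          (continuous_abs.tendsto 0)
      rwa [abs_zero, Real.zero_rpow h0.ne', mul_zero] at h7
  have hFt : Tendsto F atTop (𝓝 0) := by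
    refine tendsto_const_nhds.congr' ?_
    filter_upwards [eventually_ge_atTop 1] with h hh
    rw [hF]
    simp only
    rw [hk2 h (by nlinarith), zero_mul]
  have hFb : Tendsto F atBot (𝓝 0) := by
    refine tendsto_const_nhds.congr' ?_
    filter_upwards [eventually_le_atBot (-1)] with h hh
    rw [hF]
    simp only
    rw [hk2 h (by nlinarith), zero_mul]
  have i1 : ∫ x in Ioi 0, G x = 0 - F 0 :=
    integral_Ioi_of_hasDerivAt_of_tendsto hFc.continuousWithinAt
      (fun x hx => hFd x (ne_of_gt hx)) hGi.integrableOn hFt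
  have i2 : ∫ x in Iic 0, G x = F 0 - 0 :=
    integral_Iic_of_hasDerivAt_of_tendsto hFc.continuousWithinAt
      (fun x hx => hFd x (ne_of_lt hx)) hGi.integrableOn hFb
  have i3 : ∫ x, G x = 0 := by
    rw [← intervalIntegral.integral_Iic_add_Ioi hGi.integrableOn hGi.integrableOn, i1, i2]
    ring
  have i4 : ∫ x, G x = (∫ h, kh θ h * α' h) - (θ - 3) * (∫ h, kh θ h * β h) -
      2 * ∫ h, θ * |h| ^ (θ - 3) * (h * zh h * deriv zh h) * β h := by
    rw [hG]
    have e1 : ∫ h, (kh θ h * α' h - (θ - 3) * (kh θ h * β h) -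
        2 * (θ * |h| ^ (θ - 3) * (h * zh h * deriv zh h) * β h)) =
        (∫ h, (kh θ h * α' h - (θ - 3) * (kh θ h * β h))) -
        ∫ h, 2 * (θ * |h| ^ (θ - 3) * (h * zh h * deriv zh h) * β h) :=
      integral_sub (hI1.sub (hI2.const_mul _)) (hI3.const_mul _)
    have e2 : ∫ h, (kh θ h * α' h - (θ - 3) * (kh θ h * β h)) =
        (∫ h, kh θ h * α' h) - ∫ h, (θ - 3) * (kh θ h * β h) :=
      integral_sub hI1 (hI2.const_mul _)
    rw [e1, e2, integral_const_mul, integral_const_mul]
  linarith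

end Pool.Agent.H88.EP
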