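/-
ROW TwM (MP_09540e_EP). The formula for the rate. Aux lemmas prefixed TwM_. PROOF. `RB / 2 = ∫ kh θ h * ((1/2) ∫ x, evJ ..)` (def of RB; kh θ h = 0 for |h| > 1, so id_h applies wherever kh ≠ 0) `= ∫ kh θ h * (∫ P0 - (1/2) ∫ a1f) = Th θ P0 - (1/2) ∫ kh * ∫ a1f` (integrability: adm_P, off_int, Adm.int).
kh_ibp (TwL) with `α h = ∫ a0f h`, `α' h = ∫ a1f h`, `β h = ∫ b0f h` (a_der, a_c, a_bd, a_b of TwK; bound of β: Adm.int for b0f): `∫ kh α' = - (3 - θ) ∫ kh β + 2 XX`. So `RB / 2 = Th θ P0 + ((3 - θ)/2) Th θ b0f - XX = Th θ P1 - XX` (Th_lin with off: P1 = P0 + (3-θ)/2 b0f; Th_off).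
P1_eq (pointwise, 0 < rsq x): substitute `rdr K = 2 θ K + kc` (kx_rdr) in `(1/2) f² rdr K mid W` only: `(1/2) f² (2 θ K + kc) Wb - 3 K f² Wb + (3-θ)/2 K f² (2 sav W + sav R) - (1/2) K f² mid R = - (3 - θ) K f² (Wb - sav W) + (1/2) kc f² Wb + (1/2) K f² ((3-θ) sav R - mid R)`: ring.
-/
import Pool.Agent.H88.EP.TwJ
import Pool.Agent.H88.EP.TwK
import Pool.Agent.H88.EP.TwL

set_option autoImplicit false

open Set Filter Topology MeasureTheory
open scoped ContDiff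

namespace Pool.Agent.H88.EP

open Pool.Agent.H16 Pool.Agent.H72.CC Pool.Agent.H87.EP
open Pool.Agent.H87.NS hiding c1
open Pool.Agent.H16.TU hiding Sl
open Pool.Agent.H94.EP

theorem RB_eq {θ L : ℝ} (h0 : 0 < θ) (h1 : θ ≤ 1 / 2) (hL : 1 ≤ L) (a : ℝ) {v : E3 → E3} (hv : Vs v) :
    RB θ L a v / 2 = Th θ (P1 θ L a v) - XX θ L a v := by
  obtain ⟨hP0, -, hb0, -, ha1⟩ := adm_P h0 h1 hL a hv
  obtain ⟨iP0, -, kP0⟩ := hP0.int h0 h1 hL
  obtain ⟨ib0, ⟨B0, hB0⟩, kb0⟩ := hb0.int h0 h1 hL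
  obtain ⟨ia1, -, ka1⟩ := ha1.int h0 h1 hL
  have eP0 : ∀ h, ∫ x, off (P0 θ L a v) h x = ∫ x, P0 θ L a v h x := fun h => (off_int _ h).1
  have ea1 : ∀ h, ∫ x, off (a1f θ L a v) h x = ∫ x, a1f θ L a v h x := fun h => (off_int _ h).1
  simp only [eP0] at kP0
  simp only [ea1] at ka1
  have iP0' : ∀ h, |h| ≤ 1 → Integrable (P0 θ L a v h) := fun h hh =>
    (off_int (P0 θ L a v) h).2.1 (iP0 h hh)
  have hkh := (kh_f h0 h1).2.2.1
  obtain ⟨B, hB⟩ := a_bd h0 h1 hL a hv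
  have hibp := kh_ibp (θ := θ) (B := max B B0) h0 h1 (α := fun h => ∫ x, a0f θ L a v h x)
    (α' := fun h => ∫ x, a1f θ L a v h x) (β := fun h => ∫ x, b0f θ L a v h x)
    (fun h hh => a_der h0 h1 hL a hv hh) (a_c h0 h1 hL a hv)
    (fun h hh => ((hB h hh).1).trans (mul_le_mul_of_nonneg_right (le_max_left _ _) (by positivity)))
    (fun h hh => ((hB h hh).2).trans (mul_le_mul_of_nonneg_right (le_max_left _ _) (by positivity)))
    (fun h => a_b h0 h1 hL a hv h)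
    (fun h hh => (hB0 h hh).trans (mul_le_mul_of_nonneg_right (le_max_right _ _) (by positivity)))
  obtain ⟨-, -, -, hI⟩ := hibp
  have e1 : RB θ L a v / 2 = ∫ h, (kh θ h * (∫ x, P0 θ L a v h x) - 1 / 2 * (kh θ h * ∫ x, a1f θ L a v h x)) := by
    unfold RB
    rw [div_eq_inv_mul, ← integral_const_mul]
    refine integral_congr_ae (Filter.Eventually.of_forall fun h => ?_)
    show 2⁻¹ * (kh θ h * ∫ x, evJ sqf v (fh h v) (Gh h v) (kx θ L a h) x) =
      kh θ h * (∫ x, P0 θ L a v h x) - 1 / 2 * (kh θ h * ∫ x, a1f θ L a v h x)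
    rcases le_or_gt |h| 1 with hh | hh
    · have := id_h h0 h1 hL a hv hh
      linear_combination kh θ h * this
    · rw [hkh h hh]
      ring
  have e2 : Th θ (P1 θ L a v) = ∫ h, (kh θ h * (∫ x, P0 θ L a v h x) +
      (3 - θ) / 2 * (kh θ h * ∫ x, b0f θ L a v h x)) := by
    unfold Th
    refine integral_congr_ae (Filter.Eventually.of_forall fun h => ?_)
    show kh θ h * (∫ x, P1 θ L a v h x) = kh θ h * (∫ x, P0 θ L a v h x) +
      (3 - θ) / 2 * (kh θ h * ∫ x, b0f θ L a v h x)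
    rcases le_or_gt |h| 1 with hh | hh
    · have h3 : ∫ x, P1 θ L a v h x = (∫ x, P0 θ L a v h x) + (3 - θ) / 2 * ∫ x, b0f θ L a v h x := by
        unfold P1
        rw [integral_add (iP0' h hh) ((ib0 h hh).const_mul _), integral_const_mul]
      rw [h3]
      ring
    · rw [hkh h hh]
      ring
  rw [e1, e2, integral_sub kP0 (ka1.const_mul _), integral_add kP0 (kb0.const_mul _), integral_const_mul,
    integral_const_mul]
  rw [hI]
  unfold XX
  ring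

theorem P1_eq (θ L a : ℝ) (v : E3 → E3) (h : ℝ) {x : E3} (hx : 0 < rsq x) :
    P1 θ L a v h x = - G1 θ L a v h x + 1 / 2 * fh h v x ^ 2 * (lap (kx θ L a h) x - 2 / rsq x * rdr (kx θ L a h) x)
      - (3 - θ) * kx θ L a h x * fh h v x ^ 2 * (mid h (sW v) x - sav h (sW v) x) + 1 / 2 * kc θ L a h x * fh h v x ^ 2 * mid h (sW v) x
      + 1 / 2 * pd 2 (kx θ L a h) x * fh h v x ^ 2 * mid h (uz v) x
      + 1 / 2 * kx θ L a h x * fh h v x ^ 2 * ((3 - θ) * sav h (Rw v) x - mid h (Rw v) x)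
      + mid h (sV v) x * ((2 * θ * kx θ L a h x + kc θ L a h x) * fh h v x * dif h (sW v) x + kx θ L a h x * rdr (fh h v) x * dif h (sW v) x
        + kx θ L a h x * fh h v x * dif h (Rw v) x) := by
  have hk := kx_rdr θ L a h hx
  unfold P1 P0 b0f G1
  linear_combination (1 / 2 * fh h v x ^ 2 * mid h (sW v) x +
    mid h (sV v) x * (fh h v x * dif h (sW v) x)) * hk

end Pool.Agent.H88.EP
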